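import Mathlib

/-!
# Globally rigid pinning: combinatorial definitions

A graph is a ground set `W` with a finite set `E` of two element sets. `(2,3)`-sparse edge sets are the
independent sets of the generic rigidity matroid of the plane.
-/

set_option autoImplicit false
set_option linter.unusedSectionVars false

namespace Pool.Agent.Lib.MP_5d015b_lc

variable {V : Type*} [DecidableEq V]

/-- the edges inside `X` -/
def ins (F : Finset (Finset V)) (X : Finset V) : Finset (Finset V) := F.filter fun e => e ⊆ X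

/-- `(2,3)`-sparse sets of edges -/
def Sparse (F : Finset (Finset V)) : Prop :=
  (∀ e ∈ F, e.card = 2) ∧ ∀ X : Finset V, 2 ≤ X.card → (ins F X).card + 3 ≤ 2 * X.card

/-- tight sets of vertices -/
def Tight (F : Finset (Finset V)) (X : Finset V) : Prop :=
  2 ≤ X.card ∧ (ins F X).card + 3 = 2 * X.card

/-- maximal sparse subsets -/
def MaxSp (E B : Finset (Finset V)) : Prop :=
  B ⊆ E ∧ Sparse B ∧ ∀ e ∈ E, e ∉ B → ¬ Sparse (insert e B)

/-- the neighbours of `Y` outside `Y` -/
def nb (E : Finset (Finset V)) (Y : Finset V) : Finset V :=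
  ((E.filter fun e => (e ∩ Y).Nonempty).biUnion id) \ Y

/-- simple graphs -/
structure IsGraph (W : Finset V) (E : Finset (Finset V)) : Prop where
  card_two : ∀ e ∈ E, e.card = 2
  sub : ∀ e ∈ E, e ⊆ W

/-- the complete graph on `P` -/
def clique (P : Finset V) : Finset (Finset V) := P.powersetCard 2

/-- three-connected graphs -/
def Conn3 (W : Finset V) (E : Finset (Finset V)) : Prop :=
  4 ≤ W.card ∧ ∀ Y ⊆ W, Y.Nonempty → Y ∪ nb E Y ≠ W → 3 ≤ (nb E Y).card

/-- rigid graphs (Laman's condition) -/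
def Rigid (W : Finset V) (E : Finset (Finset V)) : Prop :=
  ∃ D ⊆ E, Sparse D ∧ D.card + 3 = 2 * W.card

/-- redundantly rigid graphs -/
def RedRigid (W : Finset V) (E : Finset (Finset V)) : Prop := ∀ e ∈ E, Rigid W (E.erase e)

/-- globally rigid graphs of the plane -/
def GR (W : Finset V) (E : Finset (Finset V)) : Prop :=
  (W.card ≤ 3 ∧ clique W ⊆ E) ∨ (Conn3 W E ∧ RedRigid W E)

/-- the bodies (components of the rigidity matroid) with respect to the base `B` -/
structure Bodies (E B XX : Finset (Finset V)) : Prop where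
  tight : ∀ X ∈ XX, Tight B X
  inter : ∀ X ∈ XX, ∀ Z ∈ XX, X ≠ Z → (X ∩ Z).card ≤ 1
  cover : ∀ e ∈ E, ∃ X ∈ XX, e ⊆ X
  red : ∀ X ∈ XX, X.card = 2 ∨
    ∀ b ∈ B, b ⊆ X → ∃ f ∈ E, f ∉ B ∧ f ⊆ X ∧ Sparse (insert f (B.erase b))

/-- the rank of the bodies which meet `Y` -/
def sc (XX : Finset (Finset V)) (Y : Finset V) : ℕ :=
  ∑ X ∈ XX.filter (fun X => (X ∩ Y).Nonempty), (2 * X.card - 3)

/-- condition (1) -/
def G1 (XX : Finset (Finset V)) (U : Finset V) : Prop :=
  ∀ A ⊆ U, A.Nonempty → 2 * A.card + 1 ≤ sc XX A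

/-- condition (2) -/
def G2 (E : Finset (Finset V)) (U : Finset V) : Prop :=
  ∀ A ⊆ U, A.Nonempty → 3 ≤ (nb E A).card

/-- feasible sets of pins -/
def Feas (W : Finset V) (E XX : Finset (Finset V)) (P : Finset V) : Prop :=
  G1 XX (W \ P) ∧ G2 E (W \ P)

/-- dangerous sets -/
def Dang (W : Finset V) (E XX : Finset (Finset V)) (P0 Y : Finset V) : Prop :=
  Y ⊆ W \ P0 ∧ Y.Nonempty ∧ (nb E Y).card ≤ 2 ∧ G1 XX Y

/-- the hypotheses of the exchange lemma -/
structure Ex (W : Finset V) (E B XX : Finset (Finset V)) (P Y : Finset V) (a b y : V) : Prop where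
  hG : IsGraph W E
  hB : MaxSp E B
  hX : Bodies E B XX
  hPW : P ⊆ W
  hF : Feas W E XX P
  hYW : Y ⊆ W
  hy : y ∈ Y
  hn : nb E Y = {a, b}
  hab : a ≠ b
  g1 : G1 XX Y
  hmin : ∀ A ⊆ Y, A.Nonempty → A ≠ Y → 3 ≤ (nb E A).card

open Classical in
/-- the vertices of the fundamental circuit of `e` -/
noncomputable def tset (B : Finset (Finset V)) (e : Finset V) : Finset V :=
  (B.filter fun f => Sparse (insert e (B.erase f))).biUnion id

/-- one step of the construction of a body -/
noncomputable def mstep (E B : Finset (Finset V)) (X : Finset V) : Finset V :=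
  X ∪ ((E \ B).filter fun e => 2 ≤ (tset B e ∩ X).card).biUnion (tset B)

/-- the body of the edge `b` -/
noncomputable def body (E B : Finset (Finset V)) (n : ℕ) (b : Finset V) : Finset V :=
  (mstep E B)^[n] b

/-- one step of the construction of a component of the graph without `C` -/
def cstep (E : Finset (Finset V)) (C X : Finset V) : Finset V := X ∪ (nb E X \ C)

/-- the component of `x` in the graph without `C` -/
def comp (E : Finset (Finset V)) (C : Finset V) (n : ℕ) (x : V) : Finset V := (cstep E C)^[n] {x}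

end Pool.Agent.Lib.MP_5d015b_lc
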