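import Pool.Agent.Lib.Parity.AlgDefs
import Pool.Agent.Lib.MP_5d015b_lc.Defs

/-!
# Globally rigid pinning: the algorithm on lists

The vertices are the numbers below `n`, an edge is a pair `(u, v)` with `u < v`.
-/

set_option autoImplicit false
set_option linter.unusedSectionVars false

namespace Pool.Agent.Lib.MP_5d015b_lc

open Pool.Agent.Lib.Parity

/-- the edge set of a list of pairs -/
def toE (F : List (ℕ × ℕ)) : Finset (Finset ℕ) := (F.map fun e => ({e.1, e.2} : Finset ℕ)).toFinset

/-- normalised lists of edges -/
def Good (n : ℕ) (F : List (ℕ × ℕ)) : Prop := F.Nodup ∧ ∀ e ∈ F, e.1 < e.2 ∧ e.2 < n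

/-- normalisation of a list of pairs -/
def edgesL (n : ℕ) (el : List (ℕ × ℕ)) : List (ℕ × ℕ) :=
  (List.range n).flatMap fun u => ((List.range n).filter fun v =>
    decide (u < v) && (el.contains (u, v) || el.contains (v, u))).map fun v => (u, v)

/-- every hyperedge gets a partner with two private vertices -/
def privL (Hs : List (List ℕ)) : List (List ℕ × List ℕ) :=
  Hs.zipIdx.map fun q => (q.1, [Hs.flatten.sum + 1 + 2 * q.2, Hs.flatten.sum + 2 + 2 * q.2])

/-- independence in the hypergraphic matroid -/
def hindL (Hs : List (List ℕ)) : Bool := decide (nuAlg (privL Hs) = Hs.length)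

/-- two copies of the ends of an edge -/
def h4 (e : ℕ × ℕ) : List ℕ := [2 * e.1, 2 * e.1 + 1, 2 * e.2, 2 * e.2 + 1]

/-- `(2,3)`-sparsity -/
def sparseL (F : List (ℕ × ℕ)) : Bool := F.all fun e => hindL (F.map h4 ++ [h4 e, h4 e])

/-- a maximal sparse subset -/
def baseL (F : List (ℕ × ℕ)) : List (ℕ × ℕ) :=
  F.foldl (fun D e => if sparseL (e :: D) = true then e :: D else D) []

/-- the vertices of the fundamental circuit of `e` -/
def tsetL (n : ℕ) (D : List (ℕ × ℕ)) (e : ℕ × ℕ) : List ℕ :=
  (List.range n).filter fun v => D.any fun f => (decide (v = f.1) || decide (v = f.2)) &&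
    sparseL (e :: D.filter fun g => decide (g ≠ f))

/-- one step of the construction of a body -/
def mstepL (n : ℕ) (E D : List (ℕ × ℕ)) (X : List ℕ) : List ℕ :=
  (List.range n).filter fun v => X.contains v || E.any fun e => !(D.contains e) &&
    (decide (2 ≤ ((tsetL n D e).filter fun u => X.contains u).length) &&
      (tsetL n D e).contains v)

/-- the body of the edge `b` -/
def bodyL (n : ℕ) (E D : List (ℕ × ℕ)) (b : ℕ × ℕ) : List ℕ := (mstepL n E D)^[n] [b.1, b.2]

/-- the hyperedge of the vertex `v`: the edges of the base whose body contains `v` -/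
def SL (n : ℕ) (E D : List (ℕ × ℕ)) (v : ℕ) : List ℕ :=
  (List.range D.length).filter fun i => (bodyL n E D (D.getD i (0, 0))).contains v

/-- the maximum size of a subset of `W` with property (1) -/
def maxUL (n : ℕ) (E D : List (ℕ × ℕ)) (W : List ℕ) : ℕ :=
  nuAlg (W.map fun v => (SL n E D v, SL n E D v))

/-- the neighbours -/
def nbL (n : ℕ) (E : List (ℕ × ℕ)) (Y : List ℕ) : List ℕ :=
  (List.range n).filter fun v => !(Y.contains v) &&
    Y.any fun u => E.contains (u, v) || E.contains (v, u)

/-- one step of the construction of a component -/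
def cstepL (n : ℕ) (E : List (ℕ × ℕ)) (C X : List ℕ) : List ℕ :=
  (List.range n).filter fun v => X.contains v || ((nbL n E X).contains v && !(C.contains v))

/-- the component of `x` without `C` -/
def compL (n : ℕ) (E : List (ℕ × ℕ)) (C : List ℕ) (x : ℕ) : List ℕ := (cstepL n E C)^[n] [x]

/-- dangerous sets -/
def dangL (n : ℕ) (E D : List (ℕ × ℕ)) (P0 Y : List ℕ) : Bool :=
  (Y.all fun v => !(P0.contains v)) && (decide ((nbL n E Y).length ≤ 2) &&
    decide (maxUL n E D Y = Y.length))

/-- the dangerous components -/
def candL (n : ℕ) (E D : List (ℕ × ℕ)) (P0 : List ℕ) : List (List ℕ) :=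
  ((List.range n).flatMap fun a => (List.range n).flatMap fun b =>
    ((List.range n).filter fun x => decide (x ≠ a) && decide (x ≠ b)).map fun x =>
      compL n E [a, b] x).filter fun Y => dangL n E D P0 Y

/-- a smallest member of a list of lists -/
def pickL (c : List (List ℕ)) : Option (List ℕ) :=
  (c.filter fun Y => c.all fun Z => decide (Y.length ≤ Z.length)).head?

/-- one step of the greedy algorithm -/
def grdL (n : ℕ) (E D : List (ℕ × ℕ)) (P0 : List ℕ) : List ℕ :=
  match pickL (candL n E D P0) with
  | none => P0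
  | some Y => cell Y 0 :: P0

/-- the forced pins -/
def forcedL (n : ℕ) (E D : List (ℕ × ℕ)) : List ℕ := (grdL n E D)^[n] []

/-- the minimum number of pins, if at least four are allowed -/
def largeL (n : ℕ) (E D : List (ℕ × ℕ)) : ℕ :=
  n - maxUL n E D ((List.range n).filter fun v => !((forcedL n E D).contains v))

/-- three-connectivity -/
def conn3L (n : ℕ) (E : List (ℕ × ℕ)) : Bool :=
  decide (4 ≤ n) && (List.range n).all fun a => (List.range n).all fun b =>
    (List.range n).all fun x => (decide (x = a) || decide (x = b)) ||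
      (List.range n).all fun v => (decide (v = a) || decide (v = b)) ||
        (compL n E [a, b] x).contains v

/-- redundant rigidity -/
def redL (n : ℕ) (E : List (ℕ × ℕ)) : Bool :=
  E.all fun e => decide ((baseL (E.filter fun g => decide (g ≠ e))).length + 3 = 2 * n)

/-- global rigidity -/
def grL (n : ℕ) (E : List (ℕ × ℕ)) : Bool :=
  (decide (n ≤ 3) && (List.range n).all fun u => (List.range n).all fun v =>
    decide (v ≤ u) || E.contains (u, v)) || (conn3L n E && redL n E)

/-- some pair can be pinned -/
def pin2 (n : ℕ) (el : List (ℕ × ℕ)) : Bool :=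
  (List.range n).any fun u => (List.range n).any fun v =>
    decide (u < v) && grL n (edgesL n ((u, v) :: el))

/-- some triple can be pinned -/
def pin3 (n : ℕ) (el : List (ℕ × ℕ)) : Bool :=
  (List.range n).any fun u => (List.range n).any fun v => (List.range n).any fun w =>
    decide (u < v) && (decide (v < w) && grL n (edgesL n ((u, v) :: (u, w) :: (v, w) :: el)))

/-- the minimum number of pins -/
def minPin (G : ℕ × List (ℕ × ℕ)) : ℕ :=
  if grL G.1 (edgesL G.1 G.2) = true then 0
  else if pin2 G.1 G.2 = true then 2
  else if pin3 G.1 G.2 = true then 3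
  else max 4 (largeL G.1 (edgesL G.1 G.2) (baseL (edgesL G.1 G.2)))

end Pool.Agent.Lib.MP_5d015b_lc
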