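import Pool.Agent.Lib.MP_5d015b_lc.AlgDefs

/-!
# Globally rigid pinning: lists of edges (module LB)
-/

set_option autoImplicit false
set_option linter.unusedSectionVars false

namespace Pool.Agent.Lib.MP_5d015b_lc

theorem mem_edgesL (n : ℕ) (el : List (ℕ × ℕ)) (e : ℕ × ℕ) :
    e ∈ edgesL n el ↔ e.1 < n ∧ e.2 < n ∧ e.1 < e.2 ∧ (e ∈ el ∨ (e.2, e.1) ∈ el) := by
  obtain ⟨u, v⟩ := e
  simp only [edgesL, List.mem_flatMap, List.mem_range, List.mem_map, List.mem_filter,
    Bool.and_eq_true, decide_eq_true_eq, Bool.or_eq_true, List.contains_iff_mem, Prod.mk.injEq]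
  constructor
  · rintro ⟨a, ha, b, ⟨hb, hab, hm⟩, rfl, rfl⟩
    exact ⟨ha, hb, hab, hm⟩
  · rintro ⟨ha, hb, hab, hm⟩
    exact ⟨u, ha, v, ⟨hb, hab, hm⟩, rfl, rfl⟩

theorem good_edgesL (n : ℕ) (el : List (ℕ × ℕ)) : Good n (edgesL n el) := by
  refine ⟨?_, fun e he => ?_⟩
  · unfold edgesL
    rw [List.nodup_flatMap]
    refine ⟨fun u _ => ?_, ?_⟩
    · refine List.Nodup.map (fun a b h => ?_) (List.Nodup.filter _ List.nodup_range)
      exact (Prod.mk.inj h).2
    · refine List.Pairwise.imp_of_mem ?_ (List.nodup_range (n := n))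
      intro a b _ _ hab
      simp only [Function.onFun]
      rw [List.disjoint_left]
      intro x hx hy
      simp only [List.mem_map] at hx hy
      obtain ⟨c, _, rfl⟩ := hx
      obtain ⟨d, _, h⟩ := hy
      exact hab (Prod.mk.inj h).1.symm
  · rw [mem_edgesL] at he
    exact ⟨he.2.2.1, he.2.1⟩

theorem mem_toE_iff (F : List (ℕ × ℕ)) (s : Finset ℕ) :
    s ∈ toE F ↔ ∃ e ∈ F, ({e.1, e.2} : Finset ℕ) = s := by
  simp [toE]

theorem pair_inj {a b c d : ℕ} (hab : a < b) (hcd : c < d)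
    (h : ({a, b} : Finset ℕ) = {c, d}) : a = c ∧ b = d := by
  have h1 : a ∈ ({c, d} : Finset ℕ) := by rw [← h]; simp
  have h2 : b ∈ ({c, d} : Finset ℕ) := by rw [← h]; simp
  have h3 : c ∈ ({a, b} : Finset ℕ) := by rw [h]; simp
  have h4 : d ∈ ({a, b} : Finset ℕ) := by rw [h]; simp
  simp only [Finset.mem_insert, Finset.mem_singleton] at h1 h2 h3 h4
  omega

theorem mem_toE {n : ℕ} {F : List (ℕ × ℕ)} (h : Good n F) {u v : ℕ} (huv : u < v) :
    ({u, v} : Finset ℕ) ∈ toE F ↔ (u, v) ∈ F := by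
  rw [mem_toE_iff]
  constructor
  · rintro ⟨e, he, h1⟩
    obtain ⟨h2, h3⟩ := pair_inj (h.2 e he).1 huv h1
    rw [← h2, ← h3]
    exact he
  · intro he
    exact ⟨_, he, rfl⟩

theorem mem_toE' {n : ℕ} {F : List (ℕ × ℕ)} (h : Good n F) {u v : ℕ} :
    ({u, v} : Finset ℕ) ∈ toE F ↔ ((u, v) ∈ F ∨ (v, u) ∈ F) := by
  rcases lt_trichotomy u v with huv | huv | huv
  · rw [mem_toE h huv]
    constructor
    · exact Or.inl
    · rintro (h1 | h1)
      · exact h1
      · have := (h.2 _ h1).1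
        simp only at this
        omega
  · subst huv
    constructor
    · rw [mem_toE_iff]
      rintro ⟨e, he, h1⟩
      have h2 := (h.2 e he).1
      have h3 : e.1 ∈ ({u, u} : Finset ℕ) := by rw [← h1]; simp
      have h4 : e.2 ∈ ({u, u} : Finset ℕ) := by rw [← h1]; simp
      simp only [Finset.mem_insert, Finset.mem_singleton, or_self] at h3 h4
      omega
    · rintro (h1 | h1) <;>
      · have := (h.2 _ h1).1
        simp only at this
        omega
  · rw [Finset.pair_comm, mem_toE h huv]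
    constructor
    · exact Or.inr
    · rintro (h1 | h1)
      · have := (h.2 _ h1).1
        simp only at this
        omega
      · exact h1

theorem mem_toE_edgesL (n : ℕ) (el : List (ℕ × ℕ)) {u v : ℕ} (hu : u < n) (hv : v < n)
    (huv : u ≠ v) : ({u, v} : Finset ℕ) ∈ toE (edgesL n el) ↔ ((u, v) ∈ el ∨ (v, u) ∈ el) := by
  rw [mem_toE' (good_edgesL n el), mem_edgesL, mem_edgesL]
  simp only
  rcases lt_or_gt_of_ne huv with h | h
  · constructor
    · rintro (h1 | h1)
      · exact h1.2.2.2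
      · omega
    · intro h1
      exact Or.inl ⟨hu, hv, h, h1⟩
  · constructor
    · rintro (h1 | h1)
      · omega
      · exact h1.2.2.2.symm
    · intro h1
      exact Or.inr ⟨hv, hu, h, h1.symm⟩

theorem isGraph_toE {n : ℕ} {F : List (ℕ × ℕ)} (h : Good n F) :
    IsGraph (Finset.range n) (toE F) := by
  constructor
  · intro s hs
    rw [mem_toE_iff] at hs
    obtain ⟨e, he, rfl⟩ := hs
    exact Finset.card_pair (ne_of_lt (h.2 e he).1)
  · intro s hs
    rw [mem_toE_iff] at hs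
    obtain ⟨e, he, rfl⟩ := hs
    have := h.2 e he
    intro x hx
    simp only [Finset.mem_insert, Finset.mem_singleton] at hx
    rw [Finset.mem_range]
    omega

theorem card_toE {n : ℕ} {F : List (ℕ × ℕ)} (h : Good n F) : (toE F).card = F.length := by
  unfold toE
  rw [List.toFinset_card_of_nodup, List.length_map]
  refine List.Nodup.map_on (fun x hx y hy hxy => ?_) h.1
  obtain ⟨h1, h2⟩ := pair_inj (h.2 x hx).1 (h.2 y hy).1 hxy
  exact Prod.ext h1 h2

theorem toE_filter {n : ℕ} {F : List (ℕ × ℕ)} (h : Good n F) {e : ℕ × ℕ} (he : e ∈ F) :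
    toE (F.filter fun g => decide (g ≠ e)) = (toE F).erase {e.1, e.2} := by
  ext s
  rw [Finset.mem_erase, mem_toE_iff, mem_toE_iff]
  simp only [List.mem_filter, decide_eq_true_eq]
  constructor
  · rintro ⟨g, ⟨hg, hge⟩, rfl⟩
    refine ⟨fun h1 => hge ?_, g, hg, rfl⟩
    obtain ⟨h2, h3⟩ := pair_inj (h.2 g hg).1 (h.2 e he).1 h1
    exact Prod.ext h2 h3
  · rintro ⟨h1, g, hg, rfl⟩
    refine ⟨g, ⟨hg, fun h2 => h1 ?_⟩, rfl⟩
    rw [h2]

theorem toE_cons (e : ℕ × ℕ) (F : List (ℕ × ℕ)) :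
    toE (e :: F) = insert {e.1, e.2} (toE F) := by
  simp [toE]

/-- the members of `toE (edgesL n el)` -/
theorem mem_toE_edgesL_iff (n : ℕ) (el : List (ℕ × ℕ)) (s : Finset ℕ) :
    s ∈ toE (edgesL n el) ↔ ∃ a b, a < b ∧ b < n ∧ ((a, b) ∈ el ∨ (b, a) ∈ el) ∧
      ({a, b} : Finset ℕ) = s := by
  rw [mem_toE_iff]
  constructor
  · rintro ⟨e, he, rfl⟩
    rw [mem_edgesL] at he
    exact ⟨e.1, e.2, he.2.2.1, he.2.1, he.2.2.2, rfl⟩
  · rintro ⟨a, b, hab, hb, hm, rfl⟩
    refine ⟨(a, b), ?_, rfl⟩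
    rw [mem_edgesL]
    exact ⟨by simp only; omega, hb, hab, hm⟩

theorem mem_clique_pair {u v : ℕ} (huv : u < v) (s : Finset ℕ) :
    s ∈ clique ({u, v} : Finset ℕ) ↔ ({u, v} : Finset ℕ) = s := by
  unfold clique
  rw [Finset.mem_powersetCard]
  have hc : ({u, v} : Finset ℕ).card = 2 := Finset.card_pair (ne_of_lt huv)
  constructor
  · rintro ⟨h1, h2⟩
    exact (Finset.eq_of_subset_of_card_le h1 (by omega)).symm
  · rintro rfl
    exact ⟨subset_rfl, hc⟩

theorem toE_pair (n : ℕ) (el : List (ℕ × ℕ)) {u v : ℕ} (huv : u < v) (hv : v < n) :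
    toE (edgesL n ((u, v) :: el)) = toE (edgesL n el) ∪ clique {u, v} := by
  ext s
  rw [Finset.mem_union, mem_toE_edgesL_iff, mem_toE_edgesL_iff, mem_clique_pair huv]
  simp only [List.mem_cons, Prod.mk.injEq]
  constructor
  · rintro ⟨a, b, hab, hb, hm, rfl⟩
    by_cases h : a = u ∧ b = v
    · right
      rw [h.1, h.2]
    · left
      refine ⟨a, b, hab, hb, ?_, rfl⟩
      rcases hm with (h1 | h1) | (h1 | h1)
      · exact absurd h1 h
      · exact Or.inl h1
      · omega
      · exact Or.inr h1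
  · rintro (⟨a, b, hab, hb, hm, rfl⟩ | rfl)
    · refine ⟨a, b, hab, hb, ?_, rfl⟩
      rcases hm with h1 | h1
      · exact Or.inl (Or.inr h1)
      · exact Or.inr (Or.inr h1)
    · exact ⟨u, v, huv, hv, Or.inl (Or.inl ⟨rfl, rfl⟩), rfl⟩

theorem mem_clique_triple {u v w : ℕ} (huv : u < v) (hvw : v < w) (s : Finset ℕ) :
    s ∈ clique ({u, v, w} : Finset ℕ) ↔ ({u, v} : Finset ℕ) = s ∨ ({u, w} : Finset ℕ) = s ∨
      ({v, w} : Finset ℕ) = s := by
  unfold clique
  rw [Finset.mem_powersetCard]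
  constructor
  · rintro ⟨h1, h2⟩
    obtain ⟨x, y, hxy, rfl⟩ := Finset.card_eq_two.mp h2
    have hx : x ∈ ({u, v, w} : Finset ℕ) := h1 (by simp)
    have hy : y ∈ ({u, v, w} : Finset ℕ) := h1 (by simp)
    simp only [Finset.mem_insert, Finset.mem_singleton] at hx hy
    rcases hx with rfl | rfl | rfl <;> rcases hy with rfl | rfl | rfl <;>
      first
        | exact absurd rfl hxy
        | simp [Finset.pair_comm]
  · rintro (rfl | rfl | rfl)
    · refine ⟨fun x hx => ?_, Finset.card_pair (by omega)⟩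
      simp only [Finset.mem_insert, Finset.mem_singleton] at hx ⊢
      omega
    · refine ⟨fun x hx => ?_, Finset.card_pair (by omega)⟩
      simp only [Finset.mem_insert, Finset.mem_singleton] at hx ⊢
      omega
    · refine ⟨fun x hx => ?_, Finset.card_pair (by omega)⟩
      simp only [Finset.mem_insert, Finset.mem_singleton] at hx ⊢
      omega

theorem toE_triple (n : ℕ) (el : List (ℕ × ℕ)) {u v w : ℕ} (huv : u < v) (hvw : v < w)
    (hw : w < n) : toE (edgesL n ((u, v) :: (u, w) :: (v, w) :: el)) =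
      toE (edgesL n el) ∪ clique {u, v, w} := by
  rw [toE_pair n _ huv (by omega), toE_pair n _ (by omega) hw, toE_pair n _ hvw hw]
  ext s
  simp only [Finset.mem_union, mem_clique_triple huv hvw, mem_clique_pair huv,
    mem_clique_pair hvw, mem_clique_pair (show u < w by omega)]
  tauto

end Pool.Agent.Lib.MP_5d015b_lc
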