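import Pool.Agent.Lib.Parity.NU
import Pool.Agent.Lib.MP_5d015b_lc.AlgDefs

/-!
# Independence in the hypergraphic matroid by the parity algorithm
-/

set_option autoImplicit false
set_option linter.unusedSectionVars false

namespace Pool.Agent.Lib.MP_5d015b_lc

open Pool.Agent.Lib.Parity Pool.Agent.Lib.PolyTime

theorem length_privL (Hs : List (List ℕ)) : (privL Hs).length = Hs.length := by
  simp [privL]

theorem privL_getD (Hs : List (List ℕ)) {i : ℕ} (hi : i < Hs.length) :
    (privL Hs).getD i ([], []) =
      (Hs.getD i [], [Hs.flatten.sum + 1 + 2 * i, Hs.flatten.sum + 2 + 2 * i]) := by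
  simp [privL, List.getD_eq_getElem?_getD, hi]

theorem hyp_privL_false (Hs : List (List ℕ)) {i : ℕ} (hi : i < Hs.length) :
    hyp (privL Hs) (i, false) = (Hs.getD i []).toFinset := by
  simp only [hyp, f1, privL_getD Hs hi]
  simp

theorem hyp_privL_true (Hs : List (List ℕ)) {i : ℕ} (hi : i < Hs.length) :
    hyp (privL Hs) (i, true) = {Hs.flatten.sum + 1 + 2 * i, Hs.flatten.sum + 2 + 2 * i} := by
  simp only [hyp, f2, privL_getD Hs hi]
  simp

theorem getD_le_sum (Hs : List (List ℕ)) {i v : ℕ} (hv : v ∈ (Hs.getD i []).toFinset) :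
    v ≤ Hs.flatten.sum := by
  rw [List.mem_toFinset, List.getD_eq_getElem?_getD] at hv
  by_cases hi : i < Hs.length
  · rw [List.getElem?_eq_getElem hi, Option.getD_some] at hv
    apply List.single_le_sum (by simp)
    rw [List.mem_flatten]
    exact ⟨_, List.getElem_mem hi, hv⟩
  · rw [List.getElem?_eq_none (by omega), Option.getD_none] at hv
    simp at hv

theorem hindL_iff (Hs : List (List ℕ)) :
    hindL Hs = true ↔ HInd (privL Hs) (Finset.range Hs.length) := by
  obtain ⟨⟨U, hU, hUI, hUc⟩, hmax⟩ := nuAlg_spec (privL Hs)
  rw [length_privL] at hU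
  rw [hindL, decide_eq_true_iff]
  constructor
  · intro h
    have h1 : U = Finset.range Hs.length := by
      apply Finset.eq_of_subset_of_card_le hU
      rw [Finset.card_range]
      omega
    rw [← h1]
    exact hUI
  · intro h
    have h1 := hmax ⟨Finset.range Hs.length, by rw [length_privL], h, rfl⟩
    rw [Finset.card_range] at h1
    have h2 := Finset.card_le_card hU
    rw [Finset.card_range] at h2
    omega

theorem hindL_spec (Hs : List (List ℕ)) : hindL Hs = true ↔
    ∀ X : Finset ℕ, X.Nonempty → (∀ i ∈ X, i < Hs.length) →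
      X.card + 1 ≤ (X.biUnion fun i => (Hs.getD i []).toFinset).card := by
  rw [hindL_iff]
  constructor
  · intro h X hX hi
    have h1 := h (X.map ⟨fun i => (i, false), fun i j hij => (Prod.mk.inj hij).1⟩)
      (by rwa [Finset.map_nonempty]) (by
        intro q hq
        rw [Finset.mem_map] at hq
        obtain ⟨i, hiX, rfl⟩ := hq
        rw [Finset.mem_range]
        exact hi i hiX)
    rw [Finset.card_map] at h1
    have h2 : (X.map ⟨fun i => (i, false), fun i j hij => (Prod.mk.inj hij).1⟩).biUnion
        (hyp (privL Hs)) = X.biUnion fun i => (Hs.getD i []).toFinset := by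
      rw [Finset.map_eq_image, Finset.image_biUnion]
      apply Finset.biUnion_congr rfl
      intro i hiX
      exact hyp_privL_false Hs (hi i hiX)
    rw [h2] at h1
    exact h1
  · intro h X hX hq
    set A := (X.filter fun q => q.2 = false).image Prod.fst with hA
    set C := (X.filter fun q => q.2 = true).image Prod.fst with hC
    have hAc : A.card = (X.filter fun q => q.2 = false).card := by
      apply Finset.card_image_of_injOn
      intro p hp q hq hpq
      rw [Finset.mem_coe, Finset.mem_filter] at hp hq
      exact Prod.ext hpq (hp.2.trans hq.2.symm)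
    have hCc : C.card = (X.filter fun q => q.2 = true).card := by
      apply Finset.card_image_of_injOn
      intro p hp q hq hpq
      rw [Finset.mem_coe, Finset.mem_filter] at hp hq
      exact Prod.ext hpq (hp.2.trans hq.2.symm)
    have hsum : A.card + C.card = X.card := by
      rw [hAc, hCc]
      have h1 := Finset.card_filter_add_card_filter_not (s := X) (fun q => q.2 = false)
      have h2 : (X.filter fun q => q.2 = true) = X.filter fun q => ¬ q.2 = false := by
        apply Finset.filter_congr
        intro q _
        simp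
      rw [h2]
      exact h1
    have hAX : ∀ i, i ∈ A ↔ (i, false) ∈ X := by
      intro i
      rw [hA, Finset.mem_image]
      constructor
      · rintro ⟨q, hq, rfl⟩
        rw [Finset.mem_filter] at hq
        rw [← hq.2]
        exact hq.1
      · intro hi
        exact ⟨(i, false), Finset.mem_filter.2 ⟨hi, rfl⟩, rfl⟩
    have hCX : ∀ i, i ∈ C ↔ (i, true) ∈ X := by
      intro i
      rw [hC, Finset.mem_image]
      constructor
      · rintro ⟨q, hq, rfl⟩
        rw [Finset.mem_filter] at hq
        rw [← hq.2]
        exact hq.1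
      · intro hi
        exact ⟨(i, true), Finset.mem_filter.2 ⟨hi, rfl⟩, rfl⟩
    have hAl : ∀ i ∈ A, i < Hs.length := fun i hi => Finset.mem_range.1 (hq _ ((hAX i).1 hi))
    have hCl : ∀ i ∈ C, i < Hs.length := fun i hi => Finset.mem_range.1 (hq _ ((hCX i).1 hi))
    have hCu : (C.biUnion fun i => ({Hs.flatten.sum + 1 + 2 * i, Hs.flatten.sum + 2 + 2 * i} :
        Finset ℕ)).card = 2 * C.card := by
      rw [Finset.card_biUnion, Finset.sum_congr rfl fun i _ => Finset.card_pair (by omega),
        Finset.sum_const, smul_eq_mul, mul_comm]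
      intro i _ j _ hij
      rw [Function.onFun, Finset.disjoint_left]
      intro v hv hv'
      rw [Finset.mem_insert, Finset.mem_singleton] at hv hv'
      omega
    have hd : Disjoint (A.biUnion fun i => (Hs.getD i []).toFinset)
        (C.biUnion fun i => ({Hs.flatten.sum + 1 + 2 * i, Hs.flatten.sum + 2 + 2 * i} :
        Finset ℕ)) := by
      rw [Finset.disjoint_left]
      intro v hv hv'
      rw [Finset.mem_biUnion] at hv hv'
      obtain ⟨i, _, hi⟩ := hv
      obtain ⟨j, _, hj⟩ := hv'
      have h1 := getD_le_sum Hs hi
      rw [Finset.mem_insert, Finset.mem_singleton] at hj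
      omega
    have hsub : (A.biUnion fun i => (Hs.getD i []).toFinset) ∪
        (C.biUnion fun i => ({Hs.flatten.sum + 1 + 2 * i, Hs.flatten.sum + 2 + 2 * i} :
        Finset ℕ)) ⊆ X.biUnion (hyp (privL Hs)) := by
      apply Finset.union_subset
      · intro v hv
        rw [Finset.mem_biUnion] at hv ⊢
        obtain ⟨i, hi, hv⟩ := hv
        refine ⟨(i, false), (hAX i).1 hi, ?_⟩
        rw [hyp_privL_false Hs (hAl i hi)]
        exact hv
      · intro v hv
        rw [Finset.mem_biUnion] at hv ⊢
        obtain ⟨i, hi, hv⟩ := hv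
        refine ⟨(i, true), (hCX i).1 hi, ?_⟩
        rw [hyp_privL_true Hs (hCl i hi)]
        exact hv
    have h1 := Finset.card_le_card hsub
    rw [Finset.card_union_of_disjoint hd, hCu] at h1
    have hX1 := Finset.card_pos.2 hX
    by_cases hAne : A.Nonempty
    · have h2 := h A hAne hAl
      omega
    · rw [Finset.not_nonempty_iff_eq_empty] at hAne
      rw [hAne, Finset.card_empty] at hsum
      omega

end Pool.Agent.Lib.MP_5d015b_lc
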