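import Pool.Agent.Lib.MP_5d015b_lc.LB
import Pool.Agent.Lib.MP_5d015b_lc.HIND

/-!
# Globally rigid pinning: the sparsity test (module SPL)
-/

set_option autoImplicit false
set_option linter.unusedSectionVars false

namespace Pool.Agent.Lib.MP_5d015b_lc

open Pool.Agent.Lib.Parity

/-- two copies of every vertex -/
def dbl (X : Finset ℕ) : Finset ℕ := X.biUnion fun v => {2 * v, 2 * v + 1}

theorem card_dbl (X : Finset ℕ) : (dbl X).card = 2 * X.card := by
  unfold dbl
  rw [Finset.card_biUnion]
  · rw [Finset.sum_congr rfl (g := fun _ => 2), Finset.sum_const, smul_eq_mul, mul_comm]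
    intro v _
    exact Finset.card_pair (by omega)
  · intro v _ w _ hvw
    simp only [Function.onFun]
    rw [Finset.disjoint_left]
    intro x hx hy
    simp only [Finset.mem_insert, Finset.mem_singleton] at hx hy
    omega

/-- the ends of an edge -/
def pr (e : ℕ × ℕ) : Finset ℕ := {e.1, e.2}

theorem h4_toFinset (e : ℕ × ℕ) : (h4 e).toFinset = dbl (pr e) := by
  ext x
  simp only [h4, dbl, pr, List.mem_toFinset, List.mem_cons, List.not_mem_nil, or_false,
    Finset.mem_biUnion, Finset.mem_insert, Finset.mem_singleton]
  constructor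
  · rintro (rfl | rfl | rfl | rfl)
    · exact ⟨e.1, Or.inl rfl, Or.inl rfl⟩
    · exact ⟨e.1, Or.inl rfl, Or.inr rfl⟩
    · exact ⟨e.2, Or.inr rfl, Or.inl rfl⟩
    · exact ⟨e.2, Or.inr rfl, Or.inr rfl⟩
  · rintro ⟨v, (rfl | rfl), h⟩
    · rcases h with h | h
      · exact Or.inl h
      · exact Or.inr (Or.inl h)
    · rcases h with h | h
      · exact Or.inr (Or.inr (Or.inl h))
      · exact Or.inr (Or.inr (Or.inr h))

theorem card_union_h4 (G : List (ℕ × ℕ)) (I : Finset ℕ) (hI : ∀ i ∈ I, i < G.length) :
    (I.biUnion fun i => ((G.map h4).getD i []).toFinset).card =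
      2 * (I.biUnion fun i => pr (G.getD i (0, 0))).card := by
  rw [← card_dbl]
  congr 1
  ext x
  simp only [dbl, Finset.mem_biUnion]
  constructor
  · rintro ⟨i, hi, hx⟩
    have hiG := hI i hi
    rw [List.getD_eq_getElem _ _ (by rw [List.length_map]; exact hiG), List.getElem_map,
      h4_toFinset] at hx
    simp only [dbl, Finset.mem_biUnion] at hx
    obtain ⟨v, hv, hxv⟩ := hx
    refine ⟨v, ⟨i, hi, ?_⟩, hxv⟩
    rw [List.getD_eq_getElem _ _ hiG]
    exact hv
  · rintro ⟨v, ⟨i, hi, hv⟩, hxv⟩
    have hiG := hI i hi
    refine ⟨i, hi, ?_⟩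
    rw [List.getD_eq_getElem _ _ (by rw [List.length_map]; exact hiG), List.getElem_map,
      h4_toFinset]
    simp only [dbl, Finset.mem_biUnion]
    rw [List.getD_eq_getElem _ _ hiG] at hv
    exact ⟨v, hv, hxv⟩

theorem hind_iff (F : List (ℕ × ℕ)) (e : ℕ × ℕ) : hindL (F.map h4 ++ [h4 e, h4 e]) = true ↔
    ∀ X : Finset ℕ, X.Nonempty → (∀ i ∈ X, i < F.length + 2) →
      X.card + 1 ≤ 2 * (X.biUnion fun i => pr ((F ++ [e, e]).getD i (0, 0))).card := by
  have h1 : F.map h4 ++ [h4 e, h4 e] = (F ++ [e, e]).map h4 := by simp
  rw [h1, hindL_spec]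
  have h2 : ((F ++ [e, e]).map h4).length = F.length + 2 := by simp
  have h3 : (F ++ [e, e]).length = F.length + 2 := by simp
  rw [h2]
  constructor
  · intro h X hX hXI
    rw [← card_union_h4 _ X (by rw [h3]; exact hXI)]
    exact h X hX hXI
  · intro h X hX hXI
    rw [card_union_h4 _ X (by rw [h3]; exact hXI)]
    exact h X hX hXI

theorem sparseL_spec {n : ℕ} {F : List (ℕ × ℕ)} (h : Good n F) :
    sparseL F = true ↔ Sparse (toE F) := by
  unfold sparseL
  rw [List.all_eq_true]
  simp only [hind_iff]
  constructor
  · intro H
    refine ⟨(isGraph_toE h).card_two, fun X hX => ?_⟩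
    rcases (ins (toE F) X).eq_empty_or_nonempty with h0 | ⟨s, hs⟩
    · rw [h0, Finset.card_empty]
      omega
    · simp only [ins, Finset.mem_filter] at hs
      obtain ⟨hs1, hs2⟩ := hs
      rw [mem_toE_iff] at hs1
      obtain ⟨e, he, rfl⟩ := hs1
      set J := (Finset.range F.length).filter (fun i => pr (F.getD i (0, 0)) ⊆ X) with hJ
      have hJm : ∀ i ∈ J, i < F.length := by
        intro i hi
        rw [hJ, Finset.mem_filter, Finset.mem_range] at hi
        exact hi.1
      set I := insert F.length (insert (F.length + 1) J) with hI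
      have hc : I.card = J.card + 2 := by
        rw [hI, Finset.card_insert_of_notMem, Finset.card_insert_of_notMem]
        · intro hm
          have := hJm _ hm
          omega
        · rw [Finset.mem_insert]
          rintro (hm | hm)
          · omega
          · have := hJm _ hm
            omega
      have h1 := H e he I ⟨F.length, by simp [hI]⟩ (by
        intro i hi
        rw [hI, Finset.mem_insert, Finset.mem_insert] at hi
        rcases hi with hi | hi | hi
        · omega
        · omega
        · have := hJm _ hi
          omega)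
      have h2 : (I.biUnion fun i => pr ((F ++ [e, e]).getD i (0, 0))) ⊆ X := by
        intro x hx
        rw [Finset.mem_biUnion] at hx
        obtain ⟨i, hi, hx⟩ := hx
        rw [hI, Finset.mem_insert, Finset.mem_insert] at hi
        rcases hi with hi | hi | hi
        · subst hi
          rw [List.getD_append_right _ _ _ _ (by omega)] at hx
          simp only [Nat.sub_self] at hx
          exact hs2 hx
        · subst hi
          rw [List.getD_append_right _ _ _ _ (by omega)] at hx
          rw [show F.length + 1 - F.length = 1 by omega] at hx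
          exact hs2 hx
        · rw [List.getD_append _ _ _ _ (hJm i hi)] at hx
          rw [hJ, Finset.mem_filter] at hi
          exact hi.2 hx
      have h3 := Finset.card_le_card h2
      have h4 : (ins (toE F) X).card ≤ J.card := by
        have h5 : ins (toE F) X ⊆ J.image fun i => pr (F.getD i (0, 0)) := by
          intro s hs
          simp only [ins, Finset.mem_filter] at hs
          obtain ⟨hs1, hs2⟩ := hs
          rw [mem_toE_iff] at hs1
          obtain ⟨g, hg, rfl⟩ := hs1
          obtain ⟨i, hi, rfl⟩ := List.getElem_of_mem hg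
          rw [Finset.mem_image]
          refine ⟨i, ?_, ?_⟩
          · rw [hJ, Finset.mem_filter, Finset.mem_range]
            refine ⟨hi, ?_⟩
            rw [List.getD_eq_getElem _ _ hi]
            exact hs2
          · rw [List.getD_eq_getElem _ _ hi]
            rfl
        exact (Finset.card_le_card h5).trans Finset.card_image_le
      omega
  · intro H e he I hIn hI
    set V := I.biUnion fun i => pr ((F ++ [e, e]).getD i (0, 0)) with hV
    have hG : ∀ i < F.length + 2, (F ++ [e, e]).getD i (0, 0) ∈ F := by
      intro i hi
      rcases lt_or_ge i F.length with h1 | h1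
      · rw [List.getD_append _ _ _ _ h1, List.getD_eq_getElem _ _ h1]
        exact List.getElem_mem h1
      · rw [List.getD_append_right _ _ _ _ h1]
        obtain ⟨k, hk⟩ : ∃ k, i - F.length = k := ⟨_, rfl⟩
        have hk2 : k < 2 := by omega
        rw [hk]
        interval_cases k
        · exact he
        · exact he
    have hV2 : 2 ≤ V.card := by
      obtain ⟨i, hi⟩ := hIn
      have h1 := hG i (hI i hi)
      have h2 : pr ((F ++ [e, e]).getD i (0, 0)) ⊆ V := Finset.subset_biUnion_of_mem
        (fun i => pr ((F ++ [e, e]).getD i (0, 0))) hi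
      have h3 := Finset.card_le_card h2
      have h4 : (pr ((F ++ [e, e]).getD i (0, 0))).card = 2 :=
        Finset.card_pair (ne_of_lt (h.2 _ h1).1)
      omega
    have h1 := H.2 V hV2
    have h2 : (I.filter fun i => i < F.length).card ≤ (ins (toE F) V).card := by
      refine Finset.card_le_card_of_injOn (fun i => pr ((F ++ [e, e]).getD i (0, 0))) ?_ ?_
      · intro i hi
        rw [Finset.mem_coe, Finset.mem_filter] at hi
        rw [Finset.mem_coe]
        simp only [ins, Finset.mem_filter]
        refine ⟨?_, Finset.subset_biUnion_of_mem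
          (fun i => pr ((F ++ [e, e]).getD i (0, 0))) hi.1⟩
        rw [mem_toE_iff]
        exact ⟨_, hG i (hI i hi.1), rfl⟩
      · intro i hi j hj hij
        rw [Finset.mem_coe, Finset.mem_filter] at hi hj
        simp only at hij
        obtain ⟨h3, h4⟩ := pair_inj (h.2 _ (hG i (hI i hi.1))).1
          (h.2 _ (hG j (hI j hj.1))).1 hij
        have h5 := Prod.ext h3 h4
        rw [List.getD_append _ _ _ _ hi.2, List.getD_append _ _ _ _ hj.2,
          List.getD_eq_getElem _ _ hi.2, List.getD_eq_getElem _ _ hj.2] at h5
        exact (List.Nodup.getElem_inj_iff h.1).mp h5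
    have h3 : I.card ≤ (I.filter fun i => i < F.length).card + 2 := by
      have h4 : I ⊆ (I.filter fun i => i < F.length) ∪ {F.length, F.length + 1} := by
        intro i hi
        have := hI i hi
        simp only [Finset.mem_union, Finset.mem_filter, Finset.mem_insert, Finset.mem_singleton]
        by_cases h5 : i < F.length
        · exact Or.inl ⟨hi, h5⟩
        · right
          omega
      have h5 := Finset.card_le_card h4
      have h6 := Finset.card_union_le (I.filter fun i => i < F.length) {F.length, F.length + 1}
      have h7 : ({F.length, F.length + 1} : Finset ℕ).card ≤ 2 := Finset.card_le_two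
      omega
    omega

end Pool.Agent.Lib.MP_5d015b_lc
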