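import Pool.Agent.Lib.MP_5d015b_lc.AlgDefs
import Pool.Agent.Lib.MP_5d015b_lc.LB
import Pool.Agent.Lib.MP_5d015b_lc.SPL

/-!
# The vertices of a fundamental circuit
-/

set_option autoImplicit false
set_option linter.unusedSectionVars false

namespace Pool.Agent.Lib.MP_5d015b_lc

open Pool.Agent.Lib.Parity Pool.Agent.Lib.PolyTime


open Classical in
theorem mem_tset_tsl {V : Type*} [DecidableEq V] (B : Finset (Finset V)) (e : Finset V) (v : V) :
    v ∈ tset B e ↔ ∃ F ∈ B, Sparse (insert e (B.erase F)) ∧ v ∈ F := by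
  rw [tset]
  simp only [Finset.mem_biUnion, Finset.mem_filter, id]
  constructor
  · rintro ⟨F, ⟨h1, h2⟩, h3⟩
    exact ⟨F, h1, h2, h3⟩
  · rintro ⟨F, h1, h2, h3⟩
    exact ⟨F, ⟨h1, h2⟩, h3⟩

theorem tsetL_spec {n : ℕ} {E D : List (ℕ × ℕ)} (hE : Good n E) (hD : Good n D)
    (hs : ∀ e ∈ D, e ∈ E) (hB : MaxSp (toE E) (toE D)) {e : ℕ × ℕ} (he : e ∈ E) (heD : e ∉ D) :
    (tsetL n D e).toFinset = tset (toE D) {e.1, e.2} ∧ (tsetL n D e).Nodup := by
  have key : ∀ f ∈ D, (sparseL (e :: D.filter fun g => decide (g ≠ f)) = true ↔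
      Sparse (insert {e.1, e.2} ((toE D).erase {f.1, f.2}))) := by
    intro f hf
    have hG : Good n (e :: D.filter fun g => decide (g ≠ f)) := by
      refine ⟨List.nodup_cons.2 ⟨fun h => heD (List.mem_filter.1 h).1, hD.1.filter _⟩, ?_⟩
      intro g hg
      rw [List.mem_cons] at hg
      rcases hg with rfl | hg
      · exact hE.2 _ he
      · exact hD.2 g (List.mem_filter.1 hg).1
    rw [sparseL_spec hG, toE_cons, toE_filter hD hf]
  constructor
  · ext v
    rw [List.mem_toFinset, tsetL, List.mem_filter, List.mem_range, List.any_eq_true,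
      mem_tset_tsl]
    constructor
    · rintro ⟨hv, f, hf, hfv⟩
      rw [Bool.and_eq_true, Bool.or_eq_true, decide_eq_true_iff, decide_eq_true_iff,
        key f hf] at hfv
      refine ⟨{f.1, f.2}, ?_, hfv.2, ?_⟩
      · rw [toE, List.mem_toFinset, List.mem_map]
        exact ⟨f, hf, rfl⟩
      · rw [Finset.mem_insert, Finset.mem_singleton]
        exact hfv.1
    · rintro ⟨F, hF, hsp, hvF⟩
      rw [toE, List.mem_toFinset, List.mem_map] at hF
      obtain ⟨f, hf, rfl⟩ := hF
      rw [Finset.mem_insert, Finset.mem_singleton] at hvF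
      have h1 := hD.2 f hf
      refine ⟨?_, f, hf, ?_⟩
      · rcases hvF with rfl | rfl
        · exact h1.1.trans h1.2
        · exact h1.2
      · rw [Bool.and_eq_true, Bool.or_eq_true, decide_eq_true_iff, decide_eq_true_iff, key f hf]
        exact ⟨hvF, hsp⟩
  · exact List.nodup_range.filter _

end Pool.Agent.Lib.MP_5d015b_lc
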