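import Pool.Agent.Lib.MP_5d015b_lc.AlgDefs
import Pool.Agent.Lib.MP_5d015b_lc.LB
import Pool.Agent.Lib.MP_5d015b_lc.TSL

/-!
# The bodies, on lists
-/

set_option autoImplicit false
set_option linter.unusedSectionVars false

namespace Pool.Agent.Lib.MP_5d015b_lc

open Pool.Agent.Lib.Parity Pool.Agent.Lib.PolyTime


theorem mstepL_spec {n : ℕ} {E D : List (ℕ × ℕ)} (hE : Good n E) (hD : Good n D)
    (hs : ∀ e ∈ D, e ∈ E) (hB : MaxSp (toE E) (toE D)) {X : List ℕ} (hX : ∀ v ∈ X, v < n) :
    (mstepL n E D X).toFinset = mstep (toE E) (toE D) X.toFinset := by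
  have key : ∀ e ∈ E, e ∉ D →
      ((tsetL n D e).filter fun u => X.contains u).length =
        (tset (toE D) {e.1, e.2} ∩ X.toFinset).card := by
    intro e he heD
    obtain ⟨h1, h2⟩ := tsetL_spec hE hD hs hB he heD
    rw [← h1, ← List.toFinset_card_of_nodup (h2.filter _)]
    congr 1
    ext u
    rw [List.mem_toFinset, List.mem_filter, Finset.mem_inter, List.mem_toFinset,
      List.mem_toFinset, List.contains_iff_mem]
  ext v
  rw [List.mem_toFinset, mstepL, List.mem_filter, List.mem_range, Bool.or_eq_true,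
    List.contains_iff_mem, List.any_eq_true, mstep, Finset.mem_union, List.mem_toFinset,
    Finset.mem_biUnion]
  constructor
  · rintro ⟨hv, h | ⟨e, he, h⟩⟩
    · exact Or.inl h
    · right
      rw [Bool.and_eq_true, Bool.and_eq_true, Bool.not_eq_true', decide_eq_true_iff,
        List.contains_iff_mem] at h
      obtain ⟨h1, h2, h3⟩ := h
      have heD : e ∉ D := by
        intro hc
        rw [← List.contains_iff_mem] at hc
        rw [hc] at h1
        exact Bool.noConfusion h1
      have hlt := hE.2 e he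
      rw [key e he heD] at h2
      refine ⟨{e.1, e.2}, ?_, ?_⟩
      · rw [Finset.mem_filter, Finset.mem_sdiff, mem_toE hE hlt.1, mem_toE hD hlt.1]
        exact ⟨⟨he, heD⟩, h2⟩
      · rw [← (tsetL_spec hE hD hs hB he heD).1, List.mem_toFinset]
        exact h3
  · rintro (h | ⟨F, hF, hvF⟩)
    · exact ⟨hX v h, Or.inl h⟩
    · rw [Finset.mem_filter, Finset.mem_sdiff] at hF
      obtain ⟨⟨hFE, hFD⟩, h2⟩ := hF
      rw [toE, List.mem_toFinset, List.mem_map] at hFE
      obtain ⟨e, he, rfl⟩ := hFE
      have hlt := hE.2 e he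
      have heD : e ∉ D := by
        intro hc
        apply hFD
        rw [mem_toE hD hlt.1]
        exact hc
      rw [← (tsetL_spec hE hD hs hB he heD).1, List.mem_toFinset] at hvF
      refine ⟨List.mem_range.1 (List.mem_filter.1 hvF).1, Or.inr ⟨e, he, ?_⟩⟩
      rw [Bool.and_eq_true, Bool.and_eq_true, Bool.not_eq_true', decide_eq_true_iff,
        List.contains_iff_mem, key e he heD]
      refine ⟨?_, h2, hvF⟩
      rw [Bool.eq_false_iff, Ne, List.contains_iff_mem]
      exact heD

theorem bodyL_spec {n : ℕ} {E D : List (ℕ × ℕ)} (hE : Good n E) (hD : Good n D)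
    (hs : ∀ e ∈ D, e ∈ E) (hB : MaxSp (toE E) (toE D)) {b : ℕ × ℕ} (hb : b ∈ D) :
    (bodyL n E D b).toFinset = body (toE E) (toE D) n {b.1, b.2} := by
  have hlt := hD.2 b hb
  have h : ∀ k : ℕ, (∀ v ∈ (mstepL n E D)^[k] [b.1, b.2], v < n) ∧
      ((mstepL n E D)^[k] [b.1, b.2]).toFinset = (mstep (toE E) (toE D))^[k] {b.1, b.2} := by
    intro k
    induction k with
    | zero =>
      constructor
      · intro v hv
        rw [Function.iterate_zero, id, List.mem_cons, List.mem_singleton] at hv
        rcases hv with rfl | rfl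
        · exact hlt.1.trans hlt.2
        · exact hlt.2
      · ext v
        simp
    | succ k ih =>
      rw [Function.iterate_succ_apply', Function.iterate_succ_apply']
      constructor
      · intro v hv
        rw [mstepL, List.mem_filter] at hv
        exact List.mem_range.1 hv.1
      · rw [mstepL_spec hE hD hs hB ih.1, ih.2]
  exact (h n).2

end Pool.Agent.Lib.MP_5d015b_lc
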