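import Pool.Agent.Lib.MP_5d015b_lc.SP1

/-!
# Fundamental circuits
-/

set_option autoImplicit false
set_option linter.unusedSectionVars false

namespace Pool.Agent.Lib.MP_5d015b_lc

variable {V : Type*} [DecidableEq V]

section
variable {W : Finset V} {E B XX : Finset (Finset V)}

theorem tset_aux (hG : IsGraph W E) (hB : MaxSp E B) {e : Finset V} (he : e ∈ E)
    (heB : e ∉ B) : ∃ T, Tight B T ∧ e ⊆ T ∧ tset B e = T ∧
      ∀ f ∈ B, (Sparse (insert e (B.erase f)) ↔ f ⊆ T) := by
  classical
  have hsp := hB.2.1
  have hecard : e.card = 2 := hG.card_two e he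
  obtain ⟨X0, hX0, heX0⟩ := exists_tight hB hG.card_two he
  -- a minimal tight set containing `e`
  obtain ⟨T, hT, hmin⟩ := Finset.exists_min_image (X0.powerset.filter fun X => Tight B X ∧ e ⊆ X)
    Finset.card ⟨X0, Finset.mem_filter.2 ⟨Finset.mem_powerset_self _, hX0, heX0⟩⟩
  rw [Finset.mem_filter, Finset.mem_powerset] at hT
  obtain ⟨hTX0, hTt, heT⟩ := hT
  have hleast : ∀ X, Tight B X → e ⊆ X → T ⊆ X := by
    intro X hX heX
    have h2 : 2 ≤ (T ∩ X).card := by
      rw [← hecard]
      exact Finset.card_le_card (Finset.subset_inter heT heX)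
    have h3 := (tight_union hsp hTt hX h2).2.1
    have h4 := hmin (T ∩ X) (Finset.mem_filter.2
      ⟨Finset.mem_powerset.2 (Finset.inter_subset_left.trans hTX0), h3,
        Finset.subset_inter heT heX⟩)
    have h5 : T ∩ X = T := Finset.eq_of_subset_of_card_le Finset.inter_subset_left h4
    rw [← h5]
    exact Finset.inter_subset_right
  have hiff : ∀ f ∈ B, (Sparse (insert e (B.erase f)) ↔ f ⊆ T) := by
    intro f hf
    have hef : e ∉ B.erase f := fun h => heB (Finset.mem_of_mem_erase h)
    constructor
    · intro hS
      by_contra hfT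
      have h1 := hS.2 T hTt.1
      have h2 : ins (insert e (B.erase f)) T = insert e (ins B T) := by
        ext g
        simp only [ins, Finset.mem_filter, Finset.mem_insert, Finset.mem_erase]
        constructor
        · rintro ⟨rfl | h3, h4⟩
          · exact Or.inl rfl
          · exact Or.inr ⟨h3.2, h4⟩
        · rintro (rfl | h3)
          · exact ⟨Or.inl rfl, heT⟩
          · refine ⟨Or.inr ⟨?_, h3.1⟩, h3.2⟩
            rintro rfl
            exact hfT h3.2
      have h3 : e ∉ ins B T := fun h => heB (Finset.mem_filter.1 h).1
      rw [h2, Finset.card_insert_of_notMem h3] at h1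
      have h4 := hTt.2
      omega
    · intro hfT
      refine ⟨?_, ?_⟩
      · intro g hg
        rcases Finset.mem_insert.1 hg with rfl | hg
        · exact hecard
        · exact hsp.1 g (Finset.mem_of_mem_erase hg)
      · intro X hX
        by_cases heX : e ⊆ X
        · have h1 : ins (insert e (B.erase f)) X = insert e (ins (B.erase f) X) := by
            ext g
            simp only [ins, Finset.mem_filter, Finset.mem_insert, Finset.mem_erase]
            constructor
            · rintro ⟨rfl | h3, h4⟩
              · exact Or.inl rfl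
              · exact Or.inr ⟨h3, h4⟩
            · rintro (rfl | h3)
              · exact ⟨Or.inl rfl, heX⟩
              · exact ⟨Or.inr h3.1, h3.2⟩
          have h2 : (ins (insert e (B.erase f)) X).card ≤ (ins (B.erase f) X).card + 1 := by
            rw [h1]; exact Finset.card_insert_le _ _
          have h3 : ins (B.erase f) X ⊆ ins B X :=
            Finset.filter_subset_filter _ (Finset.erase_subset _ _)
          have h4 := hsp.2 X hX
          by_contra hcon
          have h5 := Finset.card_le_card h3
          -- then `X` is tight and `f` is not inside `X`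
          have hXt : Tight B X := ⟨hX, by omega⟩
          have hfX : f ⊆ X := hfT.trans (hleast X hXt heX)
          have h6 : f ∉ ins (B.erase f) X := fun h => by
            have := (Finset.mem_filter.1 h).1
            exact absurd rfl (Finset.ne_of_mem_erase this)
          have h7 : insert f (ins (B.erase f) X) ⊆ ins B X := by
            intro g hg
            rcases Finset.mem_insert.1 hg with rfl | hg
            · exact Finset.mem_filter.2 ⟨hf, hfX⟩
            · exact h3 hg
          have h8 := Finset.card_le_card h7
          rw [Finset.card_insert_of_notMem h6] at h8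
          omega
        · have h1 : ins (insert e (B.erase f)) X ⊆ ins B X := by
            intro g hg
            simp only [ins, Finset.mem_filter, Finset.mem_insert, Finset.mem_erase] at hg ⊢
            obtain ⟨rfl | h3, h4⟩ := hg
            · exact absurd h4 heX
            · exact ⟨h3.2, h4⟩
          have h2 := Finset.card_le_card h1
          have h3 := hsp.2 X hX
          omega
  refine ⟨T, hTt, heT, ?_, hiff⟩
  ext v
  unfold tset
  rw [Finset.mem_biUnion]
  constructor
  · rintro ⟨f, hf, hv⟩
    rw [Finset.mem_filter] at hf
    exact (hiff f hf.1).1 hf.2 hv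
  · intro hv
    obtain ⟨f, hf, hfT, hvf⟩ := tight_cover hsp hTt hv
    exact ⟨f, Finset.mem_filter.2 ⟨hf, (hiff f hf).2 hfT⟩, hvf⟩

theorem tset_spec (hG : IsGraph W E) (hB : MaxSp E B) {e : Finset V} (he : e ∈ E)
    (heB : e ∉ B) : Tight B (tset B e) ∧ e ⊆ tset B e ∧
      ∀ f ∈ B, f ⊆ tset B e → Sparse (insert e (B.erase f)) := by
  obtain ⟨T, h1, h2, h3, h4⟩ := tset_aux hG hB he heB
  rw [h3]
  exact ⟨h1, h2, fun f hf hfT => (h4 f hf).2 hfT⟩

end

end Pool.Agent.Lib.MP_5d015b_lc
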