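import Pool.Agent.Lib.MP_5d015b_lc.SP1
import Pool.Agent.Lib.MP_5d015b_lc.TSET

/-!
# Module BDY: the bodies
-/

set_option autoImplicit false
set_option linter.unusedSectionVars false

namespace Pool.Agent.Lib.MP_5d015b_lc

variable {V : Type*} [DecidableEq V]
variable {W : Finset V} {E B XX : Finset (Finset V)}

theorem bdy_sub_mstep (X : Finset V) : X ⊆ mstep E B X := Finset.subset_union_left

theorem bdy_mstep_mono {X X' : Finset V} (h : X ⊆ X') : mstep E B X ⊆ mstep E B X' := by
  unfold mstep
  apply Finset.union_subset_union h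
  apply Finset.biUnion_subset_biUnion_of_subset_left
  intro e he
  rw [Finset.mem_filter] at he ⊢
  exact ⟨he.1, le_trans he.2 (Finset.card_le_card (Finset.inter_subset_inter_left h))⟩

theorem bdy_tset_sub (hG : IsGraph W E) (hB : MaxSp E B) (e : Finset V) : tset B e ⊆ W := by
  classical
  unfold tset
  intro v hv
  rw [Finset.mem_biUnion] at hv
  obtain ⟨f, hf, hv⟩ := hv
  rw [Finset.mem_filter] at hf
  exact hG.sub f (hB.1 hf.1) hv

theorem bdy_mstep_sub (hG : IsGraph W E) (hB : MaxSp E B) {X : Finset V} (h : X ⊆ W) :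
    mstep E B X ⊆ W := by
  unfold mstep
  apply Finset.union_subset h
  intro v hv
  rw [Finset.mem_biUnion] at hv
  obtain ⟨f, hf, hv⟩ := hv
  exact bdy_tset_sub hG hB f hv

theorem bdy_iter_mono (k : ℕ) {X X' : Finset V} (h : X ⊆ X') :
    (mstep E B)^[k] X ⊆ (mstep E B)^[k] X' := by
  induction k generalizing X X' with
  | zero => simpa using h
  | succ k ih =>
    rw [Function.iterate_succ_apply, Function.iterate_succ_apply]
    exact ih (bdy_mstep_mono h)

theorem bdy_iter_sub (hG : IsGraph W E) (hB : MaxSp E B) (k : ℕ) {X : Finset V} (h : X ⊆ W) :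
    (mstep E B)^[k] X ⊆ W := by
  induction k generalizing X with
  | zero => simpa using h
  | succ k ih =>
    rw [Function.iterate_succ_apply]
    exact ih (bdy_mstep_sub hG hB h)

theorem bdy_sub_iter (k : ℕ) (X : Finset V) : X ⊆ (mstep E B)^[k] X := by
  induction k generalizing X with
  | zero => simp
  | succ k ih =>
    rw [Function.iterate_succ_apply]
    exact (bdy_sub_mstep X).trans (ih _)

theorem bdy_iter_fix (k : ℕ) {X : Finset V} (h : mstep E B X = X) : (mstep E B)^[k] X = X :=
  Function.iterate_fixed h k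

/-- after `|W|` steps the iteration is at a fixed point -/
theorem bdy_fix (hG : IsGraph W E) (hB : MaxSp E B) {n : ℕ} (hn : W.card ≤ n) {X : Finset V}
    (hX : X ⊆ W) : mstep E B ((mstep E B)^[n] X) = (mstep E B)^[n] X := by
  have key : ∀ k, mstep E B ((mstep E B)^[k] X) = (mstep E B)^[k] X ∨
      k ≤ ((mstep E B)^[k] X).card := by
    intro k
    induction k with
    | zero => right; simp
    | succ k ih =>
      rcases ih with h | h
      · left
        rw [Function.iterate_succ_apply', h, h]
      · by_cases h' : mstep E B ((mstep E B)^[k] X) = (mstep E B)^[k] X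
        · left
          rw [Function.iterate_succ_apply', h', h']
        · right
          rw [Function.iterate_succ_apply']
          have : (mstep E B)^[k] X ⊂ mstep E B ((mstep E B)^[k] X) :=
            Finset.ssubset_iff_subset_ne.mpr ⟨bdy_sub_mstep _, fun h => h' h.symm⟩
          have := Finset.card_lt_card this
          omega
  rcases key n with h | h
  · exact h
  · have h1 : (mstep E B)^[n] X = W :=
      Finset.eq_of_subset_of_card_le (bdy_iter_sub hG hB n hX) (le_trans hn h)
    rw [h1]
    exact Finset.Subset.antisymm (bdy_mstep_sub hG hB (Finset.Subset.refl _)) (bdy_sub_mstep _)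

theorem bdy_closed {X : Finset V} (h : mstep E B X = X) {e : Finset V} (he : e ∈ E)
    (heB : e ∉ B) (h2 : 2 ≤ (tset B e ∩ X).card) : tset B e ⊆ X := by
  have h1 : tset B e ⊆ mstep E B X := by
    unfold mstep
    refine Finset.Subset.trans ?_ Finset.subset_union_right
    refine Finset.subset_biUnion_of_mem (tset B) ?_
    rw [Finset.mem_filter, Finset.mem_sdiff]
    exact ⟨⟨he, heB⟩, h2⟩
  rwa [h] at h1

/-- invariant of the construction -/
structure BdyInv (W : Finset V) (E B : Finset (Finset V)) (n : ℕ) (X : Finset V) : Prop where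
  tight : Tight B X
  sub : X ⊆ W
  hull : ∀ g ∈ B, g ⊆ X → X ⊆ body E B n g

theorem bdy_body_fix (hG : IsGraph W E) (hB : MaxSp E B) {n : ℕ} (hn : W.card ≤ n)
    {g : Finset V} (hg : g ∈ B) : mstep E B (body E B n g) = body E B n g :=
  bdy_fix hG hB hn (hG.sub g (hB.1 hg))

theorem bdy_inv_edge (hG : IsGraph W E) (hB : MaxSp E B) {n : ℕ}
    {b : Finset V} (hb : b ∈ B) : BdyInv W E B n b := by
  refine ⟨tight_edge hB.2.1 hb, hG.sub b (hB.1 hb), ?_⟩
  intro g hg hgb
  have h1 : g = b := Finset.eq_of_subset_of_card_le hgb (by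
    rw [hB.2.1.1 g hg, hB.2.1.1 b hb])
  subst h1
  exact bdy_sub_iter n g

/-- a tight set contains an edge -/
theorem bdy_tight_edge {X : Finset V} (hX : Tight B X) : ∃ g ∈ B, g ⊆ X := by
  have h : 0 < (ins B X).card := by
    have := hX.1
    have := hX.2
    omega
  obtain ⟨g, hg⟩ := Finset.card_pos.mp h
  rw [ins, Finset.mem_filter] at hg
  exact ⟨g, hg⟩

theorem bdy_two_le {g X : Finset V} (hg : g.card = 2) (h : g ⊆ X) {Y : Finset V} (hY : g ⊆ Y) :
    2 ≤ (Y ∩ X).card := by
  rw [← hg]
  exact Finset.card_le_card (Finset.subset_inter hY h)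

theorem bdy_inv_union (hG : IsGraph W E) (hB : MaxSp E B) {n : ℕ} (hn : W.card ≤ n)
    {X : Finset V} (hX : BdyInv W E B n X) {e : Finset V} (he : e ∈ E) (heB : e ∉ B)
    (h2 : 2 ≤ (tset B e ∩ X).card) : BdyInv W E B n (X ∪ tset B e) := by
  obtain ⟨hT, heT, hTf⟩ := tset_spec hG hB he heB
  have h2' : 2 ≤ (X ∩ tset B e).card := by rwa [Finset.inter_comm]
  obtain ⟨u1, u2, u3⟩ := tight_union hB.2.1 hX.tight hT h2'
  refine ⟨u1, Finset.union_subset hX.sub (bdy_tset_sub hG hB e), ?_⟩
  intro g hg hgX
  have hfix := bdy_body_fix hG hB hn hg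
  have hcard := hB.2.1.1 g hg
  have hmem : g ∈ ins B X ∪ ins B (tset B e) := by
    rw [← u3, ins, Finset.mem_filter]
    exact ⟨hg, hgX⟩
  rw [Finset.mem_union] at hmem
  rcases hmem with hm | hm
  · rw [ins, Finset.mem_filter] at hm
    have h1 := hX.hull g hg hm.2
    refine Finset.union_subset h1 (bdy_closed hfix he heB ?_)
    exact le_trans h2 (Finset.card_le_card (Finset.inter_subset_inter_left h1))
  · rw [ins, Finset.mem_filter] at hm
    have h1 : tset B e ⊆ body E B n g :=
      bdy_closed hfix he heB (bdy_two_le hcard (bdy_sub_iter n g) hm.2)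
    obtain ⟨g', hg', hg'X⟩ := bdy_tight_edge u2
    have h3 : X ⊆ body E B n g' :=
      hX.hull g' hg' (hg'X.trans Finset.inter_subset_left)
    have h4 : body E B n g' ⊆ body E B n g := by
      have h5 : g' ⊆ body E B n g := (hg'X.trans Finset.inter_subset_right).trans h1
      have h6 : (mstep E B)^[n] g' ⊆ (mstep E B)^[n] (body E B n g) := bdy_iter_mono n h5
      rw [bdy_iter_fix n hfix] at h6
      exact h6
    exact Finset.union_subset (h3.trans h4) h1

theorem bdy_inv_mstep (hG : IsGraph W E) (hB : MaxSp E B) {n : ℕ} (hn : W.card ≤ n)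
    {X : Finset V} (hX : BdyInv W E B n X) : BdyInv W E B n (mstep E B X) := by
  unfold mstep
  have key : ∀ S : Finset (Finset V), S ⊆ ((E \ B).filter fun e => 2 ≤ (tset B e ∩ X).card) →
      BdyInv W E B n (X ∪ S.biUnion (tset B)) := by
    intro S
    induction S using Finset.induction_on with
    | empty => intro _; simpa using hX
    | insert e S heS ih =>
      intro hS
      have h1 := ih (fun x hx => hS (Finset.mem_insert_of_mem hx))
      have h2 := hS (Finset.mem_insert_self e S)
      rw [Finset.mem_filter, Finset.mem_sdiff] at h2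
      have h3 := bdy_inv_union hG hB hn h1 h2.1.1 h2.1.2
        (le_trans h2.2 (Finset.card_le_card
          (Finset.inter_subset_inter_left Finset.subset_union_left)))
      rw [Finset.biUnion_insert, Finset.union_comm (tset B e), ← Finset.union_assoc]
      exact h3
  exact key _ (Finset.Subset.refl _)

theorem bdy_inv_iter (hG : IsGraph W E) (hB : MaxSp E B) {n : ℕ} (hn : W.card ≤ n) (k : ℕ)
    {X : Finset V} (hX : BdyInv W E B n X) : BdyInv W E B n ((mstep E B)^[k] X) := by
  induction k generalizing X with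
  | zero => simpa using hX
  | succ k ih =>
    rw [Function.iterate_succ_apply]
    exact ih (bdy_inv_mstep hG hB hn hX)

theorem bdy_inv_body (hG : IsGraph W E) (hB : MaxSp E B) {n : ℕ} (hn : W.card ≤ n)
    {b : Finset V} (hb : b ∈ B) : BdyInv W E B n (body E B n b) :=
  bdy_inv_iter hG hB hn n (bdy_inv_edge hG hB hb)

/-- the bodies of the edges of a body are this body -/
theorem bdy_body_eq (hG : IsGraph W E) (hB : MaxSp E B) {n : ℕ} (hn : W.card ≤ n)
    {b g : Finset V} (hb : b ∈ B) (hg : g ∈ B) (h : g ⊆ body E B n b) :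
    body E B n g = body E B n b := by
  apply Finset.Subset.antisymm
  · have h6 : (mstep E B)^[n] g ⊆ (mstep E B)^[n] (body E B n b) := bdy_iter_mono n h
    rw [bdy_iter_fix n (bdy_body_fix hG hB hn hb)] at h6
    exact h6
  · exact (bdy_inv_body hG hB hn hb).hull g hg h

theorem bodies_spec (hG : IsGraph W E) (hB : MaxSp E B) {n : ℕ} (hn : W.card ≤ n) :
    Bodies E B (B.image (body E B n)) := by
  refine ⟨?_, ?_, ?_, ?_⟩
  · intro X hX
    rw [Finset.mem_image] at hX
    obtain ⟨b, hb, rfl⟩ := hX
    exact (bdy_inv_body hG hB hn hb).tight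
  · intro X hX Z hZ hne
    rw [Finset.mem_image] at hX hZ
    obtain ⟨b, hb, rfl⟩ := hX
    obtain ⟨c, hc, rfl⟩ := hZ
    by_contra hcon
    push Not at hcon
    obtain ⟨u1, u2, u3⟩ := tight_union hB.2.1 (bdy_inv_body hG hB hn hb).tight
      (bdy_inv_body hG hB hn hc).tight hcon
    obtain ⟨g, hg, hgX⟩ := bdy_tight_edge u2
    have h1 := bdy_body_eq hG hB hn hb hg (hgX.trans Finset.inter_subset_left)
    have h2 := bdy_body_eq hG hB hn hc hg (hgX.trans Finset.inter_subset_right)
    exact hne (h1.symm.trans h2)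
  · intro e he
    by_cases heB : e ∈ B
    · exact ⟨body E B n e, Finset.mem_image_of_mem _ heB, bdy_sub_iter n e⟩
    · obtain ⟨hT, heT, hTf⟩ := tset_spec hG hB he heB
      obtain ⟨g, hg, hgX⟩ := bdy_tight_edge hT
      refine ⟨body E B n g, Finset.mem_image_of_mem _ hg, heT.trans ?_⟩
      exact bdy_closed (bdy_body_fix hG hB hn hg) he heB
        (bdy_two_le (hB.2.1.1 g hg) (bdy_sub_iter n g) hgX)
  · intro X hX
    rw [Finset.mem_image] at hX
    obtain ⟨b, hb, rfl⟩ := hX
    by_cases h2 : (body E B n b).card = 2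
    · left; exact h2
    right
    intro g hg hgX
    have hgb := bdy_body_eq hG hB hn hb hg hgX
    have hfix := bdy_body_fix hG hB hn hg
    have hnf : mstep E B g ≠ g := by
      intro h
      have h3 : body E B n g = g := bdy_iter_fix n h
      rw [← hgb, h3] at h2
      exact h2 (hB.2.1.1 g hg)
    have hex : ∃ e ∈ E, e ∉ B ∧ 2 ≤ (tset B e ∩ g).card := by
      by_contra hcon
      push Not at hcon
      apply hnf
      unfold mstep
      have : ((E \ B).filter fun e => 2 ≤ (tset B e ∩ g).card) = ∅ := by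
        rw [Finset.filter_eq_empty_iff]
        intro e he
        rw [Finset.mem_sdiff] at he
        have := hcon e he.1 he.2
        omega
      rw [this]
      simp
    obtain ⟨e, he, heB, h3⟩ := hex
    obtain ⟨hT, heT, hTf⟩ := tset_spec hG hB he heB
    have hge : g ⊆ tset B e := by
      have h4 : tset B e ∩ g = g := Finset.eq_of_subset_of_card_le Finset.inter_subset_right
        (by rw [hB.2.1.1 g hg]; exact h3)
      rw [← h4]
      exact Finset.inter_subset_left
    refine ⟨e, he, heB, ?_, hTf g hg hge⟩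
    rw [← hgb]
    exact heT.trans (bdy_closed hfix he heB
      (bdy_two_le (hB.2.1.1 g hg) (bdy_sub_iter n g) hge))

theorem sc_bodies (hG : IsGraph W E) (hB : MaxSp E B) {n : ℕ} (hn : W.card ≤ n) (Y : Finset V) :
    sc (B.image (body E B n)) Y = (B.filter fun b => (body E B n b ∩ Y).Nonempty).card := by
  unfold sc
  have h1 : (B.filter fun b => (body E B n b ∩ Y).Nonempty).card =
      ∑ X ∈ (B.image (body E B n)).filter (fun X => (X ∩ Y).Nonempty),
        ((B.filter fun b => (body E B n b ∩ Y).Nonempty).filter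
          fun b => body E B n b = X).card := by
    apply Finset.card_eq_sum_card_fiberwise
    intro b hb
    rw [Finset.mem_coe, Finset.mem_filter] at hb
    rw [Finset.mem_coe, Finset.mem_filter]
    exact ⟨Finset.mem_image_of_mem _ hb.1, hb.2⟩
  rw [h1]
  apply Finset.sum_congr rfl
  intro X hX
  rw [Finset.mem_filter, Finset.mem_image] at hX
  obtain ⟨⟨b, hb, rfl⟩, hXY⟩ := hX
  have h2 : ((B.filter fun b => (body E B n b ∩ Y).Nonempty).filter
      fun c => body E B n c = body E B n b) = ins B (body E B n b) := by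
    ext g
    rw [ins, Finset.mem_filter, Finset.mem_filter, Finset.mem_filter]
    constructor
    · rintro ⟨⟨hg, -⟩, h⟩
      refine ⟨hg, ?_⟩
      rw [← h]
      exact bdy_sub_iter n g
    · rintro ⟨hg, h⟩
      have := bdy_body_eq hG hB hn hb hg h
      rw [this]
      exact ⟨⟨hg, hXY⟩, rfl⟩
  rw [h2]
  have := (bdy_inv_body hG hB hn hb).tight.2
  omega

end Pool.Agent.Lib.MP_5d015b_lc
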