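import Pool.Agent.Lib.MP_5d015b_lc.Defs

/-!
# Bodies: counting

Basic inequalities for the bodies inside a set of vertices.
-/

set_option autoImplicit false
set_option linter.unusedSectionVars false

namespace Pool.Agent.Lib.MP_5d015b_lc

variable {V : Type*} [DecidableEq V]

variable {W : Finset V} {E B XX : Finset (Finset V)}

/-- a family of bodies inside `S` -/
theorem sum_le_ins (hB : Sparse B) (hX : Bodies E B XX) {FF : Finset (Finset V)} (hFF : FF ⊆ XX)
    {S : Finset V} (hS : ∀ X ∈ FF, X ⊆ S) : ∑ X ∈ FF, (2 * X.card - 3) ≤ (ins B S).card := by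
  have h1 : ∀ X ∈ FF, 2 * X.card - 3 = (ins B X).card := by
    intro X hX1
    have := (hX.tight X (hFF hX1)).2
    omega
  rw [Finset.sum_congr rfl h1, ← Finset.card_biUnion]
  · apply Finset.card_le_card
    intro e he
    rw [Finset.mem_biUnion] at he
    obtain ⟨X, hX1, he⟩ := he
    rw [ins, Finset.mem_filter] at he ⊢
    exact ⟨he.1, he.2.trans (hS X hX1)⟩
  · intro X hX1 Z hZ1 hne
    rw [Function.onFun, Finset.disjoint_left]
    intro e he he'
    rw [ins, Finset.mem_filter] at he he'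
    have h2 : e.card = 2 := hB.1 e he.1
    have h3 : e ⊆ X ∩ Z := Finset.subset_inter he.2 he'.2
    have h4 := Finset.card_le_card h3
    have h5 := hX.inter X (hFF hX1) Z (hFF hZ1) hne
    omega

theorem sum_le_of_card (hB : Sparse B) (hX : Bodies E B XX) {FF : Finset (Finset V)}
    (hFF : FF ⊆ XX) {S : Finset V} (hS : ∀ X ∈ FF, X ⊆ S) (h2 : 2 ≤ S.card) :
    ∑ X ∈ FF, (2 * X.card - 3) + 3 ≤ 2 * S.card :=
  (Nat.add_le_add_right (sum_le_ins hB hX hFF hS) 3).trans (hB.2 S h2)

theorem sum_eq_zero (hX : Bodies E B XX) {FF : Finset (Finset V)} (hFF : FF ⊆ XX)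
    {S : Finset V} (hS : ∀ X ∈ FF, X ⊆ S) (h2 : S.card ≤ 1) :
    ∑ X ∈ FF, (2 * X.card - 3) = 0 := by
  apply Finset.sum_eq_zero
  intro X hX1
  have h1 := Finset.card_le_card (hS X hX1)
  have h3 := (hX.tight X (hFF hX1)).1
  omega

/-- every edge of `B` inside `S` whose body is not inside `S` can be added -/
theorem sc_add_le (hG : IsGraph W E) (hB : MaxSp E B) (hX : Bodies E B XX) (Y S : Finset V)
    (h : ∀ X ∈ XX, (X ∩ Y).Nonempty → X ⊆ S) : sc XX Y ≤ (ins B S).card := by
  rw [sc]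
  apply sum_le_ins hB.2.1 hX (Finset.filter_subset _ _)
  intro X hX1
  rw [Finset.mem_filter] at hX1
  exact h X hX1.1 hX1.2

theorem sc_mono (XX : Finset (Finset V)) {A A' : Finset V} (h : A ⊆ A') : sc XX A ≤ sc XX A' := by
  rw [sc, sc]
  apply Finset.sum_le_sum_of_subset
  intro X hX1
  rw [Finset.mem_filter] at hX1 ⊢
  exact ⟨hX1.1, hX1.2.mono (Finset.inter_subset_inter_left h)⟩

end Pool.Agent.Lib.MP_5d015b_lc
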