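import Pool.Agent.Lib.MP_5d015b_lc.SP1
import Pool.Agent.Lib.MP_5d015b_lc.AlgDefs
import Pool.Agent.Lib.MP_5d015b_lc.LB
import Pool.Agent.Lib.MP_5d015b_lc.SPL

/-!
# Maximal sparse subsets by the greedy algorithm
-/

set_option autoImplicit false
set_option linter.unusedSectionVars false

namespace Pool.Agent.Lib.MP_5d015b_lc

open Pool.Agent.Lib.Parity Pool.Agent.Lib.PolyTime


/-- one step of the greedy algorithm -/
def bstepL (D : List (ℕ × ℕ)) (e : ℕ × ℕ) : List (ℕ × ℕ) :=
  if sparseL (e :: D) = true then e :: D else D

theorem foldl_bstepL {n : ℕ} (L : List (ℕ × ℕ)) : ∀ D : List (ℕ × ℕ), Good n D → Good n L →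
    (∀ e ∈ L, e ∉ D) → Sparse (toE D) →
    Good n (L.foldl bstepL D) ∧ (∀ e ∈ L.foldl bstepL D, e ∈ L ∨ e ∈ D) ∧
      toE D ⊆ toE (L.foldl bstepL D) ∧ Sparse (toE (L.foldl bstepL D)) ∧
      ∀ e ∈ L, e ∉ L.foldl bstepL D → ¬ Sparse (insert {e.1, e.2} (toE (L.foldl bstepL D))) := by
  induction L with
  | nil =>
    intro D hD hL hLD hs
    refine ⟨hD, fun e he => Or.inr he, Finset.Subset.refl _, hs, ?_⟩
    intro e he
    simp at he
  | cons a L ih =>
    intro D hD hL hLD hs
    have haL : a ∉ L := (List.nodup_cons.1 hL.1).1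
    have hL' : Good n L :=
      ⟨(List.nodup_cons.1 hL.1).2, fun e he => hL.2 e (List.mem_cons_of_mem a he)⟩
    have haD : a ∉ D := hLD a List.mem_cons_self
    have haG : Good n (a :: D) := by
      refine ⟨List.nodup_cons.2 ⟨haD, hD.1⟩, ?_⟩
      intro e he
      rw [List.mem_cons] at he
      rcases he with rfl | he
      · exact hL.2 _ List.mem_cons_self
      · exact hD.2 e he
    rw [List.foldl_cons]
    by_cases hsp : sparseL (a :: D) = true
    · have h1 : bstepL D a = a :: D := by rw [bstepL, if_pos hsp]
      rw [h1]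
      obtain ⟨i1, i2, i3, i4, i5⟩ := ih (a :: D) haG hL' (by
        intro e he heD
        rw [List.mem_cons] at heD
        rcases heD with rfl | heD
        · exact haL he
        · exact hLD e (List.mem_cons_of_mem a he) heD) ((sparseL_spec haG).1 hsp)
      refine ⟨i1, ?_, ?_, i4, ?_⟩
      · intro e he
        rcases i2 e he with h | h
        · exact Or.inl (List.mem_cons_of_mem a h)
        · rw [List.mem_cons] at h
          rcases h with rfl | h
          · exact Or.inl List.mem_cons_self
          · exact Or.inr h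
      · refine Finset.Subset.trans ?_ i3
        rw [toE_cons]
        exact Finset.subset_insert _ _
      · intro e he hne
        rw [List.mem_cons] at he
        rcases he with rfl | he
        · exfalso
          apply hne
          have h2 := hL.2 e List.mem_cons_self
          rw [← Prod.mk.eta (p := e), ← mem_toE i1 h2.1]
          apply i3
          rw [toE_cons]
          exact Finset.mem_insert_self _ _
        · exact i5 e he hne
    · have h1 : bstepL D a = D := by rw [bstepL, if_neg hsp]
      rw [h1]
      obtain ⟨i1, i2, i3, i4, i5⟩ := ih D hD hL'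
        (fun e he => hLD e (List.mem_cons_of_mem a he)) hs
      refine ⟨i1, ?_, i3, i4, ?_⟩
      · intro e he
        rcases i2 e he with h | h
        · exact Or.inl (List.mem_cons_of_mem a h)
        · exact Or.inr h
      · intro e he hne
        rw [List.mem_cons] at he
        rcases he with rfl | he
        · intro hcon
          apply hsp
          rw [sparseL_spec haG, toE_cons]
          exact hcon.mono (Finset.insert_subset_insert _ i3)
        · exact i5 e he hne

theorem baseL_spec {n : ℕ} {F : List (ℕ × ℕ)} (h : Good n F) :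
    Good n (baseL F) ∧ (∀ e ∈ baseL F, e ∈ F) ∧ MaxSp (toE F) (toE (baseL F)) := by
  have h0 : baseL F = F.foldl bstepL [] := rfl
  rw [h0]
  have hs : Sparse (toE ([] : List (ℕ × ℕ))) := by
    constructor
    · intro e he
      simp [toE] at he
    · intro X hX
      have : ins (toE ([] : List (ℕ × ℕ))) X = ∅ := by simp [toE, ins]
      rw [this, Finset.card_empty]
      omega
  obtain ⟨i1, i2, i3, i4, i5⟩ := foldl_bstepL F [] ⟨List.nodup_nil, by simp⟩ h (by simp) hs
  refine ⟨i1, fun e he => (i2 e he).resolve_right (by simp), ?_, i4, ?_⟩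
  · intro X hX
    rw [toE, List.mem_toFinset, List.mem_map] at hX ⊢
    obtain ⟨e, he, rfl⟩ := hX
    exact ⟨e, (i2 e he).resolve_right (by simp), rfl⟩
  · intro X hX hXD
    rw [toE, List.mem_toFinset, List.mem_map] at hX
    obtain ⟨e, he, rfl⟩ := hX
    apply i5 e he
    intro hc
    apply hXD
    rw [toE, List.mem_toFinset, List.mem_map]
    exact ⟨e, hc, rfl⟩

end Pool.Agent.Lib.MP_5d015b_lc
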