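import Pool.Agent.Lib.MP_5d015b_lc.Defs

/-!
# Module EX0: the structure of a dangerous set
-/

set_option autoImplicit false
set_option linter.unusedSectionVars false

namespace Pool.Agent.Lib.MP_5d015b_lc

variable {V : Type*} [DecidableEq V]

section
variable {W : Finset V} {E B XX : Finset (Finset V)}

lemma ex0_ins_le (hB : Sparse B) (S : Finset V) : (ins B S).card ≤ 2 * S.card - 3 := by
  by_cases h : 2 ≤ S.card
  · have := hB.2 S h
    omega
  · have : ins B S = ∅ := by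
      rw [Finset.eq_empty_iff_forall_notMem]
      intro e he
      rw [ins, Finset.mem_filter] at he
      have h1 := hB.1 e he.1
      have h2 := Finset.card_le_card he.2
      omega
    rw [this]
    simp

lemma ex0_sum_le (hB : Sparse B) (hX : Bodies E B XX) {FF : Finset (Finset V)} (hFF : FF ⊆ XX)
    {S : Finset V} (hS : ∀ X ∈ FF, X ⊆ S) : ∑ X ∈ FF, (2 * X.card - 3) ≤ (ins B S).card := by
  have h1 : ∑ X ∈ FF, (2 * X.card - 3) = ∑ X ∈ FF, (ins B X).card := by
    refine Finset.sum_congr rfl fun X hXF => ?_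
    have := (hX.tight X (hFF hXF)).2
    omega
  rw [h1, ← Finset.card_biUnion]
  · apply Finset.card_le_card
    intro e he
    rw [Finset.mem_biUnion] at he
    obtain ⟨X, hXF, he⟩ := he
    rw [ins, Finset.mem_filter] at he ⊢
    exact ⟨he.1, he.2.trans (hS X hXF)⟩
  · intro X hXF Z hZF hXZ
    show Disjoint (ins B X) (ins B Z)
    rw [Finset.disjoint_left]
    intro e he he'
    rw [ins, Finset.mem_filter] at he he'
    have h2 := hX.inter X (hFF hXF) Z (hFF hZF) hXZ
    have h3 := Finset.card_le_card (Finset.subset_inter he.2 he'.2)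
    have h4 := hB.1 e he.1
    omega

lemma ex0_edge {Y e : Finset V} (he : e ∈ E) (h : (e ∩ Y).Nonempty) : e ⊆ Y ∪ nb E Y := by
  intro x hx
  by_cases hxY : x ∈ Y
  · exact Finset.mem_union_left _ hxY
  · refine Finset.mem_union_right _ ?_
    rw [nb, Finset.mem_sdiff, Finset.mem_biUnion]
    exact ⟨⟨e, Finset.mem_filter.2 ⟨he, h⟩, hx⟩, hxY⟩

lemma ex0_disj (Y : Finset V) {x : V} (h : x ∈ nb E Y) : x ∉ Y := by
  rw [nb, Finset.mem_sdiff] at h
  exact h.2

lemma ex0_union (Y : Finset V) : (Y ∪ nb E Y).card = Y.card + (nb E Y).card := by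
  apply Finset.card_union_of_disjoint
  rw [Finset.disjoint_left]
  intro x hx hx'
  exact ex0_disj Y hx' hx

lemma ex0_ab (hB : Sparse B) (hBE : B ⊆ E) {X Y : Finset V} (hX : Tight B X)
    (hXY : (X ∩ Y).Nonempty) (hXT : ¬ X ⊆ Y ∪ nb E Y) (hn : (nb E Y).card ≤ 2) :
    nb E Y ⊆ X ∧ (nb E Y).card = 2 := by
  have hins : ins B X ⊆ ins B (X ∩ Y ∪ X ∩ nb E Y) ∪ ins B (X ∩ nb E Y ∪ X \ (Y ∪ nb E Y)) := by
    intro e he
    rw [ins, Finset.mem_filter] at he
    rw [Finset.mem_union, ins, ins, Finset.mem_filter, Finset.mem_filter]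
    by_cases h : (e ∩ Y).Nonempty
    · left
      refine ⟨he.1, ?_⟩
      rw [← Finset.inter_union_distrib_left]
      exact Finset.subset_inter he.2 (ex0_edge (hBE he.1) h)
    · right
      refine ⟨he.1, fun x hx => ?_⟩
      have hxY : x ∉ Y := fun h' => h ⟨x, Finset.mem_inter.2 ⟨hx, h'⟩⟩
      rw [Finset.mem_union, Finset.mem_inter, Finset.mem_sdiff, Finset.mem_union]
      by_cases h' : x ∈ nb E Y
      · exact Or.inl ⟨he.2 hx, h'⟩
      · exact Or.inr ⟨he.2 hx, fun h'' => h''.elim hxY h'⟩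
  have h1 := (Finset.card_le_card hins).trans (Finset.card_union_le _ _)
  have h2 := ex0_ins_le hB (X ∩ Y ∪ X ∩ nb E Y)
  have h3 := ex0_ins_le hB (X ∩ nb E Y ∪ X \ (Y ∪ nb E Y))
  have c1 : (X ∩ Y ∪ X ∩ nb E Y).card = (X ∩ Y).card + (X ∩ nb E Y).card := by
    apply Finset.card_union_of_disjoint
    rw [Finset.disjoint_left]
    intro x hx hx'
    exact ex0_disj Y (Finset.mem_inter.1 hx').2 (Finset.mem_inter.1 hx).2
  have c2 : (X ∩ nb E Y ∪ X \ (Y ∪ nb E Y)).card =
      (X ∩ nb E Y).card + (X \ (Y ∪ nb E Y)).card := by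
    apply Finset.card_union_of_disjoint
    rw [Finset.disjoint_left]
    intro x hx hx'
    rw [Finset.mem_sdiff, Finset.mem_union] at hx'
    exact hx'.2 (Or.inr (Finset.mem_inter.1 hx).2)
  have c3 : X.card = (X ∩ Y).card + (X ∩ nb E Y).card + (X \ (Y ∪ nb E Y)).card := by
    rw [← c1, ← Finset.inter_union_distrib_left]
    exact (Finset.card_inter_add_card_sdiff X (Y ∪ nb E Y)).symm
  have h4 : 1 ≤ (X ∩ Y).card := Finset.card_pos.2 hXY
  have h5 : 1 ≤ (X \ (Y ∪ nb E Y)).card := Finset.card_pos.2 (Finset.sdiff_nonempty.2 hXT)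
  have h6 := hX.2
  have h7 : 2 ≤ (X ∩ nb E Y).card := by omega
  have h8 : (X ∩ nb E Y).card ≤ (nb E Y).card := Finset.card_le_card Finset.inter_subset_right
  have h9 : X ∩ nb E Y = nb E Y :=
    Finset.eq_of_subset_of_card_le Finset.inter_subset_right (by omega)
  refine ⟨?_, by omega⟩
  rw [← h9]
  exact Finset.inter_subset_left

lemma ex0_caseA (hB : Sparse B) (hX : Bodies E B XX) {Y : Finset V}
    (h : ∀ Z ∈ XX, (Z ∩ Y).Nonempty → Z ⊆ Y ∪ nb E Y) :
    sc XX Y ≤ 2 * (Y.card + (nb E Y).card) - 3 := by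
  have h1 : sc XX Y ≤ (ins B (Y ∪ nb E Y)).card := by
    refine ex0_sum_le hB hX (Finset.filter_subset _ _) fun X hXF => ?_
    rw [Finset.mem_filter] at hXF
    exact h X hXF.1 hXF.2
  have h2 := ex0_ins_le hB (Y ∪ nb E Y)
  rw [ex0_union] at h2
  omega

theorem ex_card (hG : IsGraph W E) (hB : MaxSp E B) (hX : Bodies E B XX) {Y : Finset V}
    (hY : Y ⊆ W) (hne : Y.Nonempty) (hn : (nb E Y).card ≤ 2) (g1 : G1 XX Y) :
    (nb E Y).card = 2 := by
  by_cases h : ∃ X ∈ XX, (X ∩ Y).Nonempty ∧ ¬ X ⊆ Y ∪ nb E Y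
  · obtain ⟨X, hXX, h1, h2⟩ := h
    exact (ex0_ab hB.2.1 hB.1 (hX.tight X hXX) h1 h2 hn).2
  · push Not at h
    have h1 := ex0_caseA hB.2.1 hX h
    have h2 := g1 Y (Finset.Subset.refl _) hne
    omega

/-- Case B or Case A -/
theorem ex_cases (hG : IsGraph W E) (hB : MaxSp E B) (hX : Bodies E B XX) {Y : Finset V}
    (hY : Y ⊆ W) (hne : Y.Nonempty) {a b : V} (hab : a ≠ b) (hn : nb E Y = {a, b})
    (g1 : G1 XX Y) :
    (∃ X ∈ XX, Y ∪ {a, b} ⊆ X ∧ ∀ Z ∈ XX, (Z ∩ Y).Nonempty → Z = X) ∨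
    ((∀ Z ∈ XX, (Z ∩ Y).Nonempty → Z ⊆ Y ∪ {a, b}) ∧ sc XX Y = 2 * Y.card + 1) := by
  have hc : (nb E Y).card = 2 := by rw [hn]; exact Finset.card_pair hab
  rw [← hn]
  by_cases h : ∃ X ∈ XX, (X ∩ Y).Nonempty ∧ ¬ X ⊆ Y ∪ nb E Y
  · left
    obtain ⟨X, hXX, h1, h2⟩ := h
    have hout : ∀ Z ∈ XX, (Z ∩ Y).Nonempty → ¬ Z ⊆ Y ∪ nb E Y → Z = X := by
      intro Z hZ h3 h4
      by_contra hne'
      have h5 := (ex0_ab hB.2.1 hB.1 (hX.tight Z hZ) h3 h4 hc.le).1
      have h6 := (ex0_ab hB.2.1 hB.1 (hX.tight X hXX) h1 h2 hc.le).1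
      have h7 := hX.inter Z hZ X hXX hne'
      have h8 := Finset.card_le_card (Finset.subset_inter h5 h6)
      omega
    have hab' := (ex0_ab hB.2.1 hB.1 (hX.tight X hXX) h1 h2 hc.le).1
    -- `Y ⊆ X`
    have hYX : Y ⊆ X := by
      by_contra hYX
      have hA : (Y \ X).Nonempty := Finset.sdiff_nonempty.2 hYX
      have hg := g1 (Y \ X) Finset.sdiff_subset hA
      set FF := XX.filter (fun Z => (Z ∩ (Y \ X)).Nonempty) with hFF
      have hXF : X ∉ FF := by
        rw [hFF, Finset.mem_filter]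
        rintro ⟨_, z, hz⟩
        rw [Finset.mem_inter, Finset.mem_sdiff] at hz
        exact hz.2.2 hz.1
      have hsub : ∀ Z ∈ insert X FF, Z ⊆ X ∪ (Y \ X) := by
        intro Z hZ
        rw [Finset.mem_insert] at hZ
        rcases hZ with rfl | hZ
        · exact Finset.subset_union_left
        · rw [hFF, Finset.mem_filter] at hZ
          obtain ⟨hZ, z, hz⟩ := hZ
          rw [Finset.mem_inter, Finset.mem_sdiff] at hz
          have hZY : (Z ∩ Y).Nonempty := ⟨z, Finset.mem_inter.2 ⟨hz.1, hz.2.1⟩⟩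
          by_cases hZT : Z ⊆ Y ∪ nb E Y
          · intro x hx
            have := hZT hx
            rw [Finset.mem_union] at this ⊢
            rw [Finset.mem_sdiff]
            by_cases hxX : x ∈ X
            · exact Or.inl hxX
            · rcases this with h3 | h3
              · exact Or.inr ⟨h3, hxX⟩
              · exact absurd (hab' h3) hxX
          · rw [hout Z hZ hZY hZT] at hz
            exact absurd hz.1 hz.2.2
      have hsum := ex0_sum_le hB.2.1 hX (FF := insert X FF)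
        (Finset.insert_subset hXX (Finset.filter_subset _ _)) hsub
      rw [Finset.sum_insert hXF] at hsum
      have h3 := ex0_ins_le hB.2.1 (X ∪ (Y \ X))
      have h4 : (X ∪ (Y \ X)).card = X.card + (Y \ X).card :=
        Finset.card_union_of_disjoint Finset.disjoint_sdiff
      have h5 := (hX.tight X hXX).1
      have h6 : sc XX (Y \ X) = ∑ Z ∈ FF, (2 * Z.card - 3) := rfl
      omega
    have hTX : Y ∪ nb E Y ⊆ X := Finset.union_subset hYX hab'
    refine ⟨X, hXX, hTX, fun Z hZ hZY => ?_⟩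
    by_cases hZT : Z ⊆ Y ∪ nb E Y
    · by_contra hne'
      have h3 := hX.inter Z hZ X hXX hne'
      rw [Finset.inter_eq_left.2 (hZT.trans hTX)] at h3
      have := (hX.tight Z hZ).1
      omega
    · exact hout Z hZ hZY hZT
  · right
    push Not at h
    refine ⟨h, ?_⟩
    have h1 := ex0_caseA hB.2.1 hX h
    have h2 := g1 Y (Finset.Subset.refl _) hne
    omega

end

end Pool.Agent.Lib.MP_5d015b_lc
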