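import Pool.Agent.Lib.MP_5d015b_lc.NBS
import Pool.Agent.Lib.MP_5d015b_lc.EX0

/-!
# Components of a graph without a set of vertices
-/

set_option autoImplicit false
set_option linter.unusedSectionVars false

namespace Pool.Agent.Lib.MP_5d015b_lc

variable {V : Type*} [DecidableEq V]

variable {W : Finset V} {E B XX : Finset (Finset V)}


theorem cstep_subset {A C X : Finset V} (hG : IsGraph W E) (hA : nb E A ⊆ C) (hX : X ⊆ A) :
    cstep E C X ⊆ A := by
  rw [cstep]
  apply Finset.union_subset hX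
  intro v hv
  rw [Finset.mem_sdiff, mem_nb hG] at hv
  obtain ⟨⟨-, u, hu, hE⟩, hvC⟩ := hv
  by_contra hvA
  apply hvC
  apply hA
  rw [mem_nb hG]
  exact ⟨hvA, u, hX hu, hE⟩

theorem cstep_iter_subset {A C X : Finset V} (hG : IsGraph W E) (hA : nb E A ⊆ C) (hX : X ⊆ A)
    (n : ℕ) : (cstep E C)^[n] X ⊆ A := by
  induction n with
  | zero => exact hX
  | succ n ih =>
    rw [Function.iterate_succ_apply']
    exact cstep_subset hG hA ih

theorem cstep_iter_sub (hG : IsGraph W E) {C X : Finset V} (hX : X ⊆ W \ C) (n : ℕ) :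
    (cstep E C)^[n] X ⊆ W \ C := by
  induction n with
  | zero => exact hX
  | succ n ih =>
    rw [Function.iterate_succ_apply', cstep]
    apply Finset.union_subset ih
    intro v hv
    rw [Finset.mem_sdiff] at hv ⊢
    exact ⟨(Finset.mem_sdiff.1 (nb_sub hG _ hv.1)).1, hv.2⟩

theorem subset_cstep_iter (E : Finset (Finset V)) (C X : Finset V) (n : ℕ) :
    X ⊆ (cstep E C)^[n] X := by
  induction n with
  | zero => exact Finset.Subset.refl X
  | succ n ih =>
    rw [Function.iterate_succ_apply', cstep]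
    exact ih.trans Finset.subset_union_left

theorem cstep_iter_card (E : Finset (Finset V)) (C : Finset V) (x : V) (n : ℕ) :
    cstep E C ((cstep E C)^[n] {x}) = (cstep E C)^[n] {x} ∨
      n + 1 ≤ ((cstep E C)^[n] {x}).card := by
  induction n with
  | zero =>
    right
    simp
  | succ n ih =>
    rw [Function.iterate_succ_apply']
    by_cases hs : cstep E C ((cstep E C)^[n] {x}) = (cstep E C)^[n] {x}
    · left
      rw [hs, hs]
    · right
      have h1 := ih.resolve_left hs
      have h2 : (cstep E C)^[n] {x} ⊂ cstep E C ((cstep E C)^[n] {x}) := by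
        refine Finset.ssubset_iff_subset_ne.2 ⟨?_, fun h => hs h.symm⟩
        rw [cstep]
        exact Finset.subset_union_left
      have h3 := Finset.card_lt_card h2
      omega

theorem comp_spec (hG : IsGraph W E) {C : Finset V} {x : V} (hx : x ∈ W \ C) {n : ℕ}
    (hn : W.card ≤ n) : x ∈ comp E C n x ∧ comp E C n x ⊆ W \ C ∧ nb E (comp E C n x) ⊆ C ∧
      ∀ A, x ∈ A → nb E A ⊆ C → comp E C n x ⊆ A := by
  have h2 : comp E C n x ⊆ W \ C :=
    cstep_iter_sub hG (Finset.singleton_subset_iff.2 hx) n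
  refine ⟨subset_cstep_iter E C {x} n (Finset.mem_singleton_self x), h2, ?_, ?_⟩
  · have h3 := Finset.card_le_card (h2.trans Finset.sdiff_subset)
    have h4 : cstep E C (comp E C n x) = comp E C n x := by
      rcases cstep_iter_card E C x n with h | h
      · exact h
      · exfalso
        rw [← comp] at h
        omega
    intro v hv
    by_contra hvC
    have h5 : v ∈ comp E C n x := by
      rw [← h4, cstep, Finset.mem_union, Finset.mem_sdiff]
      exact Or.inr ⟨hv, hvC⟩
    exact (Finset.mem_sdiff.1 (nb_sub hG _ hv)).2 h5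
  · intro A hxA hA
    exact cstep_iter_subset hG hA (Finset.singleton_subset_iff.2 hxA) n

/-- if there are dangerous sets, a smallest dangerous component is a smallest dangerous set -/
theorem dang_comp (hG : IsGraph W E) (hB : MaxSp E B) (hX : Bodies E B XX) {P0 Y : Finset V}
    {n : ℕ} (hn : W.card ≤ n) (hD : Dang W E XX P0 Y) :
    ∃ a ∈ W, ∃ b ∈ W, ∃ x ∈ W, x ∉ ({a, b} : Finset V) ∧ comp E {a, b} n x ⊆ Y ∧
      Dang W E XX P0 (comp E {a, b} n x) := by
  obtain ⟨hYW0, hne, hn2, g1⟩ := hD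
  have hYW : Y ⊆ W := hYW0.trans Finset.sdiff_subset
  have hc := ex_card hG hB hX hYW hne hn2 g1
  rw [Finset.card_eq_two] at hc
  obtain ⟨a, b, hab, hc⟩ := hc
  have ha : a ∈ W := by
    have : a ∈ nb E Y := by rw [hc]; simp
    exact (Finset.mem_sdiff.1 (nb_sub hG Y this)).1
  have hb : b ∈ W := by
    have : b ∈ nb E Y := by rw [hc]; simp
    exact (Finset.mem_sdiff.1 (nb_sub hG Y this)).1
  obtain ⟨x, hx⟩ := hne
  have hxab : x ∉ ({a, b} : Finset V) := by
    rw [← hc]
    intro h
    exact (Finset.mem_sdiff.1 (nb_sub hG Y h)).2 hx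
  obtain ⟨h1, h2, h3, h4⟩ := comp_spec hG (C := {a, b}) (x := x)
    (Finset.mem_sdiff.2 ⟨hYW hx, hxab⟩) hn
  have h5 : comp E {a, b} n x ⊆ Y := h4 Y hx (by rw [hc])
  refine ⟨a, ha, b, hb, x, hYW hx, hxab, h5, h5.trans hYW0, ⟨x, h1⟩, ?_, ?_⟩
  · exact (Finset.card_le_card h3).trans Finset.card_le_two
  · intro A hA hAne
    exact g1 A (hA.trans h5) hAne

end Pool.Agent.Lib.MP_5d015b_lc
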