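import Pool.Agent.Lib.MP_5d015b_lc.NBS

/-!
# Condition (2) after the exchange, cases (0) and (II)
-/

set_option autoImplicit false
set_option linter.unusedSectionVars false

namespace Pool.Agent.Lib.MP_5d015b_lc

variable {V : Type*} [DecidableEq V]

section
variable {W : Finset V} {E B XX : Finset (Finset V)} {P Y : Finset V} {a b y : V}

theorem nb0_anotin (h : Ex W E B XX P Y a b y) : a ∉ Y :=
  ((mem_nb h.hG).1 (show a ∈ nb E Y by rw [h.hn]; simp)).1

theorem nb0_bnotin (h : Ex W E B XX P Y a b y) : b ∉ Y :=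
  ((mem_nb h.hG).1 (show b ∈ nb E Y by rw [h.hn]; simp)).1

/-- the neighbours of `Y ∪ Z` are few -/
theorem nb0_union (h : Ex W E B XX P Y a b y) {Z : Finset V} (hZ : (nb E Z).card ≤ 2)
    (hne : (Y ∩ Z).Nonempty) (hy : y ∉ Z) : (nb E (Y ∪ Z)).card ≤ 1 := by
  have h1 := nb_submod h.hG Y Z
  have h2 := h.hmin (Y ∩ Z) Finset.inter_subset_left hne (by
    intro he
    have : y ∈ Y ∩ Z := by rw [he]; exact h.hy
    exact hy (Finset.mem_inter.1 this).2)
  have h3 : (nb E Y).card = 2 := by rw [h.hn, Finset.card_pair h.hab]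
  omega

theorem nb_0 (h : Ex W E B XX P Y a b y) (ha : nb E {a} ⊆ insert b Y)
    (hb : nb E {b} ⊆ insert a Y) : G2 E (W \ ((P \ (Y ∪ {a, b})) ∪ {y, a, b})) := by
  intro Z hZ hne
  by_cases hU : Z ⊆ W \ P
  · exact h.hF.2 Z hU hne
  · have hyZ : y ∉ Z := fun hy => by
      have := (Finset.mem_sdiff.1 (hZ hy)).2
      exact this (by simp)
    have haZ : a ∉ Z := fun hy => by
      have := (Finset.mem_sdiff.1 (hZ hy)).2
      exact this (by simp)
    have hbZ : b ∉ Z := fun hy => by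
      have := (Finset.mem_sdiff.1 (hZ hy)).2
      exact this (by simp)
    obtain ⟨z, hzZ, hz⟩ := Finset.not_subset.1 hU
    have hz2 := Finset.mem_sdiff.1 (hZ hzZ)
    have hzP : z ∈ P := by
      by_contra hcon
      exact hz (Finset.mem_sdiff.2 ⟨hz2.1, hcon⟩)
    have hzY : z ∈ Y := by
      by_contra hcon
      apply hz2.2
      simp only [Finset.mem_union, Finset.mem_sdiff, Finset.mem_insert, Finset.mem_singleton]
      by_cases h1 : z = a
      · exact Or.inr (Or.inr (Or.inl h1))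
      · by_cases h2 : z = b
        · exact Or.inr (Or.inr (Or.inr h2))
        · exact Or.inl ⟨hzP, fun h3 => h3.elim hcon fun h4 => h4.elim h1 h2⟩
    have h2 := h.hmin (Z ∩ Y) Finset.inter_subset_right ⟨z, Finset.mem_inter.2 ⟨hzZ, hzY⟩⟩ (by
      intro he
      have : y ∈ Z ∩ Y := by rw [he]; exact h.hy
      exact hyZ (Finset.mem_inter.1 this).1)
    refine h2.trans (Finset.card_le_card ?_)
    intro v hv
    obtain ⟨h1, u, hu, he⟩ := (mem_nb h.hG).1 hv
    rw [Finset.mem_inter] at hu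
    refine (mem_nb h.hG).2 ⟨fun hvZ => ?_, u, hu.1, he⟩
    have hvY : v ∉ Y := fun hvY => h1 (Finset.mem_inter.2 ⟨hvZ, hvY⟩)
    have hv2 : v ∈ nb E Y := (mem_nb h.hG).2 ⟨hvY, u, hu.2, he⟩
    rw [h.hn, Finset.mem_insert, Finset.mem_singleton] at hv2
    rcases hv2 with rfl | rfl
    · exact haZ hvZ
    · exact hbZ hvZ

theorem nb_II (h : Ex W E B XX P Y a b y) {q : V} (hq : P ∩ Y = {q}) :
    G2 E (W \ insert y (P.erase q)) := by
  intro Z hZ hne
  by_contra hcon
  have hcard : (nb E Z).card ≤ 2 := by omega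
  by_cases hU : Z ⊆ W \ P
  · have := h.hF.2 Z hU hne
    omega
  · have hyZ : y ∉ Z := fun hy => by
      have := (Finset.mem_sdiff.1 (hZ hy)).2
      exact this (by simp)
    have hnotP : ∀ z ∈ Z, z ≠ q → z ∉ P := by
      intro z hz hzq hzP
      apply (Finset.mem_sdiff.1 (hZ hz)).2
      exact Finset.mem_insert_of_mem (Finset.mem_erase.2 ⟨hzq, hzP⟩)
    have hqY : q ∈ P ∩ Y := by rw [hq]; simp
    rw [Finset.mem_inter] at hqY
    have hqZ : q ∈ Z := by
      obtain ⟨z, hzZ, hz⟩ := Finset.not_subset.1 hU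
      have hz2 := Finset.mem_sdiff.1 (hZ hzZ)
      have hzP : z ∈ P := by
        by_contra hcon
        exact hz (Finset.mem_sdiff.2 ⟨hz2.1, hcon⟩)
      by_contra hqZ
      have hzq : z ≠ q := by rintro rfl; exact hqZ hzZ
      exact hnotP z hzZ hzq hzP
    have h1 := nb0_union h hcard ⟨q, Finset.mem_inter.2 ⟨hqY.2, hqZ⟩⟩ hyZ
    have hyq : y ≠ q := by rintro rfl; exact hyZ hqZ
    have hA : (Y ∪ Z).erase q ⊆ W \ P := by
      intro v hv
      rw [Finset.mem_erase, Finset.mem_union] at hv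
      rcases hv.2 with hv2 | hv2
      · refine Finset.mem_sdiff.2 ⟨h.hYW hv2, fun hvP => hv.1 ?_⟩
        have : v ∈ P ∩ Y := Finset.mem_inter.2 ⟨hvP, hv2⟩
        rw [hq] at this
        exact Finset.mem_singleton.1 this
      · exact Finset.mem_sdiff.2 ⟨(Finset.mem_sdiff.1 (hZ hv2)).1, hnotP v hv2 hv.1⟩
    have h2 := h.hF.2 _ hA ⟨y, Finset.mem_erase.2 ⟨hyq, Finset.mem_union_left _ h.hy⟩⟩
    have h3 : nb E ((Y ∪ Z).erase q) ⊆ insert q (nb E (Y ∪ Z)) := by
      intro v hv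
      obtain ⟨h4, u, hu, he⟩ := (mem_nb h.hG).1 hv
      rw [Finset.mem_insert]
      by_cases hvq : v = q
      · exact Or.inl hvq
      · exact Or.inr ((mem_nb h.hG).2 ⟨fun h5 => h4 (Finset.mem_erase.2 ⟨hvq, h5⟩), u,
          Finset.mem_of_mem_erase hu, he⟩)
    have h4 := (Finset.card_le_card h3).trans (Finset.card_insert_le _ _)
    omega

end

end Pool.Agent.Lib.MP_5d015b_lc
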