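import Pool.Agent.Lib.MP_5d015b_lc.NB0

/-!
# Condition (2) after the exchange, case (I)
-/

set_option autoImplicit false
set_option linter.unusedSectionVars false

namespace Pool.Agent.Lib.MP_5d015b_lc

variable {V : Type*} [DecidableEq V]

section
variable {W : Finset V} {E B XX : Finset (Finset V)} {P Y : Finset V} {a b y : V}

theorem nb_I (h : Ex W E B XX P Y a b y) (ha : ¬ nb E {a} ⊆ insert b Y) :
    G2 E (W \ ((P \ insert b Y) ∪ {y, b})) := by
  intro Z hZ hne
  by_contra hcon
  have hcard : (nb E Z).card ≤ 2 := by omega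
  by_cases hU : Z ⊆ W \ P
  · have := h.hF.2 Z hU hne
    omega
  · have hyZ : y ∉ Z := fun hy => by
      have := (Finset.mem_sdiff.1 (hZ hy)).2
      exact this (by simp)
    have hbZ : b ∉ Z := fun hy => by
      have := (Finset.mem_sdiff.1 (hZ hy)).2
      exact this (by simp)
    have haY := nb0_anotin h
    have hbY := nb0_bnotin h
    have hnotP : ∀ z ∈ Z, z ∉ Y → z ∉ P := by
      intro z hz hzY hzP
      apply (Finset.mem_sdiff.1 (hZ hz)).2
      refine Finset.mem_union_left _ (Finset.mem_sdiff.2 ⟨hzP, fun h1 => ?_⟩)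
      rcases Finset.mem_insert.1 h1 with rfl | h1
      · exact hbZ hz
      · exact hzY h1
    have hYZ : (Y ∩ Z).Nonempty := by
      obtain ⟨z, hzZ, hz⟩ := Finset.not_subset.1 hU
      have hz2 := Finset.mem_sdiff.1 (hZ hzZ)
      have hzP : z ∈ P := by
        by_contra hcon
        exact hz (Finset.mem_sdiff.2 ⟨hz2.1, hcon⟩)
      refine ⟨z, Finset.mem_inter.2 ⟨?_, hzZ⟩⟩
      by_contra hzY
      exact hnotP z hzZ hzY hzP
    have h1 := nb0_union h hcard hYZ hyZ
    have hbN : b ∈ nb E (Y ∪ Z) := by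
      obtain ⟨-, u, hu, he⟩ := (mem_nb h.hG).1 (show b ∈ nb E Y by rw [h.hn]; simp)
      refine (mem_nb h.hG).2 ⟨fun h2 => ?_, u, Finset.mem_union_left _ hu, he⟩
      rcases Finset.mem_union.1 h2 with h2 | h2
      · exact hbY h2
      · exact hbZ h2
    have hN : ∀ v ∈ nb E (Y ∪ Z), v = b := fun v hv =>
      Finset.card_le_one.1 h1 v hv b hbN
    have haZ : a ∈ Z := by
      by_contra haZ
      obtain ⟨-, u, hu, he⟩ := (mem_nb h.hG).1 (show a ∈ nb E Y by rw [h.hn]; simp)
      have : a ∈ nb E (Y ∪ Z) := (mem_nb h.hG).2 ⟨fun h2 => by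
        rcases Finset.mem_union.1 h2 with h2 | h2
        · exact haY h2
        · exact haZ h2, u, Finset.mem_union_left _ hu, he⟩
      exact h.hab (hN a this)
    obtain ⟨c, hc, hcn⟩ := Finset.not_subset.1 ha
    obtain ⟨hca, u, hu, hue⟩ := (mem_nb h.hG).1 hc
    rw [Finset.mem_singleton] at hca hu
    subst hu
    rw [Finset.mem_insert, not_or] at hcn
    have hcZ : c ∈ Z := by
      by_contra hcZ
      have : c ∈ nb E (Y ∪ Z) := (mem_nb h.hG).2 ⟨fun h2 => by
        rcases Finset.mem_union.1 h2 with h2 | h2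
        · exact hcn.2 h2
        · exact hcZ h2, u, Finset.mem_union_right _ haZ, hue⟩
      exact hcn.1 (hN c this)
    -- the set `Z \ Y \ {a}`
    have hD : (Z \ Y).erase u ⊆ W \ P := by
      intro v hv
      rw [Finset.mem_erase, Finset.mem_sdiff] at hv
      exact Finset.mem_sdiff.2 ⟨(Finset.mem_sdiff.1 (hZ hv.2.1)).1, hnotP v hv.2.1 hv.2.2⟩
    have h2 := h.hF.2 _ hD ⟨c, Finset.mem_erase.2 ⟨hca, Finset.mem_sdiff.2 ⟨hcZ, hcn.2⟩⟩⟩
    have h3 : nb E ((Z \ Y).erase u) ⊆ {u, b} := by
      intro v hv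
      obtain ⟨h4, w, hw, he⟩ := (mem_nb h.hG).1 hv
      rw [Finset.mem_erase, Finset.mem_sdiff] at hw
      rw [Finset.mem_insert, Finset.mem_singleton]
      by_cases hvu : v = u
      · exact Or.inl hvu
      · right
        have hvZY : v ∉ Z \ Y := fun h5 => h4 (Finset.mem_erase.2 ⟨hvu, h5⟩)
        by_cases hvY : v ∈ Y
        · exfalso
          have hw2 : w ∈ nb E Y := (mem_nb h.hG).2 ⟨hw.2.2, v, hvY, by
            rw [Finset.pair_comm]; exact he⟩
          rw [h.hn, Finset.mem_insert, Finset.mem_singleton] at hw2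
          rcases hw2 with h5 | h5
          · exact hw.1 h5
          · rw [h5] at hw; exact hbZ hw.2.1
        · have hvZ : v ∉ Z := fun h5 => hvZY (Finset.mem_sdiff.2 ⟨h5, hvY⟩)
          exact hN v ((mem_nb h.hG).2 ⟨fun h5 => by
            rcases Finset.mem_union.1 h5 with h5 | h5
            · exact hvY h5
            · exact hvZ h5, w, Finset.mem_union_right _ hw.2.1, he⟩)
    have h4 := (Finset.card_le_card h3).trans Finset.card_le_two
    omega

end

end Pool.Agent.Lib.MP_5d015b_lc
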