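import Pool.Agent.Lib.MP_5d015b_lc.BOD
import Pool.Agent.Lib.MP_5d015b_lc.EX0

/-!
# Condition (1) after the exchange, case (0)
-/

set_option autoImplicit false
set_option linter.unusedSectionVars false

namespace Pool.Agent.Lib.MP_5d015b_lc

variable {V : Type*} [DecidableEq V]

variable {W : Finset V} {E B XX : Finset (Finset V)}


/-- condition (1) also gives the weak inequality for the empty set -/
theorem two_mul_le_sc {U A : Finset V} (h : G1 XX U) (hA : A ⊆ U) : 2 * A.card ≤ sc XX A := by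
  rcases A.eq_empty_or_nonempty with rfl | hne
  · simp
  · have := h A hA hne
    omega

/-- two subfamilies without common bodies -/
theorem sum_add_le_sc {F1 F2 : Finset (Finset V)} {Z : Finset V} (h1 : F1 ⊆ XX) (h2 : F2 ⊆ XX)
    (h1' : ∀ X ∈ F1, (X ∩ Z).Nonempty) (h2' : ∀ X ∈ F2, (X ∩ Z).Nonempty) (hd : Disjoint F1 F2) :
    ∑ X ∈ F1, (2 * X.card - 3) + ∑ X ∈ F2, (2 * X.card - 3) ≤ sc XX Z := by
  rw [sc, ← Finset.sum_union hd]
  apply Finset.sum_le_sum_of_subset
  intro X hX
  rw [Finset.mem_filter]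
  rw [Finset.mem_union] at hX
  rcases hX with hX | hX
  · exact ⟨h1 hX, h1' X hX⟩
  · exact ⟨h2 hX, h2' X hX⟩

variable {P Y : Finset V} {a b y : V}

theorem sc_0 (h : Ex W E B XX P Y a b y) :
    G1 XX (W \ ((P \ (Y ∪ {a, b})) ∪ {y, a, b})) := by
  intro Z hZ hne
  have hZW : ∀ v ∈ Z, v ∈ W := fun v hv => (Finset.mem_sdiff.1 (hZ hv)).1
  have hZn : ∀ v ∈ Z, v ∉ (P \ (Y ∪ {a, b})) ∧ v ≠ y ∧ v ≠ a ∧ v ≠ b := by
    intro v hv
    have := (Finset.mem_sdiff.1 (hZ hv)).2
    rw [Finset.mem_union, not_or] at this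
    refine ⟨this.1, ?_⟩
    have h2 := this.2
    simp only [Finset.mem_insert, Finset.mem_singleton, not_or] at h2
    exact h2
  have hU : ∀ v ∈ Z, v ∉ Y → v ∈ W \ P := by
    intro v hv hvY
    rw [Finset.mem_sdiff]
    refine ⟨hZW v hv, fun hvP => ?_⟩
    apply (hZn v hv).1
    rw [Finset.mem_sdiff]
    refine ⟨hvP, ?_⟩
    simp only [Finset.mem_union, Finset.mem_insert, Finset.mem_singleton, not_or]
    exact ⟨hvY, (hZn v hv).2.2.1, (hZn v hv).2.2.2⟩
  by_cases hZY : (Z ∩ Y).Nonempty
  swap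
  · refine h.hF.1 Z ?_ hne
    intro v hv
    apply hU v hv
    intro hvY
    exact hZY ⟨v, Finset.mem_inter.2 ⟨hv, hvY⟩⟩
  rcases ex_cases h.hG h.hB h.hX h.hYW ⟨y, h.hy⟩ h.hab h.hn h.g1 with
    ⟨X, hX, hTX, honly⟩ | ⟨hin, -⟩
  · have hsub : Z \ X ⊆ W \ P := by
      intro v hv
      rw [Finset.mem_sdiff] at hv
      apply hU v hv.1
      intro hvY
      exact hv.2 (hTX (Finset.mem_union_left _ hvY))
    have h1 := two_mul_le_sc h.hF.1 hsub
    have h2 : ∑ Z' ∈ XX.filter (fun Z' => (Z' ∩ (Z \ X)).Nonempty), (2 * Z'.card - 3) +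
        ∑ Z' ∈ ({X} : Finset (Finset V)), (2 * Z'.card - 3) ≤ sc XX Z := by
      apply sum_add_le_sc (Finset.filter_subset _ _) (Finset.singleton_subset_iff.2 hX)
      · intro Z' hZ'
        exact (Finset.mem_filter.1 hZ').2.mono (Finset.inter_subset_inter_left Finset.sdiff_subset)
      · intro Z' hZ'
        rw [Finset.mem_singleton] at hZ'
        subst hZ'
        obtain ⟨v, hv⟩ := hZY
        rw [Finset.mem_inter] at hv
        exact ⟨v, Finset.mem_inter.2 ⟨hTX (Finset.mem_union_left _ hv.2), hv.1⟩⟩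
      · rw [Finset.disjoint_singleton_right, Finset.mem_filter]
        rintro ⟨-, v, hv⟩
        rw [Finset.mem_inter, Finset.mem_sdiff] at hv
        exact hv.2.2 hv.1
    rw [Finset.sum_singleton] at h2
    have h3 : sc XX (Z \ X) = ∑ Z' ∈ XX.filter (fun Z' => (Z' ∩ (Z \ X)).Nonempty),
      (2 * Z'.card - 3) := rfl
    rw [← h3] at h2
    have h4 : (Z \ X).card + (Z ∩ X).card = Z.card := by
      rw [add_comm]
      exact Finset.card_inter_add_card_sdiff Z X
    have h5 : (X \ Z).card + (Z ∩ X).card = X.card := by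
      rw [Finset.inter_comm, add_comm]
      exact Finset.card_inter_add_card_sdiff X Z
    have h6 : 2 ≤ (X \ Z).card := by
      rw [← Finset.card_pair h.hab]
      apply Finset.card_le_card
      intro v hv
      rw [Finset.mem_sdiff]
      refine ⟨hTX (Finset.mem_union_right _ hv), fun hvZ => ?_⟩
      rw [Finset.mem_insert, Finset.mem_singleton] at hv
      rcases hv with rfl | rfl
      · exact (hZn v hvZ).2.2.1 rfl
      · exact (hZn v hvZ).2.2.2 rfl
    omega
  · have hsub : Z \ Y ⊆ W \ P := by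
      intro v hv
      rw [Finset.mem_sdiff] at hv
      exact hU v hv.1 hv.2
    have h1 := two_mul_le_sc h.hF.1 hsub
    have h2 := h.g1 (Z ∩ Y) Finset.inter_subset_right hZY
    have h3 : sc XX (Z \ Y) + sc XX (Z ∩ Y) ≤ sc XX Z := by
      apply sum_add_le_sc (Finset.filter_subset _ _) (Finset.filter_subset _ _)
      · intro Z' hZ'
        exact (Finset.mem_filter.1 hZ').2.mono (Finset.inter_subset_inter_left Finset.sdiff_subset)
      · intro Z' hZ'
        exact (Finset.mem_filter.1 hZ').2.mono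
          (Finset.inter_subset_inter_left Finset.inter_subset_left)
      · rw [Finset.disjoint_left]
        intro Z' hZ1 hZ2
        rw [Finset.mem_filter] at hZ1 hZ2
        have h4 : Z' ⊆ Y ∪ {a, b} := by
          apply hin Z' hZ1.1
          exact hZ2.2.mono (Finset.inter_subset_inter_left Finset.inter_subset_right)
        obtain ⟨v, hv⟩ := hZ1.2
        rw [Finset.mem_inter, Finset.mem_sdiff] at hv
        have h5 := h4 hv.1
        simp only [Finset.mem_union, Finset.mem_insert, Finset.mem_singleton] at h5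
        rcases h5 with h5 | h5 | h5
        · exact hv.2.2 h5
        · exact (hZn v hv.2.1).2.2.1 h5
        · exact (hZn v hv.2.1).2.2.2 h5
    have h4 : (Z \ Y).card + (Z ∩ Y).card = Z.card := by
      rw [add_comm]
      exact Finset.card_inter_add_card_sdiff Z Y
    omega

end Pool.Agent.Lib.MP_5d015b_lc
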