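import Pool.Agent.Lib.MP_5d015b_lc.Defs

/-!
# Neighbourhoods
-/

set_option autoImplicit false
set_option linter.unusedSectionVars false

namespace Pool.Agent.Lib.MP_5d015b_lc

variable {V : Type*} [DecidableEq V]

theorem mem_nb {W : Finset V} {E : Finset (Finset V)} (hG : IsGraph W E) {Y : Finset V} {v : V} :
    v ∈ nb E Y ↔ v ∉ Y ∧ ∃ u ∈ Y, ({u, v} : Finset V) ∈ E := by
  unfold nb
  rw [Finset.mem_sdiff, Finset.mem_biUnion]
  constructor
  · rintro ⟨⟨e, he, hve⟩, hvY⟩
    rw [Finset.mem_filter] at he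
    obtain ⟨heE, u, hu⟩ := he
    rw [Finset.mem_inter] at hu
    refine ⟨hvY, u, hu.2, ?_⟩
    have huv : u ≠ v := by rintro rfl; exact hvY hu.2
    have hsub : ({u, v} : Finset V) ⊆ e := by
      intro x hx
      rw [Finset.mem_insert, Finset.mem_singleton] at hx
      rcases hx with rfl | rfl
      · exact hu.1
      · exact hve
    have h2 : ({u, v} : Finset V) = e :=
      Finset.eq_of_subset_of_card_le hsub (by rw [hG.card_two e heE, Finset.card_pair huv])
    rw [h2]
    exact heE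
  · rintro ⟨hvY, u, hu, he⟩
    refine ⟨⟨{u, v}, ?_, ?_⟩, hvY⟩
    · rw [Finset.mem_filter]
      exact ⟨he, u, Finset.mem_inter.2 ⟨by simp, hu⟩⟩
    · simp

theorem nb_sub {W : Finset V} {E : Finset (Finset V)} (hG : IsGraph W E) (Y : Finset V) :
    nb E Y ⊆ W \ Y := by
  intro v hv
  obtain ⟨hvY, u, hu, he⟩ := (mem_nb hG).1 hv
  exact Finset.mem_sdiff.2 ⟨hG.sub _ he (by simp), hvY⟩

theorem nb_submod {W : Finset V} {E : Finset (Finset V)} (hG : IsGraph W E) (A B : Finset V) :
    (nb E (A ∪ B)).card + (nb E (A ∩ B)).card ≤ (nb E A).card + (nb E B).card := by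
  rw [← Finset.card_union_add_card_inter (nb E (A ∪ B)) (nb E (A ∩ B)),
    ← Finset.card_union_add_card_inter (nb E A) (nb E B)]
  refine Nat.add_le_add (Finset.card_le_card ?_) (Finset.card_le_card ?_)
  · intro v hv
    rw [Finset.mem_union] at hv ⊢
    rcases hv with hv | hv
    · obtain ⟨h1, u, hu, he⟩ := (mem_nb hG).1 hv
      rw [Finset.mem_union, not_or] at h1
      rcases Finset.mem_union.1 hu with hu | hu
      · exact Or.inl ((mem_nb hG).2 ⟨h1.1, u, hu, he⟩)
      · exact Or.inr ((mem_nb hG).2 ⟨h1.2, u, hu, he⟩)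
    · obtain ⟨h1, u, hu, he⟩ := (mem_nb hG).1 hv
      rw [Finset.mem_inter] at hu
      by_cases hA : v ∈ A
      · have hB : v ∉ B := fun hB => h1 (Finset.mem_inter.2 ⟨hA, hB⟩)
        exact Or.inr ((mem_nb hG).2 ⟨hB, u, hu.2, he⟩)
      · exact Or.inl ((mem_nb hG).2 ⟨hA, u, hu.1, he⟩)
  · intro v hv
    rw [Finset.mem_inter] at hv ⊢
    obtain ⟨h1, -⟩ := (mem_nb hG).1 hv.1
    obtain ⟨-, u, hu, he⟩ := (mem_nb hG).1 hv.2
    rw [Finset.mem_union, not_or] at h1
    rw [Finset.mem_inter] at hu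
    exact ⟨(mem_nb hG).2 ⟨h1.1, u, hu.1, he⟩, (mem_nb hG).2 ⟨h1.2, u, hu.2, he⟩⟩

theorem isGraph_clique {W : Finset V} {E : Finset (Finset V)} (hG : IsGraph W E) {P : Finset V}
    (hP : P ⊆ W) : IsGraph W (E ∪ clique P) := by
  constructor
  · intro e he
    rcases Finset.mem_union.1 he with he | he
    · exact hG.card_two e he
    · exact (Finset.mem_powersetCard.1 he).2
  · intro e he
    rcases Finset.mem_union.1 he with he | he
    · exact hG.sub e he
    · exact (Finset.mem_powersetCard.1 he).1.trans hP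

theorem nb_clique {W : Finset V} {E : Finset (Finset V)} (hG : IsGraph W E) {P Y : Finset V}
    (hP : P ⊆ W) (hY : Disjoint Y P) : nb (E ∪ clique P) Y = nb E Y := by
  ext v
  rw [mem_nb (isGraph_clique hG hP), mem_nb hG]
  refine and_congr_right fun _ => exists_congr fun u => and_congr_right fun hu => ?_
  rw [Finset.mem_union]
  refine ⟨fun h => h.resolve_right fun h => ?_, Or.inl⟩
  have h1 := (Finset.mem_powersetCard.1 h).1 (show u ∈ ({u, v} : Finset V) by simp)
  exact Finset.disjoint_left.1 hY hu h1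

end Pool.Agent.Lib.MP_5d015b_lc
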