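import Pool.Agent.Lib.MP_5d015b_lc.EX0
import Pool.Agent.Lib.MP_5d015b_lc.BOD
import Pool.Agent.Lib.MP_5d015b_lc.NBS

/-!
# Module SCI: condition (1) after the exchange, case (I), and the common lemmas
-/

set_option autoImplicit false
set_option linter.unusedSectionVars false

namespace Pool.Agent.Lib.MP_5d015b_lc

open Finset

variable {V : Type*} [DecidableEq V] {W : Finset V} {E B XX : Finset (Finset V)}
  {P Y : Finset V} {a b y : V}

/-- the rank of the bodies which meet `Z` and do not meet `Y` -/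
def SCI_s1 (XX : Finset (Finset V)) (Y Z : Finset V) : ℕ :=
  ∑ X ∈ XX.filter (fun X => (X ∩ Z).Nonempty ∧ ¬ (X ∩ Y).Nonempty), (2 * X.card - 3)

/-- the rank of the bodies which meet `Z` and meet `Y` -/
def SCI_s2 (XX : Finset (Finset V)) (Y Z : Finset V) : ℕ :=
  ∑ X ∈ XX.filter (fun X => (X ∩ Z).Nonempty ∧ (X ∩ Y).Nonempty), (2 * X.card - 3)

/-- the rank of the bodies which meet `Y` and do not meet `Z` -/
def SCI_s3 (XX : Finset (Finset V)) (Y Z : Finset V) : ℕ :=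
  ∑ X ∈ XX.filter (fun X => ¬ (X ∩ Z).Nonempty ∧ (X ∩ Y).Nonempty), (2 * X.card - 3)

theorem SCI_split (XX : Finset (Finset V)) (Y Z : Finset V) :
    sc XX Z = SCI_s1 XX Y Z + SCI_s2 XX Y Z := by
  unfold sc SCI_s1 SCI_s2
  rw [← sum_filter_add_sum_filter_not (XX.filter (fun X => (X ∩ Z).Nonempty))
    (fun X => ¬ (X ∩ Y).Nonempty)]
  congr 1
  · rw [filter_filter]
  · rw [filter_filter]
    refine sum_congr (filter_congr fun X _ => ?_) fun _ _ => rfl
    rw [not_not]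

theorem SCI_split' (XX : Finset (Finset V)) (Y Z : Finset V) :
    sc XX Y = SCI_s2 XX Y Z + SCI_s3 XX Y Z := by
  unfold sc SCI_s2 SCI_s3
  rw [← sum_filter_add_sum_filter_not (XX.filter (fun X => (X ∩ Y).Nonempty))
    (fun X => (X ∩ Z).Nonempty)]
  congr 1
  · rw [filter_filter]
    exact sum_congr (filter_congr fun X _ => and_comm) fun _ _ => rfl
  · rw [filter_filter]
    exact sum_congr (filter_congr fun X _ => and_comm) fun _ _ => rfl

theorem SCI_meets {X Z Z' : Finset V} (h : Z ⊆ Z') (hX : (X ∩ Z).Nonempty) :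
    (X ∩ Z').Nonempty := hX.mono (inter_subset_inter_left h)

/-- the bodies outside -/
theorem SCI_s1_ge {T : Finset V} (hT : ∀ X ∈ XX, (X ∩ Y).Nonempty → X ⊆ T) {Z : Finset V} :
    sc XX (Z \ T) ≤ SCI_s1 XX Y Z := by
  unfold sc SCI_s1
  refine sum_le_sum_of_subset fun X hX => ?_
  rw [mem_filter] at hX ⊢
  refine ⟨hX.1, SCI_meets sdiff_subset hX.2, fun h => ?_⟩
  obtain ⟨v, hv⟩ := hX.2
  rw [mem_inter, mem_sdiff] at hv
  exact hv.2.2 (hT X hX.1 h hv.1)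

theorem SCI_s2_ge (hB : Sparse B) (hX : Bodies E B XX) {T : Finset V}
    (hT : ∀ X ∈ XX, (X ∩ Y).Nonempty → X ⊆ T) (hTc : T.card = Y.card + 2)
    (hs : sc XX Y = 2 * Y.card + 1) {Z : Finset V} (h2 : 2 ≤ (T \ Z).card) :
    2 * (T ∩ Z).card ≤ SCI_s2 XX Y Z := by
  have h1 := SCI_split' XX Y Z
  have h3 : SCI_s3 XX Y Z + 3 ≤ 2 * (T \ Z).card := by
    unfold SCI_s3
    refine sum_le_of_card hB hX (filter_subset _ _) (fun X hXm => ?_) h2
    rw [mem_filter] at hXm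
    intro v hv
    rw [mem_sdiff]
    exact ⟨hT X hXm.1 hXm.2.2 hv, fun hvZ => hXm.2.1 ⟨v, mem_inter.2 ⟨hv, hvZ⟩⟩⟩
  have h4 : (T ∩ Z).card + (T \ Z).card = T.card := card_inter_add_card_sdiff T Z
  omega

theorem SCI_s2_ge' (hX : Bodies E B XX) {T : Finset V}
    (hT : ∀ X ∈ XX, (X ∩ Y).Nonempty → X ⊆ T) (hTc : T.card = Y.card + 2)
    (hs : sc XX Y = 2 * Y.card + 1) {Z : Finset V} (h2 : (T \ Z).card = 1) :
    2 * (T ∩ Z).card ≤ SCI_s2 XX Y Z + 1 := by
  have h1 := SCI_split' XX Y Z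
  have h3 : SCI_s3 XX Y Z = 0 := by
    unfold SCI_s3
    refine sum_eq_zero hX (filter_subset _ _) (S := T \ Z) (fun X hXm => ?_) h2.le
    rw [mem_filter] at hXm
    intro v hv
    rw [mem_sdiff]
    exact ⟨hT X hXm.1 hXm.2.2 hv, fun hvZ => hXm.2.1 ⟨v, mem_inter.2 ⟨hv, hvZ⟩⟩⟩
  have h4 : (T ∩ Z).card + (T \ Z).card = T.card := card_inter_add_card_sdiff T Z
  omega

theorem SCI_card {a b : V} (hab : a ≠ b) (ha : a ∉ Y) (hb : b ∉ Y) :
    (Y ∪ {a, b}).card = Y.card + 2 := by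
  rw [card_union_of_disjoint, card_pair hab]
  rw [disjoint_left]
  intro v hv hv'
  rw [mem_insert, mem_singleton] at hv'
  rcases hv' with rfl | rfl
  · exact ha hv
  · exact hb hv

/-- subcase (i): neither `a` nor `b` is in `Z` -/
theorem SCI_i (hT : ∀ X ∈ XX, (X ∩ Y).Nonempty → X ⊆ Y ∪ {a, b}) (g1 : G1 XX Y) {Z : Finset V}
    (hZ : Z.Nonempty) (haZ : a ∉ Z) (hbZ : b ∉ Z)
    (hZo : (Z \ (Y ∪ {a, b})).Nonempty →
      2 * (Z \ (Y ∪ {a, b})).card + 1 ≤ sc XX (Z \ (Y ∪ {a, b}))) :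
    2 * Z.card + 1 ≤ sc XX Z := by
  have h1 := SCI_split XX Y Z
  have h2 := SCI_s1_ge hT (Z := Z)
  have h3 : sc XX (Z ∩ Y) ≤ SCI_s2 XX Y Z := by
    unfold sc SCI_s2
    refine sum_le_sum_of_subset fun X hX => ?_
    rw [mem_filter] at hX ⊢
    exact ⟨hX.1, SCI_meets inter_subset_left hX.2, SCI_meets inter_subset_right hX.2⟩
  have h4 : Z \ (Y ∪ {a, b}) = Z \ Y := by
    ext v
    simp only [mem_sdiff, mem_union, mem_insert, mem_singleton, not_or]
    constructor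
    · rintro ⟨h, h', _⟩; exact ⟨h, h'⟩
    · rintro ⟨h, h'⟩
      exact ⟨h, h', fun e => haZ (e ▸ h), fun e => hbZ (e ▸ h)⟩
  rw [h4] at hZo h2
  have h5 : (Z ∩ Y).card + (Z \ Y).card = Z.card := card_inter_add_card_sdiff Z Y
  have h6 : (Z ∩ Y).Nonempty → 2 * (Z ∩ Y).card + 1 ≤ sc XX (Z ∩ Y) :=
    fun h => g1 _ inter_subset_right h
  have h7 := Finset.card_pos.2 hZ
  rcases (Z ∩ Y).eq_empty_or_nonempty with e1 | e1 <;>
    rcases (Z \ Y).eq_empty_or_nonempty with e2 | e2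
  · rw [e1, e2] at h5; simp at h5; omega
  · have := hZo e2
    rw [e1] at h5; simp at h5; omega
  · have := h6 e1
    rw [e2] at h5; simp at h5; omega
  · have := hZo e2
    have := h6 e1
    omega

/-- subcase (ii): exactly one of `a` and `b` is in `Z` -/
theorem SCI_ii (hB : Sparse B) (hX : Bodies E B XX)
    (hT : ∀ X ∈ XX, (X ∩ Y).Nonempty → X ⊆ Y ∪ {a, b}) (hs : sc XX Y = 2 * Y.card + 1)
    (hab : a ≠ b) (haY : a ∉ Y) (hbY : b ∉ Y) (hy : y ∈ Y) {Z : Finset V} (haZ : a ∈ Z)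
    (hbZ : b ∉ Z) (hyZ : y ∉ Z) (hE : ∃ c, c ∉ Y ∪ {a, b} ∧ ({a, c} : Finset V) ∈ E)
    (hZo : (Z \ (Y ∪ {a, b})).Nonempty →
      2 * (Z \ (Y ∪ {a, b})).card + 1 ≤ sc XX (Z \ (Y ∪ {a, b}))) :
    2 * Z.card + 1 ≤ sc XX Z := by
  have h1 := SCI_split XX Y Z
  have h2 := SCI_s1_ge hT (Z := Z)
  have h3 := SCI_s2_ge hB hX hT (SCI_card hab haY hbY) hs (Z := Z) (by
    have : ({y, b} : Finset V) ⊆ (Y ∪ {a, b}) \ Z := by
      intro v hv
      rw [mem_insert, mem_singleton] at hv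
      rcases hv with rfl | rfl
      · rw [mem_sdiff]; exact ⟨mem_union_left _ hy, hyZ⟩
      · rw [mem_sdiff]; exact ⟨mem_union_right _ (by simp), hbZ⟩
    refine le_trans ?_ (card_le_card this)
    rw [card_pair]
    rintro rfl
    exact hbY hy)
  have h5 : (Z ∩ (Y ∪ {a, b})).card + (Z \ (Y ∪ {a, b})).card = Z.card :=
    card_inter_add_card_sdiff Z _
  rw [inter_comm] at h5
  have h6 : 2 * (Z \ (Y ∪ {a, b})).card + 1 ≤ SCI_s1 XX Y Z := by
    rcases (Z \ (Y ∪ {a, b})).eq_empty_or_nonempty with e | e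
    · rw [e, card_empty, mul_zero, zero_add]
      obtain ⟨c, hc, hce⟩ := hE
      obtain ⟨X, hXX, hcX⟩ := hX.cover _ hce
      have haX : a ∈ X := hcX (by simp)
      have hcX' : c ∈ X := hcX (by simp)
      have hmem : X ∈ XX.filter (fun X => (X ∩ Z).Nonempty ∧ ¬ (X ∩ Y).Nonempty) := by
        rw [mem_filter]
        exact ⟨hXX, ⟨a, mem_inter.2 ⟨haX, haZ⟩⟩, fun h => hc (hT X hXX h hcX')⟩
      have h7 : 2 * X.card - 3 ≤ SCI_s1 XX Y Z := by
        unfold SCI_s1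
        exact single_le_sum (f := fun X : Finset V => 2 * X.card - 3)
          (fun _ _ => Nat.zero_le _) hmem
      have := (hX.tight X hXX).1
      omega
    · exact (hZo e).trans h2
  omega

/-- case B with two points outside -/
theorem SCI_B {X : Finset V} (hXX : X ∈ XX) {Z : Finset V} (hZX : (Z ∩ X).Nonempty)
    (h2 : 2 ≤ (X \ Z).card) (hZo : (Z \ X).Nonempty → 2 * (Z \ X).card + 1 ≤ sc XX (Z \ X)) :
    2 * Z.card + 1 ≤ sc XX Z := by
  have h1 : sc XX (Z \ X) + (2 * X.card - 3) ≤ sc XX Z := by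
    unfold sc
    have hnot : X ∉ XX.filter (fun X' => (X' ∩ (Z \ X)).Nonempty) := by
      rw [mem_filter]
      rintro ⟨-, v, hv⟩
      rw [mem_inter, mem_sdiff] at hv
      exact hv.2.2 hv.1
    rw [add_comm, ← sum_insert (f := fun X : Finset V => 2 * X.card - 3) hnot]
    refine sum_le_sum_of_subset ?_
    intro X' hX'
    rw [mem_insert] at hX'
    rw [mem_filter]
    rcases hX' with rfl | hX'
    · exact ⟨hXX, by rwa [inter_comm]⟩
    · rw [mem_filter] at hX'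
      exact ⟨hX'.1, SCI_meets sdiff_subset hX'.2⟩
  have h3 : (X ∩ Z).card + (X \ Z).card = X.card := card_inter_add_card_sdiff X Z
  have h4 : (Z ∩ X).card + (Z \ X).card = Z.card := card_inter_add_card_sdiff Z X
  rw [inter_comm] at h3
  rcases (Z \ X).eq_empty_or_nonempty with e | e
  · rw [e, card_empty] at h4
    omega
  · have := hZo e
    omega

theorem SCI_nbr (hG : IsGraph W E) (ha : ¬ nb E {a} ⊆ insert b Y) :
    ∃ c, c ∉ Y ∪ {a, b} ∧ ({a, c} : Finset V) ∈ E := by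
  rw [not_subset] at ha
  obtain ⟨c, hc, hc'⟩ := ha
  rw [mem_nb hG] at hc
  obtain ⟨h1, u, hu, h2⟩ := hc
  rw [mem_singleton] at h1 hu
  subst hu
  refine ⟨c, ?_, h2⟩
  simp only [mem_insert, not_or] at hc'
  simp only [mem_union, mem_insert, mem_singleton, not_or]
  exact ⟨hc'.2, h1, hc'.1⟩

theorem Ex.not_mem (h : Ex W E B XX P Y a b y) : a ∉ Y ∧ b ∉ Y := by
  have h1 : a ∈ nb E Y := by rw [h.hn]; simp
  have h2 : b ∈ nb E Y := by rw [h.hn]; simp
  exact ⟨((mem_nb h.hG).1 h1).1, ((mem_nb h.hG).1 h2).1⟩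

theorem sc_I (h : Ex W E B XX P Y a b y) (ha : ¬ nb E {a} ⊆ insert b Y) :
    G1 XX (W \ ((P \ insert b Y) ∪ {y, b})) := by
  intro Z hZ hZne
  obtain ⟨haY, hbY⟩ := h.not_mem
  have hyZ : y ∉ Z := fun hy => by
    have := hZ hy
    simp at this
  have hbZ : b ∉ Z := fun hy => by
    have := hZ hy
    simp at this
  have hsub : ∀ v ∈ Z, v ∉ Y → v ∈ W \ P := by
    intro v hv hvY
    have h1 := hZ hv
    rw [mem_sdiff, mem_union, mem_sdiff, not_or] at h1
    rw [mem_sdiff]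
    refine ⟨h1.1, fun hvP => h1.2.1 ⟨hvP, ?_⟩⟩
    rw [mem_insert, not_or]
    exact ⟨fun e => hbZ (e ▸ hv), hvY⟩
  have hcases := ex_cases h.hG h.hB h.hX h.hYW ⟨y, h.hy⟩ h.hab h.hn h.g1
  rcases hcases with ⟨X, hXX, hTX, huniq⟩ | ⟨hT, hs⟩
  · rcases (Z ∩ Y).eq_empty_or_nonempty with e | ⟨z, hz⟩
    · refine h.hF.1 Z (fun v hv => hsub v hv fun hvY => ?_) hZne
      have : v ∈ Z ∩ Y := mem_inter.2 ⟨hv, hvY⟩
      rw [e] at this
      simp at this
    · rw [mem_inter] at hz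
      refine SCI_B hXX ⟨z, mem_inter.2 ⟨hz.1, hTX (mem_union_left _ hz.2)⟩⟩ ?_ ?_
      · have : ({y, b} : Finset V) ⊆ X \ Z := by
          intro v hv
          rw [mem_insert, mem_singleton] at hv
          rcases hv with rfl | rfl
          · rw [mem_sdiff]; exact ⟨hTX (mem_union_left _ h.hy), hyZ⟩
          · rw [mem_sdiff]; exact ⟨hTX (mem_union_right _ (by simp)), hbZ⟩
        refine le_trans ?_ (card_le_card this)
        rw [card_pair]
        intro e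
        exact hbY (e ▸ h.hy)
      · intro hne
        refine h.hF.1 _ (fun v hv => ?_) hne
        rw [mem_sdiff] at hv
        exact hsub v hv.1 fun hvY => hv.2 (hTX (mem_union_left _ hvY))
  · have hZo : (Z \ (Y ∪ {a, b})).Nonempty →
        2 * (Z \ (Y ∪ {a, b})).card + 1 ≤ sc XX (Z \ (Y ∪ {a, b})) := by
      intro hne
      refine h.hF.1 _ (fun v hv => ?_) hne
      rw [mem_sdiff, mem_union, not_or] at hv
      exact hsub v hv.1 hv.2.1
    by_cases haZ : a ∈ Z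
    · exact SCI_ii h.hB.2.1 h.hX hT hs h.hab haY hbY h.hy haZ hbZ hyZ (SCI_nbr h.hG ha) hZo
    · exact SCI_i hT h.g1 hZne haZ hbZ hZo

end Pool.Agent.Lib.MP_5d015b_lc
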