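import Pool.Agent.Lib.MP_5d015b_lc.SCI

/-!
# Module SCII: condition (1) after the exchange, case (II)
-/

set_option autoImplicit false
set_option linter.unusedSectionVars false

namespace Pool.Agent.Lib.MP_5d015b_lc

open Finset

variable {V : Type*} [DecidableEq V] {W : Finset V} {E B XX : Finset (Finset V)}
  {P Y : Finset V} {a b y : V}

/-- subcase (iii): `a` and `b` are in `Z` -/
theorem SCII_iii (hB : Sparse B) (hX : Bodies E B XX)
    (hT : ∀ X ∈ XX, (X ∩ Y).Nonempty → X ⊆ Y ∪ {a, b}) (hs : sc XX Y = 2 * Y.card + 1)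
    (hab : a ≠ b) (haY : a ∉ Y) (hbY : b ∉ Y) (hy : y ∈ Y) {Z : Finset V} (haZ : a ∈ Z)
    (hbZ : b ∈ Z) (hyZ : y ∉ Z) {q : V} (hq : q ∈ Y)
    (hZ1 : 2 * ((Z \ (Y ∪ {a, b})) ∪ ({a, b} ∪ Y.erase q)).card + 1 ≤
      sc XX ((Z \ (Y ∪ {a, b})) ∪ ({a, b} ∪ Y.erase q))) :
    2 * Z.card + 1 ≤ sc XX Z := by
  have h1 := SCI_split XX Y Z
  have hTc := SCI_card (Y := Y) hab haY hbY
  have hpos : 1 ≤ ((Y ∪ {a, b}) \ Z).card :=
    Finset.card_pos.2 ⟨y, mem_sdiff.2 ⟨mem_union_left _ hy, hyZ⟩⟩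
  have h3 : 2 * ((Y ∪ {a, b}) ∩ Z).card ≤ SCI_s2 XX Y Z + 1 := by
    rcases Nat.lt_or_ge 1 ((Y ∪ {a, b}) \ Z).card with h | h
    · exact (SCI_s2_ge hB hX hT hTc hs (Z := Z) h).trans (Nat.le_succ _)
    · exact SCI_s2_ge' hX hT hTc hs (Z := Z) (by omega)
  have h5 : (Z ∩ (Y ∪ {a, b})).card + (Z \ (Y ∪ {a, b})).card = Z.card :=
    card_inter_add_card_sdiff Z _
  rw [inter_comm] at h5
  -- the cardinality of the auxiliary set
  have hc1 : ((Z \ (Y ∪ {a, b})) ∪ ({a, b} ∪ Y.erase q)).card =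
      (Z \ (Y ∪ {a, b})).card + (Y.card + 1) := by
    have h6 : ({a, b} ∪ Y.erase q : Finset V).card = Y.card + 1 := by
      rw [card_union_of_disjoint, card_pair hab, card_erase_of_mem hq]
      · have := Finset.card_pos.2 ⟨q, hq⟩
        omega
      · rw [disjoint_left]
        intro v hv hv'
        rw [mem_insert, mem_singleton] at hv
        have := mem_of_mem_erase hv'
        rcases hv with rfl | rfl
        · exact haY this
        · exact hbY this
    rw [card_union_of_disjoint, h6]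
    rw [disjoint_left]
    intro v hv hv'
    rw [mem_sdiff] at hv
    apply hv.2
    rw [mem_union] at hv'
    rcases hv' with hv' | hv'
    · exact mem_union_right _ hv'
    · exact mem_union_left _ (mem_of_mem_erase hv')
  rw [hc1] at hZ1
  set Z1 := (Z \ (Y ∪ {a, b})) ∪ ({a, b} ∪ Y.erase q) with hZ1d
  have h7 := SCI_split XX Y Z1
  have h8 := SCI_split' XX Y Z1
  have h9 : SCI_s1 XX Y Z1 ≤ SCI_s1 XX Y Z := by
    unfold SCI_s1
    refine sum_le_sum_of_subset fun X hX => ?_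
    rw [mem_filter] at hX ⊢
    refine ⟨hX.1, ?_, hX.2.2⟩
    obtain ⟨v, hv⟩ := hX.2.1
    rw [mem_inter] at hv
    refine ⟨v, mem_inter.2 ⟨hv.1, ?_⟩⟩
    have h10 := hv.2
    rw [hZ1d, mem_union, mem_union, mem_sdiff, mem_insert, mem_singleton] at h10
    rcases h10 with h10 | (rfl | rfl) | h10
    · exact h10.1
    · exact haZ
    · exact hbZ
    · exact absurd ⟨v, mem_inter.2 ⟨hv.1, mem_of_mem_erase h10⟩⟩ hX.2.2
  omega

theorem sc_II (h : Ex W E B XX P Y a b y) {q : V} (hq : P ∩ Y = {q})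
    (ha : ¬ nb E {a} ⊆ insert b Y) (hb : ¬ nb E {b} ⊆ insert a Y) :
    G1 XX (W \ insert y (P.erase q)) := by
  intro Z hZ hZne
  obtain ⟨haY, hbY⟩ := h.not_mem
  have hqPY : q ∈ P ∧ q ∈ Y := by
    have : q ∈ P ∩ Y := by rw [hq]; simp
    exact mem_inter.1 this
  have hyZ : y ∉ Z := fun hy => by
    have := hZ hy
    simp at this
  have hsub : ∀ v ∈ Z, v ≠ q → v ∈ W \ P := by
    intro v hv hvq
    have h1 := hZ hv
    rw [mem_sdiff, mem_insert, not_or] at h1
    rw [mem_sdiff]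
    exact ⟨h1.1, fun hvP => h1.2.2 (mem_erase.2 ⟨hvq, hvP⟩)⟩
  by_cases hqZ : q ∈ Z
  swap
  · exact h.hF.1 Z (fun v hv => hsub v hv fun e => hqZ (e ▸ hv)) hZne
  have hqy : q ≠ y := fun e => hyZ (e ▸ hqZ)
  have hPY : ∀ v ∈ Y, v ≠ q → v ∈ W \ P := by
    intro v hv hvq
    rw [mem_sdiff]
    refine ⟨h.hYW hv, fun hvP => hvq ?_⟩
    have : v ∈ P ∩ Y := mem_inter.2 ⟨hvP, hv⟩
    rwa [hq, mem_singleton] at this
  have hcases := ex_cases h.hG h.hB h.hX h.hYW ⟨y, h.hy⟩ h.hab h.hn h.g1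
  rcases hcases with ⟨X, hXX, hTX, huniq⟩ | ⟨hT, hs⟩
  · -- case B
    have hyX : y ∈ X := hTX (mem_union_left _ h.hy)
    have hqX : q ∈ X := hTX (mem_union_left _ hqPY.2)
    have hc : (insert y (Z.erase q)).card = Z.card := by
      rw [card_insert_of_notMem, card_erase_of_mem hqZ]
      · have := Finset.card_pos.2 hZne
        omega
      · exact fun h' => hyZ (mem_of_mem_erase h')
    have hsc : sc XX (insert y (Z.erase q)) ≤ sc XX Z := by
      unfold sc
      refine sum_le_sum_of_subset fun X' hX' => ?_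
      rw [mem_filter] at hX' ⊢
      refine ⟨hX'.1, ?_⟩
      obtain ⟨v, hv⟩ := hX'.2
      rw [mem_inter, mem_insert] at hv
      rcases hv.2 with rfl | hv'
      · have : X' = X := huniq X' hX'.1 ⟨v, mem_inter.2 ⟨hv.1, h.hy⟩⟩
        subst this
        exact ⟨q, mem_inter.2 ⟨hqX, hqZ⟩⟩
      · exact ⟨v, mem_inter.2 ⟨hv.1, mem_of_mem_erase hv'⟩⟩
    have h1 := h.hF.1 (insert y (Z.erase q)) (fun v hv => by
      rw [mem_insert, mem_erase] at hv
      rcases hv with rfl | hv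
      · exact hPY v h.hy hqy.symm
      · exact hsub v hv.2 hv.1) ⟨y, mem_insert_self _ _⟩
    omega
  · -- case A
    have hZo : (Z \ (Y ∪ {a, b})).Nonempty →
        2 * (Z \ (Y ∪ {a, b})).card + 1 ≤ sc XX (Z \ (Y ∪ {a, b})) := by
      intro hne
      refine h.hF.1 _ (fun v hv => ?_) hne
      rw [mem_sdiff, mem_union, not_or] at hv
      exact hsub v hv.1 fun e => hv.2.1 (e ▸ hqPY.2)
    by_cases haZ : a ∈ Z
    · by_cases hbZ : b ∈ Z
      · refine SCII_iii h.hB.2.1 h.hX hT hs h.hab haY hbY h.hy haZ hbZ hyZ hqPY.2 ?_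
        refine h.hF.1 _ (fun v hv => ?_) ⟨a, by simp⟩
        rw [mem_union, mem_union, mem_sdiff, mem_insert, mem_singleton, mem_erase] at hv
        rcases hv with hv | (rfl | rfl) | hv
        · exact hsub v hv.1 fun e => hv.2 (mem_union_left _ (e ▸ hqPY.2))
        · exact hsub v haZ fun e => haY (e ▸ hqPY.2)
        · exact hsub v hbZ fun e => hbY (e ▸ hqPY.2)
        · exact hPY v hv.2 hv.1
      · exact SCI_ii h.hB.2.1 h.hX hT hs h.hab haY hbY h.hy haZ hbZ hyZ (SCI_nbr h.hG ha) hZo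
    · by_cases hbZ : b ∈ Z
      · have e1 : ({a, b} : Finset V) = {b, a} := pair_comm a b
        rw [e1] at hT hZo
        exact SCI_ii h.hB.2.1 h.hX hT hs h.hab.symm hbY haY h.hy hbZ haZ hyZ
          (SCI_nbr h.hG hb) hZo
      · exact SCI_i hT h.g1 hZne haZ hbZ hZo

end Pool.Agent.Lib.MP_5d015b_lc
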