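import Pool.Agent.Lib.MP_5d015b_lc.NBS
import Pool.Agent.Lib.MP_5d015b_lc.EX0
import Pool.Agent.Lib.MP_5d015b_lc.NB0
import Pool.Agent.Lib.MP_5d015b_lc.NBI
import Pool.Agent.Lib.MP_5d015b_lc.SC0
import Pool.Agent.Lib.MP_5d015b_lc.SCI
import Pool.Agent.Lib.MP_5d015b_lc.SCII

/-!
# The exchange lemma
-/

set_option autoImplicit false
set_option linter.unusedSectionVars false

namespace Pool.Agent.Lib.MP_5d015b_lc

variable {V : Type*} [DecidableEq V]

variable {W : Finset V} {E B XX : Finset (Finset V)}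


variable {P Y : Finset V} {a b y : V}

/-- neighbours of a subset of `C` without `P` -/
theorem nb_sdiff_sub (hG : IsGraph W E) {C N : Finset V} (hC : nb E C ⊆ N) (P : Finset V) :
    nb E (C \ P) ⊆ (P ∩ C) ∪ N := by
  intro v hv
  rw [mem_nb hG] at hv
  obtain ⟨hv1, u, hu, hE⟩ := hv
  rw [Finset.mem_sdiff] at hu
  rw [Finset.mem_union, Finset.mem_inter]
  by_cases hvC : v ∈ C
  · left
    refine ⟨?_, hvC⟩
    by_contra hvP
    exact hv1 (Finset.mem_sdiff.2 ⟨hvC, hvP⟩)
  · right
    apply hC
    rw [mem_nb hG]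
    exact ⟨hvC, u, hu.1, hE⟩

theorem exf_I (h : Ex W E B XX P Y a b y) {P0 : Finset V} (h0 : P0 ⊆ P)
    (hd : ∀ p ∈ P0, p ∉ Y) (ha : ¬ nb E {a} ⊆ insert b Y) (h2 : 2 ≤ (P ∩ insert b Y).card) :
    ∃ P', P' ⊆ W ∧ insert y P0 ⊆ P' ∧ P'.card ≤ P.card ∧ Feas W E XX P' := by
  have hbW : b ∈ W := by
    have : b ∈ nb E Y := by rw [h.hn]; simp
    exact (Finset.mem_sdiff.1 (nb_sub h.hG Y this)).1
  refine ⟨(P \ insert b Y) ∪ {y, b}, ?_, ?_, ?_, sc_I h ha, nb_I h ha⟩
  · apply Finset.union_subset (Finset.sdiff_subset.trans h.hPW)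
    intro v hv
    rw [Finset.mem_insert, Finset.mem_singleton] at hv
    rcases hv with rfl | rfl
    · exact h.hYW h.hy
    · exact hbW
  · intro v hv
    rw [Finset.mem_insert] at hv
    rw [Finset.mem_union, Finset.mem_sdiff, Finset.mem_insert, Finset.mem_insert,
      Finset.mem_singleton]
    rcases hv with rfl | hv
    · right; left; rfl
    · by_cases hvb : v = b
      · right; right; exact hvb
      · left
        refine ⟨h0 hv, ?_⟩
        rintro (h1 | h1)
        · exact hvb h1
        · exact hd v hv h1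
  · have h3 := Finset.card_union_le (P \ insert b Y) {y, b}
    have h4 : ({y, b} : Finset V).card ≤ 2 := Finset.card_le_two
    have h5 := Finset.card_inter_add_card_sdiff P (insert b Y)
    omega

theorem exf_pre (h : Ex W E B XX P Y a b y) (hb : nb E {b} ⊆ insert a Y) :
    2 ≤ (P ∩ insert b Y).card := by
  have hbY : b ∉ Y := by
    have : b ∈ nb E Y := by rw [h.hn]; simp
    exact (Finset.mem_sdiff.1 (nb_sub h.hG Y this)).2
  have hbW : b ∈ W := by
    have : b ∈ nb E Y := by rw [h.hn]; simp
    exact (Finset.mem_sdiff.1 (nb_sub h.hG Y this)).1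
  have hC : nb E (insert b Y) ⊆ {a} := by
    intro v hv
    rw [mem_nb h.hG] at hv
    obtain ⟨hv1, u, hu, hE⟩ := hv
    rw [Finset.mem_insert, not_or] at hv1
    rw [Finset.mem_singleton]
    rw [Finset.mem_insert] at hu
    rcases hu with rfl | hu
    · have h1 : v ∈ nb E {u} := by
        rw [mem_nb h.hG]
        refine ⟨?_, u, Finset.mem_singleton_self u, hE⟩
        rw [Finset.mem_singleton]
        exact hv1.1
      have h2 := hb h1
      rw [Finset.mem_insert] at h2
      exact h2.resolve_right hv1.2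
    · have h1 : v ∈ nb E Y := by
        rw [mem_nb h.hG]
        exact ⟨hv1.2, u, hu, hE⟩
      rw [h.hn, Finset.mem_insert, Finset.mem_singleton] at h1
      exact h1.resolve_right hv1.1
  by_cases hne : (insert b Y \ P).Nonempty
  · have hsub : insert b Y \ P ⊆ W \ P := by
      intro v hv
      rw [Finset.mem_sdiff, Finset.mem_insert] at hv
      rw [Finset.mem_sdiff]
      refine ⟨?_, hv.2⟩
      rcases hv.1 with rfl | h1
      · exact hbW
      · exact h.hYW h1
    have h1 := h.hF.2 _ hsub hne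
    have h2 := Finset.card_le_card (nb_sdiff_sub h.hG hC P)
    have h3 := Finset.card_union_le (P ∩ insert b Y) {a}
    rw [Finset.card_singleton] at h3
    omega
  · rw [Finset.not_nonempty_iff_eq_empty, Finset.sdiff_eq_empty_iff_subset] at hne
    rw [Finset.inter_eq_right.2 hne, Finset.card_insert_of_notMem hbY]
    have := Finset.card_pos.2 ⟨y, h.hy⟩
    omega

theorem exf_0 (h : Ex W E B XX P Y a b y) {P0 : Finset V} (h0 : P0 ⊆ P)
    (hd : ∀ p ∈ P0, p ∉ Y) (ha : nb E {a} ⊆ insert b Y) (hb : nb E {b} ⊆ insert a Y) :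
    ∃ P', P' ⊆ W ∧ insert y P0 ⊆ P' ∧ P'.card ≤ P.card ∧ Feas W E XX P' := by
  have haY : a ∈ W \ Y := by
    apply nb_sub h.hG Y
    rw [h.hn]; simp
  have hbY : b ∈ W \ Y := by
    apply nb_sub h.hG Y
    rw [h.hn]; simp
  rw [Finset.mem_sdiff] at haY hbY
  have hC : nb E (Y ∪ {a, b}) ⊆ ∅ := by
    intro v hv
    rw [mem_nb h.hG] at hv
    obtain ⟨hv1, u, hu, hE⟩ := hv
    simp only [Finset.mem_union, Finset.mem_insert, Finset.mem_singleton, not_or] at hv1 hu
    exfalso
    rcases hu with hu | rfl | rfl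
    · have h1 : v ∈ nb E Y := by
        rw [mem_nb h.hG]
        exact ⟨hv1.1, u, hu, hE⟩
      rw [h.hn, Finset.mem_insert, Finset.mem_singleton] at h1
      exact h1.elim hv1.2.1 hv1.2.2
    · have h1 : v ∈ nb E {u} := by
        rw [mem_nb h.hG]
        refine ⟨?_, u, Finset.mem_singleton_self u, hE⟩
        rw [Finset.mem_singleton]
        exact hv1.2.1
      have h2 := ha h1
      rw [Finset.mem_insert] at h2
      exact h2.elim hv1.2.2 hv1.1
    · have h1 : v ∈ nb E {u} := by
        rw [mem_nb h.hG]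
        refine ⟨?_, u, Finset.mem_singleton_self u, hE⟩
        rw [Finset.mem_singleton]
        exact hv1.2.2
      have h2 := hb h1
      rw [Finset.mem_insert] at h2
      exact h2.elim hv1.2.1 hv1.1
  have h3 : 3 ≤ (P ∩ (Y ∪ {a, b})).card := by
    by_cases hne : ((Y ∪ {a, b}) \ P).Nonempty
    · have hsub : (Y ∪ {a, b}) \ P ⊆ W \ P := by
        intro v hv
        simp only [Finset.mem_sdiff, Finset.mem_union, Finset.mem_insert,
          Finset.mem_singleton] at hv ⊢
        refine ⟨?_, hv.2⟩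
        rcases hv.1 with h1 | rfl | rfl
        · exact h.hYW h1
        · exact haY.1
        · exact hbY.1
      have h1 := h.hF.2 _ hsub hne
      have h2 := Finset.card_le_card (nb_sdiff_sub h.hG hC P)
      rw [Finset.union_empty] at h2
      omega
    · rw [Finset.not_nonempty_iff_eq_empty, Finset.sdiff_eq_empty_iff_subset] at hne
      rw [Finset.inter_eq_right.2 hne, Finset.card_union_of_disjoint, Finset.card_pair h.hab]
      · have := Finset.card_pos.2 ⟨y, h.hy⟩
        omega
      · rw [Finset.disjoint_right]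
        intro v hv
        rw [Finset.mem_insert, Finset.mem_singleton] at hv
        rcases hv with rfl | rfl
        · exact haY.2
        · exact hbY.2
  refine ⟨(P \ (Y ∪ {a, b})) ∪ {y, a, b}, ?_, ?_, ?_, sc_0 h, nb_0 h ha hb⟩
  · apply Finset.union_subset (Finset.sdiff_subset.trans h.hPW)
    intro v hv
    rw [Finset.mem_insert, Finset.mem_insert, Finset.mem_singleton] at hv
    rcases hv with rfl | rfl | rfl
    · exact h.hYW h.hy
    · exact haY.1
    · exact hbY.1
  · intro v hv
    rw [Finset.mem_insert] at hv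
    simp only [Finset.mem_union, Finset.mem_sdiff, Finset.mem_insert, Finset.mem_singleton,
      not_or]
    rcases hv with rfl | hv
    · right; left; rfl
    · by_cases hva : v = a
      · right; right; left; exact hva
      · by_cases hvb : v = b
        · right; right; right; exact hvb
        · left
          exact ⟨h0 hv, hd v hv, hva, hvb⟩
  · have h4 := Finset.card_union_le (P \ (Y ∪ {a, b})) {y, a, b}
    have h5 : ({y, a, b} : Finset V).card ≤ 3 := Finset.card_le_three
    have h6 := Finset.card_inter_add_card_sdiff P (Y ∪ {a, b})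
    omega

theorem exchange (hG : IsGraph W E) (hB : MaxSp E B) (hX : Bodies E B XX) (hPW : P ⊆ W)
    (hF : Feas W E XX P) {P0 : Finset V} (h0 : P0 ⊆ P) (hD : Dang W E XX P0 Y)
    (hmin : ∀ A ⊆ Y, A.Nonempty → A ≠ Y → 3 ≤ (nb E A).card) (hy : y ∈ Y) :
    ∃ P', P' ⊆ W ∧ insert y P0 ⊆ P' ∧ P'.card ≤ P.card ∧ Feas W E XX P' := by
  obtain ⟨hYW0, hne, hn2, g1⟩ := hD
  have hYW : Y ⊆ W := hYW0.trans Finset.sdiff_subset
  have hd : ∀ p ∈ P0, p ∉ Y := fun p hp hpY => (Finset.mem_sdiff.1 (hYW0 hpY)).2 hp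
  have hn := ex_card hG hB hX hYW hne hn2 g1
  rw [Finset.card_eq_two] at hn
  obtain ⟨a, b, hab, hn⟩ := hn
  have hEx : Ex W E B XX P Y a b y := ⟨hG, hB, hX, hPW, hF, hYW, hy, hn, hab, g1, hmin⟩
  have hEx' : Ex W E B XX P Y b a y :=
    ⟨hG, hB, hX, hPW, hF, hYW, hy, by rw [hn, Finset.pair_comm], hab.symm, g1, hmin⟩
  by_cases ha : nb E {a} ⊆ insert b Y
  · by_cases hb : nb E {b} ⊆ insert a Y
    · exact exf_0 hEx h0 hd ha hb
    · exact exf_I hEx' h0 hd hb (exf_pre hEx' ha)
  · by_cases hb : nb E {b} ⊆ insert a Y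
    · exact exf_I hEx h0 hd ha (exf_pre hEx hb)
    · by_cases h2 : 2 ≤ (P ∩ insert b Y).card
      · exact exf_I hEx h0 hd ha h2
      · have hQ : (P ∩ Y).Nonempty := by
          by_contra hQ
          have hsub : Y ⊆ W \ P := by
            intro v hv
            rw [Finset.mem_sdiff]
            exact ⟨hYW hv, fun hvP => hQ ⟨v, Finset.mem_inter.2 ⟨hvP, hv⟩⟩⟩
          have := hF.2 Y hsub hne
          omega
        have h3 : (P ∩ Y).card = 1 := by
          have h4 := Finset.card_le_card
            (Finset.inter_subset_inter_left (Finset.subset_insert b Y) : P ∩ Y ⊆ P ∩ insert b Y)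
          have h5 := Finset.card_pos.2 hQ
          omega
        rw [Finset.card_eq_one] at h3
        obtain ⟨q, hq⟩ := h3
        have hqQ : q ∈ P ∩ Y := by rw [hq]; exact Finset.mem_singleton_self q
        rw [Finset.mem_inter] at hqQ
        refine ⟨insert y (P.erase q), ?_, ?_, ?_, sc_II hEx hq ha hb, nb_II hEx hq⟩
        · intro v hv
          rw [Finset.mem_insert] at hv
          rcases hv with rfl | hv
          · exact hYW hy
          · exact hPW (Finset.mem_of_mem_erase hv)
        · apply Finset.insert_subset_insert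
          intro v hv
          rw [Finset.mem_erase]
          refine ⟨?_, h0 hv⟩
          rintro rfl
          exact hd _ hv hqQ.2
        · have h4 := Finset.card_insert_le y (P.erase q)
          rw [Finset.card_erase_of_mem hqQ.1] at h4
          have h5 := Finset.card_pos.2 ⟨q, hqQ.1⟩
          omega

end Pool.Agent.Lib.MP_5d015b_lc
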