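import Pool.Agent.Lib.MP_5d015b_lc.FinDefs
import Pool.Agent.Lib.MP_5d015b_lc.LB

/-!
# Edge sets of simple graphs
-/

set_option autoImplicit false
set_option linter.unusedSectionVars false

namespace Pool.Agent.Lib.MP_5d015b_lc

open Pool.Agent.Lib.Parity Pool.Agent.Lib.PolyTime

theorem fin_pair_eq {n : ℕ} {a b u v : Fin n} (hab : a ≠ b) :
    ({(a : ℕ), (b : ℕ)} : Finset ℕ) = {(u : ℕ), (v : ℕ)} ↔ s(a, b) = s(u, v) := by
  rw [Sym2.eq_iff]
  constructor
  · intro h
    have h1 : (a : ℕ) ∈ ({(u : ℕ), (v : ℕ)} : Finset ℕ) := by rw [← h]; simp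
    have h2 : (b : ℕ) ∈ ({(u : ℕ), (v : ℕ)} : Finset ℕ) := by rw [← h]; simp
    rw [Finset.mem_insert, Finset.mem_singleton] at h1 h2
    rcases h1 with h1 | h1
    · rcases h2 with h2 | h2
      · exact absurd (Fin.ext (h1.trans h2.symm)) hab
      · exact Or.inl ⟨Fin.ext h1, Fin.ext h2⟩
    · rcases h2 with h2 | h2
      · exact Or.inr ⟨Fin.ext h1, Fin.ext h2⟩
      · exact absurd (Fin.ext (h1.trans h2.symm)) hab
  · rintro (⟨rfl, rfl⟩ | ⟨rfl, rfl⟩)
    · rfl
    · exact Finset.pair_comm _ _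

open Classical in
theorem mem_eset_iff {n : ℕ} (G : SimpleGraph (Fin n)) (s : Finset ℕ) :
    s ∈ eset G ↔ ∃ a b : Fin n, G.Adj a b ∧ s = {(a : ℕ), (b : ℕ)} := by
  rw [eset, Finset.mem_image]
  constructor
  · rintro ⟨q, hq, rfl⟩
    rw [Finset.mem_filter_univ] at hq
    exact ⟨q.1, q.2, hq, rfl⟩
  · rintro ⟨a, b, hab, rfl⟩
    refine ⟨(a, b), ?_, rfl⟩
    rw [Finset.mem_filter_univ]
    exact hab

theorem mem_eset {n : ℕ} (G : SimpleGraph (Fin n)) (u v : Fin n) :
    ({(u : ℕ), (v : ℕ)} : Finset ℕ) ∈ eset G ↔ G.Adj u v := by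
  rw [mem_eset_iff]
  constructor
  · rintro ⟨a, b, hab, h⟩
    rw [eq_comm, fin_pair_eq hab.ne, Sym2.eq_iff] at h
    rcases h with ⟨rfl, rfl⟩ | ⟨rfl, rfl⟩
    · exact hab
    · exact hab.symm
  · intro h
    exact ⟨u, v, h, rfl⟩

theorem isGraph_eset {n : ℕ} (G : SimpleGraph (Fin n)) :
    IsGraph (Finset.range n) (eset G) := by
  constructor
  · intro e he
    rw [mem_eset_iff] at he
    obtain ⟨a, b, hab, rfl⟩ := he
    apply Finset.card_pair
    intro h
    exact hab.ne (Fin.ext h)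
  · intro e he
    rw [mem_eset_iff] at he
    obtain ⟨a, b, hab, rfl⟩ := he
    intro x hx
    rw [Finset.mem_insert, Finset.mem_singleton] at hx
    rw [Finset.mem_range]
    rcases hx with rfl | rfl
    · exact a.2
    · exact b.2

theorem eset_addClique (n : ℕ) (el : List (ℕ × ℕ)) (P : Finset (Fin n)) :
    eset (addClique (graphOf n el) P) =
      toE (edgesL n el) ∪ clique (P.image Fin.val) := by
  ext s
  rw [mem_eset_iff, Finset.mem_union, clique, Finset.mem_powersetCard]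
  constructor
  · rintro ⟨a, b, hab, rfl⟩
    have hne : (a : ℕ) ≠ b := fun h => hab.ne (Fin.ext h)
    rw [addClique, SimpleGraph.sup_adj, graphOf, SimpleGraph.fromRel_adj,
      SimpleGraph.fromRel_adj] at hab
    rcases hab with ⟨-, h⟩ | ⟨-, h⟩
    · left
      rw [mem_toE_edgesL n el a.2 b.2 hne]
      exact h
    · right
      have h1 : a ∈ P ∧ b ∈ P := h.elim id fun h => ⟨h.2, h.1⟩
      refine ⟨?_, Finset.card_pair hne⟩
      intro x hx
      rw [Finset.mem_insert, Finset.mem_singleton] at hx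
      rw [Finset.mem_image]
      rcases hx with rfl | rfl
      · exact ⟨a, h1.1, rfl⟩
      · exact ⟨b, h1.2, rfl⟩
  · rintro (h | ⟨h1, h2⟩)
    · rw [mem_toE_iff] at h
      obtain ⟨e, he, rfl⟩ := h
      have h3 := (good_edgesL n el).2 e he
      have h4 : e.1 < n := h3.1.trans h3.2
      refine ⟨⟨e.1, h4⟩, ⟨e.2, h3.2⟩, ?_, rfl⟩
      rw [addClique, SimpleGraph.sup_adj, graphOf, SimpleGraph.fromRel_adj]
      left
      refine ⟨fun h => ?_, ?_⟩
      · have := congrArg Fin.val h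
        simp only at this
        omega
      · have h5 : ({e.1, e.2} : Finset ℕ) ∈ toE (edgesL n el) := by
          rw [mem_toE_iff]
          exact ⟨e, he, rfl⟩
        rw [mem_toE_edgesL n el h4 h3.2 h3.1.ne] at h5
        exact h5
    · rw [Finset.card_eq_two] at h2
      obtain ⟨x, y, hxy, rfl⟩ := h2
      have hx : x ∈ P.image Fin.val := h1 (by simp)
      have hy : y ∈ P.image Fin.val := h1 (by simp)
      rw [Finset.mem_image] at hx hy
      obtain ⟨a, ha, rfl⟩ := hx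
      obtain ⟨b, hb, rfl⟩ := hy
      refine ⟨a, b, ?_, rfl⟩
      rw [addClique, SimpleGraph.sup_adj, SimpleGraph.fromRel_adj]
      right
      exact ⟨fun h => hxy (congrArg Fin.val h), Or.inl ⟨ha, hb⟩⟩

theorem eset_delete {n : ℕ} (G : SimpleGraph (Fin n)) (u v : Fin n) (h : G.Adj u v) :
    eset (G.deleteEdges {s(u, v)}) = (eset G).erase {(u : ℕ), (v : ℕ)} := by
  ext s
  rw [Finset.mem_erase, mem_eset_iff, mem_eset_iff]
  constructor
  · rintro ⟨a, b, hab, rfl⟩
    rw [SimpleGraph.deleteEdges_adj, Set.mem_singleton_iff] at hab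
    refine ⟨?_, a, b, hab.1, rfl⟩
    intro hc
    rw [fin_pair_eq hab.1.ne] at hc
    exact hab.2 hc
  · rintro ⟨hne, a, b, hab, rfl⟩
    refine ⟨a, b, ?_, rfl⟩
    rw [SimpleGraph.deleteEdges_adj, Set.mem_singleton_iff]
    refine ⟨hab, fun hc => hne ?_⟩
    rw [fin_pair_eq hab.ne]
    exact hc

end Pool.Agent.Lib.MP_5d015b_lc
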