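import Pool.Agent.Lib.MP_5d015b_lc.LamDefs

/-!
# Laman's theorem, necessity
-/

set_option autoImplicit false
set_option linter.unusedSectionVars false

namespace Pool.Agent.Lib.MP_5d015b_lc

variable {V : Type*} [DecidableEq V]

/-- the functional of an edge -/
def rho (p : V → Fin 2 → ℝ) (e : Finset V) : (V → Fin 2 → ℝ) →ₗ[ℝ] ℝ where
  toFun m := ∑ u ∈ e, ∑ v ∈ e,
    ((p u 0 - p v 0) * (m u 0 - m v 0) + (p u 1 - p v 1) * (m u 1 - m v 1))
  map_add' m m' := by
    simp only [← Finset.sum_add_distrib, Pi.add_apply]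
    refine Finset.sum_congr rfl fun u _ => Finset.sum_congr rfl fun v _ => ?_
    ring
  map_smul' r m := by
    simp only [Finset.mul_sum, Pi.smul_apply, smul_eq_mul, RingHom.id_apply]
    refine Finset.sum_congr rfl fun u _ => Finset.sum_congr rfl fun v _ => ?_
    ring

theorem rho_apply (p : V → Fin 2 → ℝ) (e : Finset V) (m : V → Fin 2 → ℝ) :
    rho p e m = ∑ u ∈ e, ∑ v ∈ e,
      ((p u 0 - p v 0) * (m u 0 - m v 0) + (p u 1 - p v 1) * (m u 1 - m v 1)) := rfl

theorem rho_pair (p m : V → Fin 2 → ℝ) {u v : V} (h : u ≠ v) : rho p {u, v} m =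
    2 * ((p u 0 - p v 0) * (m u 0 - m v 0) + (p u 1 - p v 1) * (m u 1 - m v 1)) := by
  rw [rho_apply, Finset.sum_pair h, Finset.sum_pair h, Finset.sum_pair h]
  ring

/-- trivial motions -/
def triv (p : V → Fin 2 → ℝ) : (Fin 3 → ℝ) →ₗ[ℝ] (V → Fin 2 → ℝ) where
  toFun t v := ![t 0 - t 2 * p v 1, t 1 + t 2 * p v 0]
  map_add' t t' := by
    funext v i
    fin_cases i <;> simp <;> ring
  map_smul' r t := by
    funext v i
    fin_cases i <;> simp <;> ring

theorem triv_zero (p : V → Fin 2 → ℝ) (t : Fin 3 → ℝ) (v : V) :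
    triv p t v 0 = t 0 - t 2 * p v 1 := rfl

theorem triv_one (p : V → Fin 2 → ℝ) (t : Fin 3 → ℝ) (v : V) :
    triv p t v 1 = t 1 + t 2 * p v 0 := rfl

theorem rho_triv (p : V → Fin 2 → ℝ) (e : Finset V) (t : Fin 3 → ℝ) : rho p e (triv p t) = 0 := by
  rw [rho_apply]
  refine Finset.sum_eq_zero fun u _ => Finset.sum_eq_zero fun v _ => ?_
  rw [triv_zero, triv_zero, triv_one, triv_one]
  ring

/-- restriction to a set of vertices -/
def resX (X : Finset V) : (V → Fin 2 → ℝ) →ₗ[ℝ] (X → Fin 2 → ℝ) :=
  LinearMap.funLeft ℝ (Fin 2 → ℝ) (Subtype.val : X → V)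

theorem resX_apply (X : Finset V) (m : V → Fin 2 → ℝ) (v : X) : resX X m v = m v := rfl

/-- extension by zero -/
def extX (X : Finset V) : (X → Fin 2 → ℝ) →ₗ[ℝ] (V → Fin 2 → ℝ) where
  toFun m v := if h : v ∈ X then m ⟨v, h⟩ else 0
  map_add' m m' := by
    funext v
    by_cases h : v ∈ X <;> simp [h]
  map_smul' r m := by
    funext v
    by_cases h : v ∈ X <;> simp [h]

theorem extX_apply (X : Finset V) (m : X → Fin 2 → ℝ) {v : V} (h : v ∈ X) :
    extX X m v = m ⟨v, h⟩ := by
  change (if h : v ∈ X then m ⟨v, h⟩ else 0) = _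
  rw [dif_pos h]

/-- the functional of an edge on the functions on `X` -/
def rX (p : V → Fin 2 → ℝ) (X e : Finset V) : (X → Fin 2 → ℝ) →ₗ[ℝ] ℝ := (rho p e).comp (extX X)

theorem rX_res (p : V → Fin 2 → ℝ) {X e : Finset V} (he : e ⊆ X) (m : V → Fin 2 → ℝ) :
    rX p X e (resX X m) = rho p e m := by
  unfold rX
  rw [LinearMap.comp_apply, rho_apply, rho_apply]
  refine Finset.sum_congr rfl fun u hu => Finset.sum_congr rfl fun v hv => ?_
  rw [extX_apply X _ (he hu), extX_apply X _ (he hv), resX_apply, resX_apply]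

/-- trivial motions on `X` -/
def trX (p : V → Fin 2 → ℝ) (X : Finset V) : Submodule ℝ (X → Fin 2 → ℝ) :=
  LinearMap.range ((resX X).comp (triv p))

theorem finrank_trX_le (p : V → Fin 2 → ℝ) (X : Finset V) :
    Module.finrank ℝ (trX p X) ≤ 3 := by
  have h := LinearMap.finrank_range_le ((resX X).comp (triv p))
  rw [Module.finrank_fin_fun] at h
  exact h

theorem finrank_trX (p : V → Fin 2 → ℝ) {X : Finset V} {u v : V} (hu : u ∈ X) (hv : v ∈ X)
    (h : p u ≠ p v) : Module.finrank ℝ (trX p X) = 3 := by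
  unfold trX
  rw [LinearMap.finrank_range_of_inj, Module.finrank_fin_fun]
  rw [← LinearMap.ker_eq_bot, LinearMap.ker_eq_bot']
  intro t ht
  have h1 : ∀ w ∈ X, t 0 - t 2 * p w 1 = 0 ∧ t 1 + t 2 * p w 0 = 0 := by
    intro w hw
    have h2 := congrFun ht ⟨w, hw⟩
    rw [LinearMap.comp_apply, resX_apply] at h2
    refine ⟨?_, ?_⟩
    · have h3 := congrFun h2 0
      rw [triv_zero] at h3
      exact h3
    · have h3 := congrFun h2 1
      rw [triv_one] at h3
      exact h3
  have hu' := h1 u hu
  have hv' := h1 v hv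
  have h2 : t 2 = 0 := by
    by_contra h2
    apply h
    funext i
    fin_cases i
    · have : t 2 * (p u 0 - p v 0) = 0 := by linarith [hu'.2, hv'.2]
      have := (mul_eq_zero.1 this).resolve_left h2
      simpa using sub_eq_zero.1 this
    · have : t 2 * (p u 1 - p v 1) = 0 := by linarith [hu'.1, hv'.1]
      have := (mul_eq_zero.1 this).resolve_left h2
      simpa using sub_eq_zero.1 this
  rw [h2, zero_mul, sub_zero, zero_mul, add_zero] at hu'
  funext i
  fin_cases i
  · exact hu'.1
  · exact hu'.2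
  · exact h2

theorem finrank_X (X : Finset V) : Module.finrank ℝ (X → Fin 2 → ℝ) = 2 * X.card := by
  rw [Module.finrank_pi_fintype]
  simp [mul_comm]

/-- sets of edges with independent functionals are sparse -/
theorem sparse_of_indep {D : Finset (Finset V)} (hD : ∀ e ∈ D, e.card = 2)
    {p : V → Fin 2 → ℝ} (hi : LinearIndepOn ℝ (rho p) (D : Set (Finset V))) : Sparse D := by
  refine ⟨hD, fun X hX => ?_⟩
  have hins : ∀ e : ins D X, (e : Finset V) ∈ D ∧ (e : Finset V) ⊆ X := by
    intro e
    have := e.2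
    unfold ins at this
    rw [Finset.mem_filter] at this
    exact this
  have hli : LinearIndependent ℝ (fun e : ins D X => rho p (e : Finset V)) := by
    have h1 : LinearIndependent ℝ (fun e : (D : Set (Finset V)) => rho p (e : Finset V)) := hi
    exact h1.comp (fun e : ins D X => (⟨e.1, by exact_mod_cast (hins e).1⟩ :
      (D : Set (Finset V)))) (fun a b hab => Subtype.ext (by simpa using hab))
  by_cases hp : ∃ u ∈ X, ∃ v ∈ X, p u ≠ p v
  · obtain ⟨u, hu, v, hv, huv⟩ := hp
    have hX1 : LinearIndependent ℝ (fun e : ins D X => rX p X (e : Finset V)) := by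
      refine LinearIndependent.of_comp ((resX X).dualMap) ?_
      convert hli using 1
      funext e
      refine LinearMap.ext fun m => ?_
      exact rX_res p (hins e).2 m
    have hmem : ∀ e : ins D X, rX p X (e : Finset V) ∈ (trX p X).dualAnnihilator := by
      intro e
      rw [Submodule.mem_dualAnnihilator]
      rintro m ⟨t, rfl⟩
      rw [LinearMap.comp_apply]
      exact (rX_res p (hins e).2 _).trans (rho_triv p _ t)
    have hX2 : LinearIndependent ℝ (fun e : ins D X =>
        (⟨rX p X (e : Finset V), hmem e⟩ : (trX p X).dualAnnihilator)) :=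
      LinearIndependent.of_comp (Submodule.subtype _) hX1
    have h1 := hX2.fintype_card_le_finrank
    have h2 := Subspace.finrank_add_finrank_dualAnnihilator_eq (trX p X)
    rw [finrank_trX p hu hv huv, finrank_X] at h2
    rw [Fintype.card_coe] at h1
    omega
  · push Not at hp
    have h0 : (ins D X).card = 0 := by
      rw [Finset.card_eq_zero, Finset.eq_empty_iff_forall_notMem]
      intro e he
      have h1 := hli.ne_zero ⟨e, he⟩
      apply h1
      refine LinearMap.ext fun m => ?_
      rw [LinearMap.zero_apply, rho_apply]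
      refine Finset.sum_eq_zero fun u hu => Finset.sum_eq_zero fun v hv => ?_
      have huX : u ∈ X := (hins ⟨e, he⟩).2 hu
      have hvX : v ∈ X := (hins ⟨e, he⟩).2 hv
      rw [hp u huX v hvX]
      ring
    omega

theorem laman_nec {W : Finset V} {E : Finset (Finset V)} (hG : IsGraph W E) (h2 : 2 ≤ W.card)
    {p : V → Fin 2 → ℝ} (h : InfRigid W E p) : Rigid W E := by
  classical
  obtain ⟨b, hbE, -, hspan, hb⟩ := exists_linearIndepOn_extension
    (K := ℝ) (v := rho p) (s := (∅ : Set (Finset V))) (t := (E : Set (Finset V)))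
    (linearIndepOn_empty ℝ _) (Set.empty_subset _)
  set D := E.filter fun e => e ∈ b with hDdef
  have hDb : (D : Set (Finset V)) = b := by
    ext e
    rw [hDdef, Finset.coe_filter]
    exact ⟨fun hh => hh.2, fun hh => ⟨by exact_mod_cast hbE hh, hh⟩⟩
  rw [← hDb] at hb hspan
  have hDE : D ⊆ E := Finset.filter_subset _ _
  have hS : Sparse D := sparse_of_indep (fun e he => hG.card_two e (hDE he)) hb
  refine ⟨D, hDE, hS, ?_⟩
  have hins : ins D W = D := by
    ext e
    unfold ins
    rw [Finset.mem_filter]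
    exact ⟨fun hh => hh.1, fun hh => ⟨hh, hG.sub e (hDE hh)⟩⟩
  have hup := hS.2 W h2
  rw [hins] at hup
  -- the lower bound
  set S := Submodule.span ℝ ((D.image (rX p W) : Finset (Module.Dual ℝ (W → Fin 2 → ℝ))) :
    Set (Module.Dual ℝ (W → Fin 2 → ℝ))) with hSdef
  have hS1 : Module.finrank ℝ S ≤ D.card :=
    (finrank_span_finset_le_card _).trans Finset.card_image_le
  have hS2 := Subspace.finrank_add_finrank_dualCoannihilator_eq S
  rw [finrank_X] at hS2
  have hS3 : S.dualCoannihilator ≤ trX p W := by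
    intro m hm
    rw [Submodule.mem_dualCoannihilator] at hm
    have hk : ∀ e ∈ E, rho p e (extX W m) = 0 := by
      intro e he
      have h1 : rho p e ∈ Submodule.span ℝ (rho p '' (D : Set (Finset V))) :=
        hspan ⟨e, by exact_mod_cast he, rfl⟩
      have h3 : Submodule.span ℝ (rho p '' (D : Set (Finset V))) ≤
          LinearMap.ker (Module.Dual.eval ℝ (V → Fin 2 → ℝ) (extX W m)) := by
        rw [Submodule.span_le]
        rintro _ ⟨f, hf, rfl⟩
        rw [SetLike.mem_coe, LinearMap.mem_ker]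
        refine hm (rX p W f) (Submodule.subset_span ?_)
        rw [Finset.coe_image]
        exact ⟨f, hf, rfl⟩
      exact LinearMap.mem_ker.1 (h3 h1)
    obtain ⟨x, y, z, hxyz⟩ := h (extX W m) (by
      intro u v huv
      have huv' : u ≠ v := by
        rintro rfl
        have := hG.card_two _ huv
        simp at this
      have h4 := hk _ huv
      rw [rho_pair p _ huv'] at h4
      linarith)
    refine ⟨![x, y, z], ?_⟩
    funext v i
    have h5 := hxyz v v.2
    rw [extX_apply W m v.2] at h5
    rw [LinearMap.comp_apply, resX_apply]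
    fin_cases i
    · exact h5.1.symm
    · exact h5.2.symm
  have hS4 := Submodule.finrank_mono hS3
  have hS5 := finrank_trX_le p W
  omega

end Pool.Agent.Lib.MP_5d015b_lc
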