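import Pool.Agent.Lib.MP_5d015b_lc.LM4
import Pool.Agent.Lib.MP_5d015b_lc.LM5

/-!
# Module LM6: Laman's theorem
-/

set_option autoImplicit false
set_option linter.unusedSectionVars false

namespace Pool.Agent.Lib.MP_5d015b_lc

variable {V : Type*} [DecidableEq V]

/-- Laman's theorem: a graph has an infinitesimally rigid realisation in the plane if and only if it has a
`(2,3)`-sparse subgraph with `2 |W| - 3` edges -/
theorem laman {W : Finset V} {E : Finset (Finset V)} (hG : IsGraph W E) (h2 : 2 ≤ W.card) :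
    (∃ p, InfRigid W E p) ↔ Rigid W E := by
  constructor
  · rintro ⟨p, hp⟩
    exact laman_nec hG h2 hp
  · rintro ⟨D, hDE, hS, hc⟩
    obtain ⟨p, hp⟩ := laman_suff (W := W) (D := D)
      ⟨fun e he => hG.card_two e (hDE he), fun e he => hG.sub e (hDE he)⟩ hS hc h2
    exact ⟨p, fun m hm => hp m fun u v huv => hm u v (hDE huv)⟩

end Pool.Agent.Lib.MP_5d015b_lc
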