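import Pool.Agent.Lib.MP_5d015b_lc.FG0
import Pool.Agent.Lib.MP_5d015b_lc.LM6

/-!
# Rigidity of simple graphs
-/

set_option autoImplicit false
set_option linter.unusedSectionVars false

namespace Pool.Agent.Lib.MP_5d015b_lc

open Pool.Agent.Lib.Parity Pool.Agent.Lib.PolyTime


theorem rigidPlane_iff {n : ℕ} (hn : 2 ≤ n) (G : SimpleGraph (Fin n)) :
    RigidPlane G ↔ Rigid (Finset.range n) (eset G) := by
  rw [← laman (isGraph_eset G) (by rw [Finset.card_range]; exact hn)]
  constructor
  · rintro ⟨p, hp⟩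
    refine ⟨fun k => if h : k < n then p ⟨k, h⟩ else 0, ?_⟩
    intro m hm
    obtain ⟨a, b, c, habc⟩ := hp (fun i => m i) (by
      intro u v huv
      have h1 := hm u v ((mem_eset G u v).2 huv)
      simpa using h1)
    refine ⟨a, b, c, ?_⟩
    intro v hv
    rw [Finset.mem_range] at hv
    have h1 := habc ⟨v, hv⟩
    simpa [hv] using h1
  · rintro ⟨p, hp⟩
    refine ⟨fun i => p i, ?_⟩
    intro m hm
    obtain ⟨a, b, c, habc⟩ := hp (fun k => if h : k < n then m ⟨k, h⟩ else 0) (by
      intro u v huv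
      have hu : u < n := by
        apply Finset.mem_range.1
        exact (isGraph_eset G).sub _ huv (by simp)
      have hv : v < n := by
        apply Finset.mem_range.1
        exact (isGraph_eset G).sub _ huv (by simp)
      have h1 := hm ⟨u, hu⟩ ⟨v, hv⟩ ((mem_eset G ⟨u, hu⟩ ⟨v, hv⟩).1 huv)
      simpa [hu, hv] using h1)
    refine ⟨a, b, c, ?_⟩
    intro v
    have h1 := habc v (Finset.mem_range.2 v.2)
    simpa using h1

end Pool.Agent.Lib.MP_5d015b_lc
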