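import Pool.Agent.Lib.MP_5d015b_lc.FG0
import Pool.Agent.Lib.MP_5d015b_lc.NBS

/-!
# Three-connectedness of simple graphs
-/

set_option autoImplicit false
set_option linter.unusedSectionVars false

namespace Pool.Agent.Lib.MP_5d015b_lc

open Pool.Agent.Lib.Parity Pool.Agent.Lib.PolyTime

theorem mem_nb_eset {n : ℕ} (G : SimpleGraph (Fin n)) (Y : Finset ℕ) (v : Fin n) :
    (v : ℕ) ∈ nb (eset G) Y ↔ (v : ℕ) ∉ Y ∧ ∃ u : Fin n, (u : ℕ) ∈ Y ∧ G.Adj u v := by
  rw [mem_nb (isGraph_eset G)]
  constructor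
  · rintro ⟨hv, u, hu, hE⟩
    have h1 : u < n := Finset.mem_range.1 ((isGraph_eset G).sub _ hE (by simp))
    exact ⟨hv, ⟨u, h1⟩, hu, (mem_eset G ⟨u, h1⟩ v).1 hE⟩
  · rintro ⟨hv, u, hu, hE⟩
    exact ⟨hv, u, hu, (mem_eset G u v).2 hE⟩

theorem threeConnected_iff {n : ℕ} (G : SimpleGraph (Fin n)) :
    ThreeConnected G ↔ Conn3 (Finset.range n) (eset G) := by
  rw [ThreeConnected, Conn3, Fintype.card_fin, Finset.card_range]
  apply and_congr_right
  intro h4
  constructor
  · intro h Y hY hne hW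
    by_contra hc
    rw [not_le] at hc
    set C : Finset (Fin n) := Finset.univ.filter fun v : Fin n => (v : ℕ) ∈ nb (eset G) Y with hC
    have hCc : C.card ≤ 2 := by
      have h1 : (C.image Fin.val).card = C.card :=
        Finset.card_image_of_injective _ Fin.val_injective
      have h2 : C.image Fin.val ⊆ nb (eset G) Y := by
        intro x hx
        rw [Finset.mem_image] at hx
        obtain ⟨v, hv, rfl⟩ := hx
        rw [hC, Finset.mem_filter_univ] at hv
        exact hv
      have h3 := Finset.card_le_card h2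
      omega
    have hmC : ∀ v : Fin n, v ∈ C ↔ (v : ℕ) ∈ nb (eset G) Y := by
      intro v
      rw [hC, Finset.mem_filter_univ]
    obtain ⟨x, hx⟩ := hne
    have hxn : x < n := Finset.mem_range.1 (hY hx)
    have hxC : (⟨x, hxn⟩ : Fin n) ∉ C := by
      rw [hmC]
      intro h1
      exact (Finset.mem_sdiff.1 (nb_sub (isGraph_eset G) Y h1)).2 hx
    have h5 : Y ∪ nb (eset G) Y ⊆ Finset.range n :=
      Finset.union_subset hY ((nb_sub (isGraph_eset G) Y).trans Finset.sdiff_subset)
    obtain ⟨z, hz, hzn⟩ : ∃ z ∈ Finset.range n, z ∉ Y ∪ nb (eset G) Y := by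
      by_contra hcon
      push Not at hcon
      exact hW (Finset.Subset.antisymm h5 hcon)
    rw [Finset.mem_range] at hz
    rw [Finset.mem_union, not_or] at hzn
    have hzC : (⟨z, hz⟩ : Fin n) ∉ C := by
      rw [hmC]
      exact hzn.2
    have hr := (h C hCc).preconnected ⟨⟨x, hxn⟩, hxC⟩ ⟨⟨z, hz⟩, hzC⟩
    have key : ∀ w : {v | v ∉ C}, (G.induce {v | v ∉ C}).Reachable ⟨⟨x, hxn⟩, hxC⟩ w →
        ((w : Fin n) : ℕ) ∈ Y := by
      intro w hw
      obtain ⟨p⟩ := hw
      have : ∀ (a b : {v | v ∉ C}), (G.induce {v | v ∉ C}).Walk a b → ((a : Fin n) : ℕ) ∈ Y →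
          ((b : Fin n) : ℕ) ∈ Y := by
        intro a b p
        induction p with
        | nil => exact id
        | cons hadj _ ih =>
          intro ha
          apply ih
          rename_i u v w' _
          by_contra hv
          have h6 : ((v : Fin n) : ℕ) ∈ nb (eset G) Y := by
            rw [mem_nb_eset]
            exact ⟨hv, u, ha, hadj⟩
          exact v.2 ((hmC _).2 h6)
      exact this _ _ p hx
    exact hzn.1 (key _ hr)
  · intro h C hC
    have hne : ∃ x : Fin n, x ∉ C := by
      by_contra hcon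
      push Not at hcon
      have h1 : (Finset.univ : Finset (Fin n)) ⊆ C := fun x _ => hcon x
      have h2 := Finset.card_le_card h1
      rw [Finset.card_univ, Fintype.card_fin] at h2
      omega
    obtain ⟨x0, hx0⟩ := hne
    rw [SimpleGraph.connected_iff]
    refine ⟨?_, ⟨⟨x0, hx0⟩⟩⟩
    rintro ⟨x, hx⟩ ⟨z, hz⟩
    classical
    set Y : Finset ℕ := (Finset.univ.filter fun v : Fin n => ∃ hv : v ∉ C,
      (G.induce {v | v ∉ C}).Reachable ⟨x, hx⟩ ⟨v, hv⟩).image Fin.val with hYdef
    have hmY : ∀ v : Fin n, (v : ℕ) ∈ Y ↔ ∃ hv : v ∉ C,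
        (G.induce {v | v ∉ C}).Reachable ⟨x, hx⟩ ⟨v, hv⟩ := by
      intro v
      rw [hYdef, Finset.mem_image]
      constructor
      · rintro ⟨w, hw, hwv⟩
        rw [Finset.mem_filter_univ] at hw
        have : w = v := Fin.ext hwv
        subst this
        exact hw
      · intro hv
        exact ⟨v, by rw [Finset.mem_filter_univ]; exact hv, rfl⟩
    have hYn : Y ⊆ Finset.range n := by
      intro v hv
      rw [hYdef, Finset.mem_image] at hv
      obtain ⟨w, -, rfl⟩ := hv
      exact Finset.mem_range.2 w.2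
    have hxY : (x : ℕ) ∈ Y := (hmY x).2 ⟨hx, SimpleGraph.Reachable.refl _⟩
    have hnb : nb (eset G) Y ⊆ C.image Fin.val := by
      intro v hv
      have hvn : v < n :=
        Finset.mem_range.1 (Finset.mem_sdiff.1 (nb_sub (isGraph_eset G) Y hv)).1
      rw [Finset.mem_image]
      refine ⟨⟨v, hvn⟩, ?_, rfl⟩
      by_contra hvC
      have h1 := (mem_nb_eset G Y ⟨v, hvn⟩).1 hv
      obtain ⟨hvY, u, huY, huv⟩ := h1
      apply hvY
      obtain ⟨huC, hru⟩ := (hmY u).1 huY
      refine (hmY ⟨v, hvn⟩).2 ⟨hvC, hru.trans ?_⟩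
      exact SimpleGraph.Adj.reachable (by exact huv)
    have hcard : (nb (eset G) Y).card ≤ 2 := by
      refine (Finset.card_le_card hnb).trans ?_
      exact Finset.card_image_le.trans hC
    have hW : Y ∪ nb (eset G) Y = Finset.range n := by
      by_contra hcon
      have := h Y hYn ⟨x, hxY⟩ hcon
      omega
    have hzW : (z : ℕ) ∈ Y ∪ nb (eset G) Y := by
      rw [hW]
      exact Finset.mem_range.2 z.2
    rw [Finset.mem_union] at hzW
    rcases hzW with h1 | h1
    · exact ((hmY z).1 h1).2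
    · exfalso
      have h2 := hnb h1
      rw [Finset.mem_image] at h2
      obtain ⟨w, hw, hwz⟩ := h2
      have : w = z := Fin.ext hwz
      subst this
      exact hz hw

end Pool.Agent.Lib.MP_5d015b_lc
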