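import Pool.Agent.Lib.MP_5d015b_lc.Defs

/-!
# Adding edges
-/

set_option autoImplicit false
set_option linter.unusedSectionVars false

namespace Pool.Agent.Lib.MP_5d015b_lc

variable {V : Type*} [DecidableEq V]

theorem Rigid.mono {W : Finset V} {E E' : Finset (Finset V)} (h : Rigid W E) (hs : E ⊆ E') :
    Rigid W E' := by
  obtain ⟨D, h1, h2, h3⟩ := h
  exact ⟨D, h1.trans hs, h2, h3⟩

theorem nb_mono_edges {E E' : Finset (Finset V)} (hs : E ⊆ E') (Y : Finset V) :
    nb E Y ⊆ nb E' Y :=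
  Finset.sdiff_subset_sdiff (Finset.biUnion_subset_biUnion_of_subset_left _
    (Finset.filter_subset_filter _ hs)) le_rfl

theorem nb_subset_ground {W : Finset V} {E : Finset (Finset V)} (hG : IsGraph W E)
    (Y : Finset V) : nb E Y ⊆ W := by
  intro v hv
  unfold nb at hv
  rw [Finset.mem_sdiff, Finset.mem_biUnion] at hv
  obtain ⟨⟨e, he, hve⟩, -⟩ := hv
  exact hG.sub e (Finset.mem_filter.1 he).1 hve

theorem conn3_mono {W : Finset V} {E E' : Finset (Finset V)} (_hG : IsGraph W E)
    (hG' : IsGraph W E') (hs : E ⊆ E') (h : Conn3 W E) : Conn3 W E' := by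
  refine ⟨h.1, fun Y hY hne hYW => ?_⟩
  refine (h.2 Y hY hne fun heq => hYW ?_).trans (Finset.card_le_card (nb_mono_edges hs Y))
  apply Finset.Subset.antisymm (Finset.union_subset hY (nb_subset_ground hG' Y))
  calc W = Y ∪ nb E Y := heq.symm
    _ ⊆ Y ∪ nb E' Y := Finset.union_subset_union le_rfl (nb_mono_edges hs Y)

theorem redRigid_mono {W : Finset V} {E E' : Finset (Finset V)} (_hG : IsGraph W E)
    (_hG' : IsGraph W E') (hs : E ⊆ E') (h : RedRigid W E) (hE : E.Nonempty) :
    RedRigid W E' := by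
  intro e he
  by_cases heE : e ∈ E
  · exact (h e heE).mono (Finset.erase_subset_erase e hs)
  · obtain ⟨e₀, he₀⟩ := hE
    refine (h e₀ he₀).mono fun f hf => ?_
    have hf' := Finset.mem_of_mem_erase hf
    exact Finset.mem_erase.2 ⟨fun h => heE (h ▸ hf'), hs hf'⟩

end Pool.Agent.Lib.MP_5d015b_lc
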