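import Pool.Agent.Lib.MP_5d015b_lc.FG0
import Pool.Agent.Lib.MP_5d015b_lc.FG1
import Pool.Agent.Lib.MP_5d015b_lc.FG2
import Pool.Agent.Lib.MP_5d015b_lc.MONO

/-!
# Global rigidity of simple graphs
-/

set_option autoImplicit false
set_option linter.unusedSectionVars false

namespace Pool.Agent.Lib.MP_5d015b_lc

open Pool.Agent.Lib.Parity Pool.Agent.Lib.PolyTime


theorem redundantlyRigid_iff {n : ℕ} (h2 : 2 ≤ n) (G : SimpleGraph (Fin n))
    (hne : (eset G).Nonempty) :
    RedundantlyRigid G ↔ RedRigid (Finset.range n) (eset G) := by
  constructor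
  · rintro ⟨-, h⟩ s hs
    rw [mem_eset_iff] at hs
    obtain ⟨a, b, hab, rfl⟩ := hs
    rw [← eset_delete G a b hab, ← rigidPlane_iff h2]
    exact h s(a, b) hab
  · intro h
    have h1 : ∀ e ∈ G.edgeSet, RigidPlane (G.deleteEdges {e}) := by
      intro e he
      induction e with
      | _ a b =>
        rw [SimpleGraph.mem_edgeSet] at he
        rw [rigidPlane_iff h2, eset_delete G a b he]
        exact h _ ((mem_eset G a b).2 he)
    refine ⟨?_, h1⟩
    obtain ⟨s, hs⟩ := hne
    rw [rigidPlane_iff h2]
    exact (h s hs).mono (Finset.erase_subset _ _)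

theorem globallyRigidPlane_iff {n : ℕ} (G : SimpleGraph (Fin n)) :
    GloballyRigidPlane G ↔ GR (Finset.range n) (eset G) := by
  rw [GloballyRigidPlane, GR, Fintype.card_fin, Finset.card_range]
  apply or_congr
  · apply and_congr_right
    intro _
    constructor
    · rintro rfl s hs
      rw [clique, Finset.mem_powersetCard, Finset.card_eq_two] at hs
      obtain ⟨h1, x, y, hxy, rfl⟩ := hs
      have hx : x < n := Finset.mem_range.1 (h1 (by simp))
      have hy : y < n := Finset.mem_range.1 (h1 (by simp))
      have := (mem_eset (⊤ : SimpleGraph (Fin n)) ⟨x, hx⟩ ⟨y, hy⟩).2 (by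
        rw [SimpleGraph.top_adj]
        intro h
        exact hxy (congrArg Fin.val h))
      exact this
    · intro h
      ext a b
      rw [SimpleGraph.top_adj]
      constructor
      · intro hab
        exact hab.ne
      · intro hab
        rw [← mem_eset]
        apply h
        rw [clique, Finset.mem_powersetCard]
        refine ⟨?_, Finset.card_pair fun hc => hab (Fin.ext hc)⟩
        intro x hx
        rw [Finset.mem_insert, Finset.mem_singleton] at hx
        rw [Finset.mem_range]
        rcases hx with rfl | rfl
        · exact a.2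
        · exact b.2
  · rw [threeConnected_iff]
    apply and_congr_right
    intro hC
    have h4 : 4 ≤ n := by
      have := hC.1
      rwa [Finset.card_range] at this
    apply redundantlyRigid_iff (by omega)
    have h0 : (0 : ℕ) ∈ Finset.range n := Finset.mem_range.2 (by omega)
    by_contra hcon
    rw [Finset.not_nonempty_iff_eq_empty] at hcon
    have hnb : nb (eset G) {0} = ∅ := by
      rw [hcon]
      simp [nb]
    have h5 := hC.2 {0} (Finset.singleton_subset_iff.2 h0) (Finset.singleton_nonempty 0) (by
      rw [hnb, Finset.union_empty]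
      intro h
      have := congrArg Finset.card h
      rw [Finset.card_singleton, Finset.card_range] at this
      omega)
    rw [hnb, Finset.card_empty] at h5
    omega

end Pool.Agent.Lib.MP_5d015b_lc
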