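import Pool.Agent.Lib.MP_5d015b_lc.LB
import Pool.Agent.Lib.MP_5d015b_lc.NBS

/-!
# Neighbours and components: the lists
-/

set_option autoImplicit false
set_option linter.unusedSectionVars false

namespace Pool.Agent.Lib.MP_5d015b_lc

open Pool.Agent.Lib.Parity

theorem nbL_spec {n : ℕ} {E : List (ℕ × ℕ)} (hE : Good n E) (Y : List ℕ) :
    (nbL n E Y).toFinset = nb (toE E) Y.toFinset ∧ (nbL n E Y).Nodup := by
  refine ⟨?_, List.Nodup.filter _ List.nodup_range⟩
  ext v
  rw [mem_nb (isGraph_toE hE)]
  simp only [nbL, List.mem_toFinset, List.mem_filter, List.mem_range, Bool.and_eq_true,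
    Bool.not_eq_true', List.any_eq_true, Bool.or_eq_true, List.contains_iff_mem,
    ← Bool.not_eq_true]
  constructor
  · rintro ⟨_, hv, u, hu, h⟩
    exact ⟨hv, u, hu, (mem_toE' hE).2 h⟩
  · rintro ⟨hv, u, hu, h⟩
    have h := (mem_toE' hE).1 h
    refine ⟨?_, hv, u, hu, h⟩
    rcases h with h | h
    · exact (hE.2 _ h).2
    · exact (hE.2 _ h).1.trans (hE.2 _ h).2

theorem compL_spec {n : ℕ} {E : List (ℕ × ℕ)} (hE : Good n E) (C : List ℕ) {x : ℕ} (hx : x < n) :
    (compL n E C x).toFinset = comp (toE E) C.toFinset n x ∧ (compL n E C x).Nodup ∧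
      ∀ v ∈ compL n E C x, v < n := by
  unfold compL comp
  have key : ∀ m : ℕ, ((cstepL n E C)^[m] [x]).toFinset = (cstep (toE E) C.toFinset)^[m] {x} ∧
      ((cstepL n E C)^[m] [x]).Nodup ∧ ∀ v ∈ (cstepL n E C)^[m] [x], v < n := by
    intro m
    induction m with
    | zero =>
      refine ⟨by simp, by simp, ?_⟩
      intro v hv
      simp at hv
      omega
    | succ m ih =>
      rw [Function.iterate_succ_apply', Function.iterate_succ_apply']
      set X := (cstepL n E C)^[m] [x] with hX
      obtain ⟨h1, h2, h3⟩ := ih
      refine ⟨?_, List.Nodup.filter _ List.nodup_range, ?_⟩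
      · rw [← h1]
        unfold cstep cstepL
        ext v
        have hnb : v ∈ nbL n E X ↔ v ∈ nb (toE E) X.toFinset := by
          rw [← (nbL_spec hE X).1, List.mem_toFinset]
        simp only [List.mem_toFinset, List.mem_filter, List.mem_range, Bool.and_eq_true,
          Bool.not_eq_true', Bool.or_eq_true, List.contains_iff_mem, ← Bool.not_eq_true,
          Finset.mem_union, Finset.mem_sdiff]
        rw [hnb]
        constructor
        · rintro ⟨_, h⟩
          exact h
        · intro h
          refine ⟨?_, h⟩
          rcases h with h | h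
          · exact h3 v h
          · have h4 := hnb.2 h.1
            unfold nbL at h4
            rw [List.mem_filter, List.mem_range] at h4
            exact h4.1
      · intro v hv
        unfold cstepL at hv
        rw [List.mem_filter, List.mem_range] at hv
        exact hv.1
  exact key n

end Pool.Agent.Lib.MP_5d015b_lc
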