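import Pool.Agent.Lib.MP_5d015b_lc.SP1

/-!
# Maximal tight sets (module SP2)
-/

set_option autoImplicit false
set_option linter.unusedSectionVars false

namespace Pool.Agent.Lib.MP_5d015b_lc

variable {V : Type*} [DecidableEq V]

theorem tight_sub {W : Finset V} {D : Finset (Finset V)} (hD : Sparse D)
    (hW : ∀ e ∈ D, e ⊆ W) {X : Finset V} (hX : Tight D X) : X ⊆ W := by
  intro v hv
  obtain ⟨e, he, -, hve⟩ := tight_cover hD hX hv
  exact hW e he hve

/-- (T4) -/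
theorem exists_family {W : Finset V} {D : Finset (Finset V)} (hD : Sparse D)
    (hW : ∀ e ∈ D, e ⊆ W) : ∃ M : Finset (Finset V),
      (∀ Z ∈ M, Tight D Z ∧ Z ⊆ W ∧ ∀ X, Tight D X → Z ⊆ X → X = Z) ∧
      (∀ X, Tight D X → ∃ Z ∈ M, X ⊆ Z) ∧
      (∀ X ∈ M, ∀ Z ∈ M, X ≠ Z → (X ∩ Z).card ≤ 1) ∧
      D.card = ∑ Z ∈ M, (2 * Z.card - 3) := by
  classical
  have hm1 : ∀ Z ∈ (W.powerset.filter fun Z => Tight D Z ∧ ∀ X, Tight D X → Z ⊆ X → X = Z),
      Tight D Z ∧ Z ⊆ W ∧ ∀ X, Tight D X → Z ⊆ X → X = Z := by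
    intro Z hZ
    rw [Finset.mem_filter, Finset.mem_powerset] at hZ
    exact ⟨hZ.2.1, hZ.1, hZ.2.2⟩
  have hm2 : ∀ X, Tight D X → ∃ Z ∈ (W.powerset.filter fun Z =>
      Tight D Z ∧ ∀ X, Tight D X → Z ⊆ X → X = Z), X ⊆ Z := by
    intro X hX
    obtain ⟨Z, hZ, hmax⟩ := Finset.exists_max_image
      (W.powerset.filter fun Z => X ⊆ Z ∧ Tight D Z) Finset.card
      ⟨X, Finset.mem_filter.2 ⟨Finset.mem_powerset.2 (tight_sub hD hW hX),
        Finset.Subset.refl X, hX⟩⟩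
    rw [Finset.mem_filter, Finset.mem_powerset] at hZ
    refine ⟨Z, Finset.mem_filter.2 ⟨Finset.mem_powerset.2 hZ.1, hZ.2.2, ?_⟩, hZ.2.1⟩
    intro Y hY hZY
    have h1 := hmax Y (Finset.mem_filter.2 ⟨Finset.mem_powerset.2 (tight_sub hD hW hY),
      hZ.2.1.trans hZY, hY⟩)
    exact (Finset.eq_of_subset_of_card_le hZY h1).symm
  have hm3 : ∀ X ∈ (W.powerset.filter fun Z => Tight D Z ∧ ∀ X, Tight D X → Z ⊆ X → X = Z),
      ∀ Z ∈ (W.powerset.filter fun Z => Tight D Z ∧ ∀ X, Tight D X → Z ⊆ X → X = Z),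
      X ≠ Z → (X ∩ Z).card ≤ 1 := by
    intro X hX Z hZ hne
    by_contra hcon
    obtain ⟨h1, -, h3⟩ := hm1 X hX
    obtain ⟨h4, -, h6⟩ := hm1 Z hZ
    obtain ⟨h7, -, -⟩ := tight_union hD h1 h4 (by omega)
    have h8 := h3 _ h7 Finset.subset_union_left
    have h9 := h6 _ h7 Finset.subset_union_right
    exact hne (h8.symm.trans h9)
  refine ⟨_, hm1, hm2, hm3, ?_⟩
  have hD2 : D = (W.powerset.filter fun Z => Tight D Z ∧
      ∀ X, Tight D X → Z ⊆ X → X = Z).biUnion (ins D) := by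
    ext e
    rw [Finset.mem_biUnion]
    constructor
    · intro he
      obtain ⟨Z, hZ, heZ⟩ := hm2 e (tight_edge hD he)
      exact ⟨Z, hZ, mem_ins.2 ⟨he, heZ⟩⟩
    · rintro ⟨Z, -, hZ⟩
      exact (mem_ins.1 hZ).1
  have h1 : D.card = ∑ Z ∈ (W.powerset.filter fun Z => Tight D Z ∧
      ∀ X, Tight D X → Z ⊆ X → X = Z), (ins D Z).card := by
    conv_lhs => rw [hD2]
    apply Finset.card_biUnion
    intro X hX Z hZ hne
    exact ins_disjoint_of_inter hD (hm3 X hX Z hZ hne)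
  rw [h1]
  apply Finset.sum_congr rfl
  intro Z hZ
  have h2 := (hm1 Z hZ).1.2
  omega

/-- all points of a set whose pairs are in tight sets are in one maximal tight set -/
theorem clique_in {D : Finset (Finset V)} (hD : Sparse D) {Z P : Finset V}
    (hZ : Tight D Z) (hmax : ∀ X, Tight D X → Z ⊆ X → X = Z) {p q : V} (hp : p ∈ P) (hq : q ∈ P)
    (hpq : p ≠ q) (hpZ : p ∈ Z) (hqZ : q ∈ Z)
    (hP : ∀ u ∈ P, ∀ v ∈ P, u ≠ v → ∃ X, Tight D X ∧ u ∈ X ∧ v ∈ X) : P ⊆ Z := by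
  have key : ∀ X, Tight D X → 2 ≤ (X ∩ Z).card → X ⊆ Z := by
    intro X hX h
    obtain ⟨h1, -, -⟩ := tight_union hD hX hZ h
    have h2 := hmax _ h1 Finset.subset_union_right
    rw [← h2]
    exact Finset.subset_union_left
  intro w hw
  by_contra hwZ
  have hwp : w ≠ p := by rintro rfl; exact hwZ hpZ
  have hwq : w ≠ q := by rintro rfl; exact hwZ hqZ
  obtain ⟨X, hX, hwX, hpX⟩ := hP w hw p hp hwp
  obtain ⟨Y, hY, hwY, hqY⟩ := hP w hw q hq hwq
  have a1 : (X ∩ Z).card = 1 := by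
    have h1 : 0 < (X ∩ Z).card := Finset.card_pos.2 ⟨p, Finset.mem_inter.2 ⟨hpX, hpZ⟩⟩
    have h2 : ¬ 2 ≤ (X ∩ Z).card := fun h => hwZ (key X hX h hwX)
    omega
  have a2 : (Y ∩ Z).card = 1 := by
    have h1 : 0 < (Y ∩ Z).card := Finset.card_pos.2 ⟨q, Finset.mem_inter.2 ⟨hqY, hqZ⟩⟩
    have h2 : ¬ 2 ≤ (Y ∩ Z).card := fun h => hwZ (key Y hY h hwY)
    omega
  have two : ∀ S : Finset V, p ∈ S → q ∈ S → 2 ≤ S.card := by
    intro S h1 h2
    have h3 : ({p, q} : Finset V) ⊆ S := by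
      intro x hx
      rw [Finset.mem_insert, Finset.mem_singleton] at hx
      rcases hx with rfl | rfl <;> assumption
    have h4 := Finset.card_le_card h3
    rwa [Finset.card_pair hpq] at h4
  have a3 : (X ∩ Y).card = 1 := by
    have h1 : 0 < (X ∩ Y).card := Finset.card_pos.2 ⟨w, Finset.mem_inter.2 ⟨hwX, hwY⟩⟩
    have h2 : ¬ 2 ≤ (X ∩ Y).card := by
      intro h
      obtain ⟨h3, -, -⟩ := tight_union hD hX hY h
      have h4 := key _ h3 (two _ (Finset.mem_inter.2 ⟨Finset.mem_union_left _ hpX, hpZ⟩)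
        (Finset.mem_inter.2 ⟨Finset.mem_union_right _ hqY, hqZ⟩))
      exact hwZ (h4 (Finset.mem_union_left _ hwX))
    omega
  have a4 : X ∩ Y ∩ Z = ∅ := by
    rw [Finset.eq_empty_iff_forall_notMem]
    intro u hu
    simp only [Finset.mem_inter] at hu
    obtain ⟨x, hx⟩ := Finset.card_eq_one.1 a3
    have h1 : u ∈ X ∩ Y := Finset.mem_inter.2 hu.1
    have h2 : w ∈ X ∩ Y := Finset.mem_inter.2 ⟨hwX, hwY⟩
    rw [hx, Finset.mem_singleton] at h1 h2
    rw [h1, ← h2] at hu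
    exact hwZ hu.2
  have h5 := tight_three hD hX hY hZ a3 a2 a1 a4
  have h6 := hmax _ h5 Finset.subset_union_right
  apply hwZ
  rw [← h6]
  exact Finset.mem_union_left _ (Finset.mem_union_left _ hwX)

/-- a graph is rigid iff its maximal sparse sets have `2 |W| - 3` elements -/
theorem rigid_iff {W : Finset V} {E D : Finset (Finset V)} (hG : IsGraph W E) (hD : MaxSp E D) :
    Rigid W E ↔ D.card + 3 = 2 * W.card := by
  constructor
  · rintro ⟨D', hD'E, hD', hc⟩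
    have hDW : ∀ e ∈ D, e ⊆ W := fun e he => hG.sub e (hD.1 he)
    obtain ⟨M, m1, m2, m3, m4⟩ := exists_family hD.2.1 hDW
    have h1 : D' ⊆ M.biUnion (ins D') := by
      intro e he
      obtain ⟨X, hX, heX⟩ := exists_tight hD hG.card_two (hD'E he)
      obtain ⟨Z, hZ, hXZ⟩ := m2 X hX
      rw [Finset.mem_biUnion]
      exact ⟨Z, hZ, mem_ins.2 ⟨he, heX.trans hXZ⟩⟩
    have h2 : D'.card ≤ D.card := by
      calc D'.card ≤ (M.biUnion (ins D')).card := Finset.card_le_card h1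
        _ ≤ ∑ Z ∈ M, (ins D' Z).card := Finset.card_biUnion_le
        _ ≤ ∑ Z ∈ M, (2 * Z.card - 3) := by
          apply Finset.sum_le_sum
          intro Z hZ
          have h3 := hD'.2 Z (m1 Z hZ).1.1
          omega
        _ = D.card := m4.symm
    have h3 : ins D W = D := by
      ext e
      rw [mem_ins]
      exact ⟨fun h => h.1, fun h => ⟨h, hDW e h⟩⟩
    have h4 := hD.2.1.2 W (by omega)
    rw [h3] at h4
    omega
  · intro h
    exact ⟨D, hD.1, hD.2.1, h⟩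

end Pool.Agent.Lib.MP_5d015b_lc
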