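import Pool.Agent.Lib.MP_5d015b_lc.AlgDefs
import Pool.Agent.Lib.MP_5d015b_lc.SP2
import Pool.Agent.Lib.MP_5d015b_lc.NBS
import Pool.Agent.Lib.MP_5d015b_lc.CMP
import Pool.Agent.Lib.MP_5d015b_lc.LB
import Pool.Agent.Lib.MP_5d015b_lc.BSL
import Pool.Agent.Lib.MP_5d015b_lc.NBL

/-!
# Global rigidity on lists of edges
-/

set_option autoImplicit false
set_option linter.unusedSectionVars false

namespace Pool.Agent.Lib.MP_5d015b_lc

open Pool.Agent.Lib.Parity

/-! ### three-connectivity -/

theorem conn3L_spec {n : ℕ} {E : List (ℕ × ℕ)} (hE : Good n E) :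
    conn3L n E = true ↔ Conn3 (Finset.range n) (toE E) := by
  have hG := isGraph_toE hE
  have hmem : ∀ a b x, x < n → ∀ v, (compL n E [a, b] x).contains v = true ↔
      v ∈ comp (toE E) {a, b} n x := by
    intro a b x hx v
    rw [List.contains_iff_mem, ← List.mem_toFinset, (compL_spec hE [a, b] hx).1]
    simp
  have hc : conn3L n E = true ↔ 4 ≤ n ∧ ∀ a < n, ∀ b < n, ∀ x < n, x ∉ ({a, b} : Finset ℕ) →
      ∀ v < n, v ∉ ({a, b} : Finset ℕ) → v ∈ comp (toE E) {a, b} n x := by
    unfold conn3L
    rw [Bool.and_eq_true, decide_eq_true_iff, List.all_eq_true]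
    refine and_congr_right fun _ => ?_
    constructor
    · intro h a ha b hb x hx hxab v hv hvab
      have h1 := h a (List.mem_range.2 ha)
      rw [List.all_eq_true] at h1
      have h2 := h1 b (List.mem_range.2 hb)
      rw [List.all_eq_true] at h2
      have h3 := h2 x (List.mem_range.2 hx)
      rw [Bool.or_eq_true, Bool.or_eq_true, decide_eq_true_iff, decide_eq_true_iff,
        List.all_eq_true] at h3
      simp only [Finset.mem_insert, Finset.mem_singleton, not_or] at hxab hvab
      rcases h3 with h3 | h3
      · exact absurd h3 (by simp [hxab])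
      · have h4 := h3 v (List.mem_range.2 hv)
        rw [Bool.or_eq_true, Bool.or_eq_true, decide_eq_true_iff, decide_eq_true_iff] at h4
        rcases h4 with h4 | h4
        · exact absurd h4 (by simp [hvab])
        · exact (hmem a b x hx v).1 h4
    · intro h a ha
      rw [List.all_eq_true]
      intro b hb
      rw [List.all_eq_true]
      intro x hx
      rw [Bool.or_eq_true, Bool.or_eq_true, decide_eq_true_iff, decide_eq_true_iff,
        List.all_eq_true]
      rw [List.mem_range] at ha hb hx
      by_cases hxab : x = a ∨ x = b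
      · exact Or.inl hxab
      · right
        intro v hv
        rw [List.mem_range] at hv
        rw [Bool.or_eq_true, Bool.or_eq_true, decide_eq_true_iff, decide_eq_true_iff]
        by_cases hvab : v = a ∨ v = b
        · exact Or.inl hvab
        · right
          exact (hmem a b x hx v).2 (h a ha b hb x hx (by simpa using hxab) v hv
            (by simpa using hvab))
  rw [hc]
  unfold Conn3
  rw [Finset.card_range]
  refine and_congr_right fun h4 => ?_
  constructor
  · intro h Y hY hYne hYn
    by_contra hlt
    have hcard : (nb (toE E) Y).card ≤ 2 := by omega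
    obtain ⟨x, hx⟩ := hYne
    have hxn : x < n := Finset.mem_range.1 (hY hx)
    have hsub : Y ∪ nb (toE E) Y ⊆ Finset.range n := by
      refine Finset.union_subset hY ?_
      exact (nb_sub hG Y).trans Finset.sdiff_subset
    obtain ⟨v, hvn, hv⟩ : ∃ v ∈ Finset.range n, v ∉ Y ∪ nb (toE E) Y := by
      by_contra hno
      push Not at hno
      exact hYn (Finset.Subset.antisymm hsub hno)
    rw [Finset.mem_union, not_or] at hv
    -- choose the two vertices
    obtain ⟨a, b, ha, hb, hab, hxa, hva⟩ : ∃ a b, a < n ∧ b < n ∧ nb (toE E) Y ⊆ {a, b} ∧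
        x ∉ ({a, b} : Finset ℕ) ∧ v ∉ ({a, b} : Finset ℕ) := by
      have hnbx : x ∉ nb (toE E) Y := fun hh => (Finset.mem_sdiff.1 (nb_sub hG Y hh)).2 hx
      have h0 : (nb (toE E) Y).card = 0 ∨ (nb (toE E) Y).card = 1 ∨ (nb (toE E) Y).card = 2 := by
        omega
      rcases h0 with h0 | h0 | h0
      · rw [Finset.card_eq_zero] at h0
        obtain ⟨a, ha⟩ : ∃ a, a ∈ Finset.range n \ {x, v} := by
          rw [← Finset.nonempty_def, ← Finset.card_pos]
          have := Finset.le_card_sdiff ({x, v} : Finset ℕ) (Finset.range n)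
          have h2 : ({x, v} : Finset ℕ).card ≤ 2 := Finset.card_le_two
          rw [Finset.card_range] at this
          omega
        rw [Finset.mem_sdiff, Finset.mem_range, Finset.mem_insert, Finset.mem_singleton,
          not_or] at ha
        refine ⟨a, a, ha.1, ha.1, by rw [h0]; exact Finset.empty_subset _, ?_, ?_⟩
        · simpa using fun hh : x = a => ha.2.1 hh.symm
        · simpa using fun hh : v = a => ha.2.2 hh.symm
      · obtain ⟨a, ha⟩ := Finset.card_eq_one.1 h0
        have han : a ∈ nb (toE E) Y := by rw [ha]; simp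
        have han' : a < n := Finset.mem_range.1 (Finset.mem_sdiff.1 (nb_sub hG Y han)).1
        refine ⟨a, a, han', han', by rw [ha]; simp, ?_, ?_⟩
        · intro hh
          have : x = a := by simpa using hh
          exact hnbx (this ▸ han)
        · intro hh
          have : v = a := by simpa using hh
          exact hv.2 (this ▸ han)
      · obtain ⟨a, b, hab, hnab⟩ := Finset.card_eq_two.1 h0
        have han : a ∈ nb (toE E) Y := by rw [hnab]; simp
        have hbn : b ∈ nb (toE E) Y := by rw [hnab]; simp
        refine ⟨a, b, Finset.mem_range.1 (Finset.mem_sdiff.1 (nb_sub hG Y han)).1,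
          Finset.mem_range.1 (Finset.mem_sdiff.1 (nb_sub hG Y hbn)).1, by rw [hnab], ?_, ?_⟩
        · rw [← hnab]; exact hnbx
        · rw [← hnab]; exact hv.2
    have h5 := h a ha b hb x hxn hxa v (Finset.mem_range.1 hvn) hva
    have h6 := comp_spec hG (C := {a, b}) (x := x)
      (Finset.mem_sdiff.2 ⟨Finset.mem_range.2 hxn, hxa⟩) (n := n) (by rw [Finset.card_range])
    exact hv.1 (h6.2.2.2 Y hx hab h5)
  · intro h a ha b hb x hx hxa v hv hva
    have h6 := comp_spec hG (C := {a, b}) (x := x)
      (Finset.mem_sdiff.2 ⟨Finset.mem_range.2 hx, hxa⟩) (n := n) (by rw [Finset.card_range])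
    by_contra hvc
    have h7 := h (comp (toE E) {a, b} n x) (h6.2.1.trans Finset.sdiff_subset) ⟨x, h6.1⟩ (by
      intro heq
      have : v ∈ comp (toE E) {a, b} n x ∪ nb (toE E) (comp (toE E) {a, b} n x) := by
        rw [heq]; exact Finset.mem_range.2 hv
      rcases Finset.mem_union.1 this with h8 | h8
      · exact hvc h8
      · exact hva (h6.2.2.1 h8))
    have h8 := Finset.card_le_card h6.2.2.1
    have h9 : ({a, b} : Finset ℕ).card ≤ 2 := Finset.card_le_two
    omega

/-! ### redundant rigidity -/

theorem good_filter {n : ℕ} {E : List (ℕ × ℕ)} (hE : Good n E) (p : ℕ × ℕ → Bool) :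
    Good n (E.filter p) :=
  ⟨hE.1.filter _, fun e he => hE.2 e (List.mem_of_mem_filter he)⟩

theorem redL_spec {n : ℕ} {E : List (ℕ × ℕ)} (hE : Good n E) :
    redL n E = true ↔ RedRigid (Finset.range n) (toE E) := by
  unfold redL RedRigid
  rw [List.all_eq_true]
  have key : ∀ e ∈ E, (decide ((baseL (E.filter fun g => decide (g ≠ e))).length + 3 = 2 * n) = true
      ↔ Rigid (Finset.range n) ((toE E).erase {e.1, e.2})) := by
    intro e he
    have hgf := good_filter hE (fun g => decide (g ≠ e))
    have hb := baseL_spec hgf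
    have hr := rigid_iff (isGraph_toE hgf) hb.2.2
    rw [toE_filter hE he] at hr
    rw [hr, card_toE hb.1, Finset.card_range, decide_eq_true_iff]
  constructor
  · intro h e he
    unfold toE at he
    rw [List.mem_toFinset, List.mem_map] at he
    obtain ⟨f, hf, rfl⟩ := he
    exact (key f hf).1 (h f hf)
  · intro h e he
    refine (key e he).2 (h _ ?_)
    unfold toE
    rw [List.mem_toFinset, List.mem_map]
    exact ⟨e, he, rfl⟩

/-! ### global rigidity -/

theorem grL_spec {n : ℕ} {E : List (ℕ × ℕ)} (hE : Good n E) :
    grL n E = true ↔ GR (Finset.range n) (toE E) := by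
  unfold grL GR
  rw [Bool.or_eq_true, Bool.and_eq_true, Bool.and_eq_true, decide_eq_true_iff,
    conn3L_spec hE, redL_spec hE, Finset.card_range]
  refine or_congr (and_congr_right fun _ => ?_) Iff.rfl
  rw [List.all_eq_true]
  constructor
  · intro h f hf
    unfold clique at hf
    rw [Finset.mem_powersetCard] at hf
    obtain ⟨u, v, huv, rfl⟩ := Finset.card_eq_two.1 hf.2
    have hu : u ∈ List.range n := List.mem_range.2 (Finset.mem_range.1 (hf.1 (by simp)))
    have hv : v ∈ List.range n := List.mem_range.2 (Finset.mem_range.1 (hf.1 (by simp)))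
    have hh : ∀ u ∈ List.range n, ∀ v ∈ List.range n, u < v → (u, v) ∈ E := by
      intro u hu v hv huv
      have h1 := h u hu
      rw [List.all_eq_true] at h1
      have h2 := h1 v hv
      rw [Bool.or_eq_true, decide_eq_true_iff, List.contains_iff_mem] at h2
      rcases h2 with h2 | h2
      · omega
      · exact h2
    rcases lt_or_gt_of_ne huv with h1 | h1
    · exact (mem_toE hE h1).2 (hh u hu v hv h1)
    · rw [Finset.pair_comm]
      exact (mem_toE hE h1).2 (hh v hv u hu h1)
  · intro h u hu
    rw [List.all_eq_true]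
    intro v hv
    rw [Bool.or_eq_true, decide_eq_true_iff, List.contains_iff_mem]
    by_cases huv : v ≤ u
    · exact Or.inl huv
    · right
      have huv' : u < v := by omega
      refine (mem_toE hE huv').1 (h ?_)
      unfold clique
      rw [Finset.mem_powersetCard]
      refine ⟨?_, Finset.card_pair huv'.ne⟩
      intro w hw
      rw [Finset.mem_insert, Finset.mem_singleton] at hw
      rw [Finset.mem_range]
      rcases hw with rfl | rfl
      · exact List.mem_range.1 hu
      · exact List.mem_range.1 hv

end Pool.Agent.Lib.MP_5d015b_lc
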