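import Pool.Agent.Lib.MP_5d015b_lc.LGL
import Pool.Agent.Lib.MP_5d015b_lc.GRL
import Pool.Agent.Lib.MP_5d015b_lc.MONO
import Pool.Agent.Lib.MP_5d015b_lc.NBS

/-!
# The minimum number of pins
-/

set_option autoImplicit false
set_option linter.unusedSectionVars false

namespace Pool.Agent.Lib.MP_5d015b_lc

open Pool.Agent.Lib.Parity

theorem conn3_nonempty {V : Type*} [DecidableEq V] {W : Finset V} {E : Finset (Finset V)}
    (h : Conn3 W E) : E.Nonempty := by
  rw [Finset.nonempty_iff_ne_empty]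
  rintro rfl
  obtain ⟨h4, h⟩ := h
  obtain ⟨w, hw⟩ : W.Nonempty := Finset.card_pos.1 (by omega)
  have hn : nb (∅ : Finset (Finset V)) {w} = ∅ := by simp [nb]
  have := h {w} (by simpa using hw) (by simp) (by
    rw [hn, Finset.union_empty]
    rintro rfl
    simp at h4)
  rw [hn] at this
  simp at this

theorem GR.mono {V : Type*} [DecidableEq V] {W : Finset V} {E E' : Finset (Finset V)}
    (hG : IsGraph W E) (hG' : IsGraph W E') (hs : E ⊆ E') (h : GR W E) : GR W E' := by
  rcases h with ⟨h1, h2⟩ | ⟨h1, h2⟩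
  · exact Or.inl ⟨h1, h2.trans hs⟩
  · exact Or.inr ⟨conn3_mono hG hG' hs h1, redRigid_mono hG hG' hs h2 (conn3_nonempty h1)⟩

theorem clique_mono {V : Type*} [DecidableEq V] {P P' : Finset V} (h : P ⊆ P') :
    clique P ⊆ clique P' := Finset.powersetCard_mono h

theorem clique_small {V : Type*} [DecidableEq V] {P : Finset V} (h : P.card ≤ 1) :
    clique P = ∅ := Finset.powersetCard_eq_empty.2 (by omega)

theorem pin2_spec (n : ℕ) (el : List (ℕ × ℕ)) : pin2 n el = true ↔
    ∃ P, P ⊆ Finset.range n ∧ P.card = 2 ∧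
      GR (Finset.range n) (toE (edgesL n el) ∪ clique P) := by
  unfold pin2
  simp only [List.any_eq_true, List.mem_range, Bool.and_eq_true, decide_eq_true_eq]
  constructor
  · rintro ⟨u, hu, v, hv, huv, h⟩
    refine ⟨{u, v}, ?_, Finset.card_pair huv.ne, ?_⟩
    · intro x hx
      simp only [Finset.mem_insert, Finset.mem_singleton] at hx
      rw [Finset.mem_range]
      rcases hx with rfl | rfl <;> assumption
    · rw [← toE_pair n el huv hv]
      exact (grL_spec (good_edgesL _ _)).1 h
  · rintro ⟨P, hP, hc, h⟩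
    obtain ⟨x, y, hxy, rfl⟩ := Finset.card_eq_two.1 hc
    have hx : x < n := Finset.mem_range.1 (hP (by simp))
    have hy : y < n := Finset.mem_range.1 (hP (by simp))
    rcases lt_or_gt_of_ne hxy with hlt | hlt
    · refine ⟨x, hx, y, hy, hlt, (grL_spec (good_edgesL _ _)).2 ?_⟩
      rwa [toE_pair n el hlt hy]
    · refine ⟨y, hy, x, hx, hlt, (grL_spec (good_edgesL _ _)).2 ?_⟩
      rw [toE_pair n el hlt hx, Finset.pair_comm]
      exact h

theorem card_three_lt {P : Finset ℕ} (h : P.card = 3) :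
    ∃ u v w, u < v ∧ v < w ∧ P = {u, v, w} := by
  refine ⟨P.orderEmbOfFin h 0, P.orderEmbOfFin h 1, P.orderEmbOfFin h 2,
    (P.orderEmbOfFin h).strictMono (by decide), (P.orderEmbOfFin h).strictMono (by decide), ?_⟩
  have := Finset.image_orderEmbOfFin_univ P h
  refine this.symm.trans ?_
  ext x
  simp only [Finset.mem_image, Finset.mem_univ, true_and, Finset.mem_insert,
    Finset.mem_singleton]
  constructor
  · rintro ⟨i, rfl⟩
    fin_cases i <;> simp
  · rintro (rfl | rfl | rfl)
    exacts [⟨0, rfl⟩, ⟨1, rfl⟩, ⟨2, rfl⟩]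

theorem pin3_spec (n : ℕ) (el : List (ℕ × ℕ)) : pin3 n el = true ↔
    ∃ P, P ⊆ Finset.range n ∧ P.card = 3 ∧
      GR (Finset.range n) (toE (edgesL n el) ∪ clique P) := by
  unfold pin3
  simp only [List.any_eq_true, List.mem_range, Bool.and_eq_true, decide_eq_true_eq]
  constructor
  · rintro ⟨u, hu, v, hv, w, hw, huv, hvw, h⟩
    refine ⟨{u, v, w}, ?_, ?_, ?_⟩
    · intro x hx
      simp only [Finset.mem_insert, Finset.mem_singleton] at hx
      rw [Finset.mem_range]
      rcases hx with rfl | rfl | rfl <;> assumption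
    · rw [Finset.card_eq_three]
      exact ⟨u, v, w, huv.ne, (huv.trans hvw).ne, hvw.ne, rfl⟩
    · rw [← toE_triple n el huv hvw hw]
      exact (grL_spec (good_edgesL _ _)).1 h
  · rintro ⟨P, hP, hc, h⟩
    obtain ⟨u, v, w, huv, hvw, rfl⟩ := card_three_lt hc
    have hw : w < n := Finset.mem_range.1 (hP (by simp))
    refine ⟨u, (huv.trans hvw).trans hw, v, hvw.trans hw, w, hw, huv, hvw,
      (grL_spec (good_edgesL _ _)).2 ?_⟩
    rwa [toE_triple n el huv hvw hw]

theorem gr_all {n : ℕ} (hn : n ≤ 3) (E : Finset (Finset ℕ)) :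
    GR (Finset.range n) (E ∪ clique (Finset.range n)) :=
  Or.inl ⟨by simpa using hn, Finset.subset_union_right⟩

theorem minPin_spec (G : ℕ × List (ℕ × ℕ)) :
    IsLeast {k | ∃ P, P ⊆ Finset.range G.1 ∧ P.card = k ∧
      GR (Finset.range G.1) (toE (edgesL G.1 G.2) ∪ clique P)} (minPin G) := by
  obtain ⟨n, el⟩ := G
  simp only
  have hE := good_edgesL n el
  have hGr := isGraph_toE hE
  unfold minPin
  simp only
  by_cases h0 : grL n (edgesL n el) = true
  · rw [if_pos h0]
    refine ⟨⟨∅, by simp, rfl, ?_⟩, fun k _ => Nat.zero_le k⟩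
    rw [clique_small (by simp), Finset.union_empty]
    exact (grL_spec hE).1 h0
  rw [if_neg h0]
  have h0' : ¬ GR (Finset.range n) (toE (edgesL n el)) := fun h => h0 ((grL_spec hE).2 h)
  have small : ∀ P : Finset ℕ, P.card ≤ 1 →
      ¬ GR (Finset.range n) (toE (edgesL n el) ∪ clique P) := by
    intro P hP
    rw [clique_small hP, Finset.union_empty]
    exact h0'
  by_cases h2 : pin2 n el = true
  · rw [if_pos h2]
    refine ⟨(pin2_spec n el).1 h2, ?_⟩
    rintro k ⟨P, _, hc, h⟩
    by_contra hk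
    exact small P (by omega) h
  rw [if_neg h2]
  have h2' : ∀ P : Finset ℕ, P ⊆ Finset.range n → P.card ≤ 2 →
      ¬ GR (Finset.range n) (toE (edgesL n el) ∪ clique P) := by
    intro P hP hc h
    rcases Nat.lt_or_ge P.card 2 with h' | h'
    · exact small P (by omega) h
    · exact h2 ((pin2_spec n el).2 ⟨P, hP, by omega, h⟩)
  by_cases h3 : pin3 n el = true
  · rw [if_pos h3]
    refine ⟨(pin3_spec n el).1 h3, ?_⟩
    rintro k ⟨P, hP, hc, h⟩
    by_contra hk
    exact h2' P hP (by omega) h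
  rw [if_neg h3]
  have h3' : ∀ P : Finset ℕ, P ⊆ Finset.range n → P.card ≤ 3 →
      ¬ GR (Finset.range n) (toE (edgesL n el) ∪ clique P) := by
    intro P hP hc h
    rcases Nat.lt_or_ge P.card 3 with h' | h'
    · exact h2' P hP (by omega) h
    · exact h3 ((pin3_spec n el).2 ⟨P, hP, by omega, h⟩)
  have hn : 4 ≤ n := by
    by_contra hcon
    exact h3' (Finset.range n) subset_rfl (by rw [Finset.card_range]; omega)
      (gr_all (by omega) _)
  constructor
  · set m := max 4 (largeL n (edgesL n el) (baseL (edgesL n el))) with hm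
    obtain ⟨P, hP, hc, h⟩ := (largeL_spec hE hn (k := m) (le_max_left _ _)).2 (le_max_right _ _)
    have hmn : m ≤ (Finset.range n).card := by
      rw [Finset.card_range]
      refine max_le hn ?_
      unfold largeL
      omega
    obtain ⟨P', h1, h2, h3⟩ := Finset.exists_subsuperset_card_eq hP hc hmn
    refine ⟨P', h2, h3, ?_⟩
    exact GR.mono (isGraph_clique hGr hP) (isGraph_clique hGr h2)
      (Finset.union_subset_union subset_rfl (clique_mono h1)) h
  · rintro k ⟨P, hP, hc, h⟩
    have hk4 : 4 ≤ k := by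
      by_contra hcon
      exact h3' P hP (by omega) h
    exact max_le hk4 ((largeL_spec hE hn hk4).1 ⟨P, hP, hc.le, h⟩)

end Pool.Agent.Lib.MP_5d015b_lc
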