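import Pool.Agent.Lib.MP_5d015b_lc.EXF

/-!
# The greedy choice of the pins (module GRD)
-/

set_option autoImplicit false
set_option linter.unusedSectionVars false

namespace Pool.Agent.Lib.MP_5d015b_lc

variable {V : Type*} [DecidableEq V]

variable {W : Finset V} {E B XX : Finset (Finset V)}

theorem grd_mono {U U' : Finset V} (h : G1 XX U) (hs : U' ⊆ U) : G1 XX U' :=
  fun A hA hne => h A (hA.trans hs) hne

theorem grd_min_nb {P0 Y : Finset V} (hD : Dang W E XX P0 Y)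
    (hmin : ∀ Z, Dang W E XX P0 Z → Y.card ≤ Z.card) :
    ∀ A ⊆ Y, A.Nonempty → A ≠ Y → 3 ≤ (nb E A).card := by
  intro A hA hne hAY
  by_contra hcon
  have h1 : Dang W E XX P0 A := ⟨hA.trans hD.1, hne, by omega, grd_mono hD.2.2.2 hA⟩
  have h2 := hmin A h1
  exact hAY (Finset.eq_of_subset_of_card_le hA h2)

theorem greedy (hG : IsGraph W E) (hB : MaxSp E B) (hX : Bodies E B XX)
    (step : Finset V → Finset V)
    (h1 : ∀ P0, (∀ Y, ¬ Dang W E XX P0 Y) → step P0 = P0)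
    (h2 : ∀ P0 Y, Dang W E XX P0 Y → ∃ Y' y, Dang W E XX P0 Y' ∧
      (∀ Z, Dang W E XX P0 Z → Y'.card ≤ Z.card) ∧ y ∈ Y' ∧ step P0 = insert y P0)
    {n : ℕ} (hn : W.card ≤ n) :
    step^[n] ∅ ⊆ W ∧ (∀ Y, ¬ Dang W E XX (step^[n] ∅) Y) ∧
      ∀ P, P ⊆ W → Feas W E XX P →
        ∃ P', P' ⊆ W ∧ step^[n] ∅ ⊆ P' ∧ P'.card ≤ P.card ∧ Feas W E XX P' := by
  have key : ∀ i : ℕ, step^[i] ∅ ⊆ W ∧
      ((∀ Y, ¬ Dang W E XX (step^[i] ∅) Y) ∨ i ≤ (step^[i] ∅).card) ∧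
      ∀ P, P ⊆ W → Feas W E XX P →
        ∃ P', P' ⊆ W ∧ step^[i] ∅ ⊆ P' ∧ P'.card ≤ P.card ∧ Feas W E XX P' := by
    intro i
    induction i with
    | zero =>
      refine ⟨Finset.empty_subset W, Or.inr (Nat.zero_le _), ?_⟩
      intro P hP hF
      exact ⟨P, hP, Finset.empty_subset P, le_refl _, hF⟩
    | succ i ih =>
      obtain ⟨ih1, ih2, ih3⟩ := ih
      rw [Function.iterate_succ_apply']
      generalize hQ : step^[i] ∅ = Q at ih1 ih2 ih3 ⊢
      by_cases hD : ∀ Y, ¬ Dang W E XX Q Y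
      · rw [h1 Q hD]
        exact ⟨ih1, Or.inl hD, ih3⟩
      · push Not at hD
        obtain ⟨Y, hY⟩ := hD
        obtain ⟨Y', y, d1, d2, d3, d4⟩ := h2 Q Y hY
        have hyW : y ∈ W \ Q := d1.1 d3
        rw [Finset.mem_sdiff] at hyW
        rw [d4]
        refine ⟨Finset.insert_subset hyW.1 ih1, Or.inr ?_, ?_⟩
        · rcases ih2 with h | h
          · exact absurd hY (h Y)
          · rw [Finset.card_insert_of_notMem hyW.2]
            omega
        · intro P hP hF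
          obtain ⟨P', p1, p2, p3, p4⟩ := ih3 P hP hF
          obtain ⟨P'', q1, q2, q3, q4⟩ := exchange hG hB hX p1 p4 p2 d1 (grd_min_nb d1 d2) d3
          exact ⟨P'', q1, q2, q3.trans p3, q4⟩
  obtain ⟨k1, k2, k3⟩ := key n
  refine ⟨k1, ?_, k3⟩
  rcases k2 with h | h
  · exact h
  · intro Y hY
    have h3 : step^[n] ∅ = W := Finset.eq_of_subset_of_card_le k1 (hn.trans h)
    have h4 := hY.1
    rw [h3, Finset.sdiff_self] at h4
    obtain ⟨v, hv⟩ := hY.2.1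
    exact absurd (h4 hv) (Finset.notMem_empty v)

end Pool.Agent.Lib.MP_5d015b_lc
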