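import Pool.Agent.Lib.MP_5d015b_lc.MXU
import Pool.Agent.Lib.MP_5d015b_lc.NBL
import Pool.Agent.Lib.MP_5d015b_lc.CMP
import Pool.Agent.Lib.MP_5d015b_lc.GRD

/-!
# The forced pins
-/

set_option autoImplicit false
set_option linter.unusedSectionVars false

namespace Pool.Agent.Lib.MP_5d015b_lc

open Pool.Agent.Lib.Parity Finset

section

variable {n : ℕ} {E D : List (ℕ × ℕ)}

/-- `grdL` depends only on the set of pins -/
theorem frc_cand_congr (P P' : List ℕ) (h : P.toFinset = P'.toFinset) :
    candL n E D P = candL n E D P' := by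
  have h1 : ∀ v, P.contains v = P'.contains v := by
    intro v
    have h2 : v ∈ P ↔ v ∈ P' := by
      rw [← List.mem_toFinset, h, List.mem_toFinset]
    rw [Bool.eq_iff_iff, List.contains_iff_mem, List.contains_iff_mem]
    exact h2
  unfold candL
  congr 1
  funext Y
  unfold dangL
  congr 2
  funext v
  rw [h1 v]

theorem frc_comp (hE : Good n E) {a b x : ℕ} (hx : x < n) :
    (compL n E [a, b] x).toFinset = comp (toE E) {a, b} n x ∧ (compL n E [a, b] x).Nodup ∧
      ∀ v ∈ compL n E [a, b] x, v < n := by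
  have h := compL_spec hE [a, b] hx
  have h1 : ([a, b] : List ℕ).toFinset = {a, b} := by
    ext v
    simp
  rw [h1] at h
  exact h

theorem frc_dang (hE : Good n E) (hD : Good n D) (hs : ∀ e ∈ D, e ∈ E)
    (hB : MaxSp (toE E) (toE D)) (P0 : List ℕ) {Y : List ℕ} (hY : Y.Nodup)
    (hYn : ∀ v ∈ Y, v < n) (hne : Y.toFinset.Nonempty) :
    dangL n E D P0 Y = true ↔ Dang (range n) (toE E)
      ((toE D).image (body (toE E) (toE D) n)) P0.toFinset Y.toFinset := by
  obtain ⟨h1, h2⟩ := nbL_spec hE Y
  have h3 : (nbL n E Y).length = (nb (toE E) Y.toFinset).card := by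
    rw [← h1, List.toFinset_card_of_nodup h2]
  have h4 : (Y.all fun v => !(P0.contains v)) = true ↔ Y.toFinset ⊆ range n \ P0.toFinset := by
    rw [List.all_eq_true]
    constructor
    · intro h v hv
      rw [List.mem_toFinset] at hv
      rw [mem_sdiff, mem_range, List.mem_toFinset]
      refine ⟨hYn v hv, ?_⟩
      have := h v hv
      simpa using this
    · intro h v hv
      have h5 := h (List.mem_toFinset.mpr hv)
      rw [mem_sdiff, List.mem_toFinset] at h5
      simpa using h5.2
  unfold dangL Dang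
  rw [Bool.and_eq_true, Bool.and_eq_true, h4, decide_eq_true_iff, decide_eq_true_iff, h3,
    maxUL_eq hE hD hs hB hY hYn]
  constructor
  · rintro ⟨a1, a2, a3⟩
    exact ⟨a1, hne, a2, a3⟩
  · rintro ⟨a1, _, a2, a3⟩
    exact ⟨a1, a2, a3⟩

theorem frc_mem_cand (hE : Good n E) (hD : Good n D) (hs : ∀ e ∈ D, e ∈ E)
    (hB : MaxSp (toE E) (toE D)) (P0 Y : List ℕ) :
    Y ∈ candL n E D P0 ↔ ∃ a < n, ∃ b < n, ∃ x < n, x ≠ a ∧ x ≠ b ∧ Y = compL n E [a, b] x ∧
      Dang (range n) (toE E) ((toE D).image (body (toE E) (toE D) n)) P0.toFinset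
        Y.toFinset := by
  have hG := isGraph_toE hE
  have hkey : ∀ a b x, x < n → x ≠ a → x ≠ b →
      (dangL n E D P0 (compL n E [a, b] x) = true ↔ Dang (range n) (toE E)
        ((toE D).image (body (toE E) (toE D) n)) P0.toFinset (compL n E [a, b] x).toFinset) := by
    intro a b x hx hxa hxb
    obtain ⟨h1, h2, h3⟩ := frc_comp hE (a := a) (b := b) hx
    refine frc_dang hE hD hs hB P0 h2 h3 ?_
    rw [h1]
    refine ⟨x, (comp_spec hG (C := {a, b}) ?_ (by rw [card_range])).1⟩
    rw [mem_sdiff, mem_range, mem_insert, mem_singleton]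
    exact ⟨hx, by rintro (h | h); exacts [hxa h, hxb h]⟩
  unfold candL
  simp only [List.mem_filter, List.mem_flatMap, List.mem_map, List.mem_range, Bool.and_eq_true,
    decide_eq_true_iff]
  constructor
  · rintro ⟨⟨a, ha, b, hb, x, ⟨hx, hxa, hxb⟩, rfl⟩, hd⟩
    exact ⟨a, ha, b, hb, x, hx, hxa, hxb, rfl, (hkey a b x hx hxa hxb).mp hd⟩
  · rintro ⟨a, ha, b, hb, x, hx, hxa, hxb, rfl, hd⟩
    exact ⟨⟨a, ha, b, hb, x, ⟨hx, hxa, hxb⟩, rfl⟩, (hkey a b x hx hxa hxb).mpr hd⟩

/-- a smallest member exists -/
theorem frc_pick (c : List (List ℕ)) :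
    (c = [] ∧ pickL c = none) ∨ ∃ Y ∈ c, pickL c = some Y ∧ ∀ Z ∈ c, Y.length ≤ Z.length := by
  by_cases hc : c = []
  · left
    subst hc
    exact ⟨rfl, rfl⟩
  · right
    have h1 : ∃ Y ∈ c, ∀ Z ∈ c, Y.length ≤ Z.length := by
      have h2 : c.toFinset.Nonempty := by
        obtain ⟨y, hy⟩ := List.exists_mem_of_ne_nil c hc
        exact ⟨y, List.mem_toFinset.mpr hy⟩
      obtain ⟨Y, hY, hmin⟩ := exists_min_image c.toFinset List.length h2
      exact ⟨Y, List.mem_toFinset.mp hY, fun Z hZ => hmin Z (List.mem_toFinset.mpr hZ)⟩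
    obtain ⟨Y, hY, hmin⟩ := h1
    set F := c.filter fun Y => c.all fun Z => decide (Y.length ≤ Z.length) with hF
    have h3 : Y ∈ F := by
      rw [hF, List.mem_filter, List.all_eq_true]
      exact ⟨hY, fun Z hZ => decide_eq_true (hmin Z hZ)⟩
    cases hFc : F with
    | nil =>
      rw [hFc] at h3
      exact absurd h3 (List.not_mem_nil)
    | cons Y0 F' =>
      have h4 : Y0 ∈ F := by
        rw [hFc]
        exact List.mem_cons_self
      have h5 : pickL c = some Y0 := by
        unfold pickL
        rw [← hF, hFc]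
        rfl
      rw [hF, List.mem_filter, List.all_eq_true] at h4
      exact ⟨Y0, h4.1, h5, fun Z hZ => of_decide_eq_true (h4.2 Z hZ)⟩

end

theorem forcedL_spec {n : ℕ} {E D : List (ℕ × ℕ)} (hE : Good n E) (hD : Good n D)
    (hs : ∀ e ∈ D, e ∈ E) (hB : MaxSp (toE E) (toE D)) :
    (forcedL n E D).toFinset ⊆ Finset.range n ∧
      (∀ Y, ¬ Dang (Finset.range n) (toE E) ((toE D).image (body (toE E) (toE D) n))
        (forcedL n E D).toFinset Y) ∧
      ∀ P, P ⊆ Finset.range n →
        Feas (Finset.range n) (toE E) ((toE D).image (body (toE E) (toE D) n)) P →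
        ∃ P', P' ⊆ Finset.range n ∧ (forcedL n E D).toFinset ⊆ P' ∧ P'.card ≤ P.card ∧
          Feas (Finset.range n) (toE E) ((toE D).image (body (toE E) (toE D) n)) P' := by
  classical
  have hG := isGraph_toE hE
  have hX := bodies_spec hG hB (n := n) (by rw [card_range])
  set XX := (toE D).image (body (toE E) (toE D) n) with hXX
  -- the step on sets
  let step : Finset ℕ → Finset ℕ := fun S => (grdL n E D S.toList).toFinset
  have hstep : ∀ P : List ℕ, (grdL n E D P).toFinset = step P.toFinset := by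
    intro P
    have h1 : candL n E D P = candL n E D P.toFinset.toList := by
      apply frc_cand_congr
      rw [toList_toFinset]
    show (grdL n E D P).toFinset = (grdL n E D P.toFinset.toList).toFinset
    unfold grdL
    rw [← h1]
    cases pickL (candL n E D P) with
    | none => simp
    | some Y => simp
  have hiter : ∀ k, ((grdL n E D)^[k] []).toFinset = step^[k] ∅ := by
    intro k
    induction k with
    | zero => rfl
    | succ k ih =>
      rw [Function.iterate_succ_apply', Function.iterate_succ_apply', hstep, ih]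
  -- dangerous sets contain candidates
  have hcand : ∀ (P0 Y : Finset ℕ), Dang (range n) (toE E) XX P0 Y →
      ∃ Z ∈ candL n E D P0.toList, Z.length ≤ Y.card := by
    intro P0 Y hY
    obtain ⟨a, ha, b, hb, x, hx, hxab, hsub, hd⟩ :=
      dang_comp hG hB hX (n := n) (by rw [card_range]) hY
    rw [mem_range] at ha hb hx
    rw [mem_insert, mem_singleton, not_or] at hxab
    obtain ⟨h1, h2, h3⟩ := frc_comp hE (a := a) (b := b) hx
    refine ⟨compL n E [a, b] x, ?_, ?_⟩
    · rw [frc_mem_cand hE hD hs hB]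
      refine ⟨a, ha, b, hb, x, hx, hxab.1, hxab.2, rfl, ?_⟩
      rw [toList_toFinset, h1]
      exact hd
    · rw [← List.toFinset_card_of_nodup h2, h1]
      exact card_le_card hsub
  have hg := greedy hG hB hX step
    (by
      intro P0 hno
      rcases frc_pick (candL n E D P0.toList) with ⟨h1, h2⟩ | ⟨Y, hY, _, _⟩
      · show (grdL n E D P0.toList).toFinset = P0
        unfold grdL
        rw [h2]
        exact toList_toFinset P0
      · exfalso
        rw [frc_mem_cand hE hD hs hB] at hY
        obtain ⟨_, _, _, _, _, _, _, _, _, hd⟩ := hY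
        rw [toList_toFinset] at hd
        exact hno _ hd)
    (by
      intro P0 Y hY
      obtain ⟨Z, hZ, _⟩ := hcand P0 Y hY
      rcases frc_pick (candL n E D P0.toList) with ⟨h1, _⟩ | ⟨Y', hY', h2, h3⟩
      · rw [h1] at hZ
        exact absurd hZ List.not_mem_nil
      · have hd := (frc_mem_cand hE hD hs hB P0.toList Y').mp hY'
        obtain ⟨a, ha, b, hb, x, hx, hxa, hxb, hc, hd⟩ := hd
        rw [toList_toFinset] at hd
        have hnd : Y'.Nodup := by
          rw [hc]
          exact (frc_comp hE hx).2.1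
        have hmem : cell Y' 0 ∈ Y' := by
          obtain ⟨v, hv⟩ := hd.2.1
          rw [List.mem_toFinset] at hv
          have hl : 0 < Y'.length := List.length_pos_of_mem hv
          unfold cell
          rw [List.getD_eq_getElem _ _ hl]
          exact List.getElem_mem hl
        refine ⟨Y'.toFinset, cell Y' 0, hd, ?_, List.mem_toFinset.mpr hmem, ?_⟩
        · intro Z hZ
          obtain ⟨Z', hZ', hl⟩ := hcand P0 Z hZ
          rw [List.toFinset_card_of_nodup hnd]
          exact (h3 Z' hZ').trans hl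
        · show (grdL n E D P0.toList).toFinset = insert (cell Y' 0) P0
          unfold grdL
          rw [h2]
          show (cell Y' 0 :: P0.toList).toFinset = _
          rw [List.toFinset_cons, toList_toFinset])
    (n := n) (by rw [card_range])
  have he : (forcedL n E D).toFinset = step^[n] ∅ := hiter n
  rw [he]
  exact hg

end Pool.Agent.Lib.MP_5d015b_lc
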