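import Pool.Agent.Lib.MP_5d015b_lc.NBS

/-!
# Theorem A: three-connectedness
-/

set_option autoImplicit false
set_option linter.unusedSectionVars false

namespace Pool.Agent.Lib.MP_5d015b_lc

variable {V : Type*} [DecidableEq V]


variable {W : Finset V} {E B XX : Finset (Finset V)}

theorem conn3_of_feas (hG : IsGraph W E) {P : Finset V} (hP : P ⊆ W) (h4 : 4 ≤ P.card)
    (hF : G2 E (W \ P)) : Conn3 W (E ∪ clique P) := by
  have hH := isGraph_clique hG hP
  refine ⟨h4.trans (Finset.card_le_card hP), ?_⟩
  intro Y hY hne hnot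
  by_cases hd : Disjoint Y P
  · rw [nb_clique hG hP hd]
    refine hF Y ?_ hne
    intro v hv
    rw [Finset.mem_sdiff]
    exact ⟨hY hv, Finset.disjoint_left.1 hd hv⟩
  · rw [Finset.not_disjoint_iff] at hd
    obtain ⟨p, hpY, hpP⟩ := hd
    have h1 : ∀ q ∈ P, q ∈ Y ∪ nb (E ∪ clique P) Y := by
      intro q hq
      rw [Finset.mem_union]
      by_cases hqY : q ∈ Y
      · exact Or.inl hqY
      · right
        rw [mem_nb hH]
        refine ⟨hqY, p, hpY, ?_⟩
        rw [Finset.mem_union]
        right
        rw [clique, Finset.mem_powersetCard]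
        constructor
        · intro x hx
          rw [Finset.mem_insert, Finset.mem_singleton] at hx
          rcases hx with rfl | rfl
          · exact hpP
          · exact hq
        · apply Finset.card_pair
          rintro rfl
          exact hqY hpY
    have h2 : Y ∪ nb (E ∪ clique P) Y ⊆ W := by
      apply Finset.union_subset hY
      exact (nb_sub hH Y).trans Finset.sdiff_subset
    have h3 : (W \ (Y ∪ nb (E ∪ clique P) Y)).Nonempty := by
      rw [Finset.sdiff_nonempty]
      intro h
      exact hnot (Finset.Subset.antisymm h2 h)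
    have h5 : W \ (Y ∪ nb (E ∪ clique P) Y) ⊆ W \ P := by
      intro v hv
      rw [Finset.mem_sdiff] at hv ⊢
      exact ⟨hv.1, fun h => hv.2 (h1 v h)⟩
    have h6 : Disjoint (W \ (Y ∪ nb (E ∪ clique P) Y)) P := by
      rw [Finset.disjoint_left]
      intro v hv
      exact (Finset.mem_sdiff.1 (h5 hv)).2
    have h7 := hF _ h5 h3
    rw [← nb_clique hG hP h6] at h7
    refine h7.trans (Finset.card_le_card ?_)
    intro v hv
    have hv2 := nb_sub hH _ hv
    rw [mem_nb hH] at hv
    obtain ⟨hv1, u, hu, hE⟩ := hv
    rw [Finset.mem_sdiff] at hu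
    have hvY : v ∉ Y := by
      intro hvY
      apply hu.2
      rw [Finset.mem_union]
      by_cases huY : u ∈ Y
      · exact Or.inl huY
      · right
        rw [mem_nb hH]
        refine ⟨huY, v, hvY, ?_⟩
        rw [Finset.pair_comm]
        exact hE
    by_contra hv3
    apply hv1
    rw [Finset.mem_sdiff] at hv2
    rw [Finset.mem_sdiff, Finset.mem_union]
    exact ⟨hv2.1, fun h => h.elim hvY hv3⟩

theorem g2_of_conn3 (hG : IsGraph W E) {P : Finset V} (hP : P ⊆ W) (h4 : 4 ≤ P.card)
    (hC : Conn3 W (E ∪ clique P)) : G2 E (W \ P) := by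
  have hH := isGraph_clique hG hP
  intro A hA hne
  have hd : Disjoint A P := by
    rw [Finset.disjoint_left]
    intro v hv
    exact (Finset.mem_sdiff.1 (hA hv)).2
  have hAW : A ⊆ W := hA.trans Finset.sdiff_subset
  rw [← nb_clique hG hP hd]
  by_cases h : A ∪ nb (E ∪ clique P) A = W
  · have h1 : P ⊆ nb (E ∪ clique P) A := by
      intro p hp
      have h2 : p ∈ A ∪ nb (E ∪ clique P) A := by
        rw [h]
        exact hP hp
      rw [Finset.mem_union] at h2
      exact h2.resolve_left (Finset.disjoint_right.1 hd hp)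
    have := Finset.card_le_card h1
    omega
  · exact hC.2 A hAW hne h

end Pool.Agent.Lib.MP_5d015b_lc
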