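import Pool.Agent.Lib.MP_5d015b_lc.SP1
import Pool.Agent.Lib.MP_5d015b_lc.SP2
import Pool.Agent.Lib.MP_5d015b_lc.NBS
import Pool.Agent.Lib.MP_5d015b_lc.BOD

/-!
# Module THB: Theorem A, redundancy
-/

set_option autoImplicit false
set_option linter.unusedSectionVars false

namespace Pool.Agent.Lib.MP_5d015b_lc

variable {V : Type*} [DecidableEq V]
variable {W : Finset V} {E B XX : Finset (Finset V)}

theorem thb_mem_ins {F : Finset (Finset V)} {X e : Finset V} : e ∈ ins F X ↔ e ∈ F ∧ e ⊆ X := by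
  rw [ins, Finset.mem_filter]

theorem thb_sum_biUnion {ι : Type*} [DecidableEq ι] (M : Finset ι)
    (t : ι → Finset (Finset V)) (w : Finset V → ℕ) :
    ∑ X ∈ M.biUnion t, w X ≤ ∑ Z ∈ M, ∑ X ∈ t Z, w X := by
  induction M using Finset.induction_on with
  | empty => simp
  | insert a M ha ih =>
    rw [Finset.biUnion_insert, Finset.sum_insert ha]
    have h := Finset.sum_union_inter (s₁ := t a) (s₂ := M.biUnion t) (f := w)
    omega

/-- a tight set of a sparse subset is tight -/
theorem thb_tight_of_le {D : Finset (Finset V)} (hD : Sparse D) {X : Finset V}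
    (h2 : 2 ≤ X.card) {F : Finset (Finset V)} (hF : F ⊆ D) (hX : ∀ f ∈ F, f ⊆ X)
    (hc : 2 * X.card ≤ F.card + 3) : Tight D X := by
  refine ⟨h2, ?_⟩
  have h1 := hD.2 X h2
  have h3 : F.card ≤ (ins D X).card := by
    apply Finset.card_le_card
    intro f hf
    rw [thb_mem_ins]
    exact ⟨hF hf, hX f hf⟩
  omega

/-- the replacement base -/
theorem thb_base (hB : MaxSp E B) (hX : Bodies E B XX) (e : Finset V) :
    ∃ B' : Finset (Finset V), Sparse B' ∧ B' ⊆ E.erase e ∧
      ∀ X ∈ XX, X ≠ e → ∃ F ⊆ B', (∀ f ∈ F, f ⊆ X) ∧ 2 * X.card ≤ F.card + 3 := by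
  by_cases heB : e ∈ B
  · obtain ⟨X, hXX, heX⟩ := hX.cover e (hB.1 heB)
    have he2 : e.card = 2 := hB.2.1.1 e heB
    have huniq : ∀ Z ∈ XX, e ⊆ Z → Z = X := by
      intro Z hZ heZ
      by_contra hne
      have h1 := hX.inter Z hZ X hXX hne
      have h2 : e.card ≤ (Z ∩ X).card := Finset.card_le_card (Finset.subset_inter heZ heX)
      omega
    rcases hX.red X hXX with hc | hr
    · have hXe : e = X := Finset.eq_of_subset_of_card_le heX (by omega)
      refine ⟨B.erase e, Sparse.mono hB.2.1 (Finset.erase_subset _ _),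
        Finset.erase_subset_erase _ hB.1, ?_⟩
      intro Z hZ hZe
      refine ⟨ins B Z, ?_, fun f hf => (thb_mem_ins.mp hf).2, ?_⟩
      · intro f hf
        rw [thb_mem_ins] at hf
        rw [Finset.mem_erase]
        refine ⟨?_, hf.1⟩
        rintro rfl
        exact hZe ((huniq Z hZ hf.2).trans hXe.symm)
      · have := (hX.tight Z hZ).2
        omega
    · obtain ⟨f, hfE, hfB, hfX, hs⟩ := hr e heB heX
      refine ⟨insert f (B.erase e), hs, ?_, ?_⟩
      · intro g hg
        rw [Finset.mem_insert, Finset.mem_erase] at hg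
        rw [Finset.mem_erase]
        rcases hg with rfl | hg
        · refine ⟨?_, hfE⟩
          rintro rfl
          exact hfB heB
        · exact ⟨hg.1, hB.1 hg.2⟩
      · intro Z hZ hZe
        by_cases hZX : Z = X
        · subst hZX
          refine ⟨insert f ((ins B Z).erase e), ?_, ?_, ?_⟩
          · apply Finset.insert_subset_insert
            apply Finset.erase_subset_erase
            exact Finset.filter_subset _ _
          · intro g hg
            rw [Finset.mem_insert, Finset.mem_erase] at hg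
            rcases hg with rfl | hg
            · exact hfX
            · exact (thb_mem_ins.mp hg.2).2
          · have h1 : f ∉ (ins B Z).erase e := by
              intro h
              exact hfB (thb_mem_ins.mp (Finset.mem_of_mem_erase h)).1
            rw [Finset.card_insert_of_notMem h1,
              Finset.card_erase_of_mem (thb_mem_ins.mpr ⟨heB, heX⟩)]
            have h2 := (hX.tight Z hZ).2
            have h3 := (hX.tight Z hZ).1
            omega
        · refine ⟨ins B Z, ?_, fun f hf => (thb_mem_ins.mp hf).2, ?_⟩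
          · intro g hg
            rw [thb_mem_ins] at hg
            rw [Finset.mem_insert, Finset.mem_erase]
            right
            refine ⟨?_, hg.1⟩
            rintro rfl
            exact hZX (huniq Z hZ hg.2)
          · have := (hX.tight Z hZ).2
            omega
  · refine ⟨B, hB.2.1, ?_, ?_⟩
    · intro f hf
      rw [Finset.mem_erase]
      refine ⟨?_, hB.1 hf⟩
      rintro rfl
      exact heB hf
    · intro X hXX _
      refine ⟨ins B X, Finset.filter_subset _ _, fun f hf => (thb_mem_ins.mp hf).2, ?_⟩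
      have := (hX.tight X hXX).2
      omega

/-- all pairs of `P` are in tight sets -/
theorem thb_pairs {D : Finset (Finset V)} (hD : Sparse D)
    {M : Finset (Finset V)}
    (hM1 : ∀ Z ∈ M, ∀ X, Tight D X → Z ⊆ X → X = Z)
    (hM2 : ∀ X, Tight D X → ∃ Z ∈ M, X ⊆ Z) (hM3 : ∀ Z ∈ M, Tight D Z) {P e : Finset V}
    (h4 : 4 ≤ P.card)
    (hP : ∀ u ∈ P, ∀ v ∈ P, u ≠ v → ({u, v} : Finset V) ≠ e → ∃ X, Tight D X ∧ u ∈ X ∧ v ∈ X) :
    ∀ u ∈ P, ∀ v ∈ P, u ≠ v → ∃ X, Tight D X ∧ u ∈ X ∧ v ∈ X := by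
  intro u hu v hv huv
  by_cases he : ({u, v} : Finset V) = e
  · -- two more points
    have h2 : 1 < (P \ {u, v}).card := by
      have h3 := Finset.le_card_sdiff ({u, v} : Finset V) P
      have h5 : ({u, v} : Finset V).card = 2 := Finset.card_pair huv
      omega
    obtain ⟨w, x, hw, hx, hwx⟩ := Finset.one_lt_card_iff.mp h2
    rw [Finset.mem_sdiff, Finset.mem_insert, Finset.mem_singleton, not_or] at hw hx
    obtain ⟨hwP, hwu, hwv⟩ := hw
    obtain ⟨hxP, hxu, hxv⟩ := hx
    have hne : ∀ c d : V, (c ≠ u ∧ c ≠ v) → ({c, d} : Finset V) ≠ e := by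
      intro c d hc h
      rw [← he] at h
      have : c ∈ ({u, v} : Finset V) := by rw [← h]; simp
      rw [Finset.mem_insert, Finset.mem_singleton] at this
      rcases this with h | h
      · exact hc.1 h
      · exact hc.2 h
    have hne' : ∀ c d : V, (d ≠ u ∧ d ≠ v) → ({c, d} : Finset V) ≠ e := by
      intro c d hc h
      rw [Finset.pair_comm] at h
      exact hne d c hc h
    obtain ⟨X, hX, hwX, hxX⟩ := hP w hwP x hxP hwx (hne w x ⟨hwu, hwv⟩)
    obtain ⟨Z, hZM, hXZ⟩ := hM2 X hX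
    have hZ := hM3 Z hZM
    have hmax := hM1 Z hZM
    have key : ∀ t ∈ P, t ≠ w → t ≠ x → t ∈ Z := by
      intro t ht htw htx
      have hsub : ({t, w, x} : Finset V) ⊆ Z := by
        apply clique_in hD hZ hmax (p := w) (q := x) (by simp) (by simp) hwx (hXZ hwX) (hXZ hxX)
        intro c hc d hd hcd
        rw [Finset.mem_insert, Finset.mem_insert, Finset.mem_singleton] at hc hd
        rcases hc with rfl | rfl | rfl <;> rcases hd with rfl | rfl | rfl
        · exact absurd rfl hcd
        · exact hP _ ht _ hwP hcd (hne' _ _ ⟨hwu, hwv⟩)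
        · exact hP _ ht _ hxP hcd (hne' _ _ ⟨hxu, hxv⟩)
        · exact hP _ hwP _ ht hcd (hne _ _ ⟨hwu, hwv⟩)
        · exact absurd rfl hcd
        · exact hP _ hwP _ hxP hcd (hne _ _ ⟨hwu, hwv⟩)
        · exact hP _ hxP _ ht hcd (hne _ _ ⟨hxu, hxv⟩)
        · exact hP _ hxP _ hwP hcd (hne _ _ ⟨hxu, hxv⟩)
        · exact absurd rfl hcd
      exact hsub (by simp)
    exact ⟨Z, hZ, key u hu (Ne.symm hwu) (Ne.symm hxu), key v hv (Ne.symm hwv) (Ne.symm hxv)⟩
  · exact hP u hu v hv huv he

theorem redRigid_of_feas (hG : IsGraph W E) (hB : MaxSp E B) (hX : Bodies E B XX) {P : Finset V}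
    (hP : P ⊆ W) (h4 : 4 ≤ P.card) (h1 : G1 XX (W \ P)) : RedRigid W (E ∪ clique P) := by
  intro e he
  obtain ⟨B', hB's, hB'E, hB't⟩ := thb_base hB hX e
  have hGH : IsGraph W (E ∪ clique P) := isGraph_clique hG hP
  have hGH' : IsGraph W ((E ∪ clique P).erase e) :=
    ⟨fun f hf => hGH.card_two f (Finset.mem_of_mem_erase hf),
      fun f hf => hGH.sub f (Finset.mem_of_mem_erase hf)⟩
  obtain ⟨D, hB'D, hD⟩ := exists_maxSp (E := (E ∪ clique P).erase e) hB's
    (hB'E.trans (Finset.erase_subset_erase _ Finset.subset_union_left))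
  have hDW : ∀ f ∈ D, f ⊆ W := fun f hf => hGH'.sub f (hD.1 hf)
  obtain ⟨M, hM1, hM2, hM3, hM4⟩ := exists_family hD.2.1 hDW
  have hpairs : ∀ u ∈ P, ∀ v ∈ P, u ≠ v → ∃ X, Tight D X ∧ u ∈ X ∧ v ∈ X := by
    apply thb_pairs hD.2.1 (fun Z hZ => (hM1 Z hZ).2.2) hM2 (fun Z hZ => (hM1 Z hZ).1) h4
    intro u hu v hv huv hne
    have hmem : ({u, v} : Finset V) ∈ (E ∪ clique P).erase e := by
      rw [Finset.mem_erase, Finset.mem_union]
      refine ⟨hne, Or.inr ?_⟩
      rw [clique, Finset.mem_powersetCard]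
      refine ⟨?_, Finset.card_pair huv⟩
      intro t ht
      rw [Finset.mem_insert, Finset.mem_singleton] at ht
      rcases ht with rfl | rfl
      · exact hu
      · exact hv
    obtain ⟨X, hXt, hXs⟩ := exists_tight hD hGH'.card_two hmem
    exact ⟨X, hXt, hXs (by simp), hXs (by simp)⟩
  obtain ⟨Z0, hZ0M, hPZ0⟩ : ∃ Z0 ∈ M, P ⊆ Z0 := by
    obtain ⟨p, q, hp, hq, hpq⟩ := Finset.one_lt_card_iff.mp (show 1 < P.card by omega)
    obtain ⟨X, hXt, hpX, hqX⟩ := hpairs p hp q hq hpq
    obtain ⟨Z, hZM, hXZ⟩ := hM2 X hXt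
    exact ⟨Z, hZM, clique_in hD.2.1 (hM1 Z hZM).1 (hM1 Z hZM).2.2 hp hq hpq (hXZ hpX) (hXZ hqX)
      hpairs⟩
  have hZ0 := hM1 Z0 hZ0M
  have hW2 : 2 ≤ W.card := by
    have := Finset.card_le_card hP
    omega
  have hDall : ins D W = D := by
    rw [ins, Finset.filter_true_of_mem hDW]
  have hDle : D.card + 3 ≤ 2 * W.card := by
    have := hD.2.1.2 W hW2
    rwa [hDall] at this
  by_contra hnr
  have hlt : D.card + 4 ≤ 2 * W.card := by
    by_contra hcon
    exact hnr ⟨D, hD.1, hD.2.1, by omega⟩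
  have hZ0W : Z0 ⊆ W := hZ0.2.1
  have hcardZ : (W \ Z0).card + Z0.card = W.card := Finset.card_sdiff_add_card_eq_card hZ0W
  have hY : (W \ Z0).Nonempty := by
    rw [Finset.nonempty_iff_ne_empty]
    intro hemp
    have h5 : W = Z0 := Finset.Subset.antisymm (Finset.sdiff_eq_empty_iff_subset.mp hemp) hZ0W
    have h6 := hZ0.1.2
    rw [← h5, hDall] at h6
    omega
  have hg := h1 (W \ Z0) (Finset.sdiff_subset_sdiff (Finset.Subset.refl _) hPZ0) hY
  -- upper bound for the rank of the bodies meeting `W \ Z0`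
  have hup : sc XX (W \ Z0) ≤ ∑ Z ∈ M.erase Z0, (2 * Z.card - 3) + 1 := by
    unfold sc
    set FF := XX.filter (fun X => (X ∩ (W \ Z0)).Nonempty) with hFF
    have hFFX : FF ⊆ XX := Finset.filter_subset _ _
    have ha : ∑ X ∈ FF, (2 * X.card - 3) ≤ ∑ X ∈ FF.erase e, (2 * X.card - 3) + 1 := by
      by_cases heF : e ∈ FF
      · rw [← Finset.sum_erase_add _ _ heF]
        have h7 : e.card = 2 := hGH.card_two e he
        rw [h7]
      · rw [Finset.erase_eq_of_notMem heF]
        omega
    refine le_trans ha ?_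
    apply Nat.add_le_add_right
    have hb : ∀ X ∈ FF.erase e, ∃ Z ∈ M.erase Z0, X ⊆ Z := by
      intro X hXF
      rw [Finset.mem_erase] at hXF
      have hXX := hFFX hXF.2
      obtain ⟨F, hF1, hF2, hF3⟩ := hB't X hXX hXF.1
      have ht : Tight D X := thb_tight_of_le hD.2.1 (hX.tight X hXX).1 (hF1.trans hB'D) hF2 hF3
      obtain ⟨Z, hZM, hXZ⟩ := hM2 X ht
      refine ⟨Z, ?_, hXZ⟩
      rw [Finset.mem_erase]
      refine ⟨?_, hZM⟩
      rintro rfl
      have h8 := hXF.2
      rw [hFF, Finset.mem_filter] at h8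
      obtain ⟨v, hv⟩ := h8.2
      rw [Finset.mem_inter, Finset.mem_sdiff] at hv
      exact hv.2.2 (hXZ hv.1)
    calc ∑ X ∈ FF.erase e, (2 * X.card - 3)
        ≤ ∑ Z ∈ M.erase Z0, ∑ X ∈ (FF.erase e).filter (fun X => X ⊆ Z), (2 * X.card - 3) := by
          have hc : FF.erase e ⊆ (M.erase Z0).biUnion
              (fun Z => (FF.erase e).filter (fun X => X ⊆ Z)) := by
            intro X hXF
            obtain ⟨Z, hZM, hXZ⟩ := hb X hXF
            rw [Finset.mem_biUnion]
            exact ⟨Z, hZM, Finset.mem_filter.mpr ⟨hXF, hXZ⟩⟩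
          refine le_trans (Finset.sum_le_sum_of_subset hc) ?_
          exact thb_sum_biUnion _ _ _
      _ ≤ ∑ Z ∈ M.erase Z0, (2 * Z.card - 3) := by
          apply Finset.sum_le_sum
          intro Z hZM
          have hZ := hM1 Z (Finset.mem_of_mem_erase hZM)
          have h9 := sum_le_of_card hB.2.1 hX
            (FF := (FF.erase e).filter (fun X => X ⊆ Z))
            ((Finset.filter_subset _ _).trans ((Finset.erase_subset _ _).trans hFFX))
            (S := Z) (fun X hXm => (Finset.mem_filter.mp hXm).2) hZ.1.1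
          omega
  have hsum : ∑ Z ∈ M.erase Z0, (2 * Z.card - 3) + (2 * Z0.card - 3) = D.card := by
    rw [hM4]
    exact Finset.sum_erase_add _ _ hZ0M
  have h10 := hZ0.1.1
  have h11 : 4 ≤ Z0.card := le_trans h4 (Finset.card_le_card hPZ0)
  omega

end Pool.Agent.Lib.MP_5d015b_lc
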