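import Pool.Agent.Lib.MP_5d015b_lc.Defs

/-!
# Module THC: necessity of condition (1)
-/

set_option autoImplicit false
set_option linter.unusedSectionVars false

namespace Pool.Agent.Lib.MP_5d015b_lc

variable {V : Type*} [DecidableEq V]

theorem THC_mem_nb {E : Finset (Finset V)} {Y : Finset V} {v : V} :
    v ∈ nb E Y ↔ (∃ e ∈ E, (e ∩ Y).Nonempty ∧ v ∈ e) ∧ v ∉ Y := by
  simp only [nb, Finset.mem_sdiff, Finset.mem_biUnion, Finset.mem_filter, id]
  constructor
  · rintro ⟨⟨e, ⟨h1, h2⟩, h3⟩, h4⟩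
    exact ⟨⟨e, h1, h2, h3⟩, h4⟩
  · rintro ⟨⟨e, h1, h2, h3⟩, h4⟩
    exact ⟨⟨e, ⟨h1, h2⟩, h3⟩, h4⟩

theorem THC_ins_card_add (F : Finset (Finset V)) (X Z : Finset V) :
    (ins F X).card + (ins F Z).card ≤ (ins F (X ∪ Z)).card + (ins F (X ∩ Z)).card := by
  have h1 : ins F X ∪ ins F Z ⊆ ins F (X ∪ Z) := by
    intro e he
    simp only [ins, Finset.mem_union, Finset.mem_filter] at he ⊢
    rcases he with ⟨h, h'⟩ | ⟨h, h'⟩
    · exact ⟨h, h'.trans Finset.subset_union_left⟩
    · exact ⟨h, h'.trans Finset.subset_union_right⟩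
  have h2 : ins F X ∩ ins F Z = ins F (X ∩ Z) := by
    ext e
    simp only [ins, Finset.mem_inter, Finset.mem_filter, Finset.subset_inter_iff]
    tauto
  rw [← Finset.card_union_add_card_inter, h2]
  exact Nat.add_le_add_right (Finset.card_le_card h1) _

section
variable {W : Finset V} {E B XX : Finset (Finset V)}

/-- the count for one spanning Laman subgraph -/
theorem THC_key (hX : Bodies E B XX) {H D : Finset (Finset V)} {Y : Finset V} (hYW : Y ⊆ W)
    (hcard : 2 ≤ (W \ Y).card)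
    (hcov : ∀ e ∈ H, (e ∩ Y).Nonempty → ∃ X ∈ XX.filter (fun X => (X ∩ Y).Nonempty), e ⊆ X)
    (hHW : ∀ e ∈ H, e ⊆ W) (hDH : D ⊆ H) (hD : Sparse D) (hDc : D.card + 3 = 2 * W.card) :
    2 * Y.card ≤ sc XX Y ∧ (sc XX Y = 2 * Y.card →
      (ins D (W \ Y)).card + 3 = 2 * (W \ Y).card ∧
      ∀ X ∈ XX.filter (fun X => (X ∩ Y).Nonempty),
        ((ins D X).filter (fun e => (e ∩ Y).Nonempty)).card = 2 * X.card - 3) := by
  set FF := XX.filter (fun X => (X ∩ Y).Nonempty) with hFF
  set DY := D.filter (fun e => (e ∩ Y).Nonempty) with hDY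
  have h2 : ∀ X ∈ FF, 2 ≤ X.card := fun X hX' => (hX.tight X (Finset.mem_filter.mp hX').1).1
  have hle : ∀ X ∈ FF, ((ins D X).filter (fun e => (e ∩ Y).Nonempty)).card ≤ 2 * X.card - 3 := by
    intro X hX'
    have h3 := hD.2 X (h2 X hX')
    have h4 := Finset.card_filter_le (ins D X) (fun e => (e ∩ Y).Nonempty)
    omega
  have hsplit : D.card = DY.card + (ins D (W \ Y)).card := by
    rw [← Finset.card_filter_add_card_filter_not (s := D) (fun e => (e ∩ Y).Nonempty)]
    congr 1
    apply congrArg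
    ext e
    simp only [ins, Finset.mem_filter]
    constructor
    · rintro ⟨he, hn⟩
      refine ⟨he, fun v hv => ?_⟩
      rw [Finset.mem_sdiff]
      refine ⟨hHW e (hDH he) hv, fun hvY => hn ⟨v, Finset.mem_inter.mpr ⟨hv, hvY⟩⟩⟩
    · rintro ⟨he, hs⟩
      refine ⟨he, ?_⟩
      rintro ⟨v, hv⟩
      rw [Finset.mem_inter] at hv
      exact (Finset.mem_sdiff.mp (hs hv.1)).2 hv.2
  have hcovD : DY ⊆ FF.biUnion (fun X => (ins D X).filter (fun e => (e ∩ Y).Nonempty)) := by
    intro e he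
    obtain ⟨heD, heY⟩ := Finset.mem_filter.mp he
    obtain ⟨X, hX1, hX2⟩ := hcov e (hDH heD) heY
    rw [Finset.mem_biUnion]
    refine ⟨X, hX1, ?_⟩
    rw [Finset.mem_filter, ins, Finset.mem_filter]
    exact ⟨⟨heD, hX2⟩, heY⟩
  have hsum : DY.card ≤ ∑ X ∈ FF, ((ins D X).filter (fun e => (e ∩ Y).Nonempty)).card :=
    (Finset.card_le_card hcovD).trans Finset.card_biUnion_le
  have hsum2 : ∑ X ∈ FF, ((ins D X).filter (fun e => (e ∩ Y).Nonempty)).card ≤ sc XX Y :=
    Finset.sum_le_sum hle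
  have hout := hD.2 (W \ Y) hcard
  have hWY : (W \ Y).card + Y.card = W.card := Finset.card_sdiff_add_card_eq_card hYW
  refine ⟨by omega, fun heq => ⟨by omega, ?_⟩⟩
  have heq2 : ∑ X ∈ FF, ((ins D X).filter (fun e => (e ∩ Y).Nonempty)).card =
      ∑ X ∈ FF, (2 * X.card - 3) := by
    have h5 : sc XX Y = ∑ X ∈ FF, (2 * X.card - 3) := rfl
    omega
  exact (Finset.sum_eq_sum_iff_of_le hle).mp heq2

theorem g1_of_gr (hG : IsGraph W E) (hB : MaxSp E B) (hX : Bodies E B XX) {P : Finset V}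
    (hP : P ⊆ W) (h4 : 4 ≤ P.card) (hC : Conn3 W (E ∪ clique P))
    (hR : RedRigid W (E ∪ clique P)) : G1 XX (W \ P) := by
  intro Y hY hne
  set H := E ∪ clique P with hH
  have hYW : Y ⊆ W := hY.trans Finset.sdiff_subset
  have hYP : ∀ v ∈ Y, v ∉ P := fun v hv => (Finset.mem_sdiff.mp (hY hv)).2
  have hPWY : P ⊆ W \ Y := fun v hv => Finset.mem_sdiff.mpr ⟨hP hv, fun h => hYP v h hv⟩
  have hcardP : 4 ≤ (W \ Y).card := h4.trans (Finset.card_le_card hPWY)
  have hedge : ∀ e ∈ H, (e ∩ Y).Nonempty → e ∈ E := by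
    intro e he hn
    rw [hH, Finset.mem_union] at he
    rcases he with he | he
    · exact he
    · exfalso
      obtain ⟨v, hv⟩ := hn
      rw [Finset.mem_inter] at hv
      rw [clique, Finset.mem_powersetCard] at he
      exact hYP v hv.2 (he.1 hv.1)
  have hHW : ∀ e ∈ H, e ⊆ W := by
    intro e he
    rw [hH, Finset.mem_union] at he
    rcases he with he | he
    · exact hG.sub e he
    · rw [clique, Finset.mem_powersetCard] at he
      exact he.1.trans hP
  set FF := XX.filter (fun X => (X ∩ Y).Nonempty) with hFF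
  have hcov : ∀ e ∈ H, (e ∩ Y).Nonempty → ∃ X ∈ FF, e ⊆ X := by
    intro e he hn
    obtain ⟨X, hX1, hX2⟩ := hX.cover e (hedge e he hn)
    refine ⟨X, ?_, hX2⟩
    rw [hFF, Finset.mem_filter]
    exact ⟨hX1, hn.mono (Finset.inter_subset_inter_right hX2)⟩
  have hkey := fun (D : Finset (Finset V)) (h1 : D ⊆ H) (h2 : Sparse D)
    (h3 : D.card + 3 = 2 * W.card) => THC_key (W := W) hX hYW (by omega) hcov hHW h1 h2 h3
  have h2 : ∀ X ∈ FF, 2 ≤ X.card := fun X hX' => (hX.tight X (Finset.mem_filter.mp hX').1).1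
  -- an edge at every vertex of `Y`
  have hdeg : ∀ v ∈ Y, ∃ e ∈ H, v ∈ e := by
    intro v hv
    have h5 := hC.2 {v} (Finset.singleton_subset_iff.mpr (hYW hv)) (Finset.singleton_nonempty v)
    have h6 : (nb H {v}).Nonempty := by
      by_contra hcon
      rw [Finset.not_nonempty_iff_eq_empty] at hcon
      rw [hcon] at h5
      have h7 := h5 (by
        intro h8
        have h9 : W.card = 1 := by rw [← h8]; simp
        have := hC.1
        omega)
      simp at h7
    obtain ⟨w, hw⟩ := h6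
    rw [THC_mem_nb] at hw
    obtain ⟨⟨e, he, hev, -⟩, -⟩ := hw
    obtain ⟨v', hv'⟩ := hev
    rw [Finset.mem_inter, Finset.mem_singleton] at hv'
    exact ⟨e, he, hv'.2 ▸ hv'.1⟩
  -- the bound `2 |Y|`
  obtain ⟨e0, he0⟩ : H.Nonempty := by
    obtain ⟨v, hv⟩ := hne
    obtain ⟨e, he, -⟩ := hdeg v hv
    exact ⟨e, he⟩
  obtain ⟨D, hDH', hDs, hDc⟩ := hR e0 he0
  have hDH : D ⊆ H := hDH'.trans (Finset.erase_subset _ _)
  obtain ⟨hge, heqD⟩ := hkey D hDH hDs hDc
  rcases Nat.lt_or_ge (2 * Y.card) (sc XX Y) with hlt | hle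
  · exact hlt
  exfalso
  have heq : sc XX Y = 2 * Y.card := le_antisymm hle hge
  -- no small bodies
  have h3 : ∀ X ∈ FF, 3 ≤ X.card := by
    intro X hXF
    by_contra hcon
    have hX2 : X.card = 2 := by have := h2 X hXF; omega
    have hmem : ∀ D' ⊆ H, Sparse D' → D'.card + 3 = 2 * W.card → X ∈ D' := by
      intro D' h5 h6 h7
      have h8 := ((hkey D' h5 h6 h7).2 heq).2 X hXF
      rw [hX2] at h8
      obtain ⟨e, he⟩ := Finset.card_pos.mp (by rw [h8]; norm_num :
        0 < ((ins D' X).filter (fun e => (e ∩ Y).Nonempty)).card)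
      rw [Finset.mem_filter, ins, Finset.mem_filter] at he
      have h9 : e = X := Finset.eq_of_subset_of_card_le he.1.2 (by
        rw [hX2, h6.1 e he.1.1])
      exact h9 ▸ he.1.1
    have h5 : X ∈ H := hDH (hmem D hDH hDs hDc)
    obtain ⟨D', h6, h7, h8⟩ := hR X h5
    have h9 := h6 (hmem D' (h6.trans (Finset.erase_subset _ _)) h7 h8)
    exact (Finset.notMem_erase X H) h9
  obtain ⟨hout, hin⟩ := heqD heq
  -- bodies leave `Y` by at most one vertex
  have h1 : ∀ X ∈ FF, (X \ Y).card ≤ 1 := by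
    intro X hXF
    by_contra hcon
    have hXW : X ⊆ W := by
      have hXt := hX.tight X (Finset.mem_filter.mp hXF).1
      -- every vertex of a tight set is in an edge of `B`; avoided: use `D`
      intro v hv
      by_contra hvW
      -- `X.erase v` would carry too many edges of `D`
      have h5 := hin X hXF
      have h6 : ins D X ⊆ ins D (X.erase v) := by
        intro e he
        rw [ins, Finset.mem_filter] at he ⊢
        refine ⟨he.1, fun u hu => ?_⟩
        rw [Finset.mem_erase]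
        refine ⟨?_, he.2 hu⟩
        rintro rfl
        exact hvW (hHW e (hDH he.1) hu)
      have h7 := Finset.card_le_card h6
      have h8 := Finset.card_filter_le (ins D X) (fun e => (e ∩ Y).Nonempty)
      have h9 := hDs.2 (X.erase v) (by
        rw [Finset.card_erase_of_mem hv]; have := h3 X hXF; omega)
      rw [Finset.card_erase_of_mem hv] at h9
      have := h3 X hXF
      omega
    have h5 := hin X hXF
    have h6 := THC_ins_card_add D X (W \ Y)
    have h7 : X ∩ (W \ Y) = X \ Y := by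
      ext v
      simp only [Finset.mem_inter, Finset.mem_sdiff]
      constructor
      · rintro ⟨h, -, h'⟩; exact ⟨h, h'⟩
      · rintro ⟨h, h'⟩; exact ⟨h, hXW h, h'⟩
    rw [h7] at h6
    have h8 : (X ∪ (W \ Y)).card + (X \ Y).card = X.card + (W \ Y).card := by
      rw [← h7, Finset.card_union_add_card_inter]
    have h9 := hDs.2 (X ∪ (W \ Y)) (by
      have := Finset.card_le_card (Finset.subset_union_left (s₁ := X) (s₂ := W \ Y))
      have := h3 X hXF
      omega)
    have h10 : ((ins D X).filter (fun e => (e ∩ Y).Nonempty)).card + (ins D (X \ Y)).card ≤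
        (ins D X).card := by
      rw [← Finset.card_union_of_disjoint]
      · apply Finset.card_le_card
        intro e he
        rw [Finset.mem_union] at he
        rcases he with he | he
        · exact (Finset.mem_filter.mp he).1
        · rw [ins, Finset.mem_filter] at he ⊢
          exact ⟨he.1, he.2.trans Finset.sdiff_subset⟩
      · rw [Finset.disjoint_left]
        intro e he he'
        obtain ⟨v, hv⟩ := (Finset.mem_filter.mp he).2
        rw [Finset.mem_inter] at hv
        rw [ins, Finset.mem_filter] at he'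
        exact (Finset.mem_sdiff.mp (he'.2 hv.1)).2 hv.2
    have h11 := hDs.2 X (h2 X hXF)
    have h12 : (ins D (X \ Y)).card = 0 := by
      have := h3 X hXF
      omega
    have h13 := h3 X hXF
    omega
  -- multiplicities
  set m : V → ℕ := fun v => (FF.filter (fun X => v ∈ X)).card with hm
  set A : Finset V → Finset V := fun X => X.filter (fun v => v ∉ Y ∨ 2 ≤ m v) with hA
  have hA3 : ∀ X ∈ FF, 3 ≤ (A X).card := by
    intro X hXF
    by_contra hcon
    have hne' : (X \ A X).Nonempty := by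
      rw [← Finset.card_pos]
      have h5 : (X \ A X).card + (A X).card = X.card :=
        Finset.card_sdiff_add_card_eq_card (Finset.filter_subset _ _)
      have := h3 X hXF
      omega
    have hin' : ∀ v ∈ X \ A X, v ∈ Y ∧ m v ≤ 1 ∧ v ∈ X := by
      intro v hv
      rw [Finset.mem_sdiff, hA, Finset.mem_filter] at hv
      obtain ⟨h5, h6⟩ := hv
      have h7 : ¬ (v ∉ Y ∨ 2 ≤ m v) := fun h => h6 ⟨h5, h⟩
      push Not at h7
      exact ⟨h7.1, by omega, h5⟩
    have hnb : nb H (X \ A X) ⊆ A X := by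
      intro w hw
      rw [THC_mem_nb] at hw
      obtain ⟨⟨e, he, ⟨v, hv⟩, hwe⟩, hwn⟩ := hw
      rw [Finset.mem_inter] at hv
      obtain ⟨h5, h6, h7⟩ := hin' v hv.2
      obtain ⟨Z, hZ, heZ⟩ := hcov e he ⟨v, Finset.mem_inter.mpr ⟨hv.1, h5⟩⟩
      have hZX : Z = X := by
        have h8 : Z ∈ FF.filter (fun X => v ∈ X) := Finset.mem_filter.mpr ⟨hZ, heZ hv.1⟩
        have h9 : X ∈ FF.filter (fun X => v ∈ X) := Finset.mem_filter.mpr ⟨hXF, h7⟩
        exact Finset.card_le_one.mp h6 Z h8 X h9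
      have hwX : w ∈ X := hZX ▸ heZ hwe
      by_contra hwA
      exact hwn (Finset.mem_sdiff.mpr ⟨hwX, hwA⟩)
    have h5 := hC.2 (X \ A X) (fun v hv => hYW (hin' v hv).1) hne' (by
      intro h6
      have h7 : W \ Y ⊆ X \ Y := by
        intro v hv
        rw [Finset.mem_sdiff] at hv ⊢
        refine ⟨?_, hv.2⟩
        have h8 := hv.1
        rw [← h6, Finset.mem_union] at h8
        rcases h8 with h8 | h8
        · exact (Finset.mem_sdiff.mp h8).1
        · exact (Finset.mem_filter.mp (hnb h8)).1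
      have h8 := Finset.card_le_card h7
      have h9 := h1 X hXF
      omega)
    have h6 := Finset.card_le_card hnb
    omega
  -- double counting
  have hY1 : ∀ v ∈ Y, 1 ≤ m v := by
    intro v hv
    obtain ⟨e, he, hve⟩ := hdeg v hv
    obtain ⟨X, hXF, heX⟩ := hcov e he ⟨v, Finset.mem_inter.mpr ⟨hve, hv⟩⟩
    exact Finset.card_pos.mpr ⟨X, Finset.mem_filter.mpr ⟨hXF, heX hve⟩⟩
  set S : Finset V := Y ∪ FF.biUnion id with hS
  have hXS : ∀ X ∈ FF, X ⊆ S := by
    intro X hXF v hv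
    rw [hS, Finset.mem_union]
    right
    exact Finset.mem_biUnion.mpr ⟨X, hXF, hv⟩
  have hsumX : ∑ X ∈ FF, X.card = ∑ v ∈ S, m v := by
    have h5 : ∀ X ∈ FF, X.card = ∑ v ∈ S, if v ∈ X then 1 else 0 := by
      intro X hXF
      rw [← Finset.card_filter, Finset.filter_mem_eq_inter, Finset.inter_eq_right.mpr (hXS X hXF)]
    rw [Finset.sum_congr rfl h5, Finset.sum_comm]
    refine Finset.sum_congr rfl fun v _ => ?_
    exact (Finset.card_filter _ _).symm
  have hsumA : ∑ X ∈ FF, (A X).card = ∑ v ∈ S, if (v ∉ Y ∨ 2 ≤ m v) then m v else 0 := by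
    have h5 : ∀ X ∈ FF, (A X).card =
        ∑ v ∈ S, if (v ∉ Y ∨ 2 ≤ m v) then (if v ∈ X then 1 else 0) else 0 := by
      intro X hXF
      rw [← Finset.sum_filter, ← Finset.card_filter]
      congr 1
      ext v
      simp only [hA, Finset.mem_filter]
      constructor
      · rintro ⟨h6, h7⟩; exact ⟨⟨hXS X hXF h6, h7⟩, h6⟩
      · rintro ⟨⟨-, h7⟩, h6⟩; exact ⟨h6, h7⟩
    rw [Finset.sum_congr rfl h5, Finset.sum_comm]
    refine Finset.sum_congr rfl fun v _ => ?_
    split_ifs with h6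
    · exact (Finset.card_filter _ _).symm
    · simp
  have hsc : sc XX Y + 3 * FF.card = 2 * ∑ X ∈ FF, X.card := by
    have h5 : sc XX Y = ∑ X ∈ FF, (2 * X.card - 3) := rfl
    have h6 : 3 * FF.card = ∑ X ∈ FF, 3 := by rw [Finset.sum_const, smul_eq_mul, mul_comm]
    rw [h5, h6, ← Finset.sum_add_distrib, Finset.mul_sum]
    refine Finset.sum_congr rfl fun X hXF => ?_
    have := h3 X hXF
    omega
  have hsA : 3 * FF.card ≤ ∑ X ∈ FF, (A X).card := by
    have h6 : 3 * FF.card = ∑ X ∈ FF, 3 := by rw [Finset.sum_const, smul_eq_mul, mul_comm]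
    rw [h6]
    exact Finset.sum_le_sum hA3
  -- split the sums over `Y` and its complement
  have hsplit : ∀ f : V → ℕ, ∑ v ∈ S, f v = ∑ v ∈ Y, f v + ∑ v ∈ S \ Y, f v := by
    intro f
    rw [add_comm]
    exact (Finset.sum_sdiff (by rw [hS]; exact Finset.subset_union_left)).symm
  have hin2 : 2 * Y.card + ∑ v ∈ Y, (if (v ∉ Y ∨ 2 ≤ m v) then m v else 0) ≤
      2 * ∑ v ∈ Y, m v := by
    have h6 : 2 * Y.card = ∑ v ∈ Y, 2 := by rw [Finset.sum_const, smul_eq_mul, mul_comm]
    rw [h6, ← Finset.sum_add_distrib, Finset.mul_sum]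
    refine Finset.sum_le_sum fun v hv => ?_
    have h7 := hY1 v hv
    split_ifs with h8
    · rcases h8 with h8 | h8
      · exact absurd hv h8
      · omega
    · omega
  have hout2 : ∑ v ∈ S \ Y, (if (v ∉ Y ∨ 2 ≤ m v) then m v else 0) = ∑ v ∈ S \ Y, m v := by
    refine Finset.sum_congr rfl fun v hv => ?_
    rw [if_pos (Or.inl (Finset.mem_sdiff.mp hv).2)]
  have hzero : ∑ v ∈ S \ Y, m v = 0 := by
    rw [hsumX, hsplit] at hsc
    rw [hsumA, hsplit, hout2] at hsA
    omega
  have hsub : ∀ X ∈ FF, X ⊆ Y := by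
    intro X hXF v hv
    by_contra hvY
    have h5 := Finset.sum_eq_zero_iff.mp hzero v (Finset.mem_sdiff.mpr ⟨hXS X hXF hv, hvY⟩)
    have h6 : 0 < m v := Finset.card_pos.mpr ⟨X, Finset.mem_filter.mpr ⟨hXF, hv⟩⟩
    omega
  have hnb0 : nb H Y = ∅ := by
    rw [Finset.eq_empty_iff_forall_notMem]
    intro w hw
    rw [THC_mem_nb] at hw
    obtain ⟨⟨e, he, hn, hwe⟩, hwn⟩ := hw
    obtain ⟨X, hXF, heX⟩ := hcov e he hn
    exact hwn (hsub X hXF (heX hwe))
  have hfin := hC.2 Y hYW hne (by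
    rw [hnb0, Finset.union_empty]
    intro h5
    rw [h5] at hcardP
    simp at hcardP)
  rw [hnb0] at hfin
  simp at hfin

end

end Pool.Agent.Lib.MP_5d015b_lc
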