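import Pool.Agent.Lib.MP_5d015b_lc.MONO
import Pool.Agent.Lib.MP_5d015b_lc.NBS
import Pool.Agent.Lib.MP_5d015b_lc.THA
import Pool.Agent.Lib.MP_5d015b_lc.THB
import Pool.Agent.Lib.MP_5d015b_lc.THC

/-!
# The formula for at least four pins (module LRG)
-/

set_option autoImplicit false
set_option linter.unusedSectionVars false

namespace Pool.Agent.Lib.MP_5d015b_lc

variable {V : Type*} [DecidableEq V]

variable {W : Finset V} {E B XX : Finset (Finset V)}

/-- an enlargement to at least four points -/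
theorem lrg_exists_four {P : Finset V} (hP : P ⊆ W) (hW : 4 ≤ W.card) {k : ℕ} (hk : 4 ≤ k)
    (hPk : P.card ≤ k) : ∃ Q, P ⊆ Q ∧ Q ⊆ W ∧ 4 ≤ Q.card ∧ Q.card ≤ k := by
  by_cases h : 4 ≤ P.card
  · exact ⟨P, Finset.Subset.refl P, hP, h, hPk⟩
  · obtain ⟨Q, q1, q2, q3⟩ := Finset.exists_subsuperset_card_eq hP (show P.card ≤ 4 by omega) hW
    exact ⟨Q, q1, q2, by omega, by omega⟩

theorem lrg_clique_mono {P Q : Finset V} (h : P ⊆ Q) : clique P ⊆ clique Q := by
  intro e he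
  unfold clique at he ⊢
  rw [Finset.mem_powersetCard] at he ⊢
  exact ⟨he.1.trans h, he.2⟩

theorem lrg_conn3_nonempty {F : Finset (Finset V)} (hC : Conn3 W F) : F.Nonempty := by
  obtain ⟨h4, h⟩ := hC
  obtain ⟨v, hv⟩ := Finset.card_pos.1 (show 0 < W.card by omega)
  by_contra hcon
  rw [Finset.not_nonempty_iff_eq_empty] at hcon
  have h1 : nb F ({v} : Finset V) = ∅ := by
    rw [hcon]
    simp [nb]
  have h2 := h {v} (Finset.singleton_subset_iff.2 hv) (Finset.singleton_nonempty v) (by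
    rw [h1, Finset.union_empty]
    intro h3
    have h5 := congrArg Finset.card h3
    rw [Finset.card_singleton] at h5
    omega)
  rw [h1, Finset.card_empty] at h2
  omega

theorem large (hG : IsGraph W E) (hB : MaxSp E B) (hX : Bodies E B XX) {P0 : Finset V}
    (h0 : P0 ⊆ W) (hD : ∀ Y, ¬ Dang W E XX P0 Y)
    (hP : ∀ P, P ⊆ W → Feas W E XX P →
      ∃ P', P' ⊆ W ∧ P0 ⊆ P' ∧ P'.card ≤ P.card ∧ Feas W E XX P')
    (hW : 4 ≤ W.card) {k : ℕ} (hk : 4 ≤ k) :
    (∃ P, P ⊆ W ∧ P.card ≤ k ∧ GR W (E ∪ clique P)) ↔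
      ∃ U, U ⊆ W \ P0 ∧ G1 XX U ∧ W.card ≤ U.card + k := by
  constructor
  · rintro ⟨P, hPW, hPk, hGR⟩
    obtain ⟨Q, q1, q2, q3, q4⟩ := lrg_exists_four hPW hW hk hPk
    have g0 : Conn3 W (E ∪ clique P) ∧ RedRigid W (E ∪ clique P) := by
      rcases hGR with h | h
      · have := h.1
        omega
      · exact h
    have hGP := isGraph_clique hG hPW
    have hGQ := isGraph_clique hG q2
    have hs : E ∪ clique P ⊆ E ∪ clique Q := Finset.union_subset_union_right (lrg_clique_mono q1)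
    have c1 : Conn3 W (E ∪ clique Q) := conn3_mono hGP hGQ hs g0.1
    have c2 : RedRigid W (E ∪ clique Q) :=
      redRigid_mono hGP hGQ hs g0.2 (lrg_conn3_nonempty g0.1)
    have hF : Feas W E XX Q := ⟨g1_of_gr hG hB hX q2 q3 c1 c2, g2_of_conn3 hG q2 q3 c1⟩
    obtain ⟨P', p1, p2, p3, p4⟩ := hP Q q2 hF
    refine ⟨W \ P', Finset.sdiff_subset_sdiff (Finset.Subset.refl W) p2, p4.1, ?_⟩
    have h1 := Finset.card_sdiff_add_card_eq_card p1
    omega
  · rintro ⟨U, hU, hU1, hUk⟩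
    have h1 : U ⊆ W := hU.trans Finset.sdiff_subset
    have h2 := Finset.card_sdiff_add_card_eq_card h1
    obtain ⟨Q, q1, q2, q3, q4⟩ := lrg_exists_four (P := W \ U) Finset.sdiff_subset hW hk (by omega)
    have h3 : W \ Q ⊆ U := by
      intro v hv
      rw [Finset.mem_sdiff] at hv
      by_contra hcon
      exact hv.2 (q1 (Finset.mem_sdiff.2 ⟨hv.1, hcon⟩))
    have g1 : G1 XX (W \ Q) := fun A hA hne => hU1 A (hA.trans h3) hne
    have g2 : G2 E (W \ Q) := by
      intro A hA hne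
      by_contra hcon
      exact hD A ⟨(hA.trans h3).trans hU, hne, by omega, fun A' hA' hne' =>
        g1 A' (hA'.trans hA) hne'⟩
    exact ⟨Q, q2, q4, Or.inr ⟨conn3_of_feas hG q2 q3 g2, redRigid_of_feas hG hB hX q2 q3 g1⟩⟩

end Pool.Agent.Lib.MP_5d015b_lc
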