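import Pool.Agent.Lib.MP_5d015b_lc.LB
import Pool.Agent.Lib.MP_5d015b_lc.BDL
import Pool.Agent.Lib.MP_5d015b_lc.BDY
import Pool.Agent.Lib.Parity.NU

/-!
# Property (1) by linear matroid parity
-/

set_option autoImplicit false
set_option linter.unusedSectionVars false

namespace Pool.Agent.Lib.MP_5d015b_lc

open Pool.Agent.Lib.Parity Finset

theorem mxu_pair {u v u' v' : ℕ} (h : u < v) (h' : u' < v')
    (he : ({u, v} : Finset ℕ) = {u', v'}) : u = u' ∧ v = v' := by
  have h1 : u ∈ ({u', v'} : Finset ℕ) := by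
    rw [← he]
    simp
  have h2 : v ∈ ({u', v'} : Finset ℕ) := by
    rw [← he]
    simp
  have h3 : u' ∈ ({u, v} : Finset ℕ) := by
    rw [he]
    simp
  simp only [mem_insert, mem_singleton] at h1 h2 h3
  omega

/-- the edges of a list by their indices -/
theorem mxu_image {n : ℕ} {D : List (ℕ × ℕ)} (hD : Good n D) :
    (range D.length).image (fun i => ({(D.getD i (0, 0)).1, (D.getD i (0, 0)).2} : Finset ℕ)) =
      toE D ∧
    Set.InjOn (fun i => ({(D.getD i (0, 0)).1, (D.getD i (0, 0)).2} : Finset ℕ))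
      (range D.length : Finset ℕ) := by
  constructor
  · ext e
    unfold toE
    rw [mem_image, List.mem_toFinset, List.mem_map]
    constructor
    · rintro ⟨i, hi, rfl⟩
      rw [mem_range] at hi
      refine ⟨D.getD i (0, 0), ?_, rfl⟩
      rw [List.getD_eq_getElem _ _ hi]
      exact List.getElem_mem hi
    · rintro ⟨f, hf, rfl⟩
      obtain ⟨i, hi, rfl⟩ := List.getElem_of_mem hf
      refine ⟨i, mem_range.mpr hi, ?_⟩
      rw [List.getD_eq_getElem _ _ hi]
  · intro i hi j hj he
    rw [mem_coe, mem_range] at hi hj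
    simp only [List.getD_eq_getElem _ _ hi, List.getD_eq_getElem _ _ hj] at he
    have h1 := hD.2 _ (List.getElem_mem hi)
    have h2 := hD.2 _ (List.getElem_mem hj)
    have h3 := mxu_pair h1.1 h2.1 he
    exact (hD.1.getElem_inj_iff).mp (Prod.ext h3.1 h3.2)

/-- the hyperedge of a vertex -/
theorem mxu_SL {n : ℕ} {E D : List (ℕ × ℕ)} (hE : Good n E) (hD : Good n D)
    (hs : ∀ e ∈ D, e ∈ E) (hB : MaxSp (toE E) (toE D)) (v i : ℕ) :
    i ∈ (SL n E D v).toFinset ↔ i < D.length ∧
      v ∈ body (toE E) (toE D) n {(D.getD i (0, 0)).1, (D.getD i (0, 0)).2} := by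
  unfold SL
  rw [List.mem_toFinset, List.mem_filter, List.mem_range]
  refine and_congr_right fun hi => ?_
  have hb : D.getD i (0, 0) ∈ D := by
    rw [List.getD_eq_getElem _ _ hi]
    exact List.getElem_mem hi
  rw [← bodyL_spec hE hD hs hB hb, List.mem_toFinset, List.contains_iff_mem]

theorem mxu_card {n : ℕ} {E D : List (ℕ × ℕ)} (hE : Good n E) (hD : Good n D)
    (hs : ∀ e ∈ D, e ∈ E) (hB : MaxSp (toE E) (toE D)) (A : Finset ℕ) :
    (A.biUnion fun v => (SL n E D v).toFinset).card =
      sc ((toE D).image (body (toE E) (toE D) n)) A := by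
  classical
  rw [sc_bodies (isGraph_toE hE) hB (by rw [card_range]) A]
  obtain ⟨h1, h2⟩ := mxu_image hD
  have h3 : (A.biUnion fun v => (SL n E D v).toFinset) = (range D.length).filter fun i =>
      (body (toE E) (toE D) n {(D.getD i (0, 0)).1, (D.getD i (0, 0)).2} ∩ A).Nonempty := by
    ext i
    rw [mem_biUnion, mem_filter, mem_range]
    constructor
    · rintro ⟨v, hv, hi⟩
      rw [mxu_SL hE hD hs hB] at hi
      exact ⟨hi.1, v, mem_inter.mpr ⟨hi.2, hv⟩⟩
    · rintro ⟨hi, v, hv⟩
      rw [mem_inter] at hv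
      exact ⟨v, hv.2, (mxu_SL hE hD hs hB v i).mpr ⟨hi, hv.1⟩⟩
  have key : ∀ (p : Finset ℕ → Prop) [DecidablePred p], ((toE D).filter p).card =
      ((range D.length).filter fun i =>
        p {(D.getD i (0, 0)).1, (D.getD i (0, 0)).2}).card := by
    intro p _
    rw [← h1, filter_image, card_image_of_injOn]
    intro i hi j hj he
    rw [mem_coe, mem_filter] at hi hj
    exact h2 hi.1 hj.1 he
  rw [h3, key]

/-- vertices and indices -/
theorem mxu_vtx {W : List ℕ} (hW : W.Nodup) :
    Set.InjOn (fun i => W.getD i 0) (range W.length : Finset ℕ) ∧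
    (range W.length).image (fun i => W.getD i 0) = W.toFinset := by
  constructor
  · intro i hi j hj he
    rw [mem_coe, mem_range] at hi hj
    simp only [List.getD_eq_getElem _ _ hi, List.getD_eq_getElem _ _ hj] at he
    exact (hW.getElem_inj_iff).mp he
  · ext v
    rw [mem_image, List.mem_toFinset]
    constructor
    · rintro ⟨i, hi, rfl⟩
      rw [mem_range] at hi
      rw [List.getD_eq_getElem _ _ hi]
      exact List.getElem_mem hi
    · intro hv
      obtain ⟨i, hi, rfl⟩ := List.getElem_of_mem hv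
      exact ⟨i, mem_range.mpr hi, by rw [List.getD_eq_getElem _ _ hi]⟩

theorem mxu_hyp {n : ℕ} {E D : List (ℕ × ℕ)} {W : List ℕ} (q : ℕ × Bool) (hq : q.1 < W.length) :
    hyp (W.map fun v => (SL n E D v, SL n E D v)) q = (SL n E D (W.getD q.1 0)).toFinset := by
  have h1 : (W.map fun v => (SL n E D v, SL n E D v)).getD q.1 ([], []) =
      (SL n E D (W.getD q.1 0), SL n E D (W.getD q.1 0)) := by
    rw [List.getD_eq_getElem _ _ (by rw [List.length_map]; exact hq), List.getElem_map,
      List.getD_eq_getElem _ _ hq]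
  unfold hyp f1 f2
  rw [h1]
  split <;> rfl

theorem mxu_iff {n : ℕ} {E D : List (ℕ × ℕ)} (hE : Good n E) (hD : Good n D)
    (hs : ∀ e ∈ D, e ∈ E) (hB : MaxSp (toE E) (toE D)) {W : List ℕ} (hW : W.Nodup)
    {U : Finset ℕ} (hU : U ⊆ range W.length) :
    HInd (W.map fun v => (SL n E D v, SL n E D v)) U ↔
      G1 ((toE D).image (body (toE E) (toE D) n)) (U.image fun i => W.getD i 0) := by
  classical
  obtain ⟨hinj, _⟩ := mxu_vtx hW
  have hcard : ∀ A' ⊆ U, (A'.image fun i => W.getD i 0).card = A'.card := by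
    intro A' hA'
    apply card_image_of_injOn
    intro i hi j hj he
    exact hinj (hU (hA' hi)) (hU (hA' hj)) he
  have hun : ∀ (X : Finset (ℕ × Bool)), (∀ q ∈ X, q.1 ∈ U) →
      X.biUnion (hyp (W.map fun v => (SL n E D v, SL n E D v))) =
        ((X.image Prod.fst).image fun i => W.getD i 0).biUnion fun v => (SL n E D v).toFinset := by
    intro X hX
    ext i
    simp only [mem_biUnion, mem_image]
    constructor
    · rintro ⟨q, hq, hi⟩
      rw [mxu_hyp q (mem_range.mp (hU (hX q hq)))] at hi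
      exact ⟨W.getD q.1 0, ⟨q.1, ⟨q, hq, rfl⟩, rfl⟩, hi⟩
    · rintro ⟨v, ⟨j, ⟨q, hq, rfl⟩, rfl⟩, hi⟩
      refine ⟨q, hq, ?_⟩
      rw [mxu_hyp q (mem_range.mp (hU (hX q hq)))]
      exact hi
  constructor
  · intro h A hA hne
    have h1 : ∃ A' ⊆ U, A = A'.image fun i => W.getD i 0 := by
      obtain ⟨A', hA', he⟩ := subset_image_iff.mp hA
      exact ⟨A', hA', he.symm⟩
    obtain ⟨A', hA', rfl⟩ := h1
    have h2 : (A' ×ˢ (univ : Finset Bool)).image Prod.fst = A' := by
      ext i
      simp [mem_image]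
    have h3 := h (A' ×ˢ (univ : Finset Bool)) (by
      obtain ⟨v, hv⟩ := hne
      rw [mem_image] at hv
      obtain ⟨i, hi, _⟩ := hv
      exact ⟨(i, true), by simp [hi]⟩) (fun q hq => hA' (mem_product.mp hq).1)
    rw [hun _ (fun q hq => hA' (mem_product.mp hq).1), h2, mxu_card hE hD hs hB, card_product,
      card_univ, Fintype.card_bool] at h3
    rw [hcard A' hA']
    omega
  · intro h X hX hXU
    have hA' : X.image Prod.fst ⊆ U := by
      intro i hi
      rw [mem_image] at hi
      obtain ⟨q, hq, rfl⟩ := hi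
      exact hXU q hq
    have h3 := h ((X.image Prod.fst).image fun i => W.getD i 0) (image_subset_image hA')
      ((hX.image _).image _)
    rw [hun X hXU, mxu_card hE hD hs hB]
    rw [hcard _ hA'] at h3
    have h4 : X ⊆ (X.image Prod.fst) ×ˢ (univ : Finset Bool) := by
      intro q hq
      rw [mem_product]
      exact ⟨mem_image_of_mem _ hq, mem_univ _⟩
    have h5 := card_le_card h4
    rw [card_product, card_univ, Fintype.card_bool] at h5
    omega

theorem maxUL_spec {n : ℕ} {E D : List (ℕ × ℕ)} (hE : Good n E) (hD : Good n D)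
    (hs : ∀ e ∈ D, e ∈ E) (hB : MaxSp (toE E) (toE D)) {W : List ℕ} (hW : W.Nodup)
    (hWn : ∀ v ∈ W, v < n) :
    IsGreatest {k | ∃ U, U ⊆ W.toFinset ∧
      G1 ((toE D).image (body (toE E) (toE D) n)) U ∧ U.card = k} (maxUL n E D W) := by
  classical
  obtain ⟨hinj, him⟩ := mxu_vtx hW
  have h1 := nuAlg_spec (W.map fun v => (SL n E D v, SL n E D v))
  rw [List.length_map] at h1
  have h2 : {k | ∃ U, U ⊆ W.toFinset ∧
      G1 ((toE D).image (body (toE E) (toE D) n)) U ∧ U.card = k} =
      {k | ∃ U : Finset ℕ, U ⊆ range W.length ∧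
        HInd (W.map fun v => (SL n E D v, SL n E D v)) U ∧ U.card = k} := by
    ext k
    simp only [Set.mem_ofPred_eq]
    constructor
    · rintro ⟨U, hU, hG, rfl⟩
      rw [← him] at hU
      obtain ⟨U', hU', rfl⟩ := subset_image_iff.mp hU
      refine ⟨U', hU', (mxu_iff hE hD hs hB hW hU').mpr hG, ?_⟩
      symm
      apply card_image_of_injOn
      intro i hi j hj he
      exact hinj (hU' hi) (hU' hj) he
    · rintro ⟨U', hU', hH, rfl⟩
      refine ⟨U'.image fun i => W.getD i 0, ?_, (mxu_iff hE hD hs hB hW hU').mp hH, ?_⟩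
      · rw [← him]
        exact image_subset_image hU'
      · apply card_image_of_injOn
        intro i hi j hj he
        exact hinj (hU' hi) (hU' hj) he
  rw [h2]
  exact h1

theorem maxUL_eq {n : ℕ} {E D : List (ℕ × ℕ)} (hE : Good n E) (hD : Good n D)
    (hs : ∀ e ∈ D, e ∈ E) (hB : MaxSp (toE E) (toE D)) {W : List ℕ} (hW : W.Nodup)
    (hWn : ∀ v ∈ W, v < n) : maxUL n E D W = W.length ↔
      G1 ((toE D).image (body (toE E) (toE D) n)) W.toFinset := by
  obtain ⟨⟨U, hU, hG, hc⟩, hmax⟩ := maxUL_spec hE hD hs hB hW hWn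
  have hl : W.toFinset.card = W.length := List.toFinset_card_of_nodup hW
  constructor
  · intro h
    have h1 : U = W.toFinset := eq_of_subset_of_card_le hU (by rw [hl, ← h, hc])
    rw [← h1]
    exact hG
  · intro h
    have h1 := hmax ⟨W.toFinset, Subset.rfl, h, hl⟩
    have h2 := card_le_card hU
    omega

end Pool.Agent.Lib.MP_5d015b_lc
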