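import Pool.Agent.Lib.MP_5d015b_lc.LB
import Pool.Agent.Lib.MP_5d015b_lc.BDY
import Pool.Agent.Lib.MP_5d015b_lc.BSL
import Pool.Agent.Lib.MP_5d015b_lc.MXU
import Pool.Agent.Lib.MP_5d015b_lc.FRC
import Pool.Agent.Lib.MP_5d015b_lc.LRG

/-!
# The minimum number of pins, if at least four are allowed
-/

set_option autoImplicit false
set_option linter.unusedSectionVars false

namespace Pool.Agent.Lib.MP_5d015b_lc

open Pool.Agent.Lib.Parity

theorem largeL_spec {n : ℕ} {E : List (ℕ × ℕ)} (hE : Good n E) (h4 : 4 ≤ n) {k : ℕ}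
    (hk : 4 ≤ k) : (∃ P, P ⊆ Finset.range n ∧ P.card ≤ k ∧
      GR (Finset.range n) (toE E ∪ clique P)) ↔ largeL n E (baseL E) ≤ k := by
  obtain ⟨hD, hs, hB⟩ := baseL_spec hE
  set D := baseL E with hDdef
  have hG := isGraph_toE hE
  have hX := bodies_spec hG hB (n := n) (by simp)
  obtain ⟨f1, f2, f3⟩ := forcedL_spec hE hD hs hB
  rw [large hG hB hX f1 f2 f3 (by simpa using h4) hk]
  set Wl := (List.range n).filter fun v => !((forcedL n E D).contains v) with hWl
  have hWn : Wl.Nodup := List.Nodup.filter _ List.nodup_range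
  have hWlt : ∀ v ∈ Wl, v < n := by
    intro v hv
    rw [hWl, List.mem_filter, List.mem_range] at hv
    exact hv.1
  have hWf : Wl.toFinset = Finset.range n \ (forcedL n E D).toFinset := by
    ext v
    rw [hWl]
    simp only [List.mem_toFinset, List.mem_filter, List.mem_range, Bool.not_eq_true',
      Finset.mem_sdiff, Finset.mem_range, List.contains_iff_mem, ← Bool.not_eq_true]
  obtain ⟨g1, g2⟩ := maxUL_spec hE hD hs hB hWn hWlt
  have hl : largeL n E D = n - maxUL n E D Wl := rfl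
  rw [hl, ← hWf, Finset.card_range]
  constructor
  · rintro ⟨U, hU, hG1, hc⟩
    have := g2 ⟨U, hU, hG1, rfl⟩
    omega
  · intro h
    obtain ⟨U, hU, hG1, hc⟩ := g1
    exact ⟨U, hU, hG1, by omega⟩

end Pool.Agent.Lib.MP_5d015b_lc
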