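import Pool.Agent.Lib.MP_5d015b_lc.FinDefs
import Pool.Agent.Lib.MP_5d015b_lc.MXU

/-!
# A maximum set with property (1) by deletion of vertices
-/

set_option autoImplicit false
set_option linter.unusedSectionVars false

namespace Pool.Agent.Lib.MP_5d015b_lc

open Pool.Agent.Lib.Parity Finset

/-- one step of the deletion -/
def srStep (n : ℕ) (E D : List (ℕ × ℕ)) (M : ℕ) (X : List ℕ) (v : ℕ) : List ℕ :=
  if maxUL n E D (X.filter fun u => decide (u ≠ v)) = M
    then X.filter fun u => decide (u ≠ v) else X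

theorem srStep_sub (n : ℕ) (E D : List (ℕ × ℕ)) (M : ℕ) (X : List ℕ) (v : ℕ) :
    ∀ u ∈ srStep n E D M X v, u ∈ X := by
  intro u hu
  unfold srStep at hu
  split_ifs at hu
  · exact (List.mem_filter.1 hu).1
  · exact hu

theorem srFold_sub (n : ℕ) (E D : List (ℕ × ℕ)) (M : ℕ) (L : List ℕ) : ∀ X : List ℕ,
    ∀ u ∈ L.foldl (srStep n E D M) X, u ∈ X := by
  induction L with
  | nil => intro X u hu; exact hu
  | cons a L ih =>
    intro X u hu
    rw [List.foldl_cons] at hu
    exact srStep_sub n E D M X a u (ih _ u hu)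

theorem srFold_nodup (n : ℕ) (E D : List (ℕ × ℕ)) (M : ℕ) (L : List ℕ) : ∀ X : List ℕ,
    X.Nodup → (L.foldl (srStep n E D M) X).Nodup := by
  induction L with
  | nil => intro X hX; exact hX
  | cons a L ih =>
    intro X hX
    rw [List.foldl_cons]
    refine ih _ ?_
    unfold srStep
    split_ifs
    · exact hX.filter _
    · exact hX

theorem srFold_max (n : ℕ) (E D : List (ℕ × ℕ)) (M : ℕ) (L : List ℕ) : ∀ X : List ℕ,
    maxUL n E D X = M → maxUL n E D (L.foldl (srStep n E D M) X) = M := by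
  induction L with
  | nil => intro X hX; exact hX
  | cons a L ih =>
    intro X hX
    rw [List.foldl_cons]
    refine ih _ ?_
    unfold srStep
    split_ifs with h
    · exact h
    · exact hX

theorem sr_maxUL_mono {n : ℕ} {E D : List (ℕ × ℕ)} (hE : Good n E) (hD : Good n D)
    (hs : ∀ e ∈ D, e ∈ E) (hB : MaxSp (toE E) (toE D)) {X Y : List ℕ} (hX : X.Nodup)
    (hY : Y.Nodup) (hYn : ∀ v ∈ Y, v < n) (h : ∀ v ∈ X, v ∈ Y) :
    maxUL n E D X ≤ maxUL n E D Y := by
  obtain ⟨⟨U, h1, h2, h3⟩, _⟩ := maxUL_spec hE hD hs hB hX fun v hv => hYn v (h v hv)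
  refine (maxUL_spec hE hD hs hB hY hYn).2 ⟨U, fun v hv => ?_, h2, h3⟩
  exact List.mem_toFinset.2 (h v (List.mem_toFinset.1 (h1 hv)))

theorem srFold_min {n : ℕ} {E D : List (ℕ × ℕ)} (hE : Good n E) (hD : Good n D)
    (hs : ∀ e ∈ D, e ∈ E) (hB : MaxSp (toE E) (toE D)) (M : ℕ) (L : List ℕ) : ∀ X : List ℕ,
    X.Nodup → (∀ v ∈ X, v < n) → maxUL n E D X = M →
    ∀ v ∈ L, v ∈ L.foldl (srStep n E D M) X →
      maxUL n E D ((L.foldl (srStep n E D M) X).filter fun u => decide (u ≠ v)) ≠ M := by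
  induction L with
  | nil => intro X _ _ _ v hv; simp at hv
  | cons a L ih =>
    intro X hX hn hM v hv hvR
    rw [List.foldl_cons] at hvR ⊢
    have hX' : (srStep n E D M X a).Nodup := by
      have := srFold_nodup n E D M [a] X hX
      simpa using this
    have hn' : ∀ v ∈ srStep n E D M X a, v < n := fun v hv => hn v (srStep_sub n E D M X a v hv)
    have hM' : maxUL n E D (srStep n E D M X a) = M := by
      have := srFold_max n E D M [a] X hM
      simpa using this
    rcases List.mem_cons.1 hv with rfl | hvL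
    · -- `v` stays in the list
      have hvS := srFold_sub n E D M L _ v hvR
      have hS : srStep n E D M X v = X ∧ maxUL n E D (X.filter fun u => decide (u ≠ v)) ≠ M := by
        unfold srStep at hvS ⊢
        split_ifs at hvS ⊢ with h
        · exact absurd hvS (by simp)
        · exact ⟨rfl, h⟩
      rw [hS.1]
      have hsub : ∀ u ∈ ((L.foldl (srStep n E D M) X).filter fun u => decide (u ≠ v)),
          u ∈ X.filter fun u => decide (u ≠ v) := by
        intro u hu
        rw [List.mem_filter] at hu ⊢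
        exact ⟨srFold_sub n E D M L X u hu.1, hu.2⟩
      have h1 := sr_maxUL_mono hE hD hs hB
        ((srFold_nodup n E D M L X hX).filter fun u => decide (u ≠ v))
        (hX.filter fun u => decide (u ≠ v))
        (fun u hu => hn u (List.mem_filter.1 hu).1) hsub
      have h2 := sr_maxUL_mono hE hD hs hB (hX.filter fun u => decide (u ≠ v)) hX hn
        (fun u hu => (List.mem_filter.1 hu).1)
      have h3 := hS.2
      omega
    · exact ih _ hX' hn' hM' v hvL hvR

theorem shrinkL_spec {n : ℕ} {E D : List (ℕ × ℕ)} (hE : Good n E) (hD : Good n D)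
    (hs : ∀ e ∈ D, e ∈ E) (hB : MaxSp (toE E) (toE D)) {W : List ℕ} (hW : W.Nodup)
    (hWn : ∀ v ∈ W, v < n) :
    (shrinkL n E D W).Nodup ∧ (∀ v ∈ shrinkL n E D W, v ∈ W) ∧
      G1 ((toE D).image (body (toE E) (toE D) n)) (shrinkL n E D W).toFinset ∧
      (shrinkL n E D W).length = maxUL n E D W := by
  have he : shrinkL n E D W = W.foldl (srStep n E D (maxUL n E D W)) W := rfl
  rw [he]
  obtain ⟨M, hM⟩ : ∃ M, maxUL n E D W = M := ⟨_, rfl⟩
  rw [hM]
  obtain ⟨R, hR⟩ : ∃ R, W.foldl (srStep n E D M) W = R := ⟨_, rfl⟩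
  rw [hR]
  have hnd : R.Nodup := hR ▸ srFold_nodup n E D M W W hW
  have hsub : ∀ v ∈ R, v ∈ W := hR ▸ srFold_sub n E D M W W
  have hmax : maxUL n E D R = M := hR ▸ srFold_max n E D M W W hM
  have hmin : ∀ v ∈ W, v ∈ R → maxUL n E D (R.filter fun u => decide (u ≠ v)) ≠ M :=
    hR ▸ srFold_min hE hD hs hB M W W hW hWn hM
  have hRn : ∀ v ∈ R, v < n := fun v hv => hWn v (hsub v hv)
  obtain ⟨⟨U, h1, h2, h3⟩, _⟩ := maxUL_spec hE hD hs hB hnd hRn
  have hUR : U = R.toFinset := by
    refine Finset.Subset.antisymm h1 ?_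
    intro v hv
    by_contra hvU
    have hvR := List.mem_toFinset.1 hv
    refine hmin v (hsub v hvR) hvR ?_
    refine le_antisymm ?_ ?_
    · rw [← hmax]
      exact sr_maxUL_mono hE hD hs hB (hnd.filter fun u => decide (u ≠ v)) hnd hRn
        fun u hu => (List.mem_filter.1 hu).1
    · rw [← hmax]
      refine (maxUL_spec hE hD hs hB (hnd.filter fun u => decide (u ≠ v))
        (fun u hu => hRn u (List.mem_filter.1 hu).1)).2 ⟨U, ?_, h2, h3⟩
      intro u hu
      rw [List.mem_toFinset, List.mem_filter]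
      refine ⟨List.mem_toFinset.1 (h1 hu), ?_⟩
      rw [decide_eq_true_eq]
      rintro rfl
      exact hvU hu
  refine ⟨hnd, hsub, ?_, ?_⟩
  · rw [← hUR]
    exact h2
  · rw [← hmax, ← h3, hUR, List.toFinset_card_of_nodup hnd]

end Pool.Agent.Lib.MP_5d015b_lc
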