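import Pool.Agent.Lib.MP_5d015b_lc.FinDefs
import Pool.Agent.Lib.MP_5d015b_lc.SR1
import Pool.Agent.Lib.MP_5d015b_lc.MPN
import Pool.Agent.Lib.MP_5d015b_lc.LGL
import Pool.Agent.Lib.MP_5d015b_lc.FRC
import Pool.Agent.Lib.MP_5d015b_lc.THA
import Pool.Agent.Lib.MP_5d015b_lc.THB
import Pool.Agent.Lib.MP_5d015b_lc.BDY

/-!
# An optimal set of pins
-/

set_option autoImplicit false
set_option linter.unusedSectionVars false

namespace Pool.Agent.Lib.MP_5d015b_lc

open Pool.Agent.Lib.Parity Finset

/-! ## complements -/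

theorem mem_complL {n : ℕ} {X : List ℕ} {v : ℕ} : v ∈ complL n X ↔ v < n ∧ v ∉ X := by
  unfold complL
  simp only [List.mem_filter, List.mem_range, Bool.not_eq_true', ← Bool.not_eq_true,
    List.contains_iff_mem]

theorem nodup_complL (n : ℕ) (X : List ℕ) : (complL n X).Nodup := List.nodup_range.filter _

theorem nodup_append_complL {n : ℕ} {X : List ℕ} (hX : X.Nodup) : (X ++ complL n X).Nodup := by
  rw [List.nodup_append']
  refine ⟨hX, nodup_complL n X, ?_⟩
  intro v hv hv'
  exact (mem_complL.1 hv').2 hv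

theorem length_append_complL {n : ℕ} {X : List ℕ} (hX : X.Nodup) (hn : ∀ v ∈ X, v < n) :
    (X ++ complL n X).length = n := by
  rw [← List.toFinset_card_of_nodup (nodup_append_complL hX)]
  have : (X ++ complL n X).toFinset = Finset.range n := by
    ext v
    rw [List.mem_toFinset, List.mem_append, mem_complL, Finset.mem_range]
    constructor
    · rintro (h | h)
      · exact hn v h
      · exact h.1
    · intro h
      by_cases hv : v ∈ X
      · exact Or.inl hv
      · exact Or.inr ⟨h, hv⟩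
  rw [this, Finset.card_range]

theorem length_complL {n : ℕ} {X : List ℕ} (hX : X.Nodup) (hn : ∀ v ∈ X, v < n) :
    X.length + (complL n X).length = n := by
  rw [← List.length_append]
  exact length_append_complL hX hn

theorem G1.mono {V : Type*} [DecidableEq V] {XX : Finset (Finset V)} {U U' : Finset V}
    (h : G1 XX U) (hs : U' ⊆ U) : G1 XX U' := fun A hA hne => h A (hA.trans hs) hne

/-! ## the large case -/

theorem pinLargeL_spec {n : ℕ} {E : List (ℕ × ℕ)} (hE : Good n E) (h4 : 4 ≤ n) :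
    (pinLargeL n E (baseL E)).Nodup ∧ (∀ v ∈ pinLargeL n E (baseL E), v < n) ∧
      (pinLargeL n E (baseL E)).length = max 4 (largeL n E (baseL E)) ∧
      GR (Finset.range n) (toE E ∪ clique (pinLargeL n E (baseL E)).toFinset) := by
  obtain ⟨hD, hs, hB⟩ := baseL_spec hE
  obtain ⟨D, hDD⟩ : ∃ D, baseL E = D := ⟨_, rfl⟩
  rw [hDD] at hD hs hB ⊢
  have hG := isGraph_toE hE
  have hX := bodies_spec hG hB (n := n) (by simp)
  obtain ⟨f1, f2, -⟩ := forcedL_spec hE hD hs hB
  obtain ⟨s1, s2, s3, s4⟩ := shrinkL_spec hE hD hs hB (nodup_complL n (forcedL n E D))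
    (fun v hv => (mem_complL.1 hv).1)
  have hl : largeL n E D = n - maxUL n E D (complL n (forcedL n E D)) := rfl
  rw [← s4] at hl
  have hQ : pinLargeL n E D = (complL n (shrinkL n E D (complL n (forcedL n E D))) ++
    complL n (complL n (shrinkL n E D (complL n (forcedL n E D))))).take
      (max 4 (complL n (shrinkL n E D (complL n (forcedL n E D)))).length) := rfl
  generalize shrinkL n E D (complL n (forcedL n E D)) = U at s1 s2 s3 s4 hl hQ
  generalize hF : forcedL n E D = F at f1 f2 s2 hl hQ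
  have hUn : ∀ v ∈ U, v < n := fun v hv => (mem_complL.1 (s2 v hv)).1
  have hPlen := length_complL s1 hUn
  have hPn : ∀ v ∈ complL n U, v < n := fun v hv => (mem_complL.1 hv).1
  have hPnd := nodup_complL n U
  have hPl : (complL n U).length = largeL n E D := by omega
  rw [← hPl]
  have hUc : ∀ v < n, v ∉ complL n U → v ∈ U := by
    intro v hv h
    by_contra hvU
    exact h (mem_complL.2 ⟨hv, hvU⟩)
  have hFU : ∀ v ∈ F, v ∉ U := fun v hv hvU => (mem_complL.1 (s2 v hvU)).2 hv
  have hFP : ∀ v ∈ F, v ∈ complL n U := by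
    intro v hv
    refine mem_complL.2 ⟨?_, hFU v hv⟩
    exact Finset.mem_range.1 (f1 (List.mem_toFinset.2 hv))
  generalize complL n U = P at hQ hPlen hPn hPnd hPl hUc hFP
  have hlen := length_append_complL hPnd hPn
  have hPn' : P.length ≤ n := by omega
  have hm : max 4 P.length ≤ n := max_le h4 hPn'
  have hnd : (pinLargeL n E D).Nodup := by
    rw [hQ]
    exact (nodup_append_complL hPnd).sublist (List.take_sublist _ _)
  have hlt : ∀ v ∈ pinLargeL n E D, v < n := by
    intro v hv
    rw [hQ] at hv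
    have := List.mem_of_mem_take hv
    rcases List.mem_append.1 this with h | h
    · exact hPn v h
    · exact (mem_complL.1 h).1
  have hlen' : (pinLargeL n E D).length = max 4 P.length := by
    rw [hQ, List.length_take, hlen]
    exact min_eq_left hm
  have hPQ : ∀ v ∈ P, v ∈ pinLargeL n E D := by
    intro v hv
    rw [hQ, List.take_append]
    refine List.mem_append_left _ ?_
    rw [List.take_of_length_le (le_max_right _ _)]
    exact hv
  generalize pinLargeL n E D = Q at hQ hnd hlt hlen' hPQ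
  refine ⟨hnd, hlt, hlen', Or.inr ?_⟩
  have hQr : Q.toFinset ⊆ Finset.range n := fun v hv =>
    Finset.mem_range.2 (hlt v (List.mem_toFinset.1 hv))
  have hQ4 : 4 ≤ Q.toFinset.card := by
    rw [List.toFinset_card_of_nodup hnd, hlen']
    exact le_max_left _ _
  have hg1 : G1 ((toE D).image (body (toE E) (toE D) n)) (Finset.range n \ Q.toFinset) := by
    refine G1.mono s3 ?_
    intro v hv
    rw [Finset.mem_sdiff, Finset.mem_range, List.mem_toFinset] at hv
    exact List.mem_toFinset.2 (hUc v hv.1 fun h => hv.2 (hPQ v h))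
  have hg2 : G2 (toE E) (Finset.range n \ Q.toFinset) := by
    intro A hA hne
    by_contra hcon
    refine f2 A ⟨?_, hne, by omega, G1.mono hg1 hA⟩
    intro v hv
    have := hA hv
    rw [Finset.mem_sdiff, List.mem_toFinset] at this ⊢
    exact ⟨this.1, fun h => this.2 (hPQ v (hFP v h))⟩
  exact ⟨conn3_of_feas hG hQr hQ4 hg2, redRigid_of_feas hG hB hX hQr hQ4 hg1⟩

/-! ## the small cases -/

theorem mem_find2 {n : ℕ} {el : List (ℕ × ℕ)} {L : List ℕ} : L ∈ find2 n el ↔
    ∃ u v, u < v ∧ v < n ∧ grL n (edgesL n ((u, v) :: el)) = true ∧ L = [u, v] := by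
  unfold find2
  simp only [List.mem_flatMap, List.mem_range, List.mem_map, List.mem_filter, Bool.and_eq_true,
    decide_eq_true_eq]
  constructor
  · rintro ⟨u, hu, v, ⟨hv, huv, h⟩, rfl⟩
    exact ⟨u, v, huv, hv, h, rfl⟩
  · rintro ⟨u, v, huv, hv, h, rfl⟩
    exact ⟨u, huv.trans hv, v, ⟨hv, huv, h⟩, rfl⟩

theorem mem_find3 {n : ℕ} {el : List (ℕ × ℕ)} {L : List ℕ} : L ∈ find3 n el ↔
    ∃ u v w, u < v ∧ v < w ∧ w < n ∧
      grL n (edgesL n ((u, v) :: (u, w) :: (v, w) :: el)) = true ∧ L = [u, v, w] := by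
  unfold find3
  simp only [List.mem_flatMap, List.mem_range, List.mem_map, List.mem_filter, Bool.and_eq_true,
    decide_eq_true_eq]
  constructor
  · rintro ⟨u, hu, v, hv, w, ⟨hw, huv, hvw, h⟩, rfl⟩
    exact ⟨u, v, w, huv, hvw, hw, h, rfl⟩
  · rintro ⟨u, v, w, huv, hvw, hw, h, rfl⟩
    exact ⟨u, (huv.trans hvw).trans hw, v, hvw.trans hw, w, ⟨hw, huv, hvw, h⟩, rfl⟩

theorem sr_ne_nil {α : Type} (l : List α) : l ≠ [] ↔ ∃ x, x ∈ l := by
  cases l with
  | nil => simp
  | cons a l => simp only [ne_eq, reduceCtorEq, not_false_eq_true, true_iff]; exact ⟨a, List.mem_cons_self⟩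

theorem pin2_iff (n : ℕ) (el : List (ℕ × ℕ)) : pin2 n el = true ↔ find2 n el ≠ [] := by
  rw [sr_ne_nil]
  unfold pin2
  simp only [List.any_eq_true, List.mem_range, Bool.and_eq_true, decide_eq_true_eq, mem_find2]
  constructor
  · rintro ⟨u, hu, v, hv, huv, h⟩
    exact ⟨_, u, v, huv, hv, h, rfl⟩
  · rintro ⟨_, u, v, huv, hv, h, rfl⟩
    exact ⟨u, huv.trans hv, v, hv, huv, h⟩

theorem pin3_iff (n : ℕ) (el : List (ℕ × ℕ)) : pin3 n el = true ↔ find3 n el ≠ [] := by
  rw [sr_ne_nil]
  unfold pin3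
  simp only [List.any_eq_true, List.mem_range, Bool.and_eq_true, decide_eq_true_eq, mem_find3]
  constructor
  · rintro ⟨u, hu, v, hv, w, hw, huv, hvw, h⟩
    exact ⟨_, u, v, w, huv, hvw, hw, h, rfl⟩
  · rintro ⟨_, u, v, w, huv, hvw, hw, h, rfl⟩
    exact ⟨u, (huv.trans hvw).trans hw, v, hvw.trans hw, w, hw, huv, hvw, h⟩

theorem pinSet_spec (G : ℕ × List (ℕ × ℕ)) : (pinSet G).Nodup ∧ (∀ v ∈ pinSet G, v < G.1) ∧
    (pinSet G).length = minPin G ∧
    GR (Finset.range G.1) (toE (edgesL G.1 G.2) ∪ clique (pinSet G).toFinset) := by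
  obtain ⟨n, el⟩ := G
  unfold pinSet minPin
  simp only
  have hE := good_edgesL n el
  by_cases h0 : grL n (edgesL n el) = true
  · rw [if_pos h0, if_pos h0]
    refine ⟨List.nodup_nil, by simp, rfl, ?_⟩
    rw [clique_small (by simp), Finset.union_empty]
    exact (grL_spec hE).1 h0
  rw [if_neg h0, if_neg h0]
  by_cases h2 : pin2 n el = true
  · rw [if_pos h2]
    have h2' := (pin2_iff n el).1 h2
    obtain ⟨L, T, hLT⟩ := List.exists_cons_of_ne_nil h2'
    have hL : L ∈ find2 n el := by rw [hLT]; exact List.mem_cons_self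
    obtain ⟨u, v, huv, hv, h, rfl⟩ := mem_find2.1 hL
    rw [hLT, List.cons_append, List.headD_cons]
    refine ⟨by simp [huv.ne], ?_, rfl, ?_⟩
    · intro x hx
      simp only [List.mem_cons, List.not_mem_nil, or_false] at hx
      rcases hx with rfl | rfl
      · exact huv.trans hv
      · exact hv
    · have h' := (grL_spec (good_edgesL _ _)).1 h
      rw [toE_pair n el huv hv] at h'
      simpa using h'
  rw [if_neg h2]
  have hf2 : find2 n el = [] := by
    by_contra hcon
    exact h2 ((pin2_iff n el).2 hcon)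
  rw [hf2, List.nil_append]
  by_cases h3 : pin3 n el = true
  · rw [if_pos h3]
    have h3' := (pin3_iff n el).1 h3
    obtain ⟨L, T, hLT⟩ := List.exists_cons_of_ne_nil h3'
    have hL : L ∈ find3 n el := by rw [hLT]; exact List.mem_cons_self
    obtain ⟨u, v, w, huv, hvw, hw, h, rfl⟩ := mem_find3.1 hL
    rw [hLT, List.headD_cons]
    refine ⟨by simp [huv.ne, hvw.ne, (huv.trans hvw).ne], ?_, rfl, ?_⟩
    · intro x hx
      simp only [List.mem_cons, List.not_mem_nil, or_false] at hx
      rcases hx with rfl | rfl | rfl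
      · exact (huv.trans hvw).trans hw
      · exact hvw.trans hw
      · exact hw
    · have h' := (grL_spec (good_edgesL _ _)).1 h
      rw [toE_triple n el huv hvw hw] at h'
      simpa using h'
  rw [if_neg h3]
  have hf3 : find3 n el = [] := by
    by_contra hcon
    exact h3 ((pin3_iff n el).2 hcon)
  rw [hf3, List.headD_nil]
  have hn : 4 ≤ n := by
    by_contra hcon
    have hall := gr_all (n := n) (by omega) (toE (edgesL n el))
    rcases Nat.lt_or_ge n 2 with h | h
    · rw [clique_small (by rw [Finset.card_range]; omega), Finset.union_empty] at hall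
      exact h0 ((grL_spec hE).2 hall)
    rcases Nat.lt_or_ge n 3 with h' | h'
    · exact h2 ((pin2_spec n el).2 ⟨_, Finset.Subset.refl _, by rw [Finset.card_range]; omega,
        hall⟩)
    · exact h3 ((pin3_spec n el).2 ⟨_, Finset.Subset.refl _, by rw [Finset.card_range]; omega,
        hall⟩)
  exact pinLargeL_spec hE hn

end Pool.Agent.Lib.MP_5d015b_lc
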