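import Pool.Agent.Lib.MP_5d015b_lc.FinDefs
import Pool.Agent.Lib.MP_5d015b_lc.SR2
import Pool.Agent.Lib.MP_5d015b_lc.MPN
import Pool.Agent.Lib.MP_5d015b_lc.FG0
import Pool.Agent.Lib.MP_5d015b_lc.FG3

/-!
# The minimum number of pins, for simple graphs
-/

set_option autoImplicit false
set_option linter.unusedSectionVars false

namespace Pool.Agent.Lib.MP_5d015b_lc

open Pool.Agent.Lib.Parity Finset

/-- pins as a set of numbers -/
theorem fgf_iff (n : ℕ) (el : List (ℕ × ℕ)) (P : Finset (Fin n)) :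
    GloballyRigidPlane (addClique (graphOf n el) P) ↔
      GR (Finset.range n) (toE (edgesL n el) ∪ clique (P.image Fin.val)) := by
  rw [globallyRigidPlane_iff, eset_addClique]

/-- the preimage of a set of numbers below `n` -/
theorem fgf_exists {n : ℕ} {Q : Finset ℕ} (hQ : Q ⊆ Finset.range n) :
    ∃ P : Finset (Fin n), Q = P.image Fin.val ∧ P.card = Q.card := by
  refine ⟨Finset.univ.filter fun v : Fin n => (v : ℕ) ∈ Q, ?_, ?_⟩
  · ext v
    rw [Finset.mem_image]
    constructor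
    · intro hv
      exact ⟨⟨v, Finset.mem_range.1 (hQ hv)⟩, by simpa using hv, rfl⟩
    · rintro ⟨a, ha, rfl⟩
      simpa using ha
  · rw [← Finset.card_image_of_injective _ Fin.val_injective]
    congr 1
    ext v
    rw [Finset.mem_image]
    constructor
    · rintro ⟨a, ha, rfl⟩
      simpa using ha
    · intro hv
      exact ⟨⟨v, Finset.mem_range.1 (hQ hv)⟩, by simpa using hv, rfl⟩

theorem minPin_graph (n : ℕ) (el : List (ℕ × ℕ)) :
    IsLeast {k | ∃ P : Finset (Fin n), P.card = k ∧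
      GloballyRigidPlane (addClique (graphOf n el) P)} (minPin (n, el)) := by
  obtain ⟨⟨Q, h1, h2, h3⟩, h4⟩ := minPin_spec (n, el)
  constructor
  · obtain ⟨P, hP, hc⟩ := fgf_exists h1
    refine ⟨P, hc.trans h2, (fgf_iff n el P).2 ?_⟩
    rw [← hP]
    exact h3
  · rintro k ⟨P, hc, h⟩
    refine h4 ⟨P.image Fin.val, ?_, ?_, (fgf_iff n el P).1 h⟩
    · intro v hv
      obtain ⟨a, _, rfl⟩ := Finset.mem_image.1 hv
      exact Finset.mem_range.2 a.2
    · rw [Finset.card_image_of_injective _ Fin.val_injective, hc]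

theorem pinSet_graph (n : ℕ) (el : List (ℕ × ℕ)) :
    ∃ P : Finset (Fin n), (pinSet (n, el)).Nodup ∧
      (pinSet (n, el)).toFinset = P.image Fin.val ∧ P.card = minPin (n, el) ∧
      GloballyRigidPlane (addClique (graphOf n el) P) := by
  obtain ⟨h1, h2, h3, h4⟩ := pinSet_spec (n, el)
  obtain ⟨P, hP, hc⟩ := fgf_exists (n := n) (Q := (pinSet (n, el)).toFinset) (fun v hv =>
    Finset.mem_range.2 (h2 v (List.mem_toFinset.1 hv)))
  refine ⟨P, h1, hP, ?_, (fgf_iff n el P).2 ?_⟩
  · rw [hc, List.toFinset_card_of_nodup h1, h3]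
  · rw [← hP]
    exact h4

end Pool.Agent.Lib.MP_5d015b_lc
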