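import Pool.Agent.Lib.MP_5d015b_lc.Defs

/-!
# Infinitesimal rigidity in the plane: definitions
-/

set_option autoImplicit false
set_option linter.unusedSectionVars false

namespace Pool.Agent.Lib.MP_5d015b_lc

variable {V : Type*} [DecidableEq V]

/-- infinitesimal motions of a framework -/
def IsMotion (E : Finset (Finset V)) (p m : V → Fin 2 → ℝ) : Prop :=
  ∀ u v, ({u, v} : Finset V) ∈ E →
    (p u 0 - p v 0) * (m u 0 - m v 0) + (p u 1 - p v 1) * (m u 1 - m v 1) = 0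

/-- infinitesimally rigid frameworks: every infinitesimal motion is trivial -/
def InfRigid (W : Finset V) (E : Finset (Finset V)) (p : V → Fin 2 → ℝ) : Prop :=
  ∀ m, IsMotion E p m → ∃ a b c : ℝ, ∀ v ∈ W, m v 0 = a - c * p v 1 ∧ m v 1 = b + c * p v 0

/-- the determinant of three points -/
def det3 (p : V → Fin 2 → ℝ) (u v w : V) : ℝ :=
  (p v 0 - p u 0) * (p w 1 - p u 1) - (p v 1 - p u 1) * (p w 0 - p u 0)

/-- general position -/
def GenPos (W : Finset V) (p : V → Fin 2 → ℝ) : Prop :=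
  (∀ u ∈ W, ∀ v ∈ W, u ≠ v → p u ≠ p v) ∧
    ∀ u ∈ W, ∀ v ∈ W, ∀ w ∈ W, u ≠ v → v ≠ w → u ≠ w → det3 p u v w ≠ 0

end Pool.Agent.Lib.MP_5d015b_lc
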