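import Pool.Agent.Lib.MP_5d015b_lc.Statement
import Pool.Agent.Lib.MP_5d015b_lc.AlgDefs
import Pool.Agent.Lib.MP_5d015b_lc.LamDefs

/-!
# Globally rigid pinning: edge sets of simple graphs, search version of the algorithm
-/

set_option autoImplicit false
set_option linter.unusedSectionVars false

namespace Pool.Agent.Lib.MP_5d015b_lc

open Pool.Agent.Lib.Parity

open Classical in
/-- the edges of a graph as two element sets of numbers -/
noncomputable def eset {n : ℕ} (G : SimpleGraph (Fin n)) : Finset (Finset ℕ) :=
  ((Finset.univ : Finset (Fin n × Fin n)).filter fun q => G.Adj q.1 q.2).image fun q =>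
    {(q.1 : ℕ), (q.2 : ℕ)}

/-- shrink `W` to a maximum set with property (1) -/
def shrinkL (n : ℕ) (E D : List (ℕ × ℕ)) (W : List ℕ) : List ℕ :=
  W.foldl (fun X v => if maxUL n E D (X.filter fun u => decide (u ≠ v)) = maxUL n E D W
    then X.filter fun u => decide (u ≠ v) else X) W

/-- the complement of a list -/
def complL (n : ℕ) (X : List ℕ) : List ℕ := (List.range n).filter fun v => !(X.contains v)

/-- pins in the large case -/
def pinLargeL (n : ℕ) (E D : List (ℕ × ℕ)) : List ℕ :=
  let P := complL n (shrinkL n E D (complL n (forcedL n E D)))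
  (P ++ complL n P).take (max 4 P.length)

/-- the pairs with a property -/
def find2 (n : ℕ) (el : List (ℕ × ℕ)) : List (List ℕ) :=
  (List.range n).flatMap fun u => ((List.range n).filter fun v =>
    decide (u < v) && grL n (edgesL n ((u, v) :: el))).map fun v => [u, v]

/-- the triples with a property -/
def find3 (n : ℕ) (el : List (ℕ × ℕ)) : List (List ℕ) :=
  (List.range n).flatMap fun u => (List.range n).flatMap fun v => ((List.range n).filter fun w =>
    decide (u < v) && (decide (v < w) &&
      grL n (edgesL n ((u, v) :: (u, w) :: (v, w) :: el)))).map fun w => [u, v, w]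

/-- an optimal set of pins -/
def pinSet (G : ℕ × List (ℕ × ℕ)) : List ℕ :=
  if grL G.1 (edgesL G.1 G.2) = true then []
  else (find2 G.1 G.2 ++ find3 G.1 G.2).headD
    (pinLargeL G.1 (edgesL G.1 G.2) (baseL (edgesL G.1 G.2)))

end Pool.Agent.Lib.MP_5d015b_lc
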