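import Pool.Agent.Lib.MP_5d015b_lc.Defs

/-!
# Tight sets (module SP1)
-/

set_option autoImplicit false
set_option linter.unusedSectionVars false

namespace Pool.Agent.Lib.MP_5d015b_lc

variable {V : Type*} [DecidableEq V]

theorem mem_ins {F : Finset (Finset V)} {X e : Finset V} : e ∈ ins F X ↔ e ∈ F ∧ e ⊆ X := by
  simp [ins]

theorem ins_mono_left {F F' : Finset (Finset V)} (h : F' ⊆ F) (X : Finset V) :
    ins F' X ⊆ ins F X := by
  intro e he
  rw [mem_ins] at he ⊢
  exact ⟨h he.1, he.2⟩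

theorem ins_mono_right (F : Finset (Finset V)) {X Z : Finset V} (h : X ⊆ Z) :
    ins F X ⊆ ins F Z := by
  intro e he
  rw [mem_ins] at he ⊢
  exact ⟨he.1, he.2.trans h⟩

theorem Sparse.mono {F F' : Finset (Finset V)} (h : Sparse F) (hs : F' ⊆ F) : Sparse F' := by
  refine ⟨fun e he => h.1 e (hs he), fun X hX => ?_⟩
  have h1 := h.2 X hX
  have h2 := Finset.card_le_card (ins_mono_left hs X)
  omega

theorem ins_inter (F : Finset (Finset V)) (X Z : Finset V) :
    ins F (X ∩ Z) = ins F X ∩ ins F Z := by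
  ext e
  simp only [mem_ins, Finset.mem_inter, Finset.subset_inter_iff]
  tauto

theorem ins_union_sub (F : Finset (Finset V)) (X Z : Finset V) :
    ins F X ∪ ins F Z ⊆ ins F (X ∪ Z) :=
  Finset.union_subset (ins_mono_right F Finset.subset_union_left)
    (ins_mono_right F Finset.subset_union_right)

theorem ins_card_add (F : Finset (Finset V)) (X Z : Finset V) :
    (ins F X).card + (ins F Z).card ≤ (ins F (X ∪ Z)).card + (ins F (X ∩ Z)).card := by
  have h1 := Finset.card_union_add_card_inter (ins F X) (ins F Z)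
  have h2 := Finset.card_le_card (ins_union_sub F X Z)
  rw [ins_inter]
  omega

/-- (T1) -/
theorem tight_union {D : Finset (Finset V)} (hD : Sparse D) {X Z : Finset V} (hX : Tight D X)
    (hZ : Tight D Z) (h : 2 ≤ (X ∩ Z).card) :
    Tight D (X ∪ Z) ∧ Tight D (X ∩ Z) ∧ ins D (X ∪ Z) = ins D X ∪ ins D Z := by
  have h0 := Finset.card_union_add_card_inter X Z
  have h1 := Finset.card_union_add_card_inter (ins D X) (ins D Z)
  have h2 := Finset.card_le_card (ins_union_sub D X Z)
  have h3 : 2 ≤ (X ∪ Z).card :=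
    h.trans (Finset.card_le_card (Finset.inter_subset_left.trans Finset.subset_union_left))
  have h4 := hD.2 _ h
  have h5 := hD.2 _ h3
  have h6 := hX.2
  have h7 := hZ.2
  rw [ins_inter] at h4
  refine ⟨⟨h3, by omega⟩, ⟨h, by rw [ins_inter]; omega⟩, ?_⟩
  exact (Finset.eq_of_subset_of_card_le (ins_union_sub D X Z) (by omega)).symm

theorem ins_disjoint_of_inter {D : Finset (Finset V)} (hD : Sparse D) {X Z : Finset V}
    (h : (X ∩ Z).card ≤ 1) : Disjoint (ins D X) (ins D Z) := by
  rw [Finset.disjoint_left]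
  intro e h1 h2
  rw [mem_ins] at h1 h2
  have h3 := Finset.card_le_card (Finset.subset_inter h1.2 h2.2)
  have h4 := hD.1 e h1.1
  omega

/-- (T2) -/
theorem tight_three {D : Finset (Finset V)} (hD : Sparse D) {X Y Z : Finset V} (hX : Tight D X)
    (hY : Tight D Y) (hZ : Tight D Z) (h1 : (X ∩ Y).card = 1) (h2 : (Y ∩ Z).card = 1)
    (h3 : (X ∩ Z).card = 1) (h : X ∩ Y ∩ Z = ∅) : Tight D (X ∪ Y ∪ Z) := by
  have a1 := Finset.card_union_add_card_inter X Y
  have a2 := Finset.card_union_add_card_inter (X ∪ Y) Z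
  have a3 : (X ∪ Y) ∩ Z = (X ∩ Z) ∪ (Y ∩ Z) := Finset.union_inter_distrib_right X Y Z
  have a4 : Disjoint (X ∩ Z) (Y ∩ Z) := by
    rw [Finset.disjoint_left]
    intro v hv hv'
    simp only [Finset.mem_inter] at hv hv'
    have : v ∈ X ∩ Y ∩ Z := by
      simp only [Finset.mem_inter]
      exact ⟨⟨hv.1, hv'.1⟩, hv.2⟩
    rw [h] at this
    exact absurd this (Finset.notMem_empty v)
  rw [a3, Finset.card_union_of_disjoint a4] at a2
  have d1 : Disjoint (ins D X) (ins D Y) := ins_disjoint_of_inter hD (by omega)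
  have d2 : Disjoint (ins D X ∪ ins D Y) (ins D Z) := by
    rw [Finset.disjoint_union_left]
    exact ⟨ins_disjoint_of_inter hD (by omega), ins_disjoint_of_inter hD (by omega)⟩
  have c1 : (ins D X ∪ ins D Y ∪ ins D Z).card =
      (ins D X).card + (ins D Y).card + (ins D Z).card := by
    rw [Finset.card_union_of_disjoint d2, Finset.card_union_of_disjoint d1]
  have c2 : ins D X ∪ ins D Y ∪ ins D Z ⊆ ins D (X ∪ Y ∪ Z) :=
    (Finset.union_subset_union_left (ins_union_sub D X Y)).trans (ins_union_sub D (X ∪ Y) Z)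
  have c3 := Finset.card_le_card c2
  have b1 : X.card ≤ (X ∪ Y ∪ Z).card :=
    Finset.card_le_card (Finset.subset_union_left.trans Finset.subset_union_left)
  have b0 := hX.1
  have b2 : 2 ≤ (X ∪ Y ∪ Z).card := by omega
  have b3 := hD.2 _ b2
  have e1 := hX.2
  have e2 := hY.2
  have e3 := hZ.2
  refine ⟨b2, ?_⟩
  omega

theorem tight_edge {D : Finset (Finset V)} (hD : Sparse D) {e : Finset V} (he : e ∈ D) :
    Tight D e := by
  have h1 := hD.1 e he
  have h2 := hD.2 e (by omega)
  have h3 : 0 < (ins D e).card :=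
    Finset.card_pos.2 ⟨e, mem_ins.2 ⟨he, Finset.Subset.refl e⟩⟩
  exact ⟨by omega, by omega⟩

/-- every vertex of a tight set is in an edge inside it -/
theorem tight_cover {D : Finset (Finset V)} (hD : Sparse D) {X : Finset V} (hX : Tight D X)
    {v : V} (hv : v ∈ X) : ∃ e ∈ D, e ⊆ X ∧ v ∈ e := by
  by_contra hcon
  push Not at hcon
  have h1 : ins D X ⊆ ins D (X.erase v) := by
    intro e he
    rw [mem_ins] at he ⊢
    refine ⟨he.1, ?_⟩
    intro u hu
    rw [Finset.mem_erase]
    refine ⟨?_, he.2 hu⟩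
    rintro rfl
    exact hcon e he.1 he.2 hu
  have h2 := Finset.card_le_card h1
  have h3 := Finset.card_erase_of_mem hv
  have h4 := hX.1
  have h5 := hX.2
  rcases Nat.lt_or_ge X.card 3 with h6 | h6
  · have h7 : 0 < (ins D X).card := by omega
    obtain ⟨e, he⟩ := Finset.card_pos.1 h7
    rw [mem_ins] at he
    have h8 := hD.1 e he.1
    have h9 : e = X := Finset.eq_of_subset_of_card_le he.2 (by omega)
    exact hcon e he.1 he.2 (h9 ▸ hv)
  · have h7 := hD.2 (X.erase v) (by omega)
    omega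

/-- (T3) -/
theorem exists_tight {E D : Finset (Finset V)} (hD : MaxSp E D) (hE : ∀ e ∈ E, e.card = 2)
    {e : Finset V} (he : e ∈ E) : ∃ X, Tight D X ∧ e ⊆ X := by
  by_cases heD : e ∈ D
  · exact ⟨e, tight_edge hD.2.1 heD, Finset.Subset.refl e⟩
  have h1 := hD.2.2 e he heD
  have h2 : ∃ X : Finset V, 2 ≤ X.card ∧ ¬ (ins (insert e D) X).card + 3 ≤ 2 * X.card := by
    by_contra hcon
    push Not at hcon
    refine h1 ⟨?_, fun X hX => hcon X hX⟩
    intro f hf
    rcases Finset.mem_insert.1 hf with rfl | hf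
    · exact hE _ he
    · exact hD.2.1.1 f hf
  obtain ⟨X, hX, h3⟩ := h2
  have h4 := hD.2.1.2 X hX
  have h5 : e ⊆ X := by
    by_contra hcon
    have : ins (insert e D) X = ins D X := by
      ext f
      rw [mem_ins, mem_ins, Finset.mem_insert]
      constructor
      · rintro ⟨rfl | hf, hf2⟩
        · exact absurd hf2 hcon
        · exact ⟨hf, hf2⟩
      · rintro ⟨hf, hf2⟩
        exact ⟨Or.inr hf, hf2⟩
    rw [this] at h3
    exact h3 h4
  have h6 : ins (insert e D) X ⊆ insert e (ins D X) := by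
    intro f hf
    rw [mem_ins, Finset.mem_insert] at hf
    rw [Finset.mem_insert, mem_ins]
    rcases hf with ⟨rfl | hf, hf2⟩
    · exact Or.inl rfl
    · exact Or.inr ⟨hf, hf2⟩
  have h7 := Finset.card_le_card h6
  have h8 := Finset.card_insert_le e (ins D X)
  exact ⟨X, ⟨hX, by omega⟩, h5⟩

theorem exists_maxSp {E B : Finset (Finset V)} (hB : Sparse B) (h : B ⊆ E) :
    ∃ D, B ⊆ D ∧ MaxSp E D := by
  classical
  obtain ⟨D, hD, hmax⟩ := Finset.exists_max_image
    (E.powerset.filter fun D => B ⊆ D ∧ Sparse D) Finset.card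
    ⟨B, Finset.mem_filter.2 ⟨Finset.mem_powerset.2 h, Finset.Subset.refl B, hB⟩⟩
  rw [Finset.mem_filter, Finset.mem_powerset] at hD
  refine ⟨D, hD.2.1, hD.1, hD.2.2, ?_⟩
  intro e he heD hsp
  have h1 := hmax (insert e D) (Finset.mem_filter.2 ⟨Finset.mem_powerset.2
    (Finset.insert_subset he hD.1), hD.2.1.trans (Finset.subset_insert e D), hsp⟩)
  rw [Finset.card_insert_of_notMem heD] at h1
  omega

end Pool.Agent.Lib.MP_5d015b_lc
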