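import Pool.Agent.Lib.MP_5d015b_lc.LamDefs

/-!
# Module LM1: rigid frameworks in general position
-/

set_option autoImplicit false
set_option linter.unusedSectionVars false

namespace Pool.Agent.Lib.MP_5d015b_lc

variable {V : Type*} [DecidableEq V]

/-- the part of the rigidity map which is linear in `p` -/
noncomputable def lmL (W : Finset V) (D : Finset (Finset V)) (w0 u0 : W)
    (p : V → Fin 2 → ℝ) : (W → Fin 2 → ℝ) →ₗ[ℝ] ((W × W → ℝ) × (Fin 2 → ℝ) × ℝ) where
  toFun m := (fun e => if ({(e.1 : V), (e.2 : V)} : Finset V) ∈ D then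
      (p e.1 0 - p e.2 0) * (m e.1 0 - m e.2 0) + (p e.1 1 - p e.2 1) * (m e.1 1 - m e.2 1)
      else 0, 0, -(p w0 1 - p u0 1) * m w0 0 + (p w0 0 - p u0 0) * m w0 1)
  map_add' m m' := by
    refine Prod.ext ?_ (Prod.ext ?_ ?_)
    · funext e
      simp only [Prod.fst_add, Pi.add_apply]
      split_ifs
      · ring
      · ring
    · simp
    · simp only [Prod.snd_add, Pi.add_apply]
      ring
  map_smul' r m := by
    refine Prod.ext ?_ (Prod.ext ?_ ?_)
    · funext e
      simp only [Prod.smul_fst, Pi.smul_apply, smul_eq_mul, RingHom.id_apply]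
      split_ifs
      · ring
      · ring
    · simp
    · simp only [Prod.smul_snd, Pi.smul_apply, smul_eq_mul, RingHom.id_apply]
      ring

/-- the constant part -/
noncomputable def lmK (W : Finset V) (u0 : W) :
    (W → Fin 2 → ℝ) →ₗ[ℝ] ((W × W → ℝ) × (Fin 2 → ℝ) × ℝ) where
  toFun m := (0, m u0, 0)
  map_add' m m' := by
    refine Prod.ext ?_ (Prod.ext ?_ ?_) <;> simp
  map_smul' r m := by
    refine Prod.ext ?_ (Prod.ext ?_ ?_) <;> simp

theorem lmL_add (W : Finset V) (D : Finset (Finset V)) (w0 u0 : W)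
    (p q : V → Fin 2 → ℝ) (t : ℝ) :
    lmL W D w0 u0 (p + t • q) = lmL W D w0 u0 p + t • lmL W D w0 u0 q := by
  apply LinearMap.ext
  intro m
  refine Prod.ext ?_ (Prod.ext ?_ ?_)
  · funext e
    simp only [lmL, LinearMap.coe_mk, AddHom.coe_mk, LinearMap.add_apply, LinearMap.smul_apply,
      Prod.fst_add, Prod.smul_fst, Pi.add_apply, Pi.smul_apply, smul_eq_mul]
    split_ifs
    · ring
    · ring
  · simp [lmL]
  · simp only [lmL, LinearMap.coe_mk, AddHom.coe_mk, LinearMap.add_apply, LinearMap.smul_apply,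
      Prod.snd_add, Prod.smul_snd, Pi.add_apply, Pi.smul_apply, smul_eq_mul]
    ring

/-- rigid frameworks have an injective pinned rigidity map -/
theorem lm_inj_of_rigid {W : Finset V} {D : Finset (Finset V)} (hG : IsGraph W D)
    (w0 u0 : W) {p : V → Fin 2 → ℝ} (hne : p w0 ≠ p u0) (h : InfRigid W D p) :
    Function.Injective (lmL W D w0 u0 p + lmK W u0) := by
  classical
  rw [injective_iff_map_eq_zero]
  intro m hm
  have h1 : ∀ e : W × W, ({(e.1 : V), (e.2 : V)} : Finset V) ∈ D →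
      (p e.1 0 - p e.2 0) * (m e.1 0 - m e.2 0) + (p e.1 1 - p e.2 1) * (m e.1 1 - m e.2 1) = 0 := by
    intro e he
    have h2 := congrFun (congrArg Prod.fst hm) e
    simp only [lmL, lmK, LinearMap.coe_mk, AddHom.coe_mk, LinearMap.add_apply, Prod.fst_add,
      Pi.add_apply, if_pos he, Pi.zero_apply, Prod.fst_zero, add_zero] at h2
    exact h2
  have h2 : m u0 = 0 := by
    have h3 := congrArg (fun z => z.2.1) hm
    simpa [lmL, lmK] using h3
  have h3 : -(p w0 1 - p u0 1) * m w0 0 + (p w0 0 - p u0 0) * m w0 1 = 0 := by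
    have h4 := congrArg (fun z => z.2.2) hm
    simpa [lmL, lmK] using h4
  set M : V → Fin 2 → ℝ := fun v => if hv : v ∈ W then m ⟨v, hv⟩ else 0 with hM
  have hMW : ∀ v : W, M v = m v := by
    intro v
    simp [hM, v.2]
  have hmot : IsMotion D p M := by
    intro u v huv
    have hu : u ∈ W := hG.sub _ huv (by simp)
    have hv : v ∈ W := hG.sub _ huv (by simp)
    have h5 := h1 (⟨u, hu⟩, ⟨v, hv⟩) huv
    have hu' := hMW ⟨u, hu⟩
    have hv' := hMW ⟨v, hv⟩
    simp only at hu' hv' h5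
    rw [hu', hv']
    exact h5
  obtain ⟨a, b, c, hT⟩ := h M hmot
  obtain ⟨t0, t1⟩ := hT u0 u0.2
  obtain ⟨s0, s1⟩ := hT w0 w0.2
  rw [hMW, h2] at t0 t1
  rw [hMW] at s0 s1
  simp only [Pi.zero_apply] at t0 t1
  have hc : c = 0 := by
    have h6 : c * ((p w0 0 - p u0 0) ^ 2 + (p w0 1 - p u0 1) ^ 2) = 0 := by
      rw [s0, s1] at h3
      linear_combination h3 - (p w0 1 - p u0 1) * t0 + (p w0 0 - p u0 0) * t1
    rcases mul_eq_zero.mp h6 with h7 | h7
    · exact h7
    · exfalso
      have q1 := sq_nonneg (p w0 0 - p u0 0)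
      have q2 := sq_nonneg (p w0 1 - p u0 1)
      have h8 : p w0 0 - p u0 0 = 0 := pow_eq_zero_iff (two_ne_zero) |>.mp (by linarith)
      have h9 : p w0 1 - p u0 1 = 0 := pow_eq_zero_iff (two_ne_zero) |>.mp (by linarith)
      apply hne
      funext i
      fin_cases i
      · simpa using (sub_eq_zero.mp h8)
      · simpa using (sub_eq_zero.mp h9)
  subst hc
  have ha : a = 0 := by linarith
  have hb : b = 0 := by linarith
  subst ha hb
  funext v i
  have h10 := hT v v.2
  rw [hMW] at h10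
  fin_cases i
  · simpa using h10.1
  · simpa using h10.2

/-- frameworks with an injective pinned rigidity map are rigid -/
theorem lm_rigid_of_inj {W : Finset V} {D : Finset (Finset V)} (hG : IsGraph W D)
    (w0 u0 : W) {p : V → Fin 2 → ℝ} (hne : p w0 ≠ p u0)
    (h : Function.Injective (lmL W D w0 u0 p + lmK W u0)) : InfRigid W D p := by
  classical
  rw [injective_iff_map_eq_zero] at h
  intro m hm
  have hpos : (p w0 0 - p u0 0) ^ 2 + (p w0 1 - p u0 1) ^ 2 ≠ 0 := by
    intro h7
    have q1 := sq_nonneg (p w0 0 - p u0 0)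
    have q2 := sq_nonneg (p w0 1 - p u0 1)
    have h8 : p w0 0 - p u0 0 = 0 := pow_eq_zero_iff (two_ne_zero) |>.mp (by linarith)
    have h9 : p w0 1 - p u0 1 = 0 := pow_eq_zero_iff (two_ne_zero) |>.mp (by linarith)
    apply hne
    funext i
    fin_cases i
    · simpa using (sub_eq_zero.mp h8)
    · simpa using (sub_eq_zero.mp h9)
  set N := (p w0 0 - p u0 0) ^ 2 + (p w0 1 - p u0 1) ^ 2 with hN
  obtain ⟨c, hc⟩ : ∃ c : ℝ, c * N =
      -(p w0 1 - p u0 1) * (m w0 0 - m u0 0) + (p w0 0 - p u0 0) * (m w0 1 - m u0 1) :=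
    ⟨_, div_mul_cancel₀ _ hpos⟩
  set a := m u0 0 + c * p u0 1 with ha
  set b := m u0 1 - c * p u0 0 with hb
  have hz := h (fun v => ![m v 0 - (a - c * p v 1), m v 1 - (b + c * p v 0)]) (by
    refine Prod.ext ?_ (Prod.ext ?_ ?_)
    · funext e
      simp only [lmL, lmK, LinearMap.coe_mk, AddHom.coe_mk, LinearMap.add_apply, Prod.fst_add,
        Pi.add_apply, Pi.zero_apply, Prod.fst_zero, add_zero, Matrix.cons_val_zero,
        Matrix.cons_val_one]
      split_ifs with he
      · have := hm e.1 e.2 he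
        linear_combination this
      · rfl
    · funext i
      fin_cases i
      · simp [lmL, lmK, ha]
      · simp [lmL, lmK, hb]
    · simp only [lmL, lmK, LinearMap.coe_mk, AddHom.coe_mk, LinearMap.add_apply, Prod.snd_add,
        Matrix.cons_val_zero, Matrix.cons_val_one, Prod.snd_zero, add_zero]
      rw [ha, hb]
      rw [hN] at hc
      linear_combination (-1) * hc)
  refine ⟨a, b, c, ?_⟩
  intro v hv
  have h1 := congrFun (congrFun hz ⟨v, hv⟩) 0
  have h2 := congrFun (congrFun hz ⟨v, hv⟩) 1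
  simp only [Matrix.cons_val_zero, Matrix.cons_val_one, Pi.zero_apply] at h1 h2
  exact ⟨by linarith, by linarith⟩

theorem lm_finite_quad {a b c : ℝ} (hc : c ≠ 0) : {t : ℝ | a + b * t + c * t ^ 2 = 0}.Finite := by
  classical
  set P : Polynomial ℝ := Polynomial.C a + Polynomial.C b * Polynomial.X +
    Polynomial.C c * Polynomial.X ^ 2 with hP
  have hP0 : P ≠ 0 := by
    intro h0
    have h1 : P.coeff 2 = c := by
      simp [hP, Polynomial.coeff_X, Polynomial.coeff_C]
    rw [h0] at h1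
    exact hc (by simpa using h1.symm)
  have h2 := Polynomial.finite_setOf_isRoot hP0
  refine h2.subset ?_
  intro t ht
  simp only [Set.mem_setOf_eq, Polynomial.IsRoot.def, hP, Polynomial.eval_add, Polynomial.eval_mul,
    Polynomial.eval_C, Polynomial.eval_X, Polynomial.eval_pow] at ht ⊢
  exact ht

theorem lm_finite_lin {a b : ℝ} (hb : b ≠ 0) : {t : ℝ | a + b * t = 0}.Finite := by
  refine (Set.finite_singleton (-a / b)).subset ?_
  intro t ht
  simp only [Set.mem_setOf_eq, Set.mem_singleton_iff] at ht ⊢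
  field_simp
  linarith

/-- a framework in general position -/
theorem lm_exists_gen (W : Finset V) : ∃ q : V → Fin 2 → ℝ,
    (∀ u ∈ W, ∀ v ∈ W, u ≠ v → q u 0 ≠ q v 0) ∧
      ∀ u ∈ W, ∀ v ∈ W, ∀ w ∈ W, u ≠ v → v ≠ w → u ≠ w → det3 q u v w ≠ 0 := by
  classical
  set s : V → ℝ := fun v => if h : v ∈ W then ((W.equivFin ⟨v, h⟩ : ℕ) : ℝ) else 0 with hs
  have hinj : ∀ u ∈ W, ∀ v ∈ W, u ≠ v → s u ≠ s v := by
    intro u hu v hv huv h
    simp only [hs, hu, hv, dif_pos, Nat.cast_inj] at h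
    have h1 := W.equivFin.injective (Fin.ext h)
    exact huv (by simpa using h1)
  refine ⟨fun v => ![s v, s v ^ 2], ?_, ?_⟩
  · intro u hu v hv huv
    simpa using hinj u hu v hv huv
  · intro u hu v hv w hw huv hvw huw
    have h1 := sub_ne_zero.mpr (hinj v hv u hu huv.symm)
    have h2 := sub_ne_zero.mpr (hinj w hw u hu huw.symm)
    have h3 := sub_ne_zero.mpr (hinj w hw v hv hvw.symm)
    have h4 : det3 (fun v => ![s v, s v ^ 2]) u v w =
        (s v - s u) * (s w - s u) * (s w - s v) := by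
      simp only [det3, Matrix.cons_val_zero, Matrix.cons_val_one]
      ring
    rw [h4]
    exact mul_ne_zero (mul_ne_zero h1 h2) h3

theorem exists_genPos {W : Finset V} {D : Finset (Finset V)} (hG : IsGraph W D)
    (h2 : 2 ≤ W.card) {p : V → Fin 2 → ℝ} (h : InfRigid W D p) :
    ∃ p', InfRigid W D p' ∧ GenPos W p' := by
  classical
  -- two different points
  obtain ⟨u, hu, w, hw, hne⟩ : ∃ u ∈ W, ∃ w ∈ W, p w ≠ p u := by
    by_contra hcon
    push Not at hcon
    obtain ⟨u, w, hu, hw, huw⟩ := Finset.one_lt_card_iff.mp (show 1 < W.card by omega)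
    have hmot : IsMotion D p (fun v => if v = u then ![1, 0] else 0) := by
      intro x y hxy
      have hx : x ∈ W := hG.sub _ hxy (by simp)
      have hy : y ∈ W := hG.sub _ hxy (by simp)
      rw [hcon y hy x hx]
      ring
    obtain ⟨a, b, c, hT⟩ := h _ hmot
    have t1 := (hT u hu).1
    have t2 := (hT w hw).1
    rw [if_pos rfl] at t1
    rw [if_neg huw.symm, hcon u hu w hw] at t2
    simp only [Matrix.cons_val_zero, Pi.zero_apply] at t1 t2
    linarith
  obtain ⟨q, hq1, hq2⟩ := lm_exists_gen W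
  set u0 : W := ⟨u, hu⟩
  set w0 : W := ⟨w, hw⟩
  have huw : w ≠ u := by rintro rfl; exact hne rfl
  -- the family of rigidity maps
  set A : ℝ → ((W → Fin 2 → ℝ) →L[ℝ] ((W × W → ℝ) × (Fin 2 → ℝ) × ℝ)) := fun t =>
    LinearMap.toContinuousLinearMap (lmL W D w0 u0 p + lmK W u0) +
      t • LinearMap.toContinuousLinearMap (lmL W D w0 u0 q) with hA
  have hAcont : Continuous A := by
    rw [hA]
    fun_prop
  have hAeq : ∀ t, (A t : (W → Fin 2 → ℝ) → _) = (lmL W D w0 u0 (p + t • q) + lmK W u0) := by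
    intro t
    funext m
    rw [lmL_add]
    simp only [hA, ContinuousLinearMap.add_apply, ContinuousLinearMap.smul_apply,
      LinearMap.coe_toContinuousLinearMap', LinearMap.add_apply, LinearMap.smul_apply]
    abel
  have hopen : IsOpen {t : ℝ | Function.Injective (A t)} :=
    (ContinuousLinearMap.isOpen_injective).preimage hAcont
  have h0 : (0 : ℝ) ∈ {t : ℝ | Function.Injective (A t)} := by
    rw [Set.mem_setOf_eq, hAeq 0]
    have : p + (0 : ℝ) • q = p := by simp
    rw [this]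
    exact lm_inj_of_rigid hG w0 u0 hne h
  have hinf : {t : ℝ | Function.Injective (A t)}.Infinite :=
    infinite_of_mem_nhds 0 (hopen.mem_nhds h0)
  set B1 : Set ℝ := ⋃ x ∈ W, ⋃ y ∈ W, ⋃ (_ : x ≠ y), {t : ℝ | (p + t • q) x = (p + t • q) y}
    with hB1
  set B2 : Set ℝ := ⋃ x ∈ W, ⋃ y ∈ W, ⋃ z ∈ W, ⋃ (_ : x ≠ y ∧ y ≠ z ∧ x ≠ z),
    {t : ℝ | det3 (p + t • q) x y z = 0} with hB2
  have hB1f : B1.Finite := by
    refine Set.Finite.biUnion W.finite_toSet fun x hx => ?_
    refine Set.Finite.biUnion W.finite_toSet fun y hy => ?_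
    refine Set.finite_iUnion fun hxy => ?_
    refine (lm_finite_lin (a := p x 0 - p y 0) (sub_ne_zero.mpr (hq1 x hx y hy hxy))).subset ?_
    intro t ht
    have h3 := congrFun ht 0
    simp only [Pi.add_apply, Pi.smul_apply, smul_eq_mul] at h3
    rw [Set.mem_setOf_eq]
    linear_combination h3
  have hB2f : B2.Finite := by
    refine Set.Finite.biUnion W.finite_toSet fun x hx => ?_
    refine Set.Finite.biUnion W.finite_toSet fun y hy => ?_
    refine Set.Finite.biUnion W.finite_toSet fun z hz => ?_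
    refine Set.finite_iUnion fun hxyz => ?_
    refine (lm_finite_quad (a := det3 p x y z)
      (b := (p y 0 - p x 0) * (q z 1 - q x 1) + (q y 0 - q x 0) * (p z 1 - p x 1)
        - (p y 1 - p x 1) * (q z 0 - q x 0) - (q y 1 - q x 1) * (p z 0 - p x 0))
      (hq2 x hx y hy z hz hxyz.1 hxyz.2.1 hxyz.2.2)).subset ?_
    intro t ht
    rw [Set.mem_setOf_eq] at ht ⊢
    simp only [det3, Pi.add_apply, Pi.smul_apply, smul_eq_mul] at ht ⊢
    linear_combination ht
  obtain ⟨t, ht, htB⟩ := (hinf.diff (hB1f.union hB2f)).nonempty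
  have hgen : GenPos W (p + t • q) := by
    constructor
    · intro x hx y hy hxy heq
      apply htB
      left
      simp only [hB1, Set.mem_iUnion]
      exact ⟨x, hx, y, hy, hxy, heq⟩
    · intro x hx y hy z hz hxy hyz hxz heq
      apply htB
      right
      simp only [hB2, Set.mem_iUnion]
      exact ⟨x, hx, y, hy, z, hz, ⟨hxy, hyz, hxz⟩, heq⟩
  refine ⟨p + t • q, ?_, hgen⟩
  rw [Set.mem_setOf_eq, hAeq t] at ht
  exact lm_rigid_of_inj hG w0 u0 (hgen.1 w hw u hu huw) ht

end Pool.Agent.Lib.MP_5d015b_lc
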