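import Pool.Agent.Lib.MP_5d015b_lc.LamDefs
import Pool.Agent.Lib.MP_5d015b_lc.SP1

/-!
# The inverse Henneberg steps
-/

set_option autoImplicit false
set_option linter.unusedSectionVars false

namespace Pool.Agent.Lib.MP_5d015b_lc

variable {V : Type*} [DecidableEq V]

/-- the sum of the degrees -/
theorem sum_deg {W : Finset V} {D : Finset (Finset V)} (hG : IsGraph W D) :
    ∑ v ∈ W, (D.filter fun e => v ∈ e).card = 2 * D.card := by
  have h1 : ∀ v ∈ W, (D.filter fun e => v ∈ e).card = ∑ e ∈ D, if v ∈ e then 1 else 0 := by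
    intro v _
    rw [Finset.card_filter]
  rw [Finset.sum_congr rfl h1, Finset.sum_comm]
  have h2 : ∀ e ∈ D, (∑ v ∈ W, if v ∈ e then 1 else 0) = 2 := by
    intro e he
    rw [← Finset.card_filter, Finset.filter_mem_eq_inter, Finset.inter_eq_right.2 (hG.sub e he),
      hG.card_two e he]
  rw [Finset.sum_congr rfl h2, Finset.sum_const, smul_eq_mul, mul_comm]

/-- the edges at a vertex -/
theorem edge_at {W : Finset V} {D : Finset (Finset V)} (hG : IsGraph W D) {v : V} {e : Finset V}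
    (he : e ∈ D) (hv : v ∈ e) : ∃ a ∈ W.erase v, e = {v, a} := by
  obtain ⟨x, y, hxy, rfl⟩ := Finset.card_eq_two.1 (hG.card_two e he)
  have hs := hG.sub _ he
  rw [Finset.mem_insert, Finset.mem_singleton] at hv
  rcases hv with rfl | rfl
  · exact ⟨y, Finset.mem_erase.2 ⟨hxy.symm, hs (by simp)⟩, rfl⟩
  · exact ⟨x, Finset.mem_erase.2 ⟨hxy, hs (by simp)⟩, Finset.pair_comm _ _⟩

theorem insert_or_tight {D : Finset (Finset V)} (hS : Sparse D) {e : Finset V}
    (he : e.card = 2) : (e ∉ D ∧ Sparse (insert e D)) ∨ ∃ X, Tight D X ∧ e ⊆ X := by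
  by_cases h : e ∉ D ∧ Sparse (insert e D)
  · exact Or.inl h
  · right
    refine exists_tight (E := insert e D) ⟨Finset.subset_insert _ _, hS, ?_⟩ ?_
      (Finset.mem_insert_self _ _)
    · intro f hf hfD hSf
      rw [Finset.mem_insert] at hf
      rcases hf with rfl | hf
      · exact h ⟨hfD, hSf⟩
      · exact hfD hf
    · intro f hf
      rw [Finset.mem_insert] at hf
      rcases hf with rfl | hf
      · exact he
      · exact hS.1 f hf

/-- three tight sets through the pairs of a triple give a tight set which contains the triple -/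
theorem tight_triple {D : Finset (Finset V)} (hS : Sparse D) {v a b c : V} (hab : a ≠ b)
    (hbc : b ≠ c) (hac : a ≠ c) {X Y Z : Finset V} (hX : Tight D X) (hY : Tight D Y)
    (hZ : Tight D Z) (hX1 : {a, b} ⊆ X) (hY1 : {b, c} ⊆ Y) (hZ1 : {a, c} ⊆ Z) (hvX : v ∉ X)
    (hvY : v ∉ Y) (hvZ : v ∉ Z) : ∃ T, Tight D T ∧ a ∈ T ∧ b ∈ T ∧ c ∈ T ∧ v ∉ T := by
  have haX : a ∈ X := hX1 (by simp)
  have hbX : b ∈ X := hX1 (by simp)
  have hbY : b ∈ Y := hY1 (by simp)
  have hcY : c ∈ Y := hY1 (by simp)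
  have haZ : a ∈ Z := hZ1 (by simp)
  have hcZ : c ∈ Z := hZ1 (by simp)
  by_cases h1 : 2 ≤ (X ∩ Y).card
  · exact ⟨X ∪ Y, (tight_union hS hX hY h1).1, by simp [haX], by simp [hbX], by simp [hcY],
      by simp [hvX, hvY]⟩
  by_cases h2 : 2 ≤ (Y ∩ Z).card
  · exact ⟨Y ∪ Z, (tight_union hS hY hZ h2).1, by simp [haZ], by simp [hbY], by simp [hcY],
      by simp [hvZ, hvY]⟩
  by_cases h3 : 2 ≤ (X ∩ Z).card
  · exact ⟨X ∪ Z, (tight_union hS hX hZ h3).1, by simp [haX], by simp [hbX], by simp [hcZ],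
      by simp [hvX, hvZ]⟩
  have p1 : 0 < (X ∩ Y).card := Finset.card_pos.2 ⟨b, Finset.mem_inter.2 ⟨hbX, hbY⟩⟩
  have p2 : 0 < (Y ∩ Z).card := Finset.card_pos.2 ⟨c, Finset.mem_inter.2 ⟨hcY, hcZ⟩⟩
  have p3 : 0 < (X ∩ Z).card := Finset.card_pos.2 ⟨a, Finset.mem_inter.2 ⟨haX, haZ⟩⟩
  refine ⟨X ∪ Y ∪ Z, tight_three hS hX hY hZ (by omega) (by omega) (by omega) ?_, by simp [haX],
    by simp [hbX], by simp [hcY], by simp [hvX, hvY, hvZ]⟩
  rw [Finset.eq_empty_iff_forall_notMem]
  intro z hz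
  rw [Finset.mem_inter, Finset.mem_inter] at hz
  have hzb : z = b := by
    obtain ⟨w, hw⟩ := Finset.card_eq_one.1 (show (X ∩ Y).card = 1 by omega)
    have e1 : z ∈ X ∩ Y := Finset.mem_inter.2 hz.1
    have e2 : b ∈ X ∩ Y := Finset.mem_inter.2 ⟨hbX, hbY⟩
    rw [hw, Finset.mem_singleton] at e1 e2
    rw [e1, e2]
  have hza : z = a := by
    obtain ⟨w, hw⟩ := Finset.card_eq_one.1 (show (X ∩ Z).card = 1 by omega)
    have e1 : z ∈ X ∩ Z := Finset.mem_inter.2 ⟨hz.1.1, hz.2⟩
    have e2 : a ∈ X ∩ Z := Finset.mem_inter.2 ⟨haX, haZ⟩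
    rw [hw, Finset.mem_singleton] at e1 e2
    rw [e1, e2]
  exact hab (hza.symm.trans hzb)

/-- a vertex on no edge is in no tight set with two other points -/
theorem notMem_tight {D : Finset (Finset V)} (hS : Sparse D) {v : V} (hv : ∀ e ∈ D, v ∉ e)
    {a b : V} (hav : a ≠ v) (hbv : b ≠ v) (hab : a ≠ b) {X : Finset V} (hX : Tight D X)
    (hX1 : {a, b} ⊆ X) : v ∉ X := by
  intro hvX
  have hsub : ({a, b} : Finset V) ⊆ X.erase v := by
    intro z hz
    refine Finset.mem_erase.2 ⟨?_, hX1 hz⟩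
    rw [Finset.mem_insert, Finset.mem_singleton] at hz
    rcases hz with rfl | rfl
    · exact hav
    · exact hbv
  have h2 : 2 ≤ (X.erase v).card := by
    rw [← Finset.card_pair hab]; exact Finset.card_le_card hsub
  have h3 := hS.2 (X.erase v) h2
  have h4 : ins D (X.erase v) = ins D X := by
    ext e
    rw [mem_ins, mem_ins, Finset.subset_erase]
    constructor
    · exact fun h => ⟨h.1, h.2.1⟩
    · exact fun h => ⟨h.1, h.2, hv e h.1⟩
  have h5 := hX.2
  rw [h4] at h3
  have h6 : (X.erase v).card + 1 = X.card := Finset.card_erase_add_one hvX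
  omega

theorem henneberg {W : Finset V} {D : Finset (Finset V)} (hG : IsGraph W D) (hS : Sparse D)
    (hc : D.card + 3 = 2 * W.card) (h3 : 3 ≤ W.card) :
    ∃ v ∈ W,
      (∃ a ∈ W.erase v, ∃ b ∈ W.erase v, a ≠ b ∧ ∃ D', IsGraph (W.erase v) D' ∧ Sparse D' ∧
        D'.card + 3 = 2 * (W.erase v).card ∧ D = D' ∪ {{v, a}, {v, b}}) ∨
      (∃ a ∈ W.erase v, ∃ b ∈ W.erase v, ∃ c ∈ W.erase v, a ≠ b ∧ b ≠ c ∧ a ≠ c ∧
        ∃ D', IsGraph (W.erase v) D' ∧ Sparse D' ∧ D'.card + 3 = 2 * (W.erase v).card ∧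
        {a, b} ∈ D' ∧ D = D'.erase {a, b} ∪ {{v, a}, {v, b}, {v, c}}) := by
  -- a vertex of degree at most 3
  obtain ⟨v, hvW, hdeg⟩ : ∃ v ∈ W, (D.filter fun e => v ∈ e).card ≤ 3 := by
    by_contra hno
    push Not at hno
    have h1 : ∑ _v ∈ W, 4 ≤ ∑ v ∈ W, (D.filter fun e => v ∈ e).card :=
      Finset.sum_le_sum fun v hv => hno v hv
    rw [sum_deg hG, Finset.sum_const, smul_eq_mul] at h1
    omega
  have hWv : (W.erase v).card + 1 = W.card := Finset.card_erase_add_one hvW
  have hsplit := Finset.card_filter_add_card_filter_not (s := D) (fun e => v ∈ e)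
  set D0 := D.filter fun e => v ∉ e with hD0
  have hD0S : Sparse D0 := hS.mono (Finset.filter_subset _ _)
  have hD0G : IsGraph (W.erase v) D0 := by
    refine ⟨fun e he => hG.card_two e (Finset.mem_filter.1 he).1, fun e he => ?_⟩
    rw [hD0, Finset.mem_filter] at he
    rw [Finset.subset_erase]
    exact ⟨hG.sub e he.1, he.2⟩
  have hD0v : ∀ e ∈ D0, v ∉ e := fun e he => (Finset.mem_filter.1 he).2
  have hins : ins D0 (W.erase v) = D0 := by
    ext e
    rw [mem_ins]
    exact ⟨fun h => h.1, fun h => ⟨h, hD0G.sub e h⟩⟩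
  have hlow := hD0S.2 (W.erase v) (by omega)
  rw [hins] at hlow
  have hunion : D = D0 ∪ D.filter fun e => v ∈ e := by
    ext e
    rw [Finset.mem_union, hD0, Finset.mem_filter, Finset.mem_filter]
    tauto
  refine ⟨v, hvW, ?_⟩
  have hcases : (D.filter fun e => v ∈ e).card = 2 ∨ (D.filter fun e => v ∈ e).card = 3 := by
    omega
  rcases hcases with h2 | h2
  · left
    obtain ⟨e, f, hef, hset⟩ := Finset.card_eq_two.1 h2
    have he : e ∈ D.filter fun e => v ∈ e := by rw [hset]; simp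
    have hf : f ∈ D.filter fun e => v ∈ e := by rw [hset]; simp
    rw [Finset.mem_filter] at he hf
    obtain ⟨a, ha, rfl⟩ := edge_at hG he.1 he.2
    obtain ⟨b, hb, rfl⟩ := edge_at hG hf.1 hf.2
    refine ⟨a, ha, b, hb, fun hab => hef (by rw [hab]), D0, hD0G, hD0S, by omega, ?_⟩
    rw [← hset]
    exact hunion
  · right
    obtain ⟨e, f, g, hef, heg, hfg, hset⟩ := Finset.card_eq_three.1 h2
    have he : e ∈ D.filter fun e => v ∈ e := by rw [hset]; simp
    have hf : f ∈ D.filter fun e => v ∈ e := by rw [hset]; simp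
    have hg : g ∈ D.filter fun e => v ∈ e := by rw [hset]; simp
    rw [Finset.mem_filter] at he hf hg
    obtain ⟨a, ha, rfl⟩ := edge_at hG he.1 he.2
    obtain ⟨b, hb, rfl⟩ := edge_at hG hf.1 hf.2
    obtain ⟨c, hc', rfl⟩ := edge_at hG hg.1 hg.2
    have hab : a ≠ b := fun hab => hef (by rw [hab])
    have hac : a ≠ c := fun hac => heg (by rw [hac])
    have hbc : b ≠ c := fun hbc => hfg (by rw [hbc])
    have hav : a ≠ v := (Finset.mem_erase.1 ha).1
    have hbv : b ≠ v := (Finset.mem_erase.1 hb).1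
    have hcv : c ≠ v := (Finset.mem_erase.1 hc').1
    -- finish once a pair can be added
    have fin : ∀ x y z, x ∈ W.erase v → y ∈ W.erase v → z ∈ W.erase v → x ≠ y → y ≠ z → x ≠ z →
        (D.filter fun e => v ∈ e) = {{v, x}, {v, y}, {v, z}} →
        ({x, y} : Finset V) ∉ D0 → Sparse (insert {x, y} D0) →
        ∃ a ∈ W.erase v, ∃ b ∈ W.erase v, ∃ c ∈ W.erase v, a ≠ b ∧ b ≠ c ∧ a ≠ c ∧
        ∃ D', IsGraph (W.erase v) D' ∧ Sparse D' ∧ D'.card + 3 = 2 * (W.erase v).card ∧
        {a, b} ∈ D' ∧ D = D'.erase {a, b} ∪ {{v, a}, {v, b}, {v, c}} := by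
      intro x y z hx hy hz hxy hyz hxz hst hn hSp
      refine ⟨x, hx, y, hy, z, hz, hxy, hyz, hxz, insert {x, y} D0, ?_, hSp, ?_,
        Finset.mem_insert_self _ _, ?_⟩
      · refine ⟨fun e he => hSp.1 e he, fun e he => ?_⟩
        rw [Finset.mem_insert] at he
        rcases he with rfl | he
        · intro w hw
          rw [Finset.mem_insert, Finset.mem_singleton] at hw
          rcases hw with rfl | rfl
          · exact hx
          · exact hy
        · exact hD0G.sub e he
      · rw [Finset.card_insert_of_notMem hn]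
        omega
      · rw [Finset.erase_insert hn, ← hst]
        exact hunion
    rcases insert_or_tight hD0S (Finset.card_pair hab) with h | ⟨X, hX, hX1⟩
    · exact fin a b c ha hb hc' hab hbc hac hset h.1 h.2
    rcases insert_or_tight hD0S (Finset.card_pair hbc) with h | ⟨Y, hY, hY1⟩
    · refine fin b c a hb hc' ha hbc hac.symm hab.symm ?_ h.1 h.2
      rw [hset]
      ext e
      simp only [Finset.mem_insert, Finset.mem_singleton]
      tauto
    rcases insert_or_tight hD0S (Finset.card_pair hac) with h | ⟨Z, hZ, hZ1⟩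
    · refine fin a c b ha hc' hb hac hbc.symm hab ?_ h.1 h.2
      rw [hset]
      ext e
      simp only [Finset.mem_insert, Finset.mem_singleton]
      tauto
    exfalso
    obtain ⟨T, hT, haT, hbT, hcT, hvT⟩ := tight_triple hD0S hab hbc hac hX hY hZ hX1 hY1 hZ1
      (notMem_tight hD0S hD0v hav hbv hab hX hX1) (notMem_tight hD0S hD0v hbv hcv hbc hY hY1)
      (notMem_tight hD0S hD0v hav hcv hac hZ hZ1)
    have hT2 := hS.2 (insert v T) (by
      rw [Finset.card_insert_of_notMem hvT]; have := hT.1; omega)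
    rw [Finset.card_insert_of_notMem hvT] at hT2
    have hsub : ins D0 T ∪ (D.filter fun e => v ∈ e) ⊆ ins D (insert v T) := by
      intro e he
      rw [Finset.mem_union, mem_ins] at he
      rw [mem_ins]
      rcases he with he | he
      · exact ⟨(Finset.mem_filter.1 he.1).1, he.2.trans (Finset.subset_insert _ _)⟩
      · refine ⟨(Finset.mem_filter.1 he).1, ?_⟩
        rw [hset] at he
        simp only [Finset.mem_insert, Finset.mem_singleton] at he
        intro w hw
        rcases he with rfl | rfl | rfl <;>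
        · rw [Finset.mem_insert, Finset.mem_singleton] at hw
          rw [Finset.mem_insert]
          rcases hw with rfl | rfl
          · exact Or.inl rfl
          · exact Or.inr (by assumption)
    have hdisj : Disjoint (ins D0 T) (D.filter fun e => v ∈ e) := by
      rw [Finset.disjoint_left]
      intro e he he'
      exact hD0v e (mem_ins.1 he).1 (Finset.mem_filter.1 he').2
    have hle := Finset.card_le_card hsub
    rw [Finset.card_union_of_disjoint hdisj] at hle
    have := hT.2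
    omega

end Pool.Agent.Lib.MP_5d015b_lc
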