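import Pool.Agent.Lib.MP_5d015b_lc.LamDefs

/-!
# Module LM3: the two extensions
-/

set_option autoImplicit false
set_option linter.unusedSectionVars false

namespace Pool.Agent.Lib.MP_5d015b_lc

variable {V : Type*} [DecidableEq V]

theorem lm3_mem {W : Finset V} {D : Finset (Finset V)} (hG : IsGraph W D) {u w : V}
    (h : ({u, w} : Finset V) ∈ D) : u ∈ W ∧ w ∈ W :=
  ⟨hG.sub _ h (by simp), hG.sub _ h (by simp)⟩

/-- two independent linear equations -/
theorem lm3_solve {a b c d x y : ℝ} (hdet : a * d - b * c ≠ 0) (h1 : a * x + b * y = 0)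
    (h2 : c * x + d * y = 0) : x = 0 ∧ y = 0 := by
  constructor
  · have : (a * d - b * c) * x = 0 := by linear_combination d * h1 - b * h2
    exact (mul_eq_zero.mp this).resolve_left hdet
  · have : (a * d - b * c) * y = 0 := by linear_combination a * h2 - c * h1
    exact (mul_eq_zero.mp this).resolve_left hdet

theorem zero_ext {W : Finset V} {D : Finset (Finset V)} (hG : IsGraph W D) {v a b : V}
    (hv : v ∉ W) (ha : a ∈ W) (hb : b ∈ W) (hab : a ≠ b) {p : V → Fin 2 → ℝ}
    (h : InfRigid W D p) (hp : GenPos W p) :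
    ∃ p', InfRigid (insert v W) (D ∪ {{v, a}, {v, b}}) p' := by
  classical
  set x : Fin 2 → ℝ := ![p a 0 - (p b 1 - p a 1), p a 1 + (p b 0 - p a 0)] with hx
  refine ⟨Function.update p v x, ?_⟩
  have hva : a ≠ v := by rintro rfl; exact hv ha
  have hvb : b ≠ v := by rintro rfl; exact hv hb
  intro m hm
  have hupd : ∀ w ∈ W, Function.update p v x w = p w := by
    intro w hw
    rw [Function.update_of_ne]
    rintro rfl
    exact hv hw
  have hmD : IsMotion D p m := by
    intro u w huw
    have h1 := hm u w (Finset.mem_union_left _ huw)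
    obtain ⟨hu, hw⟩ := lm3_mem hG huw
    rw [hupd u hu, hupd w hw] at h1
    exact h1
  obtain ⟨α, β, γ, hT⟩ := h m hmD
  have e1 := hm v a (by simp)
  have e2 := hm v b (by simp)
  rw [Function.update_self, hupd a ha] at e1
  rw [Function.update_self, hupd b hb] at e2
  have hx0 : x 0 = p a 0 - (p b 1 - p a 1) := rfl
  have hx1 : x 1 = p a 1 + (p b 0 - p a 0) := rfl
  obtain ⟨ta0, ta1⟩ := hT a ha
  obtain ⟨tb0, tb1⟩ := hT b hb
  have hne : p a ≠ p b := hp.1 a ha b hb hab
  have hdet : (x 0 - p a 0) * (x 1 - p b 1) - (x 1 - p a 1) * (x 0 - p b 0) ≠ 0 := by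
    rw [hx0, hx1]
    intro h0
    have h2 : (p b 0 - p a 0) ^ 2 + (p b 1 - p a 1) ^ 2 = 0 := by linear_combination h0
    have h3 : p b 0 - p a 0 = 0 := by
      have := sq_nonneg (p b 0 - p a 0)
      have := sq_nonneg (p b 1 - p a 1)
      exact pow_eq_zero_iff (two_ne_zero) |>.mp (by linarith)
    have h4 : p b 1 - p a 1 = 0 := by
      have := sq_nonneg (p b 0 - p a 0)
      have := sq_nonneg (p b 1 - p a 1)
      exact pow_eq_zero_iff (two_ne_zero) |>.mp (by linarith)
    apply hne
    funext i
    fin_cases i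
    · simpa using (sub_eq_zero.mp h3).symm
    · simpa using (sub_eq_zero.mp h4).symm
  obtain ⟨s0, s1⟩ := lm3_solve (x := m v 0 - (α - γ * x 1)) (y := m v 1 - (β + γ * x 0)) hdet
    (by rw [ta0, ta1] at e1; linear_combination e1)
    (by rw [tb0, tb1] at e2; linear_combination e2)
  refine ⟨α, β, γ, ?_⟩
  intro w hw
  rw [Finset.mem_insert] at hw
  rcases hw with rfl | hw
  · rw [Function.update_self]
    exact ⟨by linarith, by linarith⟩
  · rw [hupd w hw]
    exact hT w hw

theorem one_ext {W : Finset V} {D : Finset (Finset V)} (hG : IsGraph W D) {v a b c : V}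
    (hv : v ∉ W) (ha : a ∈ W) (hb : b ∈ W) (hc : c ∈ W) (hab : a ≠ b) (hbc : b ≠ c) (hac : a ≠ c)
    (hD : ({a, b} : Finset V) ∈ D) {p : V → Fin 2 → ℝ} (h : InfRigid W D p) (hp : GenPos W p) :
    ∃ p', InfRigid (insert v W) (D.erase {a, b} ∪ {{v, a}, {v, b}, {v, c}}) p' := by
  classical
  set x : Fin 2 → ℝ := ![(p a 0 + p b 0) / 2, (p a 1 + p b 1) / 2] with hx
  refine ⟨Function.update p v x, ?_⟩
  intro m hm
  have hupd : ∀ w ∈ W, Function.update p v x w = p w := by
    intro w hw
    rw [Function.update_of_ne]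
    rintro rfl
    exact hv hw
  have hx0 : x 0 = (p a 0 + p b 0) / 2 := rfl
  have hx1 : x 1 = (p a 1 + p b 1) / 2 := rfl
  have e1 := hm v a (by simp)
  have e2 := hm v b (by simp)
  have e3 := hm v c (by simp)
  rw [Function.update_self, hupd a ha] at e1
  rw [Function.update_self, hupd b hb] at e2
  rw [Function.update_self, hupd c hc] at e3
  have hmD : IsMotion D p m := by
    intro u w huw
    by_cases he : ({u, w} : Finset V) = {a, b}
    · have key : (p a 0 - p b 0) * (m a 0 - m b 0) + (p a 1 - p b 1) * (m a 1 - m b 1) = 0 := by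
        rw [hx0, hx1] at e1 e2
        linear_combination 2 * e1 + 2 * e2
      have hne : u ≠ w := by
        rintro rfl
        have := hG.card_two _ huw
        simp at this
      have hu : u = a ∨ u = b := by
        have : u ∈ ({a, b} : Finset V) := by rw [← he]; simp
        simpa using this
      have hw : w = a ∨ w = b := by
        have : w ∈ ({a, b} : Finset V) := by rw [← he]; simp
        simpa using this
      rcases hu with rfl | rfl <;> rcases hw with rfl | rfl
      · exact absurd rfl hne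
      · exact key
      · linear_combination key
      · exact absurd rfl hne
    · have h1 := hm u w (Finset.mem_union_left _ (Finset.mem_erase.mpr ⟨he, huw⟩))
      obtain ⟨hu, hw⟩ := lm3_mem hG huw
      rw [hupd u hu, hupd w hw] at h1
      exact h1
  obtain ⟨α, β, γ, hT⟩ := h m hmD
  obtain ⟨ta0, ta1⟩ := hT a ha
  obtain ⟨tc0, tc1⟩ := hT c hc
  have hd := hp.2 a ha b hb c hc hab hbc hac
  have hdet : (x 0 - p a 0) * (x 1 - p c 1) - (x 1 - p a 1) * (x 0 - p c 0) ≠ 0 := by
    rw [hx0, hx1]
    intro h0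
    apply hd
    unfold det3
    linear_combination (-2) * h0
  obtain ⟨s0, s1⟩ := lm3_solve (x := m v 0 - (α - γ * x 1)) (y := m v 1 - (β + γ * x 0)) hdet
    (by rw [ta0, ta1] at e1; linear_combination e1)
    (by rw [tc0, tc1] at e3; linear_combination e3)
  refine ⟨α, β, γ, ?_⟩
  intro w hw
  rw [Finset.mem_insert] at hw
  rcases hw with rfl | hw
  · rw [Function.update_self]
    exact ⟨by linarith, by linarith⟩
  · rw [hupd w hw]
    exact hT w hw

end Pool.Agent.Lib.MP_5d015b_lc
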