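import Pool.Agent.Lib.MP_5d015b_lc.LM1
import Pool.Agent.Lib.MP_5d015b_lc.LM2
import Pool.Agent.Lib.MP_5d015b_lc.LM3

/-!
# Module LM4: sufficiency of Laman's condition
-/

set_option autoImplicit false
set_option linter.unusedSectionVars false

namespace Pool.Agent.Lib.MP_5d015b_lc

variable {V : Type*} [DecidableEq V]

theorem lm4_base {W : Finset V} {D : Finset (Finset V)} (hG : IsGraph W D)
    (hc : D.card + 3 = 2 * W.card) (h2 : W.card = 2) : ∃ p, InfRigid W D p := by
  classical
  have hD1 : D.card = 1 := by omega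
  obtain ⟨e, he⟩ := Finset.card_eq_one.mp hD1
  obtain ⟨a, b, hab, hW⟩ := Finset.card_eq_two.mp h2
  have heD : e ∈ D := by rw [he]; simp
  have heW : e = W := Finset.eq_of_subset_of_card_le (hG.sub e heD)
    (by rw [h2, hG.card_two e heD])
  have hmem : ({a, b} : Finset V) ∈ D := by rw [← hW, ← heW]; exact heD
  obtain ⟨p, hpa, hpb⟩ : ∃ p : V → Fin 2 → ℝ, p a = ![0, 0] ∧ p b = ![1, 0] :=
    ⟨fun v => if v = a then ![0, 0] else ![1, 0], by simp, by simp [hab.symm]⟩
  refine ⟨p, ?_⟩
  intro m hm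
  have h1 := hm a b hmem
  rw [hpa, hpb] at h1
  simp only [Matrix.cons_val_zero, Matrix.cons_val_one] at h1
  refine ⟨m a 0, m a 1, m b 1 - m a 1, ?_⟩
  intro v hv
  rw [hW, Finset.mem_insert, Finset.mem_singleton] at hv
  rcases hv with rfl | rfl
  · rw [hpa]
    simp
  · rw [hpb]
    simp only [Matrix.cons_val_zero, Matrix.cons_val_one]
    constructor
    · linarith
    · ring

theorem laman_suff {W : Finset V} {D : Finset (Finset V)} (hG : IsGraph W D) (hS : Sparse D)
    (hc : D.card + 3 = 2 * W.card) (h2 : 2 ≤ W.card) : ∃ p, InfRigid W D p := by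
  classical
  obtain ⟨n, hn⟩ : ∃ n, W.card = n + 2 := ⟨W.card - 2, by omega⟩
  induction n generalizing W D with
  | zero => exact lm4_base hG hc (by omega)
  | succ n ih =>
    obtain ⟨v, hv, hcase⟩ := henneberg hG hS hc (by omega)
    have hcard : (W.erase v).card = n + 2 := by
      rw [Finset.card_erase_of_mem hv]
      omega
    have hins : insert v (W.erase v) = W := Finset.insert_erase hv
    rcases hcase with ⟨a, ha, b, hb, hab, D', hG', hS', hc', hD⟩ |
      ⟨a, ha, b, hb, c, hcc, hab, hbc, hac, D', hG', hS', hc', hDab, hD⟩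
    · obtain ⟨p, hp⟩ := ih hG' hS' hc' (by omega) hcard
      obtain ⟨p', hp', hgen⟩ := exists_genPos hG' (by omega) hp
      obtain ⟨p'', hp''⟩ := zero_ext hG' (Finset.notMem_erase v W) ha hb hab hp' hgen
      refine ⟨p'', ?_⟩
      rw [hins, ← hD] at hp''
      exact hp''
    · obtain ⟨p, hp⟩ := ih hG' hS' hc' (by omega) hcard
      obtain ⟨p', hp', hgen⟩ := exists_genPos hG' (by omega) hp
      obtain ⟨p'', hp''⟩ := one_ext hG' (Finset.notMem_erase v W) ha hb hcc hab hbc hac hDab
        hp' hgen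
      refine ⟨p'', ?_⟩
      rw [hins, ← hD] at hp''
      exact hp''

end Pool.Agent.Lib.MP_5d015b_lc
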