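import Pool.Agent.Lib.MP_5d015b_lc.AlgDefs
import Pool.Agent.Lib.Parity.PTN

/-!
# Globally rigid pinning, module QTA: polynomial time, basics and sparsity
-/

set_option autoImplicit false
set_option linter.unusedSectionVars false

namespace Pool.Agent.Lib.MP_5d015b_lc

open Pool.Agent.Lib.Parity Pool.Agent.Lib.PolyTime

section
variable {α β : Type} [Enc α] [Enc β]

/-- membership in a list, for any lawful equality test -/
theorem pt_contains' [BEq β] [LawfulBEq β] {f : α → List β} {g : α → β}
    (hf : PT f) (hg : PT g) : PT (fun a => (f a).contains (g a)) := by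
  classical
  have h1 : PT (fun x : α × β => decide (g x.1 = x.2)) := PT.eq (hg.comp PT.fst) PT.snd
  refine (PT.any (f := f) (p := fun a b => decide (g a = b)) hf h1).congr (fun a => ?_)
  induction f a with
  | nil => simp
  | cons b l ih =>
    rw [List.any_cons, List.contains_cons, ih]
    congr 1
    by_cases h : g a = b
    · simp [h]
    · simp [h]

end

theorem PT.contains {α β : Type} [Enc α] [Enc β] [DecidableEq β] {f : α → List β} {g : α → β}
    (hf : PT f) (hg : PT g) : PT (fun a => (f a).contains (g a)) := pt_contains' hf hg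

section
variable {α : Type} [Enc α]

theorem pt_edgesL' {f : α → ℕ} {g : α → List (ℕ × ℕ)} (hf : PT f) (hg : PT g) :
    PT (fun a => edgesL (f a) (g a)) := by
  refine PT.flatMap (f := fun a => List.range (f a)) (g := fun a u =>
    ((List.range (f a)).filter fun v => decide (u < v) &&
      ((g a).contains (u, v) || (g a).contains (v, u))).map fun v => (u, v)) (PT.range hf) ?_
  refine PT.map (f := fun x : α × ℕ => (List.range (f x.1)).filter fun v => decide (x.2 < v) &&
      ((g x.1).contains (x.2, v) || (g x.1).contains (v, x.2)))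
    (g := fun x v => (x.2, v)) ?_ (PT.pair PT.fst.snd' PT.snd)
  refine PT.filter (f := fun x : α × ℕ => List.range (f x.1)) (p := fun x v => decide (x.2 < v) &&
      ((g x.1).contains (x.2, v) || (g x.1).contains (v, x.2))) (PT.range (hf.comp PT.fst)) ?_
  have hg' : PT (fun y : (α × ℕ) × ℕ => g y.1.1) := hg.comp PT.fst.fst'
  exact PT.and (PT.lt PT.fst.snd' PT.snd) (PT.or
    (pt_contains' hg' (PT.pair PT.fst.snd' PT.snd))
    (pt_contains' hg' (PT.pair PT.snd PT.fst.snd')))

end

theorem pt_edgesL : PT (fun a : ℕ × List (ℕ × ℕ) => edgesL a.1 a.2) := pt_edgesL' PT.fst PT.snd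

theorem pt_flatten {β : Type} [Enc β] {α : Type} [Enc α] {f : α → List (List β)} (hf : PT f) :
    PT (fun a => (f a).flatten) := by
  refine (PT.flatMap (f := f) (g := fun _ l => l) hf PT.snd).congr (fun a => ?_)
  simp

theorem pt_privL : PT privL := by
  have h1 : PT (fun Hs : List (List ℕ) => Hs.flatten.sum) := PT.sum (pt_flatten PT.id)
  refine PT.map (f := fun Hs : List (List ℕ) => Hs.zipIdx)
    (g := fun Hs q => (q.1, [Hs.flatten.sum + 1 + 2 * q.2, Hs.flatten.sum + 2 + 2 * q.2]))
    (PT.zipIdx PT.id) ?_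
  have h2 : PT (fun x : List (List ℕ) × (List ℕ × ℕ) => x.1.flatten.sum) := h1.comp PT.fst
  have h3 : PT (fun x : List (List ℕ) × (List ℕ × ℕ) => 2 * x.2.2) := PT.mulConst PT.snd.snd' 2
  exact PT.pair PT.snd.fst' (PT.cons ((h2.addConst 1).add h3)
    (PT.cons ((h2.addConst 2).add h3) (PT.const [])))

theorem pt_hindL : PT hindL :=
  PT.eq (pt_nuAlg.comp pt_privL) (PT.length PT.id)

theorem pt_h4 : PT h4 := by
  have h1 : PT (fun e : ℕ × ℕ => 2 * e.1) := PT.mulConst PT.fst 2
  have h2 : PT (fun e : ℕ × ℕ => 2 * e.2) := PT.mulConst PT.snd 2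
  exact PT.cons h1 (PT.cons h1.succ (PT.cons h2 (PT.cons h2.succ (PT.const []))))

theorem pt_sparseL : PT sparseL := by
  refine PT.all (f := fun F : List (ℕ × ℕ) => F)
    (p := fun F e => hindL (F.map h4 ++ [h4 e, h4 e])) PT.id ?_
  have h1 : PT (fun x : List (ℕ × ℕ) × (ℕ × ℕ) => x.1.map h4) :=
    PT.map (f := fun x : List (ℕ × ℕ) × (ℕ × ℕ) => x.1) (g := fun _ e => h4 e) PT.fst
      (pt_h4.comp PT.snd)
  have h2 : PT (fun x : List (ℕ × ℕ) × (ℕ × ℕ) => h4 x.2) := pt_h4.comp PT.snd
  exact pt_hindL.comp (PT.append h1 (PT.cons h2 (PT.cons h2 (PT.const []))))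

end Pool.Agent.Lib.MP_5d015b_lc
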