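import Pool.Agent.Lib.MP_5d015b_lc.QTA

/-!
# Globally rigid pinning, module QTB: a maximal sparse subset in polynomial time
-/

set_option autoImplicit false
set_option linter.unusedSectionVars false

namespace Pool.Agent.Lib.MP_5d015b_lc

open Pool.Agent.Lib.Parity Pool.Agent.Lib.PolyTime

theorem pt_baseL : PT baseL := by
  have h1 : PT (fun x : List (ℕ × ℕ) × (List (ℕ × ℕ) × (ℕ × ℕ)) => x.2.2 :: x.2.1) :=
    PT.cons PT.snd.snd' PT.snd.fst'
  refine PT.foldl_add (f := fun F : List (ℕ × ℕ) => F) (init := fun _ => ([] : List (ℕ × ℕ)))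
    (step := fun _ D e => if sparseL (e :: D) = true then e :: D else D) PT.id (PT.const _)
    (PT.cond (c := fun x : List (ℕ × ℕ) × (List (ℕ × ℕ) × (ℕ × ℕ)) => sparseL (x.2.2 :: x.2.1))
      (pt_sparseL.comp h1) h1 PT.snd.fst')
    (C := fun n => n + 1) (PB.id.add (PB.const 1)) ?_
  intro a s b hb
  have h2 := size_mem_lt hb
  split_ifs
  · rw [size_cons]; omega
  · omega

end Pool.Agent.Lib.MP_5d015b_lc
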