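import Pool.Agent.Lib.MP_5d015b_lc.QTA

/-!
# Globally rigid pinning, module QTC: bodies in polynomial time
-/

set_option autoImplicit false
set_option linter.unusedSectionVars false

namespace Pool.Agent.Lib.MP_5d015b_lc

open Pool.Agent.Lib.Parity Pool.Agent.Lib.PolyTime

theorem size_filter_le {β : Type} [Enc β] (p : β → Bool) (l : List β) :
    size (l.filter p) ≤ size l := by
  induction l with
  | nil => simp
  | cons b l ih =>
    rw [List.filter_cons]
    split_ifs
    · rw [size_cons, size_cons]; omega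
    · rw [size_cons]; omega

section
variable {α : Type} [Enc α]

/-- iteration of a step which filters the numbers below `f a` -/
theorem pt_iterFilter {f : α → ℕ} {init : α → List ℕ} {p : α → List ℕ → ℕ → Bool}
    (hf : PT f) (hi : PT init) (hp : PT (fun x : (α × List ℕ) × ℕ => p x.1.1 x.1.2 x.2)) :
    PT (fun a => (fun X => (List.range (f a)).filter fun v => p a X v)^[f a] (init a)) := by
  obtain ⟨q, hq⟩ := hi.size_le
  obtain ⟨r, hr⟩ := (PT.range hf).size_le
  refine PT.iterate (f := f) (init := init)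
    (step := fun a X => (List.range (f a)).filter fun v => p a X v) hf hi ?_
    (B := fun n => q.eval n + r.eval n) ((PB.poly q).add (PB.poly r)) ?_
  · exact PT.filter (f := fun x : α × List ℕ => List.range (f x.1))
      (p := fun x v => p x.1 x.2 v) (PT.range (hf.comp PT.fst)) hp
  · intro a i _
    cases i with
    | zero =>
      rw [Function.iterate_zero_apply]
      exact (hq a).trans (Nat.le_add_right _ _)
    | succ i =>
      rw [Function.iterate_succ_apply']
      exact ((size_filter_le _ _).trans (hr a)).trans (Nat.le_add_left _ _)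

theorem pt_tsetL' {f : α → ℕ} {g : α → List (ℕ × ℕ)} {h : α → ℕ × ℕ} (hf : PT f) (hg : PT g)
    (hh : PT h) : PT (fun a => tsetL (f a) (g a) (h a)) := by
  refine PT.filter (f := fun a => List.range (f a)) (p := fun a v => (g a).any fun q =>
    (decide (v = q.1) || decide (v = q.2)) &&
      sparseL (h a :: (g a).filter fun r => decide (r ≠ q))) (PT.range hf) ?_
  refine PT.any (f := fun x : α × ℕ => g x.1) (p := fun x q =>
    (decide (x.2 = q.1) || decide (x.2 = q.2)) &&
      sparseL (h x.1 :: (g x.1).filter fun r => decide (r ≠ q))) (hg.comp PT.fst) ?_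
  refine PT.and (PT.or (PT.eq PT.fst.snd' PT.snd.fst') (PT.eq PT.fst.snd' PT.snd.snd')) ?_
  have h1 : PT (fun y : (α × ℕ) × (ℕ × ℕ) => (g y.1.1).filter fun r => decide (r ≠ y.2)) := by
    refine PT.filter (f := fun y : (α × ℕ) × (ℕ × ℕ) => g y.1.1) (p := fun y r =>
      decide (r ≠ y.2)) (hg.comp PT.fst.fst') ?_
    have h2 : PT (fun z : ((α × ℕ) × (ℕ × ℕ)) × (ℕ × ℕ) => !(decide (z.2 = z.1.2))) :=
      PT.not (PT.eq PT.snd PT.fst.snd')
    exact h2.congr (fun z => by simp)
  exact pt_sparseL.comp (PT.cons (hh.comp PT.fst.fst') h1)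

theorem pt_bodyL' {f : α → ℕ} {g k : α → List (ℕ × ℕ)} {h : α → ℕ × ℕ} (hf : PT f) (hg : PT g)
    (hk : PT k) (hh : PT h) : PT (fun a => bodyL (f a) (g a) (k a) (h a)) := by
  refine pt_iterFilter (f := f) (init := fun a => [(h a).1, (h a).2]) (p := fun a X v =>
    X.contains v || (g a).any fun e => !((k a).contains e) &&
      (decide (2 ≤ ((tsetL (f a) (k a) e).filter fun u => X.contains u).length) &&
        (tsetL (f a) (k a) e).contains v)) hf
    (PT.cons hh.fst' (PT.cons hh.snd' (PT.const []))) ?_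
  refine PT.or (pt_contains' PT.fst.snd' PT.snd) ?_
  refine PT.any (f := fun x : (α × List ℕ) × ℕ => g x.1.1) (p := fun x e =>
    !((k x.1.1).contains e) &&
      (decide (2 ≤ ((tsetL (f x.1.1) (k x.1.1) e).filter fun u => x.1.2.contains u).length) &&
        (tsetL (f x.1.1) (k x.1.1) e).contains x.2)) (hg.comp PT.fst.fst') ?_
  have e1 : PT (fun y : ((α × List ℕ) × ℕ) × (ℕ × ℕ) => y.1.1.1) := PT.fst.fst'.fst'
  have h1 : PT (fun y : ((α × List ℕ) × ℕ) × (ℕ × ℕ) => tsetL (f y.1.1.1) (k y.1.1.1) y.2) :=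
    pt_tsetL' (hf.comp e1) (hk.comp e1) PT.snd
  refine PT.and (PT.not (pt_contains' (hk.comp e1) PT.snd)) (PT.and ?_
    (pt_contains' h1 PT.fst.snd'))
  refine PT.le (PT.const 2) (PT.length ?_)
  exact PT.filter (f := fun y : ((α × List ℕ) × ℕ) × (ℕ × ℕ) =>
    tsetL (f y.1.1.1) (k y.1.1.1) y.2) (p := fun y u => y.1.1.2.contains u) h1
    (pt_contains' PT.fst.fst'.fst'.snd' PT.snd)

end

theorem pt_tsetL : PT (fun a : ℕ × List (ℕ × ℕ) × (ℕ × ℕ) => tsetL a.1 a.2.1 a.2.2) :=
  pt_tsetL' PT.fst PT.snd.fst' PT.snd.snd'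

theorem pt_bodyL : PT (fun a : (ℕ × List (ℕ × ℕ) × List (ℕ × ℕ)) × (ℕ × ℕ) =>
    bodyL a.1.1 a.1.2.1 a.1.2.2 a.2) :=
  pt_bodyL' PT.fst.fst' PT.fst.snd'.fst' PT.fst.snd'.snd' PT.snd

end Pool.Agent.Lib.MP_5d015b_lc
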