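import Pool.Agent.Lib.MP_5d015b_lc.QTC

/-!
# Globally rigid pinning, module QTD: the matching number in polynomial time
-/

set_option autoImplicit false
set_option linter.unusedSectionVars false

namespace Pool.Agent.Lib.MP_5d015b_lc

open Pool.Agent.Lib.Parity Pool.Agent.Lib.PolyTime

section
variable {α : Type} [Enc α]

theorem pt_SL' {f h : α → ℕ} {g k : α → List (ℕ × ℕ)} (hf : PT f) (hg : PT g)
    (hk : PT k) (hh : PT h) : PT (fun a => SL (f a) (g a) (k a) (h a)) := by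
  refine PT.filter (f := fun a => List.range (k a).length) (p := fun a i =>
    (bodyL (f a) (g a) (k a) ((k a).getD i (0, 0))).contains (h a)) (PT.range (PT.length hk)) ?_
  exact pt_contains' (pt_bodyL' (hf.comp PT.fst) (hg.comp PT.fst) (hk.comp PT.fst)
    (ptb_getD (0, 0) (hk.comp PT.fst) PT.snd)) (hh.comp PT.fst)

theorem pt_maxUL' {f : α → ℕ} {g k : α → List (ℕ × ℕ)} {w : α → List ℕ} (hf : PT f) (hg : PT g)
    (hk : PT k) (hw : PT w) : PT (fun a => maxUL (f a) (g a) (k a) (w a)) := by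
  have h1 : PT (fun x : α × ℕ => SL (f x.1) (g x.1) (k x.1) x.2) :=
    pt_SL' (hf.comp PT.fst) (hg.comp PT.fst) (hk.comp PT.fst) PT.snd
  exact pt_nuAlg.comp (PT.map (f := w) (g := fun a v =>
    (SL (f a) (g a) (k a) v, SL (f a) (g a) (k a) v)) hw (PT.pair h1 h1))

end

theorem pt_maxUL : PT (fun a : (ℕ × List (ℕ × ℕ) × List (ℕ × ℕ)) × List ℕ =>
    maxUL a.1.1 a.1.2.1 a.1.2.2 a.2) :=
  pt_maxUL' PT.fst.fst' PT.fst.snd'.fst' PT.fst.snd'.snd' PT.snd

end Pool.Agent.Lib.MP_5d015b_lc
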