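import Pool.Agent.Lib.MP_5d015b_lc.QTC

/-!
# Globally rigid pinning, module QTE: neighbours and components in polynomial time
-/

set_option autoImplicit false
set_option linter.unusedSectionVars false

namespace Pool.Agent.Lib.MP_5d015b_lc

open Pool.Agent.Lib.Parity Pool.Agent.Lib.PolyTime

section
variable {α : Type} [Enc α]

theorem pt_nbL' {f : α → ℕ} {g : α → List (ℕ × ℕ)} {w : α → List ℕ} (hf : PT f) (hg : PT g)
    (hw : PT w) : PT (fun a => nbL (f a) (g a) (w a)) := by
  refine PT.filter (f := fun a => List.range (f a)) (p := fun a v => !((w a).contains v) &&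
    (w a).any fun u => (g a).contains (u, v) || (g a).contains (v, u)) (PT.range hf) ?_
  refine PT.and (PT.not (pt_contains' (hw.comp PT.fst) PT.snd)) ?_
  refine PT.any (f := fun x : α × ℕ => w x.1) (p := fun x u =>
    (g x.1).contains (u, x.2) || (g x.1).contains (x.2, u)) (hw.comp PT.fst) ?_
  have hg' : PT (fun y : (α × ℕ) × ℕ => g y.1.1) := hg.comp PT.fst.fst'
  exact PT.or (pt_contains' hg' (PT.pair PT.snd PT.fst.snd'))
    (pt_contains' hg' (PT.pair PT.fst.snd' PT.snd))

theorem pt_compL' {f h : α → ℕ} {g : α → List (ℕ × ℕ)} {w : α → List ℕ} (hf : PT f) (hg : PT g)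
    (hw : PT w) (hh : PT h) : PT (fun a => compL (f a) (g a) (w a) (h a)) := by
  refine pt_iterFilter (f := f) (init := fun a => [h a]) (p := fun a X v =>
    X.contains v || ((nbL (f a) (g a) X).contains v && !((w a).contains v))) hf
    (PT.cons hh (PT.const [])) ?_
  have e1 : PT (fun y : (α × List ℕ) × ℕ => y.1.1) := PT.fst.fst'
  exact PT.or (pt_contains' PT.fst.snd' PT.snd) (PT.and
    (pt_contains' (pt_nbL' (hf.comp e1) (hg.comp e1) PT.fst.snd') PT.snd)
    (PT.not (pt_contains' (hw.comp e1) PT.snd)))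

end

theorem pt_nbL : PT (fun a : (ℕ × List (ℕ × ℕ)) × List ℕ => nbL a.1.1 a.1.2 a.2) :=
  pt_nbL' PT.fst.fst' PT.fst.snd' PT.snd

theorem pt_compL : PT (fun a : (ℕ × List (ℕ × ℕ)) × (List ℕ × ℕ) =>
    compL a.1.1 a.1.2 a.2.1 a.2.2) :=
  pt_compL' PT.fst.fst' PT.fst.snd' PT.snd.fst' PT.snd.snd'

end Pool.Agent.Lib.MP_5d015b_lc
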