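import Pool.Agent.Lib.MP_5d015b_lc.QTD
import Pool.Agent.Lib.MP_5d015b_lc.QTE

/-!
# The forced pins are computed in polynomial time
-/

set_option autoImplicit false
set_option linter.unusedSectionVars false

namespace Pool.Agent.Lib.MP_5d015b_lc

open Pool.Agent.Lib.Parity Pool.Agent.Lib.PolyTime

section

variable {α : Type} [Enc α] {n x : α → ℕ} {E D : α → List (ℕ × ℕ)} {C P W Y : α → List ℕ}

theorem qtf_genA {F : ℕ → List (ℕ × ℕ) → List (ℕ × ℕ) → List ℕ → ℕ}
    (hF : PT (fun a : (ℕ × List (ℕ × ℕ) × List (ℕ × ℕ)) × List ℕ => F a.1.1 a.1.2.1 a.1.2.2 a.2))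
    (hn : PT n) (hE : PT E) (hD : PT D) (hW : PT W) :
    PT (fun a => F (n a) (E a) (D a) (W a)) :=
  PT.comp (g := fun a : (ℕ × List (ℕ × ℕ) × List (ℕ × ℕ)) × List ℕ =>
    F a.1.1 a.1.2.1 a.1.2.2 a.2) hF ((hn.pair (hE.pair hD)).pair hW)

theorem qtf_genB {F : ℕ → List (ℕ × ℕ) → List ℕ → List ℕ}
    (hF : PT (fun a : (ℕ × List (ℕ × ℕ)) × List ℕ => F a.1.1 a.1.2 a.2))
    (hn : PT n) (hE : PT E) (hY : PT Y) : PT (fun a => F (n a) (E a) (Y a)) :=
  PT.comp (g := fun a : (ℕ × List (ℕ × ℕ)) × List ℕ => F a.1.1 a.1.2 a.2) hF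
    ((hn.pair hE).pair hY)

theorem qtf_genC {F : ℕ → List (ℕ × ℕ) → List ℕ → ℕ → List ℕ}
    (hF : PT (fun a : (ℕ × List (ℕ × ℕ)) × (List ℕ × ℕ) => F a.1.1 a.1.2 a.2.1 a.2.2))
    (hn : PT n) (hE : PT E) (hC : PT C) (hx : PT x) :
    PT (fun a => F (n a) (E a) (C a) (x a)) :=
  PT.comp (g := fun a : (ℕ × List (ℕ × ℕ)) × (List ℕ × ℕ) => F a.1.1 a.1.2 a.2.1 a.2.2)
    hF ((hn.pair hE).pair (hC.pair hx))

theorem qtf_maxU (hn : PT n) (hE : PT E) (hD : PT D) (hW : PT W) :
    PT (fun a => maxUL (n a) (E a) (D a) (W a)) := qtf_genA (F := maxUL) pt_maxUL hn hE hD hW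

theorem qtf_nb (hn : PT n) (hE : PT E) (hY : PT Y) : PT (fun a => nbL (n a) (E a) (Y a)) :=
  qtf_genB (F := nbL) pt_nbL hn hE hY

theorem qtf_comp (hn : PT n) (hE : PT E) (hC : PT C) (hx : PT x) :
    PT (fun a => compL (n a) (E a) (C a) (x a)) := qtf_genC (F := compL) pt_compL hn hE hC hx

theorem qtf_ne {f g : α → ℕ} (hf : PT f) (hg : PT g) : PT (fun a => decide (f a ≠ g a)) :=
  (PT.not (PT.eq hf hg)).congr fun a => by rw [decide_not]

theorem qtf_dang (hn : PT n) (hE : PT E) (hD : PT D) (hP : PT P) (hY : PT Y) :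
    PT (fun a => dangL (n a) (E a) (D a) (P a) (Y a)) :=
  PT.and (PT.all (p := fun a v => !((P a).contains v)) hY
      (PT.not (PT.contains (hP.comp PT.fst) PT.snd)))
    (PT.and (PT.le (PT.length (qtf_nb hn hE hY)) (PT.const 2))
      (PT.eq (qtf_maxU hn hE hD hY) (PT.length hY)))

theorem qtf_cand (hn : PT n) (hE : PT E) (hD : PT D) (hP : PT P) :
    PT (fun a => candL (n a) (E a) (D a) (P a)) := by
  have h1 : PT (fun a => (List.range (n a)).flatMap fun u => (List.range (n a)).flatMap fun b =>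
      ((List.range (n a)).filter fun x => decide (x ≠ u) && decide (x ≠ b)).map fun x =>
        compL (n a) (E a) [u, b] x) := by
    refine PT.flatMap (g := fun a u => (List.range (n a)).flatMap fun b =>
      ((List.range (n a)).filter fun x => decide (x ≠ u) && decide (x ≠ b)).map fun x =>
        compL (n a) (E a) [u, b] x) (PT.range hn) ?_
    refine PT.flatMap (g := fun (z : α × ℕ) b =>
      ((List.range (n z.1)).filter fun x => decide (x ≠ z.2) && decide (x ≠ b)).map fun x =>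
        compL (n z.1) (E z.1) [z.2, b] x) (PT.range (hn.comp PT.fst)) ?_
    have h2 : PT (fun z : (α × ℕ) × ℕ => (List.range (n z.1.1)).filter fun x =>
        decide (x ≠ z.1.2) && decide (x ≠ z.2)) :=
      PT.filter (p := fun (z : (α × ℕ) × ℕ) x => decide (x ≠ z.1.2) && decide (x ≠ z.2))
        (PT.range (hn.comp (PT.fst.comp PT.fst)))
        (PT.and (qtf_ne PT.snd (PT.snd.comp (PT.fst.comp PT.fst)))
          (qtf_ne PT.snd (PT.snd.comp PT.fst)))
    refine PT.map (g := fun (z : (α × ℕ) × ℕ) x => compL (n z.1.1) (E z.1.1) [z.1.2, z.2] x) h2 ?_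
    exact qtf_comp (hn.comp (PT.fst.comp (PT.fst.comp PT.fst)))
      (hE.comp (PT.fst.comp (PT.fst.comp PT.fst)))
      (PT.cons (PT.snd.comp (PT.fst.comp PT.fst)) (PT.list1 (PT.snd.comp PT.fst))) PT.snd
  exact PT.filter (p := fun a Y => dangL (n a) (E a) (D a) (P a) Y) h1
    (qtf_dang (hn.comp PT.fst) (hE.comp PT.fst) (hD.comp PT.fst) (hP.comp PT.fst) PT.snd)

theorem qtf_pick {c : α → List (List ℕ)} (hc : PT c) : PT (fun a => pickL (c a)) := by
  refine PT.head? ?_
  refine PT.filter (p := fun a Y => (c a).all fun Z => decide (Y.length ≤ Z.length)) hc ?_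
  exact PT.all (p := fun (z : α × List ℕ) Z => decide (z.2.length ≤ Z.length)) (hc.comp PT.fst)
    (PT.le (PT.length (PT.snd.comp PT.fst)) (PT.length PT.snd))

theorem qtf_grd (hn : PT n) (hE : PT E) (hD : PT D) (hP : PT P) :
    PT (fun a => grdL (n a) (E a) (D a) (P a)) := by
  have h1 : PT (fun x : α × List ℕ => cell x.2 0 :: P x.1) :=
    PT.cons (PT.cell PT.snd (PT.const 0)) (hP.comp PT.fst)
  refine (PT.optCases (f := fun a => pickL (candL (n a) (E a) (D a) (P a))) (g := P)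
    (h := fun a Y => cell Y 0 :: P a) (qtf_pick (qtf_cand hn hE hD hP)) hP h1).congr fun a => ?_
  unfold grdL
  cases pickL (candL (n a) (E a) (D a) (P a)) <;> rfl

end

theorem compL_lt {n : ℕ} {E : List (ℕ × ℕ)} {C : List ℕ} {x : ℕ} (hx : x < n) :
    ∀ v ∈ compL n E C x, v < n := by
  intro v hv
  unfold compL at hv
  have key : ∀ k : ℕ, ∀ v ∈ (cstepL n E C)^[k] [x], v < n := by
    intro k
    cases k with
    | zero =>
      intro v hv
      rw [Function.iterate_zero, id, List.mem_singleton] at hv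
      rw [hv]
      exact hx
    | succ k =>
      intro v hv
      rw [Function.iterate_succ_apply'] at hv
      unfold cstepL at hv
      rw [List.mem_filter] at hv
      exact List.mem_range.1 hv.1
  exact key n v hv

theorem candL_lt {n : ℕ} {E D : List (ℕ × ℕ)} {P : List ℕ} {Y : List ℕ}
    (hY : Y ∈ candL n E D P) : ∀ v ∈ Y, v < n := by
  unfold candL at hY
  rw [List.mem_filter, List.mem_flatMap] at hY
  obtain ⟨⟨a, ha, hY⟩, -⟩ := hY
  rw [List.mem_flatMap] at hY
  obtain ⟨b, hb, hY⟩ := hY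
  rw [List.mem_map] at hY
  obtain ⟨x, hx, rfl⟩ := hY
  rw [List.mem_filter] at hx
  exact compL_lt (List.mem_range.1 hx.1)

theorem grdL_le {n : ℕ} {E D : List (ℕ × ℕ)} {P : List ℕ} (hP : ∀ v ∈ P, v ≤ n) :
    (∀ v ∈ grdL n E D P, v ≤ n) ∧ (grdL n E D P).length ≤ P.length + 1 := by
  unfold grdL
  cases h : pickL (candL n E D P) with
  | none => exact ⟨hP, Nat.le_succ _⟩
  | some Y =>
    refine ⟨?_, le_of_eq rfl⟩
    intro v hv
    rw [List.mem_cons] at hv
    rcases hv with rfl | hv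
    · have h1 : Y ∈ candL n E D P := by
        unfold pickL at h
        have h2 := List.mem_of_mem_head? (Option.mem_def.2 h)
        exact (List.mem_filter.1 h2).1
      unfold cell
      cases Y with
      | nil => exact Nat.zero_le _
      | cons y Y => exact (candL_lt h1 y (List.mem_cons_self ..)).le
    · exact hP v hv

theorem grdL_iter {n : ℕ} {E D : List (ℕ × ℕ)} (i : ℕ) :
    (∀ v ∈ (grdL n E D)^[i] [], v ≤ n) ∧ ((grdL n E D)^[i] []).length ≤ i := by
  induction i with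
  | zero => exact ⟨fun v hv => by simp at hv, le_rfl⟩
  | succ i ih =>
    rw [Function.iterate_succ_apply']
    have h := grdL_le (E := E) (D := D) ih.1
    exact ⟨h.1, h.2.trans (Nat.succ_le_succ ih.2)⟩

theorem pt_forcedL : PT (fun a : ℕ × List (ℕ × ℕ) × List (ℕ × ℕ) =>
    forcedL a.1 a.2.1 a.2.2) := by
  refine PT.iterate (f := fun a : ℕ × List (ℕ × ℕ) × List (ℕ × ℕ) => a.1) (init := fun _ => [])
    (step := fun a s => grdL a.1 a.2.1 a.2.2 s) PT.fst (PT.const []) ?_
    (B := fun m => m * (m + 1) + 1) ?_ ?_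
  · exact qtf_grd (PT.fst.comp PT.fst) (PT.fst.comp (PT.snd.comp PT.fst))
      (PT.snd.comp (PT.snd.comp PT.fst)) PT.snd
  · exact ((PB.id.mul (PB.id.add (PB.const 1))).add (PB.const 1))
  · intro a i hi
    have h := grdL_iter (n := a.1) (E := a.2.1) (D := a.2.2) i
    have hs : 2 * a.1 + 1 ≤ size a := by
      have h1 : size a = size a.1 + size a.2 + 1 := size_prod a
      have h2 : size a.1 = 2 * a.1 + 1 := by
        simp [size_nat]
      omega
    have h3 : size ((grdL a.1 a.2.1 a.2.2)^[i] []) ≤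
        ((grdL a.1 a.2.1 a.2.2)^[i] []).length * (size a + 1) + 1 := by
      refine size_list_le _ fun b hb => ?_
      have h4 := h.1 b hb
      have h5 : size b = 2 * b + 1 := by simp [size_nat]
      omega
    refine h3.trans ?_
    have h6 : ((grdL a.1 a.2.1 a.2.2)^[i] []).length ≤ size a := h.2.trans (by omega)
    have h7 := Nat.mul_le_mul_right (size a + 1) h6
    omega

theorem pt_largeL : PT (fun a : ℕ × List (ℕ × ℕ) × List (ℕ × ℕ) =>
    largeL a.1 a.2.1 a.2.2) := by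
  have h1 : PT (fun a : ℕ × List (ℕ × ℕ) × List (ℕ × ℕ) =>
      (List.range a.1).filter fun v => !((forcedL a.1 a.2.1 a.2.2).contains v)) :=
    PT.filter (p := fun (a : ℕ × List (ℕ × ℕ) × List (ℕ × ℕ)) v =>
      !((forcedL a.1 a.2.1 a.2.2).contains v)) (PT.range PT.fst)
      (PT.not (PT.contains (f := fun x : (ℕ × List (ℕ × ℕ) × List (ℕ × ℕ)) × ℕ =>
        forcedL x.1.1 x.1.2.1 x.1.2.2) (pt_forcedL.comp PT.fst) PT.snd))
  exact PT.sub PT.fst (qtf_maxU PT.fst (PT.fst.comp PT.snd) (PT.snd.comp PT.snd) h1)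

end Pool.Agent.Lib.MP_5d015b_lc
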