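import Pool.Agent.Lib.MP_5d015b_lc.QTF
import Pool.Agent.Lib.MP_5d015b_lc.QTB

/-!
# Global rigidity is decided in polynomial time
-/

set_option autoImplicit false
set_option linter.unusedSectionVars false

namespace Pool.Agent.Lib.MP_5d015b_lc

open Pool.Agent.Lib.Parity Pool.Agent.Lib.PolyTime

section

variable {α : Type} [Enc α] {n x : α → ℕ} {E D : α → List (ℕ × ℕ)}

theorem qtg_conn3 (hn : PT n) (hE : PT E) : PT (fun a => conn3L (n a) (E a)) := by
  refine PT.and (PT.le (PT.const 4) hn) ?_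
  refine PT.all (p := fun a u => (List.range (n a)).all fun b => (List.range (n a)).all fun x =>
    (decide (x = u) || decide (x = b)) || (List.range (n a)).all fun v =>
      (decide (v = u) || decide (v = b)) || (compL (n a) (E a) [u, b] x).contains v)
    (PT.range hn) ?_
  refine PT.all (p := fun (z : α × ℕ) b => (List.range (n z.1)).all fun x =>
    (decide (x = z.2) || decide (x = b)) || (List.range (n z.1)).all fun v =>
      (decide (v = z.2) || decide (v = b)) || (compL (n z.1) (E z.1) [z.2, b] x).contains v)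
    (PT.range (hn.comp PT.fst)) ?_
  refine PT.all (p := fun (z : (α × ℕ) × ℕ) x =>
    (decide (x = z.1.2) || decide (x = z.2)) || (List.range (n z.1.1)).all fun v =>
      (decide (v = z.1.2) || decide (v = z.2)) ||
        (compL (n z.1.1) (E z.1.1) [z.1.2, z.2] x).contains v)
    (PT.range (hn.comp (PT.fst.comp PT.fst))) ?_
  refine PT.or (PT.or (PT.eq PT.snd (PT.snd.comp (PT.fst.comp PT.fst)))
    (PT.eq PT.snd (PT.snd.comp PT.fst))) ?_
  refine PT.all (p := fun (z : ((α × ℕ) × ℕ) × ℕ) v =>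
      (decide (v = z.1.1.2) || decide (v = z.1.2)) ||
        (compL (n z.1.1.1) (E z.1.1.1) [z.1.1.2, z.1.2] z.2).contains v)
    (PT.range (hn.comp (PT.fst.comp (PT.fst.comp PT.fst)))) ?_
  refine PT.or (PT.or (PT.eq PT.snd (PT.snd.comp (PT.fst.comp (PT.fst.comp PT.fst))))
    (PT.eq PT.snd (PT.snd.comp (PT.fst.comp PT.fst)))) ?_
  refine PT.contains (f := fun z : (((α × ℕ) × ℕ) × ℕ) × ℕ =>
    compL (n z.1.1.1.1) (E z.1.1.1.1) [z.1.1.1.2, z.1.1.2] z.1.2) ?_ PT.snd
  exact qtf_comp (hn.comp (PT.fst.comp (PT.fst.comp (PT.fst.comp PT.fst))))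
    (hE.comp (PT.fst.comp (PT.fst.comp (PT.fst.comp PT.fst))))
    (PT.cons (PT.snd.comp (PT.fst.comp (PT.fst.comp PT.fst)))
      (PT.list1 (PT.snd.comp (PT.fst.comp PT.fst)))) (PT.snd.comp PT.fst)

theorem qtg_ne {f g : α → ℕ × ℕ} (hf : PT f) (hg : PT g) :
    PT (fun a => decide (f a ≠ g a)) :=
  (PT.not (PT.eq hf hg)).congr fun a => by rw [decide_not]

theorem qtg_genD {F : List (ℕ × ℕ) → List (ℕ × ℕ)} (hF : PT F) (hE : PT E) :
    PT (fun a => F (E a)) := PT.comp (g := F) hF hE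

theorem qtg_red (hn : PT n) (hE : PT E) : PT (fun a => redL (n a) (E a)) := by
  refine PT.all (p := fun a e => decide ((baseL ((E a).filter fun g => decide (g ≠ e))).length + 3
    = 2 * n a)) hE ?_
  refine PT.eq (PT.addConst (PT.length ?_) 3) (PT.mulConst (hn.comp PT.fst) 2)
  refine qtg_genD (F := baseL) (E := fun z : α × (ℕ × ℕ) =>
    (E z.1).filter fun g => decide (g ≠ z.2)) pt_baseL ?_
  exact PT.filter (p := fun (z : α × (ℕ × ℕ)) g => decide (g ≠ z.2)) (hE.comp PT.fst)
    (qtg_ne PT.snd (PT.snd.comp PT.fst))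

theorem qtg_small (hn : PT n) (hE : PT E) : PT (fun a => decide (n a ≤ 3) &&
    (List.range (n a)).all fun u => (List.range (n a)).all fun v =>
      decide (v ≤ u) || (E a).contains (u, v)) := by
  refine PT.and (PT.le hn (PT.const 3)) ?_
  refine PT.all (p := fun a u => (List.range (n a)).all fun v =>
      decide (v ≤ u) || (E a).contains (u, v)) (PT.range hn) ?_
  refine PT.all (p := fun (z : α × ℕ) v => decide (v ≤ z.2) || (E z.1).contains (z.2, v))
    (PT.range (hn.comp PT.fst)) ?_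
  exact PT.or (PT.le PT.snd (PT.snd.comp PT.fst))
    (pt_contains' (f := fun z : (α × ℕ) × ℕ => E z.1.1) (g := fun z => (z.1.2, z.2))
      (hE.comp (PT.fst.comp PT.fst)) (PT.pair (PT.snd.comp PT.fst) PT.snd))

end

theorem pt_grL : PT (fun a : ℕ × List (ℕ × ℕ) => grL a.1 a.2) :=
  PT.or (qtg_small (n := fun a : ℕ × List (ℕ × ℕ) => a.1) (E := fun a => a.2) PT.fst PT.snd)
    (PT.and (qtg_conn3 (n := fun a : ℕ × List (ℕ × ℕ) => a.1) (E := fun a => a.2) PT.fst PT.snd)
      (qtg_red (n := fun a : ℕ × List (ℕ × ℕ) => a.1) (E := fun a => a.2) PT.fst PT.snd))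

end Pool.Agent.Lib.MP_5d015b_lc
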