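import Pool.Agent.Lib.MP_5d015b_lc.QTG

/-!
# The minimum number of pins is computed in polynomial time
-/

set_option autoImplicit false
set_option linter.unusedSectionVars false

namespace Pool.Agent.Lib.MP_5d015b_lc

open Pool.Agent.Lib.Parity Pool.Agent.Lib.PolyTime

section

variable {α : Type} [Enc α] {n u v w : α → ℕ} {E D : α → List (ℕ × ℕ)}

theorem qth_genE {F : ℕ → List (ℕ × ℕ) → Bool} (hF : PT (fun a : ℕ × List (ℕ × ℕ) => F a.1 a.2))
    (hn : PT n) (hE : PT E) : PT (fun a => F (n a) (E a)) :=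
  PT.comp (g := fun a : ℕ × List (ℕ × ℕ) => F a.1 a.2) hF (hn.pair hE)

theorem qth_genF {F : ℕ → List (ℕ × ℕ) → List (ℕ × ℕ)}
    (hF : PT (fun a : ℕ × List (ℕ × ℕ) => F a.1 a.2)) (hn : PT n) (hE : PT E) :
    PT (fun a => F (n a) (E a)) :=
  PT.comp (g := fun a : ℕ × List (ℕ × ℕ) => F a.1 a.2) hF (hn.pair hE)

theorem qth_genG {F : ℕ → List (ℕ × ℕ) → List (ℕ × ℕ) → ℕ}
    (hF : PT (fun a : ℕ × List (ℕ × ℕ) × List (ℕ × ℕ) => F a.1 a.2.1 a.2.2)) (hn : PT n)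
    (hE : PT E) (hD : PT D) : PT (fun a => F (n a) (E a) (D a)) :=
  PT.comp (g := fun a : ℕ × List (ℕ × ℕ) × List (ℕ × ℕ) => F a.1 a.2.1 a.2.2) hF
    (hn.pair (hE.pair hD))

theorem qth_gr (hn : PT n) (hE : PT E) : PT (fun a => grL (n a) (E a)) :=
  qth_genE (F := grL) pt_grL hn hE

theorem qth_edges (hn : PT n) (hE : PT E) : PT (fun a => edgesL (n a) (E a)) :=
  qth_genF (F := edgesL) pt_edgesL hn hE

theorem qth_pin2 (hn : PT n) (hE : PT E) : PT (fun a => pin2 (n a) (E a)) := by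
  refine PT.any (p := fun a u => (List.range (n a)).any fun v =>
    decide (u < v) && grL (n a) (edgesL (n a) ((u, v) :: E a))) (PT.range hn) ?_
  refine PT.any (p := fun (z : α × ℕ) v =>
    decide (z.2 < v) && grL (n z.1) (edgesL (n z.1) ((z.2, v) :: E z.1)))
    (PT.range (hn.comp PT.fst)) ?_
  refine PT.and (PT.lt (PT.snd.comp PT.fst) PT.snd) ?_
  exact qth_gr (hn.comp (PT.fst.comp PT.fst)) (qth_edges (hn.comp (PT.fst.comp PT.fst))
    (PT.cons (PT.pair (PT.snd.comp PT.fst) PT.snd) (hE.comp (PT.fst.comp PT.fst))))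

theorem qth_pin3 (hn : PT n) (hE : PT E) : PT (fun a => pin3 (n a) (E a)) := by
  refine PT.any (p := fun a u => (List.range (n a)).any fun v => (List.range (n a)).any fun w =>
    decide (u < v) && (decide (v < w) &&
      grL (n a) (edgesL (n a) ((u, v) :: (u, w) :: (v, w) :: E a)))) (PT.range hn) ?_
  refine PT.any (p := fun (z : α × ℕ) v => (List.range (n z.1)).any fun w =>
    decide (z.2 < v) && (decide (v < w) &&
      grL (n z.1) (edgesL (n z.1) ((z.2, v) :: (z.2, w) :: (v, w) :: E z.1))))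
    (PT.range (hn.comp PT.fst)) ?_
  refine PT.any (p := fun (z : (α × ℕ) × ℕ) w =>
    decide (z.1.2 < z.2) && (decide (z.2 < w) && grL (n z.1.1) (edgesL (n z.1.1)
      ((z.1.2, z.2) :: (z.1.2, w) :: (z.2, w) :: E z.1.1))))
    (PT.range (hn.comp (PT.fst.comp PT.fst))) ?_
  have h1 : PT (fun z : ((α × ℕ) × ℕ) × ℕ => z.1.1.2) := PT.snd.comp (PT.fst.comp PT.fst)
  have h2 : PT (fun z : ((α × ℕ) × ℕ) × ℕ => z.1.2) := PT.snd.comp PT.fst
  have h3 : PT (fun z : ((α × ℕ) × ℕ) × ℕ => z.2) := PT.snd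
  have h4 : PT (fun z : ((α × ℕ) × ℕ) × ℕ => n z.1.1.1) :=
    hn.comp (PT.fst.comp (PT.fst.comp PT.fst))
  have h5 : PT (fun z : ((α × ℕ) × ℕ) × ℕ => E z.1.1.1) :=
    hE.comp (PT.fst.comp (PT.fst.comp PT.fst))
  refine PT.and (PT.lt h1 h2) (PT.and (PT.lt h2 h3) ?_)
  exact qth_gr h4 (qth_edges h4 (PT.cons (PT.pair h1 h2) (PT.cons (PT.pair h1 h3)
    (PT.cons (PT.pair h2 h3) h5))))

theorem qth_max {f g : α → ℕ} (hf : PT f) (hg : PT g) : PT (fun a => max (f a) (g a)) :=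
  (PT.ite (PT.le hf hg) hg hf).congr fun a => by rw [Nat.max_def]

end

theorem pt_minPin : PT minPin := by
  have hn : PT (fun G : ℕ × List (ℕ × ℕ) => G.1) := PT.fst
  have hl : PT (fun G : ℕ × List (ℕ × ℕ) => G.2) := PT.snd
  have he : PT (fun G : ℕ × List (ℕ × ℕ) => edgesL G.1 G.2) := qth_edges hn hl
  have hb : PT (fun G : ℕ × List (ℕ × ℕ) => baseL (edgesL G.1 G.2)) :=
    qtg_genD (F := baseL) pt_baseL he
  have hL : PT (fun G : ℕ × List (ℕ × ℕ) => largeL G.1 (edgesL G.1 G.2)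
      (baseL (edgesL G.1 G.2))) := qth_genG (F := largeL) pt_largeL hn he hb
  have h1 := PT.cond (qth_gr hn he) (PT.const 0) (PT.cond (qth_pin2 hn hl) (PT.const 2)
    (PT.cond (qth_pin3 hn hl) (PT.const 3) (qth_max (PT.const 4) hL)))
  exact h1

end Pool.Agent.Lib.MP_5d015b_lc
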