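import Pool.Agent.Lib.MP_5d015b_lc.FinDefs
import Pool.Agent.Lib.MP_5d015b_lc.QTB
import Pool.Agent.Lib.MP_5d015b_lc.QTD
import Pool.Agent.Lib.MP_5d015b_lc.QTF
import Pool.Agent.Lib.MP_5d015b_lc.QTG
import Pool.Agent.Lib.PolyTime.More

/-!
# Globally rigid pinning, module QTI: an optimal set of pins in polynomial time
-/

set_option autoImplicit false
set_option linter.unusedSectionVars false

namespace Pool.Agent.Lib.MP_5d015b_lc

open Pool.Agent.Lib.Parity Pool.Agent.Lib.PolyTime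

section
variable {α β : Type} [Enc α] [Enc β]

theorem qti_take {f : α → List β} {k : α → ℕ} (hf : PT f) (hk : PT k) :
    PT (fun a => (f a).take (k a)) := by
  refine (PT.reverse (PT.drop (PT.sub (PT.length hf) hk) (PT.reverse hf))).congr fun a => ?_
  rw [← List.reverse_take, List.reverse_reverse]

theorem qti_max {f g : α → ℕ} (hf : PT f) (hg : PT g) : PT (fun a => max (f a) (g a)) := by
  refine (PT.ite (c := fun a => f a ≤ g a) (PT.le hf hg) hg hf).congr fun a => ?_
  split_ifs with h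
  · exact (max_eq_right h).symm
  · exact (max_eq_left (not_le.1 h).le).symm

theorem qti_erase {f : α → List ℕ} {k : α → ℕ} (hf : PT f) (hk : PT k) :
    PT (fun a => (f a).filter fun u => decide (u ≠ k a)) := by
  have h2 : PT (fun z : α × ℕ => !(decide (z.2 = k z.1))) :=
    PT.not (PT.eq PT.snd (hk.comp PT.fst))
  refine (PT.filter (f := f) (p := fun a u => !(decide (u = k a))) hf h2).congr fun a => ?_
  refine List.filter_congr fun u _ => ?_
  by_cases h : u = k a <;> simp [h]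

theorem pt_shrinkL' {f : α → ℕ} {g k : α → List (ℕ × ℕ)} {w : α → List ℕ} (hf : PT f) (hg : PT g)
    (hk : PT k) (hw : PT w) : PT (fun a => shrinkL (f a) (g a) (k a) (w a)) := by
  have e1 : PT (fun x : α × (List ℕ × ℕ) => x.2.1.filter fun u => decide (u ≠ x.2.2)) :=
    qti_erase PT.snd.fst' PT.snd.snd'
  have h1 : PT (fun x : α × (List ℕ × ℕ) => maxUL (f x.1) (g x.1) (k x.1)
      (x.2.1.filter fun u => decide (u ≠ x.2.2))) :=
    pt_maxUL' (hf.comp PT.fst) (hg.comp PT.fst) (hk.comp PT.fst) e1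
  have h2 : PT (fun x : α × (List ℕ × ℕ) => maxUL (f x.1) (g x.1) (k x.1) (w x.1)) :=
    (pt_maxUL' hf hg hk hw).comp PT.fst
  refine PT.foldl_add (f := w) (init := w)
    (step := fun a X v => if maxUL (f a) (g a) (k a) (X.filter fun u => decide (u ≠ v)) =
      maxUL (f a) (g a) (k a) (w a) then X.filter fun u => decide (u ≠ v) else X) hw hw
    (PT.ite (c := fun x : α × (List ℕ × ℕ) => maxUL (f x.1) (g x.1) (k x.1)
      (x.2.1.filter fun u => decide (u ≠ x.2.2)) = maxUL (f x.1) (g x.1) (k x.1) (w x.1))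
      (PT.eq h1 h2) e1 PT.snd.fst')
    (C := fun _ => 0) (PB.const 0) ?_
  intro a s b _
  split_ifs
  · exact size_filter_le _ _
  · exact le_rfl

theorem pt_complL' {f : α → ℕ} {w : α → List ℕ} (hf : PT f) (hw : PT w) :
    PT (fun a => complL (f a) (w a)) :=
  PT.filter (f := fun a => List.range (f a)) (p := fun a v => !((w a).contains v)) (PT.range hf)
    (PT.not (pt_contains' (hw.comp PT.fst) PT.snd))

theorem pt_pinLargeL' {f : α → ℕ} {g k : α → List (ℕ × ℕ)} (hf : PT f) (hg : PT g)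
    (hk : PT k) : PT (fun a => pinLargeL (f a) (g a) (k a)) := by
  have h0 : PT (fun a => (f a, g a, k a)) := PT.pair hf (PT.pair hg hk)
  have h1 : PT (fun a => forcedL (f a) (g a) (k a)) :=
    PT.comp (g := fun a : ℕ × List (ℕ × ℕ) × List (ℕ × ℕ) => forcedL a.1 a.2.1 a.2.2)
      (f := fun a => (f a, g a, k a)) pt_forcedL h0
  have h2 : PT (fun a => complL (f a) (shrinkL (f a) (g a) (k a)
      (complL (f a) (forcedL (f a) (g a) (k a))))) :=
    pt_complL' hf (pt_shrinkL' hf hg hk (pt_complL' hf h1))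
  exact qti_take (PT.append h2 (pt_complL' hf h2)) (qti_max (PT.const 4) (PT.length h2))

theorem pt_grL' {f : α → ℕ} {g : α → List (ℕ × ℕ)} (hf : PT f) (hg : PT g) :
    PT (fun a => grL (f a) (g a)) := pt_grL.comp (PT.pair hf hg)

theorem pt_find2' {f : α → ℕ} {g : α → List (ℕ × ℕ)} (hf : PT f) (hg : PT g) :
    PT (fun a => find2 (f a) (g a)) := by
  refine PT.flatMap (f := fun a => List.range (f a)) (g := fun a u =>
    ((List.range (f a)).filter fun v => decide (u < v) &&
      grL (f a) (edgesL (f a) ((u, v) :: g a))).map fun v => [u, v]) (PT.range hf) ?_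
  refine PT.map (f := fun x : α × ℕ => (List.range (f x.1)).filter fun v => decide (x.2 < v) &&
      grL (f x.1) (edgesL (f x.1) ((x.2, v) :: g x.1)))
    (g := fun x v => [x.2, v]) ?_ (PT.cons PT.fst.snd' (PT.cons PT.snd (PT.const [])))
  refine PT.filter (f := fun x : α × ℕ => List.range (f x.1)) (p := fun x v =>
    decide (x.2 < v) && grL (f x.1) (edgesL (f x.1) ((x.2, v) :: g x.1)))
    (PT.range (hf.comp PT.fst)) ?_
  have hf' : PT (fun y : (α × ℕ) × ℕ => f y.1.1) := hf.comp PT.fst.fst'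
  have hg' : PT (fun y : (α × ℕ) × ℕ => g y.1.1) := hg.comp PT.fst.fst'
  exact PT.and (PT.lt PT.fst.snd' PT.snd) (pt_grL' hf' (pt_edgesL' hf'
    (PT.cons (PT.pair PT.fst.snd' PT.snd) hg')))

theorem pt_find3' {f : α → ℕ} {g : α → List (ℕ × ℕ)} (hf : PT f) (hg : PT g) :
    PT (fun a => find3 (f a) (g a)) := by
  refine PT.flatMap (f := fun a => List.range (f a)) (g := fun a u =>
    (List.range (f a)).flatMap fun v => ((List.range (f a)).filter fun w =>
      decide (u < v) && (decide (v < w) &&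
        grL (f a) (edgesL (f a) ((u, v) :: (u, w) :: (v, w) :: g a)))).map fun w => [u, v, w])
    (PT.range hf) ?_
  refine PT.flatMap (f := fun x : α × ℕ => List.range (f x.1)) (g := fun x v =>
    ((List.range (f x.1)).filter fun w =>
      decide (x.2 < v) && (decide (v < w) &&
        grL (f x.1) (edgesL (f x.1) ((x.2, v) :: (x.2, w) :: (v, w) :: g x.1)))).map
          fun w => [x.2, v, w]) (PT.range (hf.comp PT.fst)) ?_
  refine PT.map (f := fun y : (α × ℕ) × ℕ => (List.range (f y.1.1)).filter fun w =>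
      decide (y.1.2 < y.2) && (decide (y.2 < w) &&
        grL (f y.1.1) (edgesL (f y.1.1) ((y.1.2, y.2) :: (y.1.2, w) :: (y.2, w) :: g y.1.1))))
    (g := fun y w => [y.1.2, y.2, w]) ?_
    (PT.cons PT.fst.fst'.snd' (PT.cons PT.fst.snd' (PT.cons PT.snd (PT.const []))))
  refine PT.filter (f := fun y : (α × ℕ) × ℕ => List.range (f y.1.1)) (p := fun y w =>
      decide (y.1.2 < y.2) && (decide (y.2 < w) &&
        grL (f y.1.1) (edgesL (f y.1.1) ((y.1.2, y.2) :: (y.1.2, w) :: (y.2, w) :: g y.1.1))))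
    (PT.range (hf.comp PT.fst.fst')) ?_
  have hf' : PT (fun z : ((α × ℕ) × ℕ) × ℕ => f z.1.1.1) := hf.comp PT.fst.fst'.fst'
  have hg' : PT (fun z : ((α × ℕ) × ℕ) × ℕ => g z.1.1.1) := hg.comp PT.fst.fst'.fst'
  have hu : PT (fun z : ((α × ℕ) × ℕ) × ℕ => z.1.1.2) := PT.fst.fst'.snd'
  have hv : PT (fun z : ((α × ℕ) × ℕ) × ℕ => z.1.2) := PT.fst.snd'
  have hw : PT (fun z : ((α × ℕ) × ℕ) × ℕ => z.2) := PT.snd
  exact PT.and (PT.lt hu hv) (PT.and (PT.lt hv hw) (pt_grL' hf' (pt_edgesL' hf'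
    (PT.cons (PT.pair hu hv) (PT.cons (PT.pair hu hw) (PT.cons (PT.pair hv hw) hg'))))))

end

theorem pt_pinSet : PT pinSet := by
  have h1 : PT (fun G : ℕ × List (ℕ × ℕ) => edgesL G.1 G.2) := pt_edgesL' PT.fst PT.snd
  have h2 : PT (fun G : ℕ × List (ℕ × ℕ) => pinLargeL G.1 (edgesL G.1 G.2)
      (baseL (edgesL G.1 G.2))) := pt_pinLargeL' PT.fst h1 (pt_baseL.comp h1)
  have h3 : PT (fun G : ℕ × List (ℕ × ℕ) => find2 G.1 G.2 ++ find3 G.1 G.2) :=
    PT.append (pt_find2' PT.fst PT.snd) (pt_find3' PT.fst PT.snd)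
  have h4 : PT (fun G : ℕ × List (ℕ × ℕ) => (find2 G.1 G.2 ++ find3 G.1 G.2).headD
      (pinLargeL G.1 (edgesL G.1 G.2) (baseL (edgesL G.1 G.2)))) := by
    refine (PT.getD (PT.append h3 (PT.cons h2 (PT.const []))) 0 []).congr fun G => ?_
    cases find2 G.1 G.2 ++ find3 G.1 G.2 with
    | nil => rfl
    | cons b l => rfl
  exact PT.ite (c := fun G : ℕ × List (ℕ × ℕ) => grL G.1 (edgesL G.1 G.2) = true)
    ((pt_grL' PT.fst h1).congr fun G => by simp) (PT.const []) h4

end Pool.Agent.Lib.MP_5d015b_lc
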