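import Mathlib

/-!
# Globally rigid pinning: the definitions used in the statement of the result
-/

set_option autoImplicit false
set_option linter.unusedSectionVars false

namespace Pool.Agent.Lib.MP_5d015b_lc

/-- The graph on `0, …, n-1` whose edges are the pairs of different vertices in the list. -/
def graphOf (n : ℕ) (el : List (ℕ × ℕ)) : SimpleGraph (Fin n) :=
  SimpleGraph.fromRel fun u v => ((u : ℕ), (v : ℕ)) ∈ el

/-- The graph `G + K(P)`. -/
def addClique {V : Type} (G : SimpleGraph V) (P : Finset V) : SimpleGraph V :=
  G ⊔ SimpleGraph.fromRel fun u v => u ∈ P ∧ v ∈ P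

/-- `m` is an infinitesimal motion of the framework `(G, p)` in the plane: the velocities of the
ends of every edge `uv` satisfy `⟨p u - p v, m u - m v⟩ = 0`. -/
def Motion {V : Type} (G : SimpleGraph V) (p m : V → Fin 2 → ℝ) : Prop :=
  ∀ u v, G.Adj u v → (p u 0 - p v 0) * (m u 0 - m v 0) + (p u 1 - p v 1) * (m u 1 - m v 1) = 0

/-- `G` is rigid in the plane: it has an infinitesimally rigid realization, that is, a realization
`p` such that every infinitesimal motion is a translation plus a rotation. -/
def RigidPlane {V : Type} (G : SimpleGraph V) : Prop :=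
  ∃ p : V → Fin 2 → ℝ, ∀ m : V → Fin 2 → ℝ, Motion G p m →
    ∃ a b c : ℝ, ∀ v, m v 0 = a - c * p v 1 ∧ m v 1 = b + c * p v 0

/-- `G` is redundantly rigid: rigid, and rigid after deleting any one edge. -/
def RedundantlyRigid {V : Type} (G : SimpleGraph V) : Prop :=
  RigidPlane G ∧ ∀ e ∈ G.edgeSet, RigidPlane (G.deleteEdges {e})

/-- `G` is 3-connected: at least four vertices, and connected after deleting any at most two
vertices. -/
def ThreeConnected {V : Type} [Fintype V] (G : SimpleGraph V) : Prop :=
  4 ≤ Fintype.card V ∧ ∀ C : Finset V, C.card ≤ 2 → (G.induce {v | v ∉ C}).Connected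

/-- `G` is globally rigid in the plane, in the form of the theorem of Connelly and of Jackson and
Jordán: complete with at most three vertices, or 3-connected and redundantly rigid. -/
def GloballyRigidPlane {V : Type} [Fintype V] (G : SimpleGraph V) : Prop :=
  (Fintype.card V ≤ 3 ∧ G = ⊤) ∨ (ThreeConnected G ∧ RedundantlyRigid G)

end Pool.Agent.Lib.MP_5d015b_lc
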